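import Pool.Agent.Lib.MP_22c5db_an.H2.Basic

/-! The amplification. -/

open scoped InnerProductSpace ComplexConjugate
open Finset

noncomputable section

namespace Pool.Agent.Kad.H2

universe u

set_option linter.unusedSectionVars false

variable {H : Type u} [NormedAddCommGroup H] [InnerProductSpace ℂ H] [CompleteSpace H]
  {M : VonNeumannAlgebra H} {τ : Op H →ₗ[ℝ] ℝ} {φ : Bil H} {C : ℝ}
  {ι : Type} [Fintype ι] [DecidableEq ι] {e : ι → ι → Op H}
  {K : Type u} [NormedAddCommGroup K] [InnerProductSpace ℂ K] [CompleteSpace K]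
  {A : Type} [Fintype A] [DecidableEq A] {J : A → H →L[ℂ] K} {N : VonNeumannAlgebra K}

theorem EE_mu (hJ : Frame M 1 J N) (he : MU e 1) : MU (EE J e) 1 := by
  refine ⟨fun x y y' x' => ?_, fun x y => ?_, ?_⟩
  · simp only [EE]
    rw [CaseC.el_mul hJ, mul_one, he.mul]
    obtain ⟨y1, y2⟩ := y
    obtain ⟨y1', y2'⟩ := y'
    by_cases e1 : y1 = y1' <;> by_cases e2 : y2 = y2' <;> simp [e1, e2]
  · simp only [EE]
    rw [CaseC.el_star, he.adj]
  · rw [← CaseC.sum_el hJ, Fintype.sum_prod_type]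
    refine sum_congr rfl fun a _ => ?_
    simp only [EE]
    rw [← map_sum, he.sum]

theorem EE_mem (hJ : Frame M 1 J N) (heM : ∀ i j, e i j ∈ M) (p q : A × ι) : EE J e p q ∈ N := by
  exact CaseC.el_mem hJ _ _ (heM _ _)

theorem FA_EE (he : MU e 1) (α γ : A) : FA (EE J e) α γ = CaseC.el J α γ 1 := by
  simp only [FA, EE]
  rw [← map_sum, he.sum]

theorem amp_mem (hJ : Frame M 1 J N) {x : Op H} (hx : x ∈ M) : amp J x ∈ N := by
  exact sum_mem fun a _ => CaseC.el_mem hJ a a hx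

theorem amp_mul (hJ : Frame M 1 J N) (x y : Op H) : amp J (x * y) = amp J x * amp J y := by
  simp only [amp]
  rw [sum_mul_sum]
  refine sum_congr rfl fun a _ => ?_
  simp only [CaseC.el_mul hJ, mul_one, sum_ite_eq, mem_univ, if_true]

theorem amp_star (x : Op H) : amp J (star x) = star (amp J x) := by
  simp only [amp, star_sum, CaseC.el_star]

theorem amp_one (hJ : Frame M 1 J N) : amp J (1 : Op H) = 1 := by
  exact CaseC.sum_el hJ

theorem amp_unitary (hJ : Frame M 1 J N) {u : Op H} (hu : u ∈ unitary (Op H)) :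
    amp J u ∈ unitary (Op K) := by
  rw [Unitary.mem_iff, ← amp_star, ← amp_mul hJ, ← amp_mul hJ, hu.1, hu.2, amp_one hJ]
  exact ⟨rfl, rfl⟩

theorem norm_amp (hJ : Frame M 1 J N) (x : Op H) : ‖amp J x‖ ≤ ‖x‖ := by
  have hM' : mat J (fun p q : A => if p = q then x else 0) = amp J x := by
    rw [amp, CaseC.mat_eq]
    refine sum_congr rfl fun p _ => ?_
    rw [sum_eq_single p]
    · simp
    · intro q _ hq
      simp [hq.symm]
    · simp
  rw [← hM']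
  exact hJ.norm_mat (norm_nonneg x) (CaseC.mb_diag x)

theorem amp_comm (hJ : Frame M 1 J N) (he : MU e 1) (x : Op H) (α γ : A) :
    amp J x * FA (EE J e) α γ = FA (EE J e) α γ * amp J x := by
  rw [FA_EE he, amp, sum_mul, mul_sum]
  simp only [CaseC.el_mul hJ, mul_one, one_mul, sum_ite_eq, sum_ite_eq', mem_univ, if_true]

theorem amp_J (hJ : Frame M 1 J N) (x : Op H) (γ : A) (ξ : H) : amp J x (J γ ξ) = J γ (x ξ) := by
  have h := (FrameAux.pre hJ).adj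
  simp only [amp, _root_.sum_apply, CaseC.el, LinearMap.coe_mk, AddHom.coe_mk,
    ContinuousLinearMap.comp_apply, h]
  rw [sum_eq_single γ (fun c _ hc => by simp [hc]) (by simp)]
  simp

theorem FA_J (hJ : Frame M 1 J N) (he : MU e 1) (γ α : A) (ξ : H) :
    FA (EE J e) γ α (J α ξ) = J γ ξ := by
  have h := (FrameAux.pre hJ).adj
  rw [FA_EE he]
  simp [CaseC.el, h]

theorem norm_J (hJ : Frame M 1 J N) (γ : A) (ξ : H) : ‖J γ ξ‖ = ‖ξ‖ := by
  have h := (FrameAux.pre hJ).adj γ γ ξ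
  have e : ⟪J γ ξ, J γ ξ⟫_ℂ = ⟪ξ, ξ⟫_ℂ := by
    rw [← ContinuousLinearMap.adjoint_inner_left, h]
    simp
  rw [inner_self_eq_norm_sq_to_K, inner_self_eq_norm_sq_to_K] at e
  have e2 : ‖J γ ξ‖ ^ 2 = ‖ξ‖ ^ 2 := by exact_mod_cast e
  exact (pow_left_inj₀ (norm_nonneg _) (norm_nonneg _) two_ne_zero).1 e2

theorem J_ent (hJ : Frame M 1 J N) (he : MU e 1) (X : Op K) (γ : A) (ξ : H) :
    J γ (ent J X γ γ ξ) = (FA (EE J e) γ γ * X * FA (EE J e) γ γ) (J γ ξ) := by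
  rw [mul_apply_eq_comp, mul_apply_eq_comp, FA_J hJ he, FA_EE he]
  rfl

theorem ad_amp (hJ : Frame M 1 J N) {z : Op H} {T : ℝ} (h : Ad e z T) :
    Ad (EE J e) (amp J z) T := by
  have h1 : ∀ p : A × ι, ‖EE J e p p * amp J z‖ ≤ ‖e p.2 p.2 * z‖ := fun p => by
    have e1 : EE J e p p * amp J z = CaseC.el J p.1 p.1 1 * amp J (e p.2 p.2 * z) := by
      simp only [EE, amp, mul_sum, CaseC.el_mul hJ, mul_one, one_mul]
    rw [e1]
    refine (norm_mul_le _ _).trans ?_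
    refine (mul_le_of_le_one_left (norm_nonneg _) ((CaseC.el_proj hJ p.1).norm_le _)).trans ?_
    exact norm_amp hJ _
  unfold Ad at h ⊢
  calc ∑ p : A × ι, ‖EE J e p p * amp J z‖ ^ 2 ≤ ∑ p : A × ι, ‖e p.2 p.2 * z‖ ^ 2 :=
        sum_le_sum fun p _ => pow_le_pow_left₀ (norm_nonneg _) (h1 p) 2
    _ = ∑ _a : A, ∑ t, ‖e t t * z‖ ^ 2 := by rw [Fintype.sum_prod_type]
    _ ≤ ∑ _a : A, (Fintype.card ι : ℝ) * T := sum_le_sum fun _ _ => h
    _ = _ := by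
        rw [sum_const, card_univ, nsmul_eq_mul, Fintype.card_prod]
        push_cast
        ring

theorem sum_ent (hJ : Frame M 1 J N) (X : Op K) (γ : A) (ξ : H) :
    ∑ a, ‖ent J X a γ ξ‖ ^ 2 = ‖X (J γ ξ)‖ ^ 2 := by
  rw [← (FrameAux.pre hJ).sum_sq (X (J γ ξ)), Real.sq_sqrt (sum_nonneg fun _ _ => sq_nonneg _)]
  rfl

theorem cl_ent (hJ : Frame M 1 J N) (X : Op K) (γ : A) : Cl (fun a => ent J X a γ) ‖X‖ := by
  intro ζ
  rw [sum_ent hJ, ← mul_pow, ← norm_J hJ γ ζ]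
  exact pow_le_pow_left₀ (norm_nonneg _) (X.le_opNorm _) 2

theorem sum_J_ent (hJ : Frame M 1 J N) (X : Op K) (γ : A) (ξ : H) :
    ∑ a, J a (ent J X a γ ξ) = X (J γ ξ) := by
  exact (FrameAux.pre hJ).sum (X (J γ ξ))

theorem norm_sum_J (hJ : Frame M 1 J N) (ξ : A → H) : ‖∑ a, J a (ξ a)‖ ^ 2 = ∑ a, ‖ξ a‖ ^ 2 := by
  have h := FrameAux.pre hJ
  rw [← h.sum_sq, Real.sq_sqrt (sum_nonneg fun _ _ => sq_nonneg _)]
  refine sum_congr rfl fun a _ => ?_
  simp [map_sum, h.adj]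

theorem Gm_apply (γ : A) (c : Op H) (ζ : H) (X : Op K) :
    Gm J φ γ c ζ X = ∑ a, J a (φ (ent J X a γ) c ζ) := rfl

theorem GmL_adj (hJ : Frame M 1 J N) (a b : A) (ξ : H) :
    ContinuousLinearMap.adjoint (J a) (J b ξ) = if a = b then ξ else 0 := by
  have h1 := DFunLike.congr_fun (hJ.adj a b) ξ
  rw [ContinuousLinearMap.comp_apply] at h1
  rw [h1]
  split_ifs <;> rfl

theorem GmL_unit (hJ : Frame M 1 J N) (h : Nrm M φ e C) (γ : A) {c : Op H} (hc : c ∈ M) (ζ : H)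
    (p q : A × ι) {X : Op K} (hX : X ∈ N) :
    Gm J φ γ c ζ (EE J e p q * X) = EE J e p q (Gm J φ γ c ζ X) := by
  have hm := (hJ.mem_iff X).1 hX q.1 γ
  have h1 : φ (e p.2 q.2 * ent J X q.1 γ) c = e p.2 q.2 * φ (ent J X q.1 γ) c := by
    rw [h.cc _ (h.mem _ _) _ hm _ hc, h.left _ _ _ (mul_mem hm hc), h.left _ _ _ hm, zero_mul,
      add_zero, sub_zero]
  have h2 : ContinuousLinearMap.adjoint (J q.1) (Gm J φ γ c ζ X) = φ (ent J X q.1 γ) c ζ := by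
    rw [Gm_apply, map_sum, sum_eq_single q.1]
    · rw [GmL_adj hJ, if_pos rfl]
    · intro b _ hb
      rw [GmL_adj hJ, if_neg hb.symm]
    · intro hq
      exact absurd (mem_univ _) hq
  have h3 : EE J e p q (Gm J φ γ c ζ X) =
      J p.1 (e p.2 q.2 (ContinuousLinearMap.adjoint (J q.1) (Gm J φ γ c ζ X))) := rfl
  rw [h3, h2, Gm_apply, sum_eq_single p.1]
  · rw [EE, CaseC.ent_el_mul hJ, if_pos rfl, one_mul, h1]
    rfl
  · intro b _ hb
    rw [EE, CaseC.ent_el_mul hJ, if_neg hb, map_zero, LinearMap.zero_apply, zero_apply, map_zero]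
  · intro hq
    exact absurd (mem_univ _) hq

theorem Gm_shift (hJ : Frame M 1 J N) (he : MU e 1) (γ α₀ : A) (c : Op H) (ζ : H) (X : Op K) :
    Gm J φ γ c ζ X = Gm J φ α₀ c ζ (X * FA (EE J e) γ α₀) := by
  rw [Gm_apply, Gm_apply, FA_EE he]
  refine sum_congr rfl fun a _ => ?_
  rw [CaseC.ent_mul_el hJ, if_pos rfl, mul_one, mul_one]

theorem Gm_col (hJ : Frame M 1 J N) (h : Col M φ C) (γ : A) {c : Op H} (hc : c ∈ M) (ζ : H)
    (κ : Type) [Fintype κ] (X : κ → Op K) (hX : ∀ i, X i ∈ N) (t : ℝ) (ht : 0 ≤ t) (h1 : Cl X t) :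
    ∑ i, ‖Gm J φ γ c ζ (X i)‖ ^ 2 ≤ (C * ‖c‖ * ‖ζ‖ * t) ^ 2 := by
  have h2 := h (κ × A) (fun p => ent J (X p.1) p.2 γ)
    (fun p => (hJ.mem_iff _).1 (hX p.1) p.2 γ) t ht (fun ξ => by
      rw [Fintype.sum_prod_type]
      simp only [sum_ent hJ]
      have := h1 (J γ ξ)
      rwa [norm_J hJ] at this) c hc ζ
  rw [Fintype.sum_prod_type] at h2
  simp only [Gm_apply, norm_sum_J hJ]
  exact h2.trans_eq (by ring)

theorem Gm_bd (hJ : Frame M 1 J N) (h : Col M φ C) (hC : 0 ≤ C) (γ : A) {c : Op H} (hc : c ∈ M)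
    (ζ : H) {X : Op K} (hX : X ∈ N) : ‖Gm J φ γ c ζ X‖ ≤ C * ‖c‖ * ‖ζ‖ * ‖X‖ := by
  have h2 := Gm_col hJ h γ hc ζ Unit (fun _ => X) (fun _ => hX) ‖X‖ (norm_nonneg _)
    (cl_one X)
  rw [Fintype.sum_unique] at h2
  exact (sq_le_sq₀ (norm_nonneg _) (by positivity)).1 h2

theorem Gm_cont (hJ : Frame M 1 J N) (h : Col M φ C) (hC : 0 ≤ C) (γ : A) {c : Op H} (hc : c ∈ M)
    (ζ : H) {T : Type*} [TopologicalSpace T] {X : T → Op K} (hX : Continuous X)
    (hXN : ∀ v, X v ∈ N) : Continuous fun v => Gm J φ γ c ζ (X v) := by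
  refine continuous_iff_continuousAt.2 fun v₀ => tendsto_iff_norm_sub_tendsto_zero.2 ?_
  have h1 : Filter.Tendsto (fun v => C * ‖c‖ * ‖ζ‖ * ‖X v - X v₀‖) (nhds v₀) (nhds 0) := by
    have := (tendsto_iff_norm_sub_tendsto_zero.1 (hX.tendsto v₀)).const_mul (C * ‖c‖ * ‖ζ‖)
    rwa [mul_zero] at this
  refine squeeze_zero (fun v => norm_nonneg _) (fun v => ?_) h1
  rw [← map_sub]
  exact Gm_bd hJ h hC γ hc ζ (sub_mem (hXN v) (hXN v₀))

theorem Gm_left (hJ : Frame M 1 J N) (h : Nrm M φ e C) (γ : A) {c : Op H} (hc : c ∈ M) (ζ : H)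
    (s : Matrix (A × ι) (A × ι) ℂ) {X : Op K} (hX : X ∈ N) :
    Gm J φ γ c ζ (rho (EE J e) s * X) = rho (EE J e) s (Gm J φ γ c ζ X) := by
  simp only [rho, sum_mul, smul_mul_assoc, map_sum, map_smul, GmL_unit hJ h γ hc ζ _ _ hX,
    _root_.sum_apply, smul_apply]

theorem Gm_one (hJ : Frame M 1 J N) (h : Nrm M φ e C) (γ : A) {c : Op H} (hc : c ∈ M) (ζ : H) :
    Gm J φ γ c ζ 1 = 0 := by
  rw [Gm_apply]
  refine sum_eq_zero fun a _ => ?_
  have h1 : ent J (1 : Op K) a γ = if a = γ then 1 else 0 := hJ.adj a γ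
  rw [h1]
  split_ifs
  · rw [h.one hc, zero_apply, map_zero]
  · rw [map_zero, LinearMap.zero_apply, zero_apply, map_zero]

theorem Gm_amp (hJ : Frame M 1 J N) (h : CC M φ) (γ : A) {c x : Op H} (hc : c ∈ M) (hx : x ∈ M)
    (ζ : H) {X : Op K} (hX : X ∈ N) : Gm J φ γ c ζ (X * amp J x) =
      X (J γ (φ x c ζ)) + Gm J φ γ (x * c) ζ X - Gm J φ γ x (c ζ) X := by
  have h1 : ∀ a, ent J (X * amp J x) a γ = ent J X a γ * x := fun a => by
    ext ξ
    change ContinuousLinearMap.adjoint (J a) (X (amp J x (J γ ξ))) =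
      ContinuousLinearMap.adjoint (J a) (X (J γ (x ξ)))
    rw [amp_J hJ]
  rw [← sum_J_ent hJ, Gm_apply, Gm_apply, Gm_apply, ← sum_add_distrib, ← sum_sub_distrib]
  refine sum_congr rfl fun a _ => ?_
  rw [h1, h _ ((hJ.mem_iff X).1 hX a γ) _ hx _ hc, ← map_add, ← map_sub]
  rfl

theorem ww_mem (hJ : Frame M 1 J N) (heM : ∀ i j, e i j ∈ M) {u : Op H} (hu : u ∈ M)
    (v : U (A × ι)) : ww J e u v ∈ N := by
  exact mul_mem (amp_mem hJ hu) (rho_mem (EE_mem hJ heM) _)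

theorem ww_unitary (hJ : Frame M 1 J N) (he : MU e 1) {u : Op H} (hu : u ∈ unitary (Op H))
    (v : U (A × ι)) : ww J e u v ∈ unitary (Op K) := by
  exact mul_mem (amp_unitary hJ hu) ((EE_mu hJ he).rho_unitary v)

theorem ww_cont (u : Op H) : Continuous (ww J e u : U (A × ι) → Op K) := by
  exact continuous_const.mul (Core.cont_rho (EE J e))


end Pool.Agent.Kad.H2
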