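import Pool.Agent.Lib.MP_22c5db_an.H2.Word
import Pool.Agent.Lib.MP_22c5db_an.H2.GmL

/-! The crossing terms are nearly orthogonal. -/

open scoped InnerProductSpace ComplexConjugate
open Finset

noncomputable section

namespace Pool.Agent.Kad.H2

universe u

set_option linter.unusedSectionVars false

variable {K : Type u} [NormedAddCommGroup K] [InnerProductSpace ℂ K] [CompleteSpace K]
  {A B : Type} [Fintype A] [Fintype B] [DecidableEq A] [DecidableEq B] [Nonempty A] [Nonempty B]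
  {E : A × B → A × B → Op K} {y : Op K} {M : ℕ} {δ : ℝ}

theorem fa_rho (E : A × B → A × B → Op K) (α γ : A) :
    ∃ s : Matrix (A × B) (A × B) ℂ, rho E s = FA E α γ := by
  refine ⟨Matrix.of fun p q => if p.1 = α ∧ q = (γ, p.2) then 1 else 0, ?_⟩
  simp only [rho, FA, Matrix.of_apply, ite_smul, one_smul, zero_smul]
  rw [Fintype.sum_prod_type, sum_eq_single α]
  · refine sum_congr rfl fun b _ => ?_
    simp
  · intro a _ ha
    simp [ha]
  · simp

section amp

variable {K' : Type u} [NormedAddCommGroup K'] [InnerProductSpace ℂ K'] [CompleteSpace K']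
  {I : Type} [Fintype I] [DecidableEq I] {J : I → K →L[ℂ] K'} {N : VonNeumannAlgebra K}
  {N' : VonNeumannAlgebra K'}

/-- the diagonal amplification as a linear map -/
def ampAL (J : I → K →L[ℂ] K') : Op K →ₗ[ℂ] Op K' := ∑ a, CaseC.el J a a

theorem ampAL_apply (x : Op K) : ampAL J x = amp J x := by
  rw [ampAL, LinearMap.sum_apply, amp]

theorem ampA_rho {ι : Type} [Fintype ι] [DecidableEq ι] (E : ι → ι → Op K) (s : Matrix ι ι ℂ) :
    rho (fun p q => amp J (E p q)) s = amp J (rho E s) := by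
  simp only [← ampAL_apply, rho, map_sum, map_smul]

theorem ampA_FA (E : A × B → A × B → Op K) (α γ : A) :
    FA (fun p q => amp J (E p q)) α γ = amp J (FA E α γ) := by
  simp only [← ampAL_apply, FA, map_sum]

theorem ampA_mu {ι : Type} [Fintype ι] [DecidableEq ι] {E : ι → ι → Op K} (hJ : Frame N 1 J N')
    (h : MU E 1) : MU (fun p q => amp J (E p q)) 1 := by
  refine ⟨fun i j k l => ?_, fun i j => ?_, ?_⟩
  · rw [← amp_mul hJ, h.mul]
    split_ifs
    · rfl
    · rw [← ampAL_apply, map_zero]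
  · rw [← amp_star, h.adj]
  · simp only [← ampAL_apply]
    rw [← map_sum, h.sum, ampAL_apply, amp_one hJ]

theorem ampA_pow (hJ : Frame N 1 J N') (x : Op K) (n : ℕ) : amp J x ^ n = amp J (x ^ n) := by
  induction n with
  | zero => rw [pow_zero, pow_zero, amp_one hJ]
  | succ n ih => rw [pow_succ, pow_succ, ih, amp_mul hJ]

theorem ampA_adj (hJ : Frame N 1 J N') (a b : I) (ξ : K) :
    ContinuousLinearMap.adjoint (J a) (J b ξ) = if a = b then ξ else 0 := by
  have h := DFunLike.congr_fun (hJ.adj a b) ξ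
  rw [ContinuousLinearMap.comp_apply] at h
  rw [h]
  split_ifs <;> rfl

theorem ampA_inner (hJ : Frame N 1 J N') (ξ η : I → K) :
    ⟪∑ a, J a (ξ a), ∑ a, J a (η a)⟫_ℂ = ∑ a, ⟪ξ a, η a⟫_ℂ := by
  rw [sum_inner]
  refine sum_congr rfl fun a _ => ?_
  rw [← ContinuousLinearMap.adjoint_inner_right, map_sum]
  simp only [ampA_adj hJ, sum_ite_eq, mem_univ, if_true]

/-- a column of operators, placed in the column `i₀` -/
def ampCol (J : I → K →L[ℂ] K') (i₀ : I) (c : ℝ) (x : I → Op K) : Op K' :=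
  (c : ℂ) • ∑ i, CaseC.el J i i₀ (x i)

theorem ampCol_apply (i₀ : I) (c : ℝ) (x : I → Op K) (ξ : K') :
    ampCol J i₀ c x ξ = (c : ℂ) • ∑ i, J i (x i (ContinuousLinearMap.adjoint (J i₀) ξ)) := by
  rw [ampCol, smul_apply, _root_.sum_apply]
  rfl

theorem ampCol_norm (hJ : Frame N 1 J N') (i₀ : I) {c : ℝ} {x : I → Op K}
    (hx : ∀ ζ, c ^ 2 * ∑ i, ‖x i ζ‖ ^ 2 ≤ ‖ζ‖ ^ 2) : ‖ampCol J i₀ c x‖ ≤ 1 := by
  refine ContinuousLinearMap.opNorm_le_bound _ zero_le_one fun ξ => ?_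
  have h1 : ‖J i₀‖ ≤ 1 :=
    ContinuousLinearMap.opNorm_le_bound _ zero_le_one fun ζ => by rw [norm_J hJ, one_mul]
  have h2 : ‖ContinuousLinearMap.adjoint (J i₀) ξ‖ ≤ ‖ξ‖ := by
    refine (ContinuousLinearMap.le_opNorm _ _).trans ?_
    rw [LinearIsometryEquiv.norm_map]
    exact mul_le_of_le_one_left (norm_nonneg _) h1
  rw [one_mul, ← sq_le_sq₀ (norm_nonneg _) (norm_nonneg _), ampCol_apply, norm_smul, mul_pow,
    norm_sum_J hJ, Complex.norm_real, Real.norm_eq_abs, sq_abs]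
  exact (hx _).trans (pow_le_pow_left₀ (norm_nonneg _) h2 2)

theorem ampA_word (hJ : Frame N 1 J N') {ι : Type} [Fintype ι] [DecidableEq ι]
    (E : ι → ι → Op K) (y : Op K) (i₀ : I) (c : ℝ) (x : I → Op K) (j n : ℕ) (v : Matrix ι ι ℂ)
    (ζ : K) :
    (rho (fun p q => amp J (E p q)) v * RM.wd (fun p q => amp J (E p q))
      (List.replicate j (amp J y) ++ (amp J y * ampCol J i₀ c x) :: List.replicate n (amp J y)) v)
        (J i₀ ζ) =
      (c : ℂ) • ∑ i, J i (((rho E v * y) ^ (j + 1) * x i * (rho E v * (y * rho E v) ^ n)) ζ) := by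
  have h1 : ∀ (r y B W : Op K'), r * ((y * r) ^ j * (y * B * r * W)) =
      (r * y) ^ (j + 1) * (B * (r * W)) := by
    intro r y B W
    rw [pow_succ, ← mul_assoc r, ← mul_pow_mul]
    simp only [mul_assoc]
  rw [RM.wd_append, RM.wd, RM.wd_replicate, RM.wd_replicate, h1, ampA_rho, ← amp_mul hJ,
    ← amp_mul hJ, ampA_pow hJ, ampA_pow hJ, ← amp_mul hJ, mul_apply_eq_comp, mul_apply_eq_comp,
    amp_J hJ, ampCol_apply, ampA_adj hJ, if_pos rfl, map_smul, map_sum]
  simp only [amp_J hJ, mul_apply_eq_comp]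

end amp

/-- one term, by amplification -/
theorem amp_term (N : VonNeumannAlgebra K) (h : MU E 1) (hy : y ∈ unitary (Op K)) (hδ : 0 ≤ δ)
    (hD : 2 ^ M * (4 * M : ℝ) ≤ δ ^ 2 * Fintype.card (A × B)) {b : ℕ} (hb : b + 1 ≤ M)
    (α α' : A) {j j' : ℕ} (hj : j < b) (hj' : j' < b) (ζ : K) :
    ‖Ex fun v : U (A × B) => ∑ s : B, ∑ i : A × B,
      (⟪((rho E v * y) ^ (j + 1) * E (α, s) i * (rho E v * (y * rho E v) ^ (b - 1 - j))) ζ,
        FA E α α' (((rho E v * y) ^ (j' + 1) * E (α', s) i *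
          (rho E v * (y * rho E v) ^ (b - 1 - j'))) ζ)⟫_ℂ -
      (if α = α' then (Fintype.card A : ℂ)⁻¹ else 0) *
      ⟪((rho E v * y) ^ (j + 1) * E (α, s) i * (rho E v * (y * rho E v) ^ (b - 1 - j))) ζ,
        ((rho E v * y) ^ (j' + 1) * E (α', s) i *
          (rho E v * (y * rho E v) ^ (b - 1 - j'))) ζ⟫_ℂ)‖ ≤
      Fintype.card B * (2 * b * δ) * ‖ζ‖ ^ 2 := by
  obtain ⟨K', _, _, _, J, N', hJ⟩ :=
    exists_frame (R := N) (z := 1) (IsStarProjection.one _) (one_mem _) (B × (A × B))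
  obtain ⟨i₀⟩ : Nonempty (B × (A × B)) := inferInstance
  have hk : (0 : ℝ) < Fintype.card B := Nat.cast_pos.2 Fintype.card_pos
  obtain ⟨c, hc⟩ : ∃ c : ℝ, c ^ 2 * Fintype.card B = 1 :=
    ⟨√(Fintype.card B : ℝ)⁻¹, by rw [Real.sq_sqrt (by positivity), inv_mul_cancel₀ hk.ne']⟩
  have hE := ampA_mu hJ h
  have hyt : ‖amp J y‖ ≤ 1 := (norm_amp hJ y).trans (RM.unit_le hy)
  have hcol : ∀ β : A, ‖ampCol J i₀ c fun i => E (β, i.1) i.2‖ ≤ 1 := fun β =>
    ampCol_norm hJ i₀ fun ξ => by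
      rw [Fintype.sum_prod_type]
      simp only [h.sum_sq', sum_const, card_univ, nsmul_eq_mul]
      rw [← mul_assoc, hc, one_mul]
  have hl : ∀ (β : A) (m n : ℕ), ∀ X ∈ List.replicate m (amp J y) ++
      (amp J y * ampCol J i₀ c fun i => E (β, i.1) i.2) :: List.replicate n (amp J y),
      ‖X‖ ≤ 1 := by
    intro β m n X hX
    simp only [List.mem_append, List.mem_cons, List.mem_replicate] at hX
    rcases hX with ⟨-, rfl⟩ | rfl | ⟨-, rfl⟩
    · exact hyt
    · exact (norm_mul_le _ _).trans (mul_le_one₀ hyt (norm_nonneg _) (hcol β))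
    · exact hyt
  have hlen : ∀ (X : Op K') (m : ℕ), m < b → (List.replicate m (amp J y) ++
      X :: List.replicate (b - 1 - m) (amp J y)).length = b := by
    intro X m hm
    simp only [List.length_append, List.length_cons, List.length_replicate]
    omega
  obtain ⟨s, hs⟩ := fa_rho (fun p q => amp J (E p q)) α α'
  have key := word_rho hE (RM.sm hE hδ hD) _ _ (hl α j (b - 1 - j)) (hl α' j' (b - 1 - j'))
    (by rw [hlen _ _ hj]; exact hb) (by rw [hlen _ _ hj']; exact hb) s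
    (by rw [hs]; exact hE.fa.norm_le α α') (by rw [hs]; exact RM.ce_FA hE α α') (J i₀ ζ) (J i₀ ζ)
  rw [hlen _ _ hj, hlen _ _ hj', norm_J hJ, hs, ampA_FA] at key
  simp only [ampA_word hJ, map_smul, map_sum, amp_J hJ, inner_smul_left, inner_smul_right,
    ampA_inner hJ, Complex.conj_ofReal] at key
  have hcc : (Fintype.card B : ℂ) * ((c : ℂ) * c) = 1 := by
    rw [mul_comm, ← sq]
    exact_mod_cast hc
  have e1 : ∀ P Q t : ℂ, P - t * Q =
      (Fintype.card B : ℂ) * ((c : ℂ) * (c * P) - t * (c * (c * Q))) := by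
    intro P Q t
    linear_combination (t * Q - P) * hcc
  simp only [sum_sub_distrib, ← mul_sum]
  simp only [Fintype.sum_prod_type (α₁ := B)] at key
  simp only [e1 (∑ _ : B, _)]
  rw [Ex_mul, norm_mul, Complex.norm_natCast, mul_assoc]
  refine mul_le_mul_of_nonneg_left (key.trans (le_of_eq ?_)) hk.le
  ring


end Pool.Agent.Kad.H2
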