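import Pool.Agent.Lib.MP_22c5db_an.H2.Amp

/-! The sum of the crossing terms. -/

open scoped InnerProductSpace ComplexConjugate
open Finset

noncomputable section

namespace Pool.Agent.Kad.H2

universe u

set_option linter.unusedSectionVars false

variable {K : Type u} [NormedAddCommGroup K] [InnerProductSpace ℂ K] [CompleteSpace K]
  {A B : Type} [Fintype A] [Fintype B] [DecidableEq A] [DecidableEq B] [Nonempty A] [Nonempty B]
  {E : A × B → A × B → Op K} {y : Op K} {M : ℕ} {δ : ℝ}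

/-- one vector of the expansion -/
def ampX (E : A × B → A × B → Op K) (y : Op K) (b : ℕ) (ζ : K) (α : A) (j : ℕ) (s : B)
    (i : A × B) (v : U (A × B)) : K :=
  ((rho E v * y) ^ (j + 1) * E (α, s) i * (rho E v * (y * rho E v) ^ (b - 1 - j))) ζ

theorem ampB_cont (b : ℕ) (ζ : K) (α : A) (j : ℕ) (s : B) (i : A × B) :
    Continuous (ampX E y b ζ α j s i) := by
  have c : Continuous fun v : U (A × B) => rho E v :=
    (continuous_rho E).comp continuous_subtype_val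
  unfold ampX
  exact ((((c.mul continuous_const).pow _).mul continuous_const).mul
    (c.mul ((continuous_const.mul c).pow _))).clm_apply continuous_const

theorem ampB_norm_unit {x : Op K} (hx : x ∈ unitary (Op K)) (ζ : K) : ‖x ζ‖ = ‖ζ‖ := by
  have := RM.inner_unit hx ζ ζ
  rw [inner_self_eq_norm_sq_to_K, inner_self_eq_norm_sq_to_K] at this
  have h2 : ‖x ζ‖ ^ 2 = ‖ζ‖ ^ 2 := by exact_mod_cast this
  exact (pow_left_inj₀ (norm_nonneg _) (norm_nonneg _) two_ne_zero).1 h2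

theorem ampB_diag (h : MU E 1) (hy : y ∈ unitary (Op K)) (b : ℕ) (ζ : K) (α : A) (j : ℕ) :
    ‖Ex fun v : U (A × B) => ∑ s : B, ∑ i : A × B,
      ⟪ampX E y b ζ α j s i v, ampX E y b ζ α j s i v⟫_ℂ‖ ≤ Fintype.card B * ‖ζ‖ ^ 2 := by
  refine (norm_Ex_le (g := fun _ => (Fintype.card B : ℝ) * ‖ζ‖ ^ 2) continuous_const
    fun v => ?_).trans (Ex_const _).le
  have u1 : (rho E v * y) ^ (j + 1) ∈ unitary (Op K) := pow_mem (mul_mem (h.rho_unitary v) hy) _
  have u2 : rho E v * (y * rho E v) ^ (b - 1 - j) ∈ unitary (Op K) :=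
    mul_mem (h.rho_unitary v) (RM.w_unit h hy v _)
  refine (norm_sum_le _ _).trans ?_
  have : ∀ s : B, ‖∑ i : A × B, ⟪ampX E y b ζ α j s i v, ampX E y b ζ α j s i v⟫_ℂ‖ ≤ ‖ζ‖ ^ 2 := by
    intro s
    refine (norm_sum_le _ _).trans (le_of_eq ?_)
    rw [← ampB_norm_unit u2 ζ, ← h.sum_sq' (α, s)]
    refine sum_congr rfl fun i _ => ?_
    rw [inner_self_eq_norm_sq_to_K, norm_pow, RCLike.norm_ofReal, abs_norm]
    unfold ampX
    rw [RM.mapp, RM.mapp, ampB_norm_unit u1]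
  refine (sum_le_sum fun s _ => this s).trans (le_of_eq ?_)
  rw [sum_const, card_univ, nsmul_eq_mul]

theorem ampB_sum_ce (h : MU E 1) (α : A) (x : Op K) :
    ∑ s : B, ∑ i : A × B, E i (α, s) * x * E (α, s) i =
      (Fintype.card (A × B) : ℂ) • ce E (FA E α α * x) := by
  rw [← RM.sum_ce, sum_comm]
  refine sum_congr rfl fun i _ => ?_
  have e : ∀ k : A × B, E i k * (FA E α α * x) * E k i =
      if k.1 = α then E i k * x * E k i else 0 := by
    rintro ⟨γ, t⟩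
    have : E i (γ, t) * FA E α α = if γ = α then E i (γ, t) else 0 := by
      unfold FA
      rw [mul_sum]
      simp only [h.mul, Prod.mk.injEq]
      by_cases hγ : γ = α
      · subst hγ
        simp
      · simp [hγ]
    rw [← mul_assoc, this]
    split_ifs <;> simp
  simp only [e]
  rw [Fintype.sum_prod_type, sum_comm]
  refine sum_congr rfl fun s _ => ?_
  simp

theorem ampB_pow (x z : Op K) (r : ℕ) : (x * z) ^ (r + 1) = x * (z * x) ^ r * z := by
  induction r with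
  | zero => simp
  | succ r ih => rw [pow_succ, ih, pow_succ]; simp only [mul_assoc]

theorem ampB_inner (h : MU E 1) {u x W W' : Op K} (hu : u ∈ unitary (Op K)) (p i : A × B) (ζ : K) :
    ⟪(u * E p i * W) ζ, (u * x * E p i * W') ζ⟫_ℂ = ⟪W ζ, (E i p * x * E p i) (W' ζ)⟫_ℂ := by
  simp only [RM.mapp]
  rw [RM.inner_unit hu, MUL.inner_E h]

theorem ampB_ce (h : MU E 1) (α : A) (r : ℕ) (v : Matrix (A × B) (A × B) ℂ) :
    ce E (FA E α α * (rho E v * y) ^ (r + 1)) =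
      ce E (RM.wd E (List.replicate r y ++ [y * FA E α α]) v) := by
  obtain ⟨t, ht⟩ := fa_rho E α α
  have := h.ce_cyc ((y * rho E v) ^ r * y) (t * v)
  rw [h.rho_mul, ht] at this
  rw [ampB_pow, RM.wd_append, RM.wd_replicate]
  simp only [RM.wd, mul_one, mul_assoc] at this ⊢
  exact this

theorem ampB_pt (h : MU E 1) (hy : y ∈ unitary (Op K)) (b : ℕ) (ζ : K) (α : A) (j r : ℕ)
    (v : U (A × B)) :
    ‖∑ s : B, ∑ i : A × B, ⟪ampX E y b ζ α j s i v, ampX E y b ζ α (j + (r + 1)) s i v⟫_ℂ‖ ≤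
      (Fintype.card (A × B) * ‖ζ‖) * ‖ce E (RM.wd E (List.replicate r y ++ [y * FA E α α]) v)
        ((rho E v * (y * rho E v) ^ (b - 1 - (j + (r + 1)))) ζ)‖ := by
  have u1 : (rho E v * y) ^ (j + 1) ∈ unitary (Op K) := pow_mem (mul_mem (h.rho_unitary v) hy) _
  have u2 : rho E v * (y * rho E v) ^ (b - 1 - j) ∈ unitary (Op K) :=
    mul_mem (h.rho_unitary v) (RM.w_unit h hy v _)
  have e1 : ∀ s i, ⟪ampX E y b ζ α j s i v, ampX E y b ζ α (j + (r + 1)) s i v⟫_ℂ =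
      ⟪(rho E v * (y * rho E v) ^ (b - 1 - j)) ζ,
        (E i (α, s) * (rho E v * y) ^ (r + 1) * E (α, s) i)
          ((rho E v * (y * rho E v) ^ (b - 1 - (j + (r + 1)))) ζ)⟫_ℂ := by
    intro s i
    unfold ampX
    rw [show j + (r + 1) + 1 = (j + 1) + (r + 1) by omega, pow_add (rho E v * y) (j + 1)]
    exact ampB_inner h u1 _ _ _
  simp only [e1]
  generalize (rho E v * (y * rho E v) ^ (b - 1 - (j + (r + 1)))) ζ = χ
  rw [← ampB_norm_unit u2 ζ]
  generalize (rho E v * (y * rho E v) ^ (b - 1 - j)) ζ = η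
  rw [← ampB_ce h]
  generalize (rho E v * y) ^ (r + 1) = x
  have e3 : ∑ s : B, ∑ i : A × B, ⟪η, (E i (α, s) * x * E (α, s) i) χ⟫_ℂ =
      ⟪η, (∑ s : B, ∑ i : A × B, E i (α, s) * x * E (α, s) i) χ⟫_ℂ := by
    rw [RM.sapp, inner_sum]
    refine sum_congr rfl fun s _ => ?_
    rw [RM.sapp, inner_sum]
  rw [e3, ampB_sum_ce h]
  refine (norm_inner_le_norm _ _).trans (le_of_eq ?_)
  rw [smul_apply, norm_smul, Complex.norm_natCast]
  ring

theorem ampB_off (h : MU E 1) (hy : y ∈ unitary (Op K)) (hS : RM.Sm E M δ) {b : ℕ}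
    (hb : b + 1 ≤ M) (ζ : K) (α : A) {j j' : ℕ} (hjj : j < j') (hj' : j' < b) :
    ‖Ex fun v : U (A × B) => ∑ s : B, ∑ i : A × B,
      ⟪ampX E y b ζ α j s i v, ampX E y b ζ α j' s i v⟫_ℂ‖ ≤
      Fintype.card (A × B) * δ * ‖ζ‖ ^ 2 := by
  obtain ⟨r, rfl⟩ : ∃ r, j' = j + (r + 1) := ⟨j' - j - 1, by omega⟩
  have hl : ∀ x ∈ List.replicate r y ++ [y * FA E α α], ‖x‖ ≤ 1 := by
    intro x hx
    rcases List.mem_append.1 hx with hx | hx
    · rw [List.eq_of_mem_replicate hx]; exact RM.unit_le hy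
    · rw [List.mem_singleton.1 hx]; exact RM.mul_le (RM.unit_le hy) (h.fa.norm_le α α)
  have hW : RM.Good M fun v : Matrix (A × B) (A × B) ℂ =>
      rho E v * (y * rho E v) ^ (b - 1 - (j + (r + 1))) :=
    ((RM.Good.rho h).mul (RM.good_pow h hy _)).mono (by
      have : 1 + (b - 1 - (j + (r + 1))) ≤ M := by omega
      exact_mod_cast this)
  have hlen : (List.replicate r y ++ [y * FA E α α]).length ≤ M := by
    simp only [List.length_append, List.length_replicate, List.length_singleton]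
    omega
  have H := hS _ (by simp) hlen hl _ hW ζ
  have cg := RM.cont_ce (E := E) (RM.good_wd h _ hl).cont hW.cont ζ
  have cg2 := (continuous_const (y := (Fintype.card (A × B) : ℝ) * ‖ζ‖)).fun_mul cg
  refine (norm_Ex_le cg2 fun v => ampB_pt h hy b ζ α j r v).trans ?_
  rw [Ex_mul_real]
  have := mul_le_mul_of_nonneg_left H
    (show (0 : ℝ) ≤ Fintype.card (A × B) * ‖ζ‖ by positivity)
  refine this.trans (le_of_eq ?_)
  ring

theorem ampB_main (h : MU E 1) (hy : y ∈ unitary (Op K)) (hS : RM.Sm E M δ) (hδ : 0 ≤ δ) {b : ℕ}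
    (hb : b + 1 ≤ M) (ζ : K) (α : A) {j j' : ℕ} (hj : j < b) (hj' : j' < b) :
    ‖Ex fun v : U (A × B) => ∑ s : B, ∑ i : A × B,
      ⟪ampX E y b ζ α j s i v, ampX E y b ζ α j' s i v⟫_ℂ‖ ≤
      (if j = j' then Fintype.card B * ‖ζ‖ ^ 2 else 0) + Fintype.card (A × B) * δ * ‖ζ‖ ^ 2 := by
  rcases lt_trichotomy j j' with hlt | rfl | hlt
  · rw [if_neg hlt.ne, zero_add]
    exact ampB_off h hy hS hb ζ α hlt hj'
  · rw [if_pos rfl]
    exact (ampB_diag h hy b ζ α j).trans (le_add_of_nonneg_right (by positivity))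
  · rw [if_neg hlt.ne', zero_add]
    refine le_trans (le_of_eq ?_) (ampB_off h hy hS hb ζ α hlt hj)
    rw [← RCLike.norm_conj, ← Ex_conj]
    simp only [map_sum, inner_conj_symm]

theorem ampB_sum6 {ι₁ ι₂ : Type} [Fintype ι₁] [Fintype ι₂] (R : Finset ℕ)
    (f : ι₁ → ι₂ → A → ℕ → A → ℕ → ℂ) :
    ∑ s, ∑ i, ∑ α, ∑ j ∈ R, ∑ α', ∑ j' ∈ R, f s i α j α' j' =
      ∑ α, ∑ j ∈ R, ∑ α', ∑ j' ∈ R, ∑ s, ∑ i, f s i α j α' j' := by
  have key : ∀ {κ : Type} (T : Finset κ) (g : ι₁ → ι₂ → κ → ℂ),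
      ∑ s, ∑ i, ∑ x ∈ T, g s i x = ∑ x ∈ T, ∑ s, ∑ i, g s i x := by
    intro κ T g
    rw [sum_comm (s := T)]
    exact sum_congr rfl fun s _ => sum_comm
  rw [key]
  refine sum_congr rfl fun α _ => ?_
  rw [key]
  refine sum_congr rfl fun j _ => ?_
  rw [key]
  refine sum_congr rfl fun α' _ => ?_
  rw [key]

theorem amp_le (N : VonNeumannAlgebra K) (h : MU E 1) (hy : y ∈ unitary (Op K)) (hδ : 0 ≤ δ)
    (hD : 2 ^ M * (4 * M : ℝ) ≤ δ ^ 2 * Fintype.card (A × B)) {b : ℕ} (hb : b + 1 ≤ M)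
    (α₀ : A) (ζ : K) :
    Ex (fun v : U (A × B) => ∑ s : B, ∑ i : A × B, ‖∑ α, ∑ j ∈ range b,
      (FA E α₀ α * (rho E v * y) ^ (j + 1) * E (α, s) i *
        (rho E v * (y * rho E v) ^ (b - 1 - j))) ζ‖ ^ 2) ≤
      Fintype.card B * (Fintype.card A : ℝ) ^ 2 *
        (M / (Fintype.card A : ℝ) ^ 2 + 3 * M ^ 3 * δ) * ‖ζ‖ ^ 2 := by
  have hS : RM.Sm E M δ := RM.sm h hδ hD
  have cX := fun α j s i => ampB_cont (E := E) (y := y) b ζ α j s i
  let P : A → ℕ → A → ℕ → U (A × B) → ℂ := fun α j α' j' v => ∑ s : B, ∑ i : A × B,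
    ⟪ampX E y b ζ α j s i v, FA E α α' (ampX E y b ζ α' j' s i v)⟫_ℂ
  have cP : ∀ α j α' j', Continuous (P α j α' j') := fun α j α' j' =>
    continuous_finsetSum _ fun s _ => continuous_finsetSum _ fun i _ =>
      (cX α j s i).inner ((FA E α α').continuous.comp (cX α' j' s i))
  have expand : ∀ v : U (A × B), ∑ s : B, ∑ i : A × B, ‖∑ α, ∑ j ∈ range b,
      (FA E α₀ α * (rho E v * y) ^ (j + 1) * E (α, s) i *
        (rho E v * (y * rho E v) ^ (b - 1 - j))) ζ‖ ^ 2 =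
      (∑ α, ∑ j ∈ range b, ∑ α', ∑ j' ∈ range b, P α j α' j' v).re := by
    intro v
    simp only [P]
    rw [← ampB_sum6, Complex.re_sum]
    refine sum_congr rfl fun s _ => ?_
    rw [Complex.re_sum]
    refine sum_congr rfl fun i _ => ?_
    have e : ∀ α j, (FA E α₀ α * (rho E v * y) ^ (j + 1) * E (α, s) i *
        (rho E v * (y * rho E v) ^ (b - 1 - j))) ζ = FA E α₀ α (ampX E y b ζ α j s i v) := by
      intro α j
      unfold ampX
      rw [← RM.mapp (FA E α₀ α)]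
      simp only [mul_assoc]
    simp only [e]
    rw [← inner_self_eq_norm_sq (𝕜 := ℂ)]
    simp only [sum_inner]
    simp only [inner_sum]
    simp only [MUL.inner_E h.fa, MUL.app h.fa, if_true]
    rfl
  have term : ∀ α α', ∀ j ∈ range b, ∀ j' ∈ range b, ‖Ex (P α j α' j')‖ ≤
      Fintype.card B * (2 * b * δ) * ‖ζ‖ ^ 2 + (if α = α' then (Fintype.card A : ℝ)⁻¹ *
        ((if j = j' then Fintype.card B * ‖ζ‖ ^ 2 else 0) +
          Fintype.card (A × B) * δ * ‖ζ‖ ^ 2) else 0) := by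
    intro α α' j hj j' hj'
    have hj := mem_range.1 hj
    have hj' := mem_range.1 hj'
    have H := amp_term N h hy hδ hD hb α α' hj hj' ζ
    by_cases hα : α = α'
    · subst hα
      rw [if_pos rfl] at H ⊢
      have cQ : Continuous fun v : U (A × B) => ∑ s : B, ∑ i : A × B,
          ⟪ampX E y b ζ α j s i v, ampX E y b ζ α j' s i v⟫_ℂ :=
        continuous_finsetSum _ fun s _ => continuous_finsetSum _ fun i _ =>
          (cX α j s i).inner (cX α j' s i)
      have e := Ex_sub (cP α j α j') (continuous_const.mul cQ (f := fun _ =>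
        (Fintype.card A : ℂ)⁻¹))
      have H' : ‖Ex (P α j α j') - (Fintype.card A : ℂ)⁻¹ * Ex fun v : U (A × B) =>
          ∑ s : B, ∑ i : A × B, ⟪ampX E y b ζ α j s i v, ampX E y b ζ α j' s i v⟫_ℂ‖ ≤
          Fintype.card B * (2 * b * δ) * ‖ζ‖ ^ 2 := by
        rw [← Ex_mul]
        refine le_trans (le_of_eq ?_) H
        refine congrArg norm (e.symm.trans (congrArg Ex (funext fun v => ?_)))
        simp only [P, Pi.mul_apply, mul_sum, ← sum_sub_distrib]
        rfl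
      refine (norm_le_norm_sub_add _ _).trans (add_le_add H' ?_)
      rw [norm_mul, norm_inv, Complex.norm_natCast]
      exact mul_le_mul_of_nonneg_left (ampB_main h hy hS hδ hb ζ α hj hj') (by positivity)
    · rw [if_neg hα] at H ⊢
      simp only [zero_mul, sub_zero] at H
      rw [add_zero]
      exact H
  have c4 : ∀ α, ∀ j, Continuous fun v => ∑ α', ∑ j' ∈ range b, P α j α' j' v := fun α j =>
    continuous_finsetSum _ fun α' _ => continuous_finsetSum _ fun j' _ => cP α j α' j'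
  simp only [expand]
  rw [Ex_re (continuous_finsetSum _ fun α _ => continuous_finsetSum _ fun j _ => c4 α j),
    Ex_sum _ fun α _ => continuous_finsetSum _ fun j _ => c4 α j]
  refine (Complex.re_le_norm _).trans ((norm_sum_le _ _).trans ?_)
  have step : ∀ α, ‖Ex fun v => ∑ j ∈ range b, ∑ α', ∑ j' ∈ range b, P α j α' j' v‖ ≤
      b * (Fintype.card A * (b * (Fintype.card B * (2 * b * δ) * ‖ζ‖ ^ 2)) +
        (Fintype.card A : ℝ)⁻¹ * (Fintype.card B * ‖ζ‖ ^ 2 +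
          b * (Fintype.card (A × B) * δ * ‖ζ‖ ^ 2))) := by
    intro α
    rw [Ex_sum _ fun j _ => c4 α j]
    refine (norm_sum_le _ _).trans ((sum_le_card_nsmul _ _ _ fun j hj => ?_).trans
      (le_of_eq (by rw [card_range, nsmul_eq_mul])))
    rw [Ex_sum _ fun α' _ => continuous_finsetSum _ fun j' _ => cP α j α' j']
    refine (norm_sum_le _ _).trans ((sum_le_sum fun α' _ => ?_).trans (le_of_eq (?_ :
      ∑ α', ∑ j' ∈ range b, (Fintype.card B * (2 * b * δ) * ‖ζ‖ ^ 2 +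
        (if α = α' then (Fintype.card A : ℝ)⁻¹ *
        ((if j = j' then Fintype.card B * ‖ζ‖ ^ 2 else 0) +
          Fintype.card (A × B) * δ * ‖ζ‖ ^ 2) else 0)) = _)))
    · rw [Ex_sum _ fun j' _ => cP α j α' j']
      exact (norm_sum_le _ _).trans (sum_le_sum fun j' hj' => term α α' j hj j' hj')
    · rw [sum_comm]
      simp only [sum_add_distrib, sum_ite_eq, mem_univ, if_true, sum_const, card_univ, card_range,
        nsmul_eq_mul, ← mul_sum, hj]
      ring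
  refine (sum_le_card_nsmul _ _ _ fun α _ => step α).trans ?_
  rw [card_univ, nsmul_eq_mul, Fintype.card_prod, Nat.cast_mul]
  have ha : (1 : ℝ) ≤ Fintype.card A := by exact_mod_cast Fintype.card_pos
  have hbM : (b : ℝ) ≤ M := by exact_mod_cast (by omega : b ≤ M)
  have hM1 : (1 : ℝ) ≤ M := by exact_mod_cast (by omega : 1 ≤ M)
  have hb0 : (0 : ℝ) ≤ b := Nat.cast_nonneg b
  have hk : (0 : ℝ) ≤ Fintype.card B := Nat.cast_nonneg _
  generalize (Fintype.card A : ℝ) = a at ha ⊢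
  generalize (Fintype.card B : ℝ) = k at hk ⊢
  have ha0 : a ≠ 0 := by positivity
  have h3 : (b : ℝ) ^ 3 ≤ (M : ℝ) ^ 3 := pow_le_pow_left₀ hb0 hbM 3
  have h2 : (b : ℝ) ^ 2 * a ≤ (M : ℝ) ^ 3 * a ^ 2 :=
    mul_le_mul ((pow_le_pow_left₀ hb0 hbM 2).trans (pow_le_pow_right₀ hM1 (by norm_num)))
      (by nlinarith) (by positivity) (by positivity)
  have e1 : a * (b * (a * (b * (k * (2 * b * δ) * ‖ζ‖ ^ 2)) +
      a⁻¹ * (k * ‖ζ‖ ^ 2 + b * (a * k * δ * ‖ζ‖ ^ 2)))) =
      k * ‖ζ‖ ^ 2 * (b + δ * (2 * (b ^ 3 * a ^ 2) + b ^ 2 * a)) := by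
    field_simp
    ring
  have e2 : k * a ^ 2 * (M / a ^ 2 + 3 * M ^ 3 * δ) * ‖ζ‖ ^ 2 =
      k * ‖ζ‖ ^ 2 * (M + δ * (3 * (M ^ 3 * a ^ 2))) := by
    field_simp
  rw [e1, e2]
  refine mul_le_mul_of_nonneg_left (add_le_add hbM (mul_le_mul_of_nonneg_left ?_ hδ))
    (by positivity)
  nlinarith [mul_le_mul_of_nonneg_right h3 (sq_nonneg a)]


end Pool.Agent.Kad.H2
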