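import Pool.Agent.Lib.MP_22c5db_an.H2.Defs

/-! Elementary facts. -/

open scoped InnerProductSpace ComplexConjugate
open Finset

noncomputable section

namespace Pool.Agent.Kad.H2

universe u

set_option linter.unusedSectionVars false

variable {H : Type u} [NormedAddCommGroup H] [InnerProductSpace ℂ H] [CompleteSpace H]
  {M : VonNeumannAlgebra H} {τ : Op H →ₗ[ℝ] ℝ} {φ : Bil H} {C : ℝ}
  {ι : Type} [Fintype ι] [DecidableEq ι] {e : ι → ι → Op H}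

theorem basic_re (s : Op H) (ζ : H) : (⟪ζ, (star s * s) ζ⟫_ℂ).re = ‖s ζ‖ ^ 2 := by
  have h1 : ⟪ζ, (star s * s) ζ⟫_ℂ = ⟪s ζ, s ζ⟫_ℂ := by
    rw [mul_apply_eq_comp, ContinuousLinearMap.star_eq_adjoint,
      ContinuousLinearMap.adjoint_inner_right]
  rw [h1, inner_self_eq_norm_sq_to_K]
  norm_cast

theorem cc_cob (β : Op H →ₗ[ℂ] Op H) : CC M (cob β) := by
  intro x _ y _ z _
  simp only [cob_apply, mul_add, mul_sub, add_mul, sub_mul, mul_assoc]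
  abel

theorem CC.sub_cob (h : CC M φ) (β : Op H →ₗ[ℂ] Op H) : CC M (φ - cob β) := by
  intro x hx y hy z hz
  have h1 := h x hx y hy z hz
  have h2 := cc_cob (M := M) β x hx y hy z hz
  simp only [LinearMap.sub_apply, h1, h2, mul_sub, sub_mul]
  abel

theorem cob_add (β β' : Op H →ₗ[ℂ] Op H) : cob (β + β') = cob β + cob β' := by
  refine LinearMap.ext fun x => LinearMap.ext fun y => ?_
  simp only [LinearMap.add_apply, cob_apply, mul_add, add_mul]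
  abel

theorem cl_iff {κ : Type} [Fintype κ] {x : κ → Op H} {t : ℝ} :
    Cl x t ↔ ‖∑ i, star (x i) * x i‖ ≤ t ^ 2 := by
  have hre : ∀ ζ : H, (⟪ζ, (∑ i, star (x i) * x i) ζ⟫_ℂ).re = ∑ i, ‖x i ζ‖ ^ 2 := by
    intro ζ
    rw [_root_.sum_apply, inner_sum, Complex.re_sum]
    exact sum_congr rfl fun i _ => basic_re (x i) ζ
  have h0 : (0 : Op H) ≤ ∑ i, star (x i) * x i := sum_nonneg fun i _ => star_mul_self_nonneg _
  obtain ⟨s, hs⟩ := CStarAlgebra.nonneg_iff_eq_star_mul_self.1 h0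
  have hsq : ∀ ζ : H, ∑ i, ‖x i ζ‖ ^ 2 = ‖s ζ‖ ^ 2 := by
    intro ζ
    rw [← hre, hs, basic_re]
  rw [hs, CStarRing.norm_star_mul_self]
  constructor
  · intro h
    have h1 : ‖s‖ ≤ |t| := by
      refine ContinuousLinearMap.opNorm_le_bound _ (abs_nonneg t) fun ζ => ?_
      refine (sq_le_sq₀ (norm_nonneg _) (by positivity)).1 ?_
      rw [← hsq, mul_pow, sq_abs]
      exact h ζ
    calc ‖s‖ * ‖s‖ ≤ |t| * |t| := mul_le_mul h1 h1 (norm_nonneg _) (abs_nonneg _)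
      _ = t ^ 2 := by rw [abs_mul_abs_self, sq]
  · intro h ζ
    rw [hsq]
    calc ‖s ζ‖ ^ 2 ≤ (‖s‖ * ‖ζ‖) ^ 2 := pow_le_pow_left₀ (norm_nonneg _) (s.le_opNorm ζ) 2
      _ = ‖s‖ * ‖s‖ * ‖ζ‖ ^ 2 := by ring
      _ ≤ t ^ 2 * ‖ζ‖ ^ 2 := mul_le_mul_of_nonneg_right h (sq_nonneg _)

theorem Cl.norm_le {κ : Type} [Fintype κ] {x : κ → Op H} {t : ℝ} (h : Cl x t) (ht : 0 ≤ t)
    (i : κ) : ‖x i‖ ≤ t := by
  refine ContinuousLinearMap.opNorm_le_bound _ ht fun ζ => ?_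
  refine (sq_le_sq₀ (norm_nonneg _) (by positivity)).1 ?_
  rw [mul_pow]
  exact (single_le_sum (f := fun i => ‖x i ζ‖ ^ 2) (fun j _ => sq_nonneg _) (mem_univ i)).trans (h ζ)

theorem Cl.mul {κ : Type} [Fintype κ] {x : κ → Op H} {t : ℝ} (h : Cl x t) (m : Op H) :
    Cl (fun i => x i * m) (t * ‖m‖) := by
  intro ζ
  have h1 := h (m ζ)
  have h2 : ‖m ζ‖ ^ 2 ≤ (‖m‖ * ‖ζ‖) ^ 2 := pow_le_pow_left₀ (norm_nonneg _) (m.le_opNorm ζ) 2
  calc ∑ i, ‖(x i * m) ζ‖ ^ 2 = ∑ i, ‖x i (m ζ)‖ ^ 2 := rfl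
    _ ≤ t ^ 2 * ‖m ζ‖ ^ 2 := h1
    _ ≤ t ^ 2 * (‖m‖ * ‖ζ‖) ^ 2 := mul_le_mul_of_nonneg_left h2 (sq_nonneg _)
    _ = (t * ‖m‖) ^ 2 * ‖ζ‖ ^ 2 := by ring

theorem cl_one (x : Op H) : Cl (fun _ : Unit => x) ‖x‖ := by
  intro ζ
  rw [Fintype.sum_unique, ← mul_pow]
  exact pow_le_pow_left₀ (norm_nonneg _) (x.le_opNorm ζ) 2

theorem Col.bd (h : Col M φ C) (hC : 0 ≤ C) : Bd2 M φ C := by
  intro x hx y hy
  refine ContinuousLinearMap.opNorm_le_bound _ (by positivity) fun ζ => ?_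
  have h1 := h Unit (fun _ => x) (fun _ => hx) ‖x‖ (norm_nonneg _) (cl_one x) y hy ζ
  rw [Fintype.sum_unique] at h1
  exact (sq_le_sq₀ (norm_nonneg _) (by positivity)).1 h1

theorem Pos.nonneg {g : Op H →L[ℝ] ℝ} {c : ℝ} (h : Pos g c) {a : Op H} (ha : 0 ≤ a) : 0 ≤ g a := by
  obtain ⟨s, rfl⟩ := CStarAlgebra.nonneg_iff_eq_star_mul_self.1 ha
  exact h.pos s

theorem Pos.mono {g : Op H →L[ℝ] ℝ} {c : ℝ} (h : Pos g c) {a b : Op H} (hab : a ≤ b) :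
    g a ≤ g b := by
  have h1 := h.nonneg (sub_nonneg.2 hab)
  rw [map_sub] at h1
  linarith

theorem le_of_form {a b : Op H} (ha : IsSelfAdjoint a) (hb : IsSelfAdjoint b)
    (h : ∀ ξ, (⟪ξ, a ξ⟫_ℂ).re ≤ (⟪ξ, b ξ⟫_ℂ).re) : a ≤ b := by
  rw [ContinuousLinearMap.le_def, ContinuousLinearMap.isPositive_def']
  refine ⟨hb.sub ha, fun ξ => ?_⟩
  rw [ContinuousLinearMap.reApplyInnerSelf_apply, inner_re_symm, sub_apply, inner_sub_right,
    map_sub]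
  exact sub_nonneg.2 (h ξ)

theorem re_form_star (a : Op H) (ξ : H) : (⟪ξ, (star a * a) ξ⟫_ℂ).re = ‖a ξ‖ ^ 2 := by
  rw [ContinuousLinearMap.star_eq_adjoint]
  change (⟪ξ, ContinuousLinearMap.adjoint a (a ξ)⟫_ℂ).re = _
  rw [ContinuousLinearMap.adjoint_inner_right]
  exact inner_self_eq_norm_sq (𝕜 := ℂ) (a ξ)

omit [CompleteSpace H] in
theorem re_form_smul (s : ℝ) (a : Op H) (ξ : H) :
    (⟪ξ, (s • a) ξ⟫_ℂ).re = s * (⟪ξ, a ξ⟫_ℂ).re := by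
  change (⟪ξ, s • a ξ⟫_ℂ).re = _
  rw [← Complex.coe_smul, inner_smul_right, Complex.re_ofReal_mul]

theorem sa_smul (s : ℝ) {a : Op H} (ha : IsSelfAdjoint a) : IsSelfAdjoint (s • a) :=
  (IsSelfAdjoint.all s).smul ha

/-- the quadratic form at a vector, as a real functional -/
def vf (ζ : H) : Op H →L[ℝ] ℝ :=
  Complex.reCLM.comp
    (((innerSL ℂ ζ).comp (ContinuousLinearMap.apply ℂ H ζ)).restrictScalars ℝ)

theorem vf_apply (ζ : H) (a : Op H) : vf ζ a = (⟪ζ, a ζ⟫_ℂ).re := rfl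

/-- comparison through vectors -/
theorem Pos.le_of {g : Op H →L[ℝ] ℝ} {c : ℝ} (h : Pos g c) {a b : Op H} {s : ℝ}
    (hab : ∀ ξ, ‖a ξ‖ ^ 2 ≤ s * ‖b ξ‖ ^ 2) : g (star a * a) ≤ s * g (star b * b) := by
  have h1 : star a * a ≤ s • (star b * b) :=
    le_of_form (IsSelfAdjoint.star_mul_self a) (sa_smul s (IsSelfAdjoint.star_mul_self b))
      fun ξ => by rw [re_form_smul, re_form_star, re_form_star]; exact hab ξ
  have h2 := h.mono h1
  rwa [map_smul, smul_eq_mul] at h2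

theorem Pos.add {g g' : Op H →L[ℝ] ℝ} {c c' : ℝ} (h : Pos g c) (h' : Pos g' c') :
    Pos (g + g') (c + c') := by
  refine ⟨fun a => ?_, fun a => ?_⟩
  · rw [_root_.add_apply]
    exact add_nonneg (h.pos a) (h'.pos a)
  · rw [_root_.add_apply, add_mul]
    exact (abs_add_le _ _).trans (add_le_add (h.le a) (h'.le a))

theorem Pos.smul {g : Op H →L[ℝ] ℝ} {c s : ℝ} (h : Pos g c) (hs : 0 ≤ s) :
    Pos (s • g) (s * c) := by
  refine ⟨fun a => ?_, fun a => ?_⟩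
  · rw [_root_.smul_apply, smul_eq_mul]
    exact mul_nonneg hs (h.pos a)
  · rw [_root_.smul_apply, smul_eq_mul, abs_mul, abs_of_nonneg hs, mul_assoc]
    exact mul_le_mul_of_nonneg_left (h.le a) hs

theorem exists_vec (ζ : H) :
    ∃ g : Op H →L[ℝ] ℝ, Pos g (‖ζ‖ ^ 2) ∧ ∀ b : Op H, g (star b * b) = ‖b ζ‖ ^ 2 := by
  refine ⟨vf ζ, ⟨fun a => ?_, fun a => ?_⟩, fun b => ?_⟩
  · rw [vf_apply, re_form_star]; positivity
  · rw [vf_apply]
    calc |(⟪ζ, a ζ⟫_ℂ).re| ≤ ‖⟪ζ, a ζ⟫_ℂ‖ := Complex.abs_re_le_norm _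
      _ ≤ ‖ζ‖ * ‖a ζ‖ := norm_inner_le_norm _ _
      _ ≤ ‖ζ‖ * (‖a‖ * ‖ζ‖) := mul_le_mul_of_nonneg_left (a.le_opNorm ζ) (norm_nonneg _)
      _ = ‖ζ‖ ^ 2 * ‖a‖ := by ring
  · rw [vf_apply, re_form_star]

/-- expectations of positive functionals -/
theorem Pos.ex_le {κ : Type} [Fintype κ] [DecidableEq κ] {g : Op H →L[ℝ] ℝ} {c : ℝ} (h : Pos g c)
    {Z : U κ → Op H} (hZ : Continuous Z) (hs : ∀ v, IsSelfAdjoint (Z v)) {Z₀ : Op H}
    (hs₀ : IsSelfAdjoint Z₀)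
    (hle : ∀ ξ, Ex (fun v => (⟪ξ, Z v ξ⟫_ℂ).re) ≤ (⟪ξ, Z₀ ξ⟫_ℂ).re) :
    Ex (fun v => g (Z v)) ≤ g Z₀ := by
  have e : ∀ f : Op H →L[ℝ] ℝ, Ex (fun v => f (Z v)) = f (Ex Z) := fun f =>
    f.integral_comp_comm (Haar.integ hZ)
  have hsa : IsSelfAdjoint (Ex Z) := by
    have h1 := (starL' ℝ (A := Op H)).toContinuousLinearMap.integral_comp_comm (Haar.integ hZ)
    have h2 : (fun v => (starL' ℝ (A := Op H)).toContinuousLinearMap (Z v)) = Z :=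
      funext fun v => hs v
    rw [h2] at h1
    exact h1.symm
  rw [e g]
  refine h.mono (le_of_form hsa hs₀ fun ξ => ?_)
  rw [← vf_apply, ← e (vf ξ)]
  exact hle ξ

/-- the form used most often -/
theorem Pos.ex_sq {κ : Type} [Fintype κ] [DecidableEq κ] {g : Op H →L[ℝ] ℝ} {c : ℝ} (h : Pos g c)
    {X : U κ → Op H} (hX : Continuous X) {b : Op H} {s : ℝ}
    (hle : ∀ ξ, Ex (fun v => ‖X v ξ‖ ^ 2) ≤ s * ‖b ξ‖ ^ 2) :
    Ex (fun v => g (star (X v) * X v)) ≤ s * g (star b * b) := by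
  have h1 := h.ex_le (Z := fun v => star (X v) * X v) (hX.star.mul hX)
    (fun v => IsSelfAdjoint.star_mul_self _) (sa_smul s (IsSelfAdjoint.star_mul_self b))
    fun ξ => by
      rw [re_form_smul, re_form_star]
      simp only [re_form_star]
      exact hle ξ
  rwa [map_smul, smul_eq_mul] at h1

theorem Nrm.rho_left (h : Nrm M φ e C) (s : Matrix ι ι ℂ) {y : Op H} (hy : y ∈ M) :
    φ (rho e s) y = 0 := by
  simp only [rho, map_sum, map_smul, LinearMap.sum_apply, LinearMap.smul_apply, h.left _ _ y hy,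
    smul_zero, sum_const_zero]

theorem Nrm.rho_right (h : Nrm M φ e C) (s : Matrix ι ι ℂ) {x : Op H} (hx : x ∈ M) :
    φ x (rho e s) = 0 := by
  simp only [rho, map_sum, map_smul, h.right x hx, smul_zero, sum_const_zero]

theorem Nrm.one (h : Nrm M φ e C) {y : Op H} (hy : y ∈ M) : φ 1 y = 0 := by
  have h1 := h.rho_left 1 hy
  rwa [h.mu.rho_one] at h1

theorem Nrm.left_mul (h : Nrm M φ e C) (s : Matrix ι ι ℂ) {x y : Op H} (hx : x ∈ M) (hy : y ∈ M) :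
    φ (rho e s * x) y = rho e s * φ x y := by
  have h1 := h.cc _ (rho_mem h.mem s) x hx y hy
  rw [h1, h.rho_left s (mul_mem hx hy), h.rho_left s hx, zero_mul, add_zero, sub_zero]

theorem Nrm.mid (h : Nrm M φ e C) (s : Matrix ι ι ℂ) {x y : Op H} (hx : x ∈ M) (hy : y ∈ M) :
    φ (x * rho e s) y = φ x (rho e s * y) := by
  have h1 := h.cc x hx _ (rho_mem h.mem s) y hy
  rw [h1, h.rho_left s hy, h.rho_right s hx, zero_mul, mul_zero, zero_add, sub_zero]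

theorem Nrm.mid_unit (h : Nrm M φ e C) (i j : ι) {x y : Op H} (hx : x ∈ M) (hy : y ∈ M) :
    φ (x * e i j) y = φ x (e i j * y) := by
  have h1 := h.mid (Matrix.single i j 1) hx hy
  rwa [rho_single] at h1


end Pool.Agent.Kad.H2
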