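import Pool.Agent.Lib.MP_22c5db_an.H2.Basic

/-! Polar decomposition of a column. -/

open scoped InnerProductSpace ComplexConjugate
open Finset

noncomputable section

namespace Pool.Agent.Kad.H2

universe u

set_option linter.unusedSectionVars false

variable {H : Type u} [NormedAddCommGroup H] [InnerProductSpace ℂ H] [CompleteSpace H]
  {M : VonNeumannAlgebra H} {τ : Op H →ₗ[ℝ] ℝ} {φ : Bil H} {C : ℝ}

theorem cpol_ent_sum {K : Type u} [NormedAddCommGroup K] [InnerProductSpace ℂ K]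
    [CompleteSpace K] {ι κ : Type} [Fintype ι] [Fintype κ] (J : ι → H →L[ℂ] K) (x : κ → Op K)
    (a c : ι) : ent J (∑ j, x j) a c = ∑ j, ent J (x j) a c := by
  ext ξ
  simp only [ent, ContinuousLinearMap.comp_apply, _root_.sum_apply, map_sum]

theorem cpol_ent_zero {K : Type u} [NormedAddCommGroup K] [InnerProductSpace ℂ K]
    [CompleteSpace K] {ι : Type} [Fintype ι] (J : ι → H →L[ℂ] K) (a c : ι) :
    ent J (0 : Op K) a c = 0 := by
  ext ξ
  simp [ent]

theorem cpol {κ : Type} [Fintype κ] {b : κ → Op H} (hb : ∀ j, b j ∈ M) :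
    ∃ h ∈ M, ∃ v : κ → Op H, (∀ j, v j ∈ M) ∧ IsSelfAdjoint h ∧ (∀ j, b j = v j * h) ∧
      h * h = ∑ j, star (b j) * b j ∧ IsStarProjection (∑ j, star (v j) * v j) ∧
      (∀ i, v i * ∑ j, star (v j) * v j = v i) ∧ (∑ j, star (v j) * v j) * h = h ∧
      ∀ z : Op H, z * h = 0 → z * ∑ j, star (v j) * v j = 0 := by
  classical
  obtain ⟨K, _, _, _, J, N, hF⟩ := exists_frame (R := M) (IsStarProjection.one _) (one_mem M)
    (Option κ)
  obtain ⟨B, hB⟩ : ∃ B : Op K, B = ∑ j, CaseC.el J (some j) none (b j) := ⟨_, rfl⟩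
  have hBN : B ∈ N := hB ▸ sum_mem fun j _ => CaseC.el_mem hF _ _ (hb j)
  obtain ⟨V, hV, G, hG, g1, g2, g3, g4, g5, g6, g7⟩ := VN1.polar' hBN
  have k1 : ∀ X : Op K, B * X = 0 → V * X = 0 := fun X hX => by
    ext η
    exact g5 _ (congrArg (fun t : Op K => t η) hX)
  have k2 : ∀ X : Op K, star B * X = 0 → star V * X = 0 := fun X hX => by
    ext η
    exact g6 _ (congrArg (fun t : Op K => t η) hX)
  have b1 : ∀ j, ent J B (some j) none = b j := fun j => by
    rw [hB, cpol_ent_sum, Finset.sum_eq_single j]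
    · rw [CaseC.ent_el hF]; simp
    · intro c _ hc
      rw [CaseC.ent_el hF]; simp [hc.symm]
    · simp
  have b2 : ent J B none none = 0 := by
    rw [hB, cpol_ent_sum]
    exact Finset.sum_eq_zero fun j _ => by rw [CaseC.ent_el hF]; simp
  have v1 : ∀ a j, ent J V a (some j) = 0 := fun a j => by
    have h1 : V * CaseC.el J (some j) (some j) 1 = 0 := k1 _ (by
      rw [hB, Finset.sum_mul]
      exact Finset.sum_eq_zero fun i _ => by rw [CaseC.el_mul hF]; simp)
    have h2 := CaseC.ent_mul_el hF V (some j) (some j) a (some j) 1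
    rw [h1, cpol_ent_zero] at h2
    simpa using h2.symm
  have v2 : ent J V none none = 0 := by
    have h1 : star V * CaseC.el J none none 1 = 0 := k2 _ (by
      rw [hB, star_sum, Finset.sum_mul]
      exact Finset.sum_eq_zero fun i _ => by rw [CaseC.el_star, CaseC.el_mul hF]; simp)
    have h2 := CaseC.ent_mul_el hF (star V) none none none none 1
    rw [h1, cpol_ent_zero, ent_star] at h2
    simpa using h2.symm
  have e1 : ∀ j, ent J G (some j) none = 0 := fun j => by
    rw [← g7, hF.ent_mul]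
    exact Finset.sum_eq_zero fun c _ => by rw [ent_star, v1, star_zero, zero_mul]
  have e2 : ∀ j, ent J G none (some j) = 0 := fun j => by
    rw [← g1.star_eq, ent_star, e1, star_zero]
  have hs : IsSelfAdjoint (ent J G none none) := by
    rw [IsSelfAdjoint, ← ent_star, g1.star_eq]
  have r1 : ent J (star V * V) none none =
      ∑ j, star (ent J V (some j) none) * ent J V (some j) none := by
    rw [hF.ent_mul, Fintype.sum_option, v2, mul_zero, zero_add]
    exact Finset.sum_congr rfl fun j _ => by rw [ent_star]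
  have r2 : ∀ i, ent J V (some i) none *
      ∑ j, star (ent J V (some j) none) * ent J V (some j) none = ent J V (some i) none := by
    intro i
    have h1 := hF.ent_mul V (star V * V) (some i) none
    rw [← mul_assoc, g4, Fintype.sum_option, r1] at h1
    simp only [v1, zero_mul, Finset.sum_const_zero, add_zero] at h1
    exact h1.symm
  have r3 : ∀ j, b j = ent J V (some j) none * ent J G none none := fun j => by
    have h1 := hF.ent_mul V G (some j) none
    rw [← g3, b1, Fintype.sum_option] at h1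
    simp only [v1, zero_mul, Finset.sum_const_zero, add_zero] at h1
    exact h1
  have r4 : IsSelfAdjoint (∑ j, star (ent J V (some j) none) * ent J V (some j) none) := by
    rw [IsSelfAdjoint, star_sum]
    exact Finset.sum_congr rfl fun j _ => by rw [star_mul, star_star]
  refine ⟨ent J G none none, (hF.mem_iff G).1 hG _ _, fun j => ent J V (some j) none,
    fun j => (hF.mem_iff V).1 hV _ _, hs, r3, ?_, ⟨?_, r4⟩, r2, ?_, fun z hz => ?_⟩
  · have h1 := hF.ent_mul G G none none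
    rw [g2, hF.ent_mul, Fintype.sum_option, Fintype.sum_option, b2, mul_zero, zero_add,
      Finset.sum_eq_zero (s := Finset.univ) (f := fun j => ent J G none (some j) *
        ent J G (some j) none) fun j _ => by rw [e1, mul_zero], add_zero] at h1
    rw [← h1]
    exact Finset.sum_congr rfl fun j _ => by rw [ent_star, b1]
  · rw [IsIdempotentElem]
    nth_rewrite 1 [Finset.sum_mul]
    exact Finset.sum_congr rfl fun j _ => by rw [mul_assoc, r2]
  · have h1 := hF.ent_mul (star V) B none none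
    rw [g7, Fintype.sum_option, b2, mul_zero, zero_add] at h1
    rw [Finset.sum_mul]
    nth_rewrite 2 [h1]
    exact Finset.sum_congr rfl fun j _ => by rw [mul_assoc, ← r3, ent_star, b1]
  · have h0 : ent J G none none * star z = 0 := by
      have := congrArg star hz
      rwa [star_mul, hs.star_eq, star_zero] at this
    have h1 : V * CaseC.el J none none (star z) = 0 := k1 _ (by
      rw [hB, Finset.sum_mul]
      exact Finset.sum_eq_zero fun i _ => by
        rw [CaseC.el_mul hF, if_pos rfl, mul_one, r3 i, mul_assoc, h0, mul_zero, map_zero])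
    have h2 : ∀ j, ent J V (some j) none * star z = 0 := fun j => by
      have h3 := CaseC.ent_mul_el hF V none none (some j) none (star z)
      rw [h1, cpol_ent_zero, if_pos rfl, mul_one] at h3
      exact h3.symm
    rw [Finset.mul_sum]
    refine Finset.sum_eq_zero fun j _ => ?_
    have h4 := congrArg star (h2 j)
    rw [star_mul, star_star, star_zero] at h4
    rw [← mul_assoc, h4, zero_mul]

theorem cpol_two {a : Op H} (ha : IsSelfAdjoint a) (hM : a ∈ M) (h1 : ‖a‖ ≤ 1) :
    ∃ u w : Op H, (u ∈ M ∧ u ∈ unitary (Op H)) ∧ (w ∈ M ∧ w ∈ unitary (Op H)) ∧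
      a = (-Complex.I / 2) • u + (Complex.I / 2) • w := by
  obtain ⟨s, hsM, hs, hc, he, -⟩ := Groth.exists_sqrt ha hM h1
  refine ⟨s + Complex.I • a, s + Complex.I • (-a),
    ⟨add_mem hsM (smul_mem' _ hM), Groth.unit_of hs ha hc he⟩,
    ⟨add_mem hsM (smul_mem' _ (neg_mem hM)),
      Groth.unit_of hs ha.neg (by rw [mul_neg, neg_mul, hc]) (by rw [neg_mul_neg, he])⟩, ?_⟩
  have e : (-Complex.I / 2 * Complex.I - Complex.I / 2 * Complex.I : ℂ) = 1 := by
    linear_combination (-1 : ℂ) * Complex.I_mul_I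
  calc a = (-Complex.I / 2 * Complex.I - Complex.I / 2 * Complex.I : ℂ) • a := by rw [e, one_smul]
    _ = _ := by module

/-- contractions are means of unitaries -/
theorem four_unitaries {x : Op H} (hx : x ∈ M) : ∃ (u : Fin 4 → Op H) (c : Fin 4 → ℂ),
    (∀ i, u i ∈ M ∧ u i ∈ unitary (Op H)) ∧ x = ∑ i, c i • u i ∧ ∑ i, ‖c i‖ ≤ 2 * ‖x‖ := by
  by_cases h0 : x = 0
  · exact ⟨fun _ => 1, fun _ => 0, fun _ => ⟨one_mem _, one_mem _⟩, by simp [h0], by simp⟩
  have hn : 0 < ‖x‖ := norm_pos_iff.2 h0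
  have hn' : ((‖x‖ : ℝ) : ℂ) ≠ 0 := by exact_mod_cast hn.ne'
  have key : ∀ c : ℂ, ‖c‖ = (2 * ‖x‖)⁻¹ → IsSelfAdjoint (c • x + star (c • x)) ∧
      c • x + star (c • x) ∈ M ∧ ‖c • x + star (c • x)‖ ≤ 1 := fun c hc => by
    refine ⟨IsSelfAdjoint.add_star_self _,
      add_mem (smul_mem' _ hx) (star_mem (smul_mem' _ hx)), ?_⟩
    refine (norm_add_le _ _).trans (le_of_eq ?_)
    rw [norm_star, norm_smul, hc]
    field_simp
    norm_num
  obtain ⟨a1, a2, a3⟩ := key ((2 * ((‖x‖ : ℝ) : ℂ))⁻¹) (by simp)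
  obtain ⟨b1, b2, b3⟩ := key (-Complex.I * (2 * ((‖x‖ : ℝ) : ℂ))⁻¹) (by simp)
  obtain ⟨u1, w1, hu1, hw1, e1⟩ := cpol_two a1 a2 a3
  obtain ⟨u2, w2, hu2, hw2, e2⟩ := cpol_two b1 b2 b3
  refine ⟨![u1, w1, u2, w2], ![((‖x‖ : ℝ) : ℂ) * (-Complex.I / 2),
    ((‖x‖ : ℝ) : ℂ) * (Complex.I / 2), ((‖x‖ : ℝ) : ℂ) * Complex.I * (-Complex.I / 2),
    ((‖x‖ : ℝ) : ℂ) * Complex.I * (Complex.I / 2)], fun i => ?_, ?_, ?_⟩
  · fin_cases i
    · exact hu1
    · exact hw1
    · exact hu2
    · exact hw2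
  · have e3 : x = ((‖x‖ : ℝ) : ℂ) • (((2 * ((‖x‖ : ℝ) : ℂ))⁻¹) • x +
        star (((2 * ((‖x‖ : ℝ) : ℂ))⁻¹) • x)) + (((‖x‖ : ℝ) : ℂ) * Complex.I) •
        ((-Complex.I * (2 * ((‖x‖ : ℝ) : ℂ))⁻¹) • x +
          star ((-Complex.I * (2 * ((‖x‖ : ℝ) : ℂ))⁻¹) • x)) := by
      have s1 : star ((2 * ((‖x‖ : ℝ) : ℂ))⁻¹) = (2 * ((‖x‖ : ℝ) : ℂ))⁻¹ := by simp
      have s2 : star (-Complex.I * (2 * ((‖x‖ : ℝ) : ℂ))⁻¹) =
          Complex.I * (2 * ((‖x‖ : ℝ) : ℂ))⁻¹ := by simp
      rw [star_smul, star_smul, s1, s2]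
      generalize ((‖x‖ : ℝ) : ℂ) = r at hn'
      have t1 : r * (2 * r)⁻¹ = 2⁻¹ := by field_simp
      have t2 : r * Complex.I * (-Complex.I * (2 * r)⁻¹) = 2⁻¹ := by
        linear_combination (-(r * (2 * r)⁻¹)) * Complex.I_mul_I + t1
      have t3 : r * Complex.I * (Complex.I * (2 * r)⁻¹) = -2⁻¹ := by
        linear_combination (r * (2 * r)⁻¹) * Complex.I_mul_I - t1
      rw [smul_add, smul_add, smul_smul, smul_smul, smul_smul, smul_smul, t1, t2, t3]
      module
    rw [Fin.sum_univ_four]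
    simp only [Matrix.cons_val_zero, Matrix.cons_val_one, Matrix.cons_val]
    rw [e1, e2] at e3
    nth_rewrite 1 [e3]
    module
  · rw [Fin.sum_univ_four]
    simp
    linarith


end Pool.Agent.Kad.H2
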