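import Pool.Agent.Lib.MP_22c5db_an.H2.Part

/-! Adapted matrix units. -/

open scoped InnerProductSpace ComplexConjugate
open Finset

noncomputable section

namespace Pool.Agent.Kad.H2

universe u

set_option linter.unusedSectionVars false

variable {H : Type u} [NormedAddCommGroup H] [InnerProductSpace ℂ H] [CompleteSpace H]
  {M : VonNeumannAlgebra H} {τ : Op H →ₗ[ℝ] ℝ} {φ : Bil H} {C : ℝ}

theorem cut_tri {f t : Op H} (hf : IsStarProjection f) (ht : star t * t = f) :
    t * star t * t = t := by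
  have e1 : f * f = f := hf.isIdempotentElem.eq
  have e2 : star (t * f - t) * (t * f - t) = 0 := by
    rw [star_sub, star_mul, hf.isSelfAdjoint.star_eq]
    calc (f * star t - star t) * (t * f - t)
        = f * (star t * t) * f - f * (star t * t) - (star t * t) * f + star t * t := by
          noncomm_ring
      _ = 0 := by rw [ht, e1, e1]; abel
  rw [mul_assoc, ht]
  exact sub_eq_zero.1 (CStarRing.star_mul_self_eq_zero_iff _ |>.1 e2)

theorem cut_proj {f t : Op H} (hf : IsStarProjection f) (ht : star t * t = f) :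
    IsStarProjection (t * star t) :=
  ⟨by rw [IsIdempotentElem, ← mul_assoc, cut_tri hf ht], IsSelfAdjoint.mul_star_self t⟩

theorem cut_tr (h : Tr M τ) {f t : Op H} (htM : t ∈ M) (ht : star t * t = f) :
    τ (t * star t) = τ f := by
  rw [h.comm t htM _ (star_mem htM), ht]

theorem cut_le {n : ℕ} {f p r : Op H} {t : Fin n → Op H} (hf : IsStarProjection f)
    (hp : IsStarProjection p) (ht : ∀ i, star (t i) * t i = f) (hr : IsStarProjection r)
    (hs : ∑ i, t i * star (t i) + r = p) :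
    (∀ i, p * (t i * star (t i)) = t i * star (t i)) ∧ p * r = r := by
  have e1 := (proj_sum (q := fun o : Option (Fin n) => o.elim r fun i => t i * star (t i))
    (fun o => by
      cases o with
      | none => exact hr
      | some i => exact cut_proj hf (ht i)) hp
    (by rw [Fintype.sum_option, add_comm]; exact hs)).1
  exact ⟨fun i => e1 (some i), e1 none⟩

theorem cut_sum_tr (h : Tr M τ) {n : ℕ} {f p r : Op H} {t : Fin n → Op H}
    (ht : ∀ i, t i ∈ M ∧ star (t i) * t i = f) (hs : ∑ i, t i * star (t i) + r = p) :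
    τ p = n * τ f + τ r := by
  rw [← hs, map_add, map_sum, sum_congr rfl fun i _ => cut_tr h (ht i).1 (ht i).2, sum_const,
    card_univ, Fintype.card_fin, nsmul_eq_mul]

theorem cut_mu {ι : Type} [Fintype ι] [DecidableEq ι] {f : Op H} {w : ι → Op H}
    (hf : IsStarProjection f) (hw : ∀ a, star (w a) * w a = f)
    (hs : ∑ a, w a * star (w a) = 1) : MU (fun a b => w a * star (w b)) 1 := by
  have e1 := (proj_sum (fun a => cut_proj hf (hw a)) (IsStarProjection.one _) hs).2
  refine ⟨fun i j k l => ?_, fun i j => by rw [star_mul, star_star], hs⟩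
  split_ifs with hjk
  · subst hjk
    calc w i * star (w j) * (w j * star (w l)) = w i * (star (w j) * w j) * star (w l) := by
          simp only [mul_assoc]
      _ = _ := by rw [hw j, ← hw i, ← mul_assoc, cut_tri hf (hw i)]
  · have e2 : star (w j) = star (w j) * (w j * star (w j)) := by
      have e3 := congrArg star (cut_tri hf (hw j))
      rw [star_mul, star_mul, star_star] at e3
      exact e3.symm
    have e4 : star (w j) * w k = 0 := by
      rw [e2, ← cut_tri hf (hw k), mul_assoc, ← mul_assoc (w j * star (w j)), e1 j k hjk, zero_mul,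
        mul_zero]
    rw [mul_assoc, ← mul_assoc (star (w j)), e4, zero_mul, mul_zero]

theorem cut_norm {p q X : Op H} (hp : IsStarProjection p) (hq : IsStarProjection q)
    (h : p * q = q) : ‖q * X * q‖ ≤ ‖p * X * p‖ := by
  have e1 : q * p = q := by
    have e2 := congrArg star h
    rwa [star_mul, hp.isSelfAdjoint.star_eq, hq.isSelfAdjoint.star_eq] at e2
  have e3 : q * X * q = q * (p * X * p) * q := by
    calc q * X * q = (q * p) * X * (p * q) := by rw [e1, h]
      _ = _ := by simp only [mul_assoc]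
  rw [e3]
  have e4 := hq.norm_le
  calc ‖q * (p * X * p) * q‖ ≤ ‖q‖ * ‖p * X * p‖ * ‖q‖ :=
        (norm_mul_le _ _).trans (mul_le_mul_of_nonneg_right (norm_mul_le _ _) (norm_nonneg _))
    _ ≤ 1 * ‖p * X * p‖ * 1 := by gcongr
    _ = _ := by ring

theorem cut_aux (hF : Fac M) (h : Tr M τ) {f : Op H} (hf : IsStarProjection f) (hfM : f ∈ M)
    (N : ℕ) : ∀ p : Op H, IsStarProjection p → p ∈ M → τ p < N * τ f →
    ∃ (n : ℕ) (t : Fin n → Op H) (r : Op H), (∀ i, t i ∈ M ∧ star (t i) * t i = f) ∧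
      IsStarProjection r ∧ r ∈ M ∧ τ r < τ f ∧ ∑ i, t i * star (t i) + r = p := by
  induction N with
  | zero =>
    intro p hp hpM hl
    rw [Nat.cast_zero, zero_mul] at hl
    exact absurd (h.proj hp hpM).1 (not_le.2 hl)
  | succ N ih =>
    intro p hp hpM hl
    rcases lt_or_ge (τ p) (τ f) with h1 | h1
    · exact ⟨0, Fin.elim0, p, fun i => i.elim0, hp, hpM, h1, by simp⟩
    · obtain ⟨t, htM, ht, hpt⟩ := cmp hF h hf hfM hp hpM h1
      have e1 : p * (t * star t) = t * star t := by rw [← mul_assoc, hpt]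
      have e2 : IsStarProjection (p - t * star t) := (cut_proj hf ht).sub_of_mul_eq_right hp e1
      obtain ⟨n, s, r, a1, a2, a3, a4, a5⟩ := ih (p - t * star t) e2
        (sub_mem hpM (mul_mem htM (star_mem htM))) (by
          rw [map_sub, cut_tr h htM ht]
          push_cast at hl
          linarith)
      refine ⟨n + 1, Fin.cons t s, r, fun i => ?_, a2, a3, a4, ?_⟩
      · refine Fin.cases ?_ (fun i => ?_) i
        · exact ⟨htM, ht⟩
        · exact a1 i
      · rw [Fin.sum_univ_succ, Fin.cons_zero]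
        simp only [Fin.cons_succ]
        rw [add_assoc, a5, add_sub_cancel]

theorem cut (hF : Fac M) (h : Tr M τ) {f : Op H} (hf : IsStarProjection f) (hfM : f ∈ M)
    (hf0 : 0 < τ f) {p : Op H} (hp : IsStarProjection p) (hpM : p ∈ M) :
    ∃ (n : ℕ) (t : Fin n → Op H) (r : Op H), (∀ i, t i ∈ M ∧ star (t i) * t i = f) ∧
      IsStarProjection r ∧ r ∈ M ∧ τ r < τ f ∧ ∑ i, t i * star (t i) + r = p := by
  obtain ⟨N, hN⟩ := exists_nat_gt (τ p / τ f)
  exact cut_aux hF h hf hfM N p hp hpM ((div_lt_iff₀ hf0).1 hN)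

theorem adapted (hF : Fac M) (h : Tr M τ) {κ : Type} [Fintype κ] {X : κ → Op H}
    (hX : ∀ j, X j ∈ M) (h0 : ∀ j, 0 ≤ X j) {ε : ℝ} (hε : 0 < ε) (k₀ : ℕ) :
    ∃ (ι : Type) (_ : Fintype ι) (_ : DecidableEq ι) (e : ι → ι → Op H), MU e 1 ∧
      (∀ i j, e i j ∈ M) ∧ k₀ ≤ Fintype.card ι ∧
      ∀ j, ∑ t, ‖e t t * X j * e t t‖ ≤ Fintype.card ι * (τ (X j) + ε) := by
  classical
  obtain ⟨T, _, q, hq, hq1, hqX⟩ := part h hX h0 (half_pos hε)
  obtain ⟨k₁, hk₁⟩ := exists_nat_ge ((Fintype.card T * ∑ j, ‖X j‖) / (ε / 2))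
  obtain ⟨k, kp, kk₀, kk₁⟩ : ∃ k : ℕ, 0 < k ∧ k₀ ≤ k ∧ k₁ ≤ k := ⟨k₀ + k₁ + 1, by omega, by omega,
    by omega⟩
  have kR : (0 : ℝ) < k := Nat.cast_pos.2 kp
  have hk : (Fintype.card T * ∑ j, ‖X j‖) ≤ k * (ε / 2) :=
    (div_le_iff₀ (half_pos hε)).1 (hk₁.trans (Nat.cast_le.2 kk₁))
  obtain ⟨g, hg, hgM⟩ := hF.units k kp
  obtain ⟨f, hf, hfM, hτ⟩ : ∃ f : Op H, IsStarProjection f ∧ f ∈ M ∧ τ f = (k : ℝ)⁻¹ := by
    refine ⟨g ⟨0, kp⟩ ⟨0, kp⟩, ⟨?_, hg.adj _ _⟩, hgM _ _, ?_⟩
    · rw [IsIdempotentElem, hg.mul, if_pos rfl]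
    · rw [h.unit hg hgM, Fintype.card_fin]
  have f0 : 0 < τ f := by rw [hτ]; positivity
  choose n t r a1 a2 a3 a4 a5 using fun s => cut hF h hf hfM f0 (hq s).1 (hq s).2
  have b1 := fun s => cut_le hf (hq s).1 (fun i => (a1 s i).2) (a2 s) (a5 s)
  have b2 := (proj_sum (fun s => (hq s).1) (IsStarProjection.one _) hq1).2
  have b3 : ∀ s, r s * q s = r s := fun s => by
    have e2 := congrArg star (b1 s).2
    rwa [star_mul, (hq s).1.isSelfAdjoint.star_eq, (a2 s).isSelfAdjoint.star_eq] at e2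
  have hR : IsStarProjection (∑ s, r s) := by
    refine ⟨?_, ?_⟩
    · rw [IsIdempotentElem, sum_mul]
      refine sum_congr rfl fun s _ => ?_
      rw [mul_sum, sum_eq_single s (fun s' _ hs => ?_) (fun hs => absurd (mem_univ s) hs)]
      · exact (a2 s).isIdempotentElem.eq
      · rw [← b3 s, ← (b1 s').2, mul_assoc, ← mul_assoc (q s), b2 s s' hs.symm, zero_mul, mul_zero]
    · rw [IsSelfAdjoint, star_sum]
      exact sum_congr rfl fun s _ => (a2 s).isSelfAdjoint.star_eq
  obtain ⟨n', t', r', c1, c2, c3, c4, c5⟩ := cut hF h hf hfM f0 hR (sum_mem fun s _ => a3 s)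
  have d1 := fun s => cut_sum_tr h (a1 s) (a5 s)
  have d2 := cut_sum_tr h c1 c5
  have d3 := h.proj c2 c3
  have d4 : ((∑ s, n s + n' : ℕ) : ℝ) + k * τ r' = k := by
    have e1 : ∑ s, τ (q s) = 1 := by rw [← map_sum, hq1, h.one]
    rw [sum_congr rfl fun s _ => d1 s, sum_add_distrib, ← sum_mul, ← map_sum, d2, hτ] at e1
    push_cast
    field_simp at e1
    linarith
  have d5 : k * τ r' < 1 := by
    rw [hτ] at c4
    have := mul_lt_mul_of_pos_left c4 kR
    rwa [mul_inv_cancel₀ kR.ne'] at this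
  have d6 : ∑ s, n s + n' = k := by
    have e1 : ((∑ s, n s + n' : ℕ) : ℝ) ≤ k := by linarith [mul_nonneg kR.le d3.1]
    have e2 : (k : ℝ) < ((∑ s, n s + n' + 1 : ℕ) : ℝ) := by
      rw [Nat.cast_succ]
      linarith
    have e3 := Nat.cast_le.1 e1
    have e4 := Nat.cast_lt.1 e2
    omega
  have d7 : r' = 0 := by
    rw [d6] at d4
    exact d3.2.2 ((mul_eq_zero.1 (by linarith : k * τ r' = 0)).resolve_left kR.ne')
  rw [d7, add_zero] at c5
  let w : (Σ s, Fin (n s)) ⊕ Fin n' → Op H := Sum.elim (fun x => t x.1 x.2) t'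
  have w1 : ∀ a, w a ∈ M ∧ star (w a) * w a = f := fun a => by
    cases a with
    | inl x => exact a1 x.1 x.2
    | inr i => exact c1 i
  have w2 : ∑ a, w a * star (w a) = 1 := by
    rw [Fintype.sum_sum_type, Fintype.sum_sigma, ← hq1, sum_congr rfl fun s _ => (a5 s).symm,
      sum_add_distrib, ← c5]
    rfl
  have w3 : Fintype.card ((Σ s, Fin (n s)) ⊕ Fin n') = k := by
    rw [← d6]
    simp
  refine ⟨_, inferInstance, inferInstance, fun a b => w a * star (w b),
    cut_mu hf (fun a => (w1 a).2) w2, fun a b => mul_mem (w1 a).1 (star_mem (w1 b).1),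
    w3.symm ▸ kk₀, fun j => ?_⟩
  rw [w3, Fintype.sum_sum_type, Fintype.sum_sigma]
  have u1 : ∀ s, ∑ i : Fin (n s), ‖t s i * star (t s i) * X j * (t s i * star (t s i))‖ ≤
      k * (τ (q s) * ‖q s * X j * q s‖) := fun s => by
    refine (sum_le_sum fun i _ => cut_norm (hq s).1 (cut_proj hf (a1 s i).2) ((b1 s).1 i)).trans ?_
    rw [sum_const, card_univ, Fintype.card_fin, nsmul_eq_mul, ← mul_assoc]
    refine mul_le_mul_of_nonneg_right ?_ (norm_nonneg _)
    rw [d1 s, hτ, mul_add, mul_left_comm, mul_inv_cancel₀ kR.ne', mul_one]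
    linarith [mul_nonneg kR.le (h.proj (a2 s) (a3 s)).1]
  have u2 : (n' : ℝ) ≤ Fintype.card T := by
    have e1 : τ (∑ s, r s) ≤ Fintype.card T * τ f := by
      rw [map_sum]
      refine (sum_le_sum fun s _ => (a4 s).le).trans_eq ?_
      rw [sum_const, card_univ, nsmul_eq_mul]
    exact le_of_mul_le_mul_right (by linarith [d3.1]) f0
  have u3 : ∑ i : Fin n', ‖t' i * star (t' i) * X j * (t' i * star (t' i))‖ ≤ k * (ε / 2) := by
    refine (sum_le_sum fun i _ =>
      cut_norm (IsStarProjection.one _) (cut_proj hf (c1 i).2) (one_mul _)).trans ?_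
    rw [sum_const, card_univ, Fintype.card_fin, nsmul_eq_mul, one_mul, mul_one]
    refine le_trans (mul_le_mul u2 ?_ (norm_nonneg _) (Nat.cast_nonneg _)) hk
    exact single_le_sum (f := fun j => ‖X j‖) (fun _ _ => norm_nonneg _) (mem_univ j)
  have u4 := (sum_le_sum fun s (_ : s ∈ univ) => u1 s).trans_eq (mul_sum _ _ _).symm
  have u5 := mul_le_mul_of_nonneg_left (hqX j) kR.le
  calc _ ≤ k * (τ (X j) + ε / 2) + k * (ε / 2) := add_le_add (u4.trans u5) u3
    _ = _ := by ring

theorem adapted_ad (hF : Fac M) (h : Tr M τ) {κ : Type} [Fintype κ] {z : κ → Op H}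
    (hz : ∀ j, z j ∈ M) {ε : ℝ} (hε : 0 < ε) (k₀ : ℕ) :
    ∃ (ι : Type) (_ : Fintype ι) (_ : DecidableEq ι) (e : ι → ι → Op H), MU e 1 ∧
      (∀ i j, e i j ∈ M) ∧ k₀ ≤ Fintype.card ι ∧
      ∀ j, Ad e (z j) (τ (star (z j) * z j) + ε) := by
  obtain ⟨ι, _, _, e, a1, a2, a3, a4⟩ := adapted hF h (X := fun j => z j * star (z j))
    (fun j => mul_mem (hz j) (star_mem (hz j))) (fun j => mul_star_self_nonneg _) hε k₀
  refine ⟨ι, _, _, e, a1, a2, a3, fun j => ?_⟩
  have b := a4 j
  rw [h.comm _ (hz j) _ (star_mem (hz j))] at b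
  refine le_of_eq_of_le (sum_congr rfl fun t _ => ?_) b
  rw [sq, ← CStarRing.norm_self_mul_star, star_mul, a1.adj]
  simp only [mul_assoc]


end Pool.Agent.Kad.H2
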