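import Pool.Agent.Lib.MP_22c5db_an.H2.Basic

/-! From vectors to operators. -/

open scoped InnerProductSpace ComplexConjugate
open Finset

noncomputable section

namespace Pool.Agent.Kad.H2

universe u

set_option linter.unusedSectionVars false

variable {H : Type u} [NormedAddCommGroup H] [InnerProductSpace ℂ H] [CompleteSpace H]
  {M : VonNeumannAlgebra H} {τ : Op H →ₗ[ℝ] ℝ} {φ : Bil H} {C : ℝ}

theorem ext_two {ξ : H} (g : Op H →ₗ[ℂ] Op H →ₗ[ℂ] H) (hC : 0 ≤ C)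
    (hg : ∀ x ∈ M, ∀ b ∈ M, ‖g x b‖ ≤ C * ‖x‖ * ‖b ξ‖) :
    ∃ ψ : Op H →ₗ[ℂ] Op H, Bd M ψ C ∧ ∀ x ∈ M, ∀ b ∈ M, ψ x (b ξ) = g x b := by
  classical
  obtain ⟨q, hq, q1, -, q3, -, -⟩ := exists_proj {η : H | ∃ b ∈ M, η = b ξ}
  let N : Submodule ℂ (Op H) := M.toStarSubalgebra.toSubalgebra.toSubmodule
  let e : (N × H) →ₗ[ℂ] H :=
    { toFun := fun p => (p.1 : Op H) ξ + (p.2 - q p.2)
      map_add' := fun p p' => by
        simp only [Prod.fst_add, Prod.snd_add, Submodule.coe_add, add_apply, map_add]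
        abel
      map_smul' := fun s p => by
        simp only [Prod.smul_fst, Prod.smul_snd, Submodule.coe_smul, smul_apply, map_smul,
          RingHom.id_apply, smul_add, smul_sub] }
  have he : ∀ p : N × H, e p = (p.1 : Op H) ξ + (p.2 - q p.2) := fun p => rfl
  have hd : DenseRange e := by
    have h1 : Submodule.span ℂ {η : H | ∃ b ∈ M, η = b ξ} ≤ LinearMap.range e := by
      refine Submodule.span_le.2 ?_
      rintro _ ⟨b, hb, rfl⟩
      refine ⟨(⟨b, hb⟩, 0), ?_⟩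
      rw [he]
      simp
    intro ζ
    have h2 : q ζ ∈ (LinearMap.range e).topologicalClosure :=
      Submodule.topologicalClosure_mono h1 (q3 ζ)
    have h3 : ζ - q ζ ∈ (LinearMap.range e).topologicalClosure := by
      refine Submodule.le_topologicalClosure _ ⟨(0, ζ), ?_⟩
      rw [he]
      simp
    have h4 := (LinearMap.range e).topologicalClosure.add_mem h2 h3
    rw [add_sub_cancel] at h4
    exact h4
  have hqe : ∀ p : N × H, q (e p) = (p.1 : Op H) ξ := by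
    intro p
    rw [he, map_add, map_sub, VN0.proj_proj hq, sub_self, add_zero]
    exact q1 _ ⟨p.1, p.1.2, rfl⟩
  have hT : ∀ x : N, ∃ T : Op H, ‖T‖ ≤ C * ‖(x : Op H)‖ ∧ ∀ p, T (e p) = g x p.1 := by
    intro x
    let f : (N × H) →ₗ[ℂ] H := (g x) ∘ₗ N.subtype ∘ₗ LinearMap.fst ℂ N H
    have hf : ∀ p : N × H, f p = g x p.1 := fun p => rfl
    have hn : ∀ p : N × H, ‖f p‖ ≤ C * ‖(x : Op H)‖ * ‖e p‖ := by
      intro p
      rw [hf]
      refine (hg x x.2 p.1 p.1.2).trans ?_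
      rw [← hqe p]
      exact mul_le_mul_of_nonneg_left (VN0.norm_proj_le hq _) (mul_nonneg hC (norm_nonneg _))
    exact ⟨f.extendOfNorm e,
      LinearMap.opNorm_extendOfNorm_le hd (mul_nonneg hC (norm_nonneg _)) hn,
      fun p => LinearMap.extendOfNorm_eq hd ⟨_, hn⟩ p⟩
  choose T hT1 hT2 using hT
  have huniq : ∀ A B : Op H, (∀ p, A (e p) = B (e p)) → A = B := by
    intro A B hAB
    have h1 : (A : H → H) = B := hd.equalizer A.continuous B.continuous (funext hAB)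
    exact ContinuousLinearMap.ext fun ζ => congrFun h1 ζ
  let ψ₀ : N →ₗ[ℂ] Op H :=
    { toFun := T
      map_add' := fun x y => huniq _ _ fun p => by
        rw [add_apply, hT2, hT2, hT2, Submodule.coe_add, map_add, LinearMap.add_apply]
      map_smul' := fun s x => huniq _ _ fun p => by
        rw [RingHom.id_apply, smul_apply, hT2, hT2, Submodule.coe_smul, map_smul,
          LinearMap.smul_apply] }
  obtain ⟨ψ, hψ⟩ := ψ₀.exists_extend
  have hψ' : ∀ x (hx : x ∈ M), ψ x = T ⟨x, hx⟩ := fun x hx =>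
    LinearMap.congr_fun hψ ⟨x, hx⟩
  refine ⟨ψ, fun x hx => ?_, fun x hx b hb => ?_⟩
  · rw [hψ' x hx]
    exact hT1 ⟨x, hx⟩
  · have h1 := hT2 ⟨x, hx⟩ (⟨b, hb⟩, 0)
    rw [he] at h1
    rw [hψ' x hx]
    simpa using h1

theorem cyc (hC : 0 ≤ C) (h : ∀ ξ : H, ∃ ψ : Op H →ₗ[ℂ] Op H, Bd M ψ C ∧
      ∀ x ∈ M, ∀ y ∈ M, ∀ b ∈ M, φ x y (b ξ) = cob ψ x y (b ξ)) (S : Finset H)
    (hS : Dense (Submodule.span ℂ {η : H | ∃ x ∈ M, ∃ ξ ∈ S, η = x ξ} : Set H)) :
    ∃ (ψ : Op H →ₗ[ℂ] Op H) (c : ℝ), Bd M ψ c ∧ ∀ x ∈ M, ∀ y ∈ M, φ x y = cob ψ x y := by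
  classical
  have key : ∀ S : Finset H, ∃ q : Op H, IsStarProjection q ∧ (∀ x ∈ M, x * q = q * x) ∧
      (∀ ξ ∈ S, q ξ = ξ) ∧ ∃ (ψ : Op H →ₗ[ℂ] Op H) (c : ℝ), Bd M ψ c ∧
        ∀ x ∈ M, ∀ y ∈ M, φ x y * q = cob ψ x y := by
    intro S
    induction S using Finset.induction_on with
    | empty =>
      refine ⟨0, IsStarProjection.zero _, fun x _ => by simp, fun ξ hξ => by simp at hξ, 0, 0,
        fun x _ => by simp, fun x _ y _ => ?_⟩
      rw [cob_apply]
      simp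
    | insert ξ S _ ih =>
      obtain ⟨q, hq, hqM, hqS, ψ, c, hψ, hφ⟩ := ih
      obtain ⟨ψ', hψ', hφ'⟩ := h (ξ - q ξ)
      obtain ⟨r, hr, r1, -, -, r4, r5⟩ := exists_proj {η : H | ∃ b ∈ M, η = b (ξ - q ξ)}
      have hrM : ∀ x ∈ M, x * r = r * x := by
        intro x hx
        refine r5 x ?_ ?_
        · rintro _ ⟨b, hb, rfl⟩
          exact r1 _ ⟨x * b, mul_mem hx hb, rfl⟩
        · rintro _ ⟨b, hb, rfl⟩
          exact r1 _ ⟨star x * b, mul_mem (star_mem hx) hb, rfl⟩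
      have hqr : q * r = 0 := by
        refine r4 q ?_
        rintro _ ⟨b, hb, rfl⟩
        rw [← mul_apply_eq_comp, ← hqM b hb, mul_apply_eq_comp, map_sub, VN0.proj_proj hq, sub_self,
          map_zero]
      have hrq : r * q = 0 := by
        have h1 := congrArg star hqr
        rwa [star_mul, hq.isSelfAdjoint.star_eq, hr.isSelfAdjoint.star_eq, star_zero] at h1
      have hrq' : ∀ ζ, r (q ζ) = 0 := fun ζ => by
        rw [← mul_apply_eq_comp, hrq, zero_apply]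
      have hφr : ∀ x ∈ M, ∀ y ∈ M, φ x y * r = cob ψ' x y * r := by
        intro x hx y hy
        have h1 := r4 (φ x y - cob ψ' x y) (by
          rintro _ ⟨b, hb, rfl⟩
          rw [sub_apply, hφ' x hx y hy b hb, sub_self])
        rwa [sub_mul, sub_eq_zero] at h1
      refine ⟨q + r, hq.add hr hqr, fun x hx => by rw [mul_add, add_mul, hqM x hx, hrM x hx],
        fun η hη => ?_, ψ + LinearMap.mulRight ℂ r ∘ₗ ψ', c + C, fun x hx => ?_,
        fun x hx y hy => ?_⟩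
      · rw [add_apply]
        rcases Finset.mem_insert.1 hη with rfl | hη
        · have h1 : r (η - q η) = η - q η := r1 _ ⟨1, one_mem M, rfl⟩
          rw [map_sub, hrq', sub_zero] at h1
          rw [h1, add_sub_cancel]
        · have h1 := hrq' η
          rw [hqS η hη] at h1
          rw [h1, hqS η hη, add_zero]
      · have h1 : ‖ψ' x * r‖ ≤ C * ‖x‖ :=
          (norm_mul_le _ _).trans
            ((mul_le_of_le_one_right (norm_nonneg _) (hr.norm_le r)).trans (hψ' x hx))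
        have h2 : (ψ + LinearMap.mulRight ℂ r ∘ₗ ψ') x = ψ x + ψ' x * r := rfl
        rw [h2, add_mul]
        exact (norm_add_le _ _).trans (add_le_add (hψ x hx) h1)
      · have h2 : ∀ z, (ψ + LinearMap.mulRight ℂ r ∘ₗ ψ') z = ψ z + ψ' z * r := fun z => rfl
        rw [mul_add, hφ x hx y hy, hφr x hx y hy, cob_apply, cob_apply, cob_apply, h2, h2, h2,
          add_mul (ψ x), mul_assoc (ψ' x) r y, ← hrM y hy]
        noncomm_ring
  obtain ⟨q, -, hqM, hqS, ψ, c, hψ, hφ⟩ := key S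
  have hq1 : q = 1 := by
    refine ContinuousLinearMap.ext_on hS ?_
    rintro _ ⟨x, hx, ξ, hξ, rfl⟩
    show q (x ξ) = x ξ
    rw [← mul_apply_eq_comp, ← hqM x hx, mul_apply_eq_comp, hqS ξ hξ]
  refine ⟨ψ, c, hψ, fun x hx y hy => ?_⟩
  rw [← hφ x hx y hy, hq1, mul_one]


end Pool.Agent.Kad.H2
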