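import Pool.Agent.Lib.MP_22c5db_an.CaseC
import Pool.Agent.Lib.MP_22c5db_an.Inner
import Pool.Agent.Lib.MP_22c5db_an.VN2

/-! Definitions for the vanishing of the second cohomology. -/

open scoped InnerProductSpace ComplexConjugate
open Finset

noncomputable section

namespace Pool.Agent.Kad.H2

universe u

variable {H : Type u} [NormedAddCommGroup H] [InnerProductSpace ℂ H] [CompleteSpace H]

/-- bilinear maps (values off the algebra do not matter) -/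
abbrev Bil (H : Type u) [NormedAddCommGroup H] [InnerProductSpace ℂ H] :=
  Op H →ₗ[ℂ] Op H →ₗ[ℂ] Op H

/-- cocycle on `M` -/
def CC (M : VonNeumannAlgebra H) (φ : Bil H) : Prop :=
  ∀ x ∈ M, ∀ y ∈ M, ∀ z ∈ M, φ (x * y) z = x * φ y z + φ x (y * z) - φ x y * z

/-- bounded on `M` -/
def Bd2 (M : VonNeumannAlgebra H) (φ : Bil H) (C : ℝ) : Prop :=
  ∀ x ∈ M, ∀ y ∈ M, ‖φ x y‖ ≤ C * ‖x‖ * ‖y‖

/-- the coboundary -/
def cob (β : Op H →ₗ[ℂ] Op H) : Bil H :=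
  LinearMap.mk₂ ℂ (fun x y => x * β y - β (x * y) + β x * y)
    (fun x x' y => by simp only [add_mul, map_add]; abel)
    (fun c x y => by simp only [smul_mul_assoc, map_smul, smul_add, smul_sub])
    (fun x y y' => by simp only [mul_add, map_add]; abel)
    (fun c x y => by simp only [mul_smul_comm, map_smul, smul_add, smul_sub])

omit [CompleteSpace H] in
theorem cob_apply (β : Op H →ₗ[ℂ] Op H) (x y : Op H) :
    cob β x y = x * β y - β (x * y) + β x * y := rfl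

/-- the column `x` has norm at most `t` -/
def Cl {κ : Type} [Fintype κ] (x : κ → Op H) (t : ℝ) : Prop :=
  ∀ ζ, ∑ i, ‖x i ζ‖ ^ 2 ≤ t ^ 2 * ‖ζ‖ ^ 2

/-- column bounded in the first variable -/
def Col (M : VonNeumannAlgebra H) (φ : Bil H) (C : ℝ) : Prop :=
  ∀ (κ : Type) [Fintype κ] (x : κ → Op H), (∀ i, x i ∈ M) → ∀ t : ℝ, 0 ≤ t → Cl x t →
    ∀ y ∈ M, ∀ ζ : H, ∑ i, ‖φ (x i) y ζ‖ ^ 2 ≤ (C * t * ‖y‖ * ‖ζ‖) ^ 2

/-- real part of a faithful tracial state -/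
structure Tr (M : VonNeumannAlgebra H) (τ : Op H →ₗ[ℝ] ℝ) : Prop where
  one : τ 1 = 1
  comm : ∀ x ∈ M, ∀ y ∈ M, τ (x * y) = τ (y * x)
  pos : ∀ x ∈ M, 0 ≤ τ (star x * x)
  faith : ∀ x ∈ M, τ (star x * x) = 0 → x = 0

/-- a factor with matrix units of every size -/
structure Fac (M : VonNeumannAlgebra H) : Prop where
  cen : ∀ z, Cen M z → z = 0 ∨ z = 1
  units : ∀ k : ℕ, 0 < k → ∃ f : Fin k → Fin k → Op H, MU f 1 ∧ ∀ i j, f i j ∈ M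

/-- a positive real functional of norm at most `c` on all operators -/
structure Pos (g : Op H →L[ℝ] ℝ) (c : ℝ) : Prop where
  pos : ∀ a, 0 ≤ g (star a * a)
  le : ∀ a, |g a| ≤ c * ‖a‖

section

variable {ι : Type} [Fintype ι] [DecidableEq ι]

/-- a cocycle normalised on the matrix units `e` -/
structure Nrm (M : VonNeumannAlgebra H) (φ : Bil H) (e : ι → ι → Op H) (C : ℝ) : Prop where
  cc : CC M φ
  col : Col M φ C
  c0 : 0 ≤ C
  mu : MU e 1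
  mem : ∀ i j, e i j ∈ M
  left : ∀ i j, ∀ y ∈ M, φ (e i j) y = 0
  right : ∀ x ∈ M, ∀ i j, φ x (e i j) = 0

/-- the matrix units are adapted to `z` -/
def Ad (e : ι → ι → Op H) (z : Op H) (T : ℝ) : Prop :=
  ∑ t, ‖e t t * z‖ ^ 2 ≤ Fintype.card ι * T

/-- the estimate for elements with a small left support -/
def Flat (M : VonNeumannAlgebra H) (φ : Bil H) (e : ι → ι → Op H) (C : ℝ) (ζ : H)
    (G : Op H →L[ℝ] ℝ) : Prop :=
  ∀ (κ : Type) [Fintype κ] (x : κ → Op H), (∀ l, x l ∈ M) → Cl x 1 → ∀ F : Finset ι,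
    ∀ b ∈ M, pF e F * b = b → ∑ l, ‖φ (x l) b ζ‖ ^ 2 ≤
      C ^ 2 * (6 * G (star b * b) + 4 * ‖ζ‖ ^ 2 * ‖b‖ ^ 2 * (F.card / Fintype.card ι))

/-- the dominating functional of a vector -/
structure Dom (M : VonNeumannAlgebra H) (τ : Op H →ₗ[ℝ] ℝ) (φ : Bil H) (e : ι → ι → Op H) (C : ℝ)
    (ζ : H) (G : Op H →L[ℝ] ℝ) : Prop where
  pos : Pos G (3 * ‖ζ‖ ^ 2)
  flat : Flat M φ e C ζ G
  vec : ∀ b : Op H, ‖b ζ‖ ^ 2 ≤ G (star b * b)
  tr : ∀ b ∈ M, ‖ζ‖ ^ 2 * τ (star b * b) ≤ G (star b * b)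

/-- the hypothesis of the forward estimate -/
def SB (M : VonNeumannAlgebra H) (φ : Bil H) (e : ι → ι → Op H) (b : Op H) (ζ : H) (S : ℝ) : Prop :=
  ∀ (κ : Type) [Fintype κ] (x : κ → Op H), (∀ l, x l ∈ M) → Cl x 1 → ∀ t₀ : ι,
    ∑ t, ∑ l, ‖φ (x l * e t₀ t) b ζ‖ ^ 2 ≤ S ^ 2

end

/-- the window polynomial -/
def ff (α : ℕ → ℝ) (L : ℕ) (w : Op H) : Op H := ∑ n ∈ range L, (α n : ℂ) • w ^ n

/-- the error of the fourth moment estimate -/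
def ee (a M : ℕ) (T δ : ℝ) : ℝ :=
  (a : ℝ)⁻¹ * (T + √(M / (a : ℝ) ^ 2 + 3 * M ^ 3 * δ) + M * δ) + ((a : ℝ)⁻¹ ^ 2 + 2 * a * M * δ)

/-- the squared Dirichlet kernel -/
def sf (J L t : ℕ) : ℝ :=
  ‖∑ j ∈ range L, Complex.exp (2 * Real.pi * Complex.I / (16 * J * L) * j * t)‖ ^ 2

/-- the coefficients of the window -/
structure Sc (a m L : ℕ) (α : ℕ → ℝ) : Prop where
  m0 : 0 < m
  ma : m ≤ a
  L0 : 0 < L
  La : L * m ^ 2 ≤ a ^ 2
  pos : ∀ n, 0 ≤ α n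
  sq : ∑ n ∈ range L, α n ^ 2 = 1
  sum : (∑ n ∈ range L, α n) ^ 2 ≤ 4096 * a * m

/-- the window is small off an arc -/
def Tail (K : Type u) [NormedAddCommGroup K] [InnerProductSpace ℂ K] [CompleteSpace K]
    (J L : ℕ) (α : ℕ → ℝ) (ε : ℝ) : Prop :=
  ∀ w ∈ unitary (Op K), ∀ q : Op K, IsStarProjection q → q * w = w * q →
    (∀ ζ, q ζ = 0 → ‖ζ‖ ≤ J * ‖ζ - w ζ‖) → ‖ff α L w * (1 - q)‖ ≤ ε

/-- the order of the parameters -/
structure Par (a m L k : ℕ) (δ : ℝ) : Prop where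
  δ0 : 0 ≤ δ
  δ1 : 3 * (a : ℝ) ^ 2 * m ^ 2 * L ^ 3 * δ ≤ 1
  big : 2 ^ L * (4 * L : ℝ) ≤ δ ^ 2 * (a * k)
  k1 : 10 ^ 4 * a * m ^ 2 ≤ k

section

variable {K : Type u} [NormedAddCommGroup K] [InnerProductSpace ℂ K] [CompleteSpace K]
  {A ι : Type} [Fintype A] [DecidableEq A] [Fintype ι] [DecidableEq ι]

/-- the diagonal operator -/
def amp (J : A → H →L[ℂ] K) (x : Op H) : Op K := ∑ a, CaseC.el J a a x

/-- the matrix units of the amplification -/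
def EE (J : A → H →L[ℂ] K) (e : ι → ι → Op H) (p q : A × ι) : Op K :=
  CaseC.el J p.1 q.1 (e p.2 q.2)

/-- the cocycle on a column -/
def Gm (J : A → H →L[ℂ] K) (φ : Bil H) (γ : A) (c : Op H) (ζ : H) : Op K →ₗ[ℂ] K where
  toFun X := ∑ a, J a (φ (ent J X a γ) c ζ)
  map_add' X Y := by
    simp only [ent, ContinuousLinearMap.add_comp, ContinuousLinearMap.comp_add, map_add,
      LinearMap.add_apply, add_apply, sum_add_distrib]
  map_smul' s X := by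
    simp only [ent, ContinuousLinearMap.smul_comp, ContinuousLinearMap.comp_smul, map_smul,
      LinearMap.smul_apply, smul_apply, RingHom.id_apply, smul_sum]

/-- the random unitary -/
def ww (J : A → H →L[ℂ] K) (e : ι → ι → Op H) (u : Op H) (v : U (A × ι)) : Op K :=
  amp J u * rho (EE J e) v

/-- the averaged pairing -/
def Ph (J : A → H →L[ℂ] K) (φ : Bil H) (c : Op H) (ζ η : H) (X : U (A × ι) → Op K) : ℂ :=
  (Fintype.card A : ℂ)⁻¹ * ∑ γ, Ex fun v => ⟪X v (J γ η), Gm J φ γ c ζ (X v)⟫_ℂ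

/-- the defect of the shift -/
def DD (J : A → H →L[ℂ] K) (φ : Bil H) (γ : A) (c : Op H) (ζ : H) (W f : Op K) : K :=
  Gm J φ γ c ζ f - W (Gm J φ γ c ζ (star W * f))

end

/-- the column estimate in the second variable, after a correction that depends on the data -/
def KP (M : VonNeumannAlgebra H) (φ : Bil H) (C : ℝ) : Prop :=
  ∀ (κ : Type) [Fintype κ] (u v : κ → Op H), (∀ j, u j ∈ M ∧ u j ∈ unitary (Op H)) →
    (∀ j, v j ∈ M) → Cl v 1 → ∀ (ζ : H) (χ : κ → H), ∃ β : Op H →ₗ[ℂ] Op H, Bd M β C ∧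
      ‖∑ j, ⟪χ j, (φ - cob β) (u j) (v j) ζ⟫_ℂ‖ ≤ C * ‖ζ‖ * √(∑ j, ‖χ j‖ ^ 2)

/-- the estimate on cycles -/
def KeyP (M : VonNeumannAlgebra H) (φ : Bil H) (ξ : H) (C : ℝ) : Prop :=
  ∀ (κ : Type) [Fintype κ] (u b : κ → Op H) (χ : κ → H), (∀ j, u j ∈ M ∧ u j ∈ unitary (Op H)) →
    (∀ j, b j ∈ M) →
    (∀ Θ : Op H →ₗ[ℂ] H, ∑ j, (⟪star (u j) (χ j), Θ (b j)⟫_ℂ - ⟪χ j, Θ (u j * b j)⟫_ℂ) = 0) →
      ‖∑ j, ⟪χ j, φ (u j) (b j) ξ⟫_ℂ‖ ≤ C * √(∑ j, ‖b j ξ‖ ^ 2) * √(∑ j, ‖χ j‖ ^ 2)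

end Pool.Agent.Kad.H2
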