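import Pool.Agent.Lib.MP_22c5db_an.H2.Basic

/-! Domination by a positive functional. -/

open scoped InnerProductSpace ComplexConjugate
open Finset

noncomputable section

namespace Pool.Agent.Kad.H2

universe u

set_option linter.unusedSectionVars false

variable {H : Type u} [NormedAddCommGroup H] [InnerProductSpace ℂ H] [CompleteSpace H]
  {M : VonNeumannAlgebra H} {τ : Op H →ₗ[ℝ] ℝ} {φ : Bil H} {C : ℝ}

theorem piet_cone {E : Type*} [NormedAddCommGroup E] [NormedSpace ℝ E] (S : Set (E × ℝ))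
    (h0 : (0 : E × ℝ) ∈ S) (hadd : ∀ a ∈ S, ∀ b ∈ S, a + b ∈ S)
    (hsm : ∀ c : ℝ, 0 ≤ c → ∀ a ∈ S, c • a ∈ S) (hle : ∀ a ∈ S, a.2 ≤ ‖a.1‖) :
    ∃ g : E →L[ℝ] ℝ, (∀ x, |g x| ≤ ‖x‖) ∧ ∀ a ∈ S, a.2 ≤ g a.1 := by
  have c1 : Convex ℝ {a : E × ℝ | ‖a.1‖ < a.2} := by
    have := (convexOn_univ_norm (E := E)).convex_strict_epigraph
    simpa using this
  have o1 : IsOpen {a : E × ℝ | ‖a.1‖ < a.2} := isOpen_lt (by fun_prop) (by fun_prop)
  have c2 : Convex ℝ S := fun a ha b hb s t hs ht _ => hadd _ (hsm s hs a ha) _ (hsm t ht b hb)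
  have dj : Disjoint {a : E × ℝ | ‖a.1‖ < a.2} S :=
    Set.disjoint_left.2 fun a h1 h2 => absurd (hle a h2) (not_le.2 h1)
  obtain ⟨f, u, h1, h2⟩ := geometric_hahn_banach_open c1 o1 c2 dj
  have u0 : u ≤ 0 := by simpa using h2 0 h0
  have hp : ∀ b ∈ S, 0 ≤ f b := by
    intro b hb
    by_contra hn
    rw [not_le] at hn
    have h3 := h2 _ (hsm ((u - 1) / f b) (div_nonneg_of_nonpos (by linarith) hn.le) b hb)
    rw [map_smul, smul_eq_mul, div_mul_cancel₀ _ hn.ne] at h3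
    linarith
  have split : ∀ (x : E) (t : ℝ), f (x, t) = f (x, 0) + t * f (0, 1) := by
    intro x t
    rw [← smul_eq_mul, ← map_smul, ← map_add]
    simp
  have hc : f (0, 1) < 0 := lt_of_lt_of_le (h1 (0, 1) (by simp)) u0
  have hc' : 0 < -f (0, 1) := by linarith
  let g : E →L[ℝ] ℝ := (-f (0, 1))⁻¹ • f.comp (ContinuousLinearMap.inl ℝ E ℝ)
  have hg : ∀ x, g x = f (x, 0) / (-f (0, 1)) := by
    intro x
    change (-f (0, 1))⁻¹ * f (x, 0) = _
    rw [div_eq_inv_mul]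
  have up : ∀ x, g x ≤ ‖x‖ := by
    intro x
    refine le_of_forall_gt_imp_ge_of_dense fun t ht => ?_
    have h3 := h1 (x, t) ht
    rw [split] at h3
    rw [hg, div_le_iff₀ hc']
    linarith
  refine ⟨g, fun x => abs_le.2 ⟨?_, up x⟩, fun a ha => ?_⟩
  · have := up (-x)
    rw [map_neg, norm_neg] at this
    linarith
  · have h3 : 0 ≤ f (a.1, a.2) := hp a ha
    rw [split] at h3
    rw [hg, le_div_iff₀ hc']
    linarith

theorem pietsch {T : Type*} (B : T → Op H) (val : T → ℝ) {s : ℝ} (hs : 0 ≤ s)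
    (h : ∀ (κ : Type) [Fintype κ] (t : κ → T) (w : κ → ℝ), (∀ j, 0 ≤ w j) →
      ∑ j, w j * val (t j) ≤ s * ‖∑ j, (w j : ℂ) • (star (B (t j)) * B (t j))‖) :
    ∃ g : Op H →L[ℝ] ℝ, Pos g 1 ∧ ∀ t, val t ≤ s * g (star (B t) * B t) := by
  let S : Set (Op H × ℝ) := {a | ∃ (κ : Type) (_ : Fintype κ) (t : κ → T) (w : κ → ℝ),
    (∀ j, 0 ≤ w j) ∧ s • ∑ j, w j • (star (B (t j)) * B (t j)) ≤ a.1 ∧
      a.2 = ∑ j, w j * val (t j)}
  have hpos : ∀ y : Op H, 0 ≤ y → (y, (0 : ℝ)) ∈ S := fun y hy =>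
    ⟨Empty, inferInstance, Empty.elim, Empty.elim, fun j => j.elim, by simpa using hy, by simp⟩
  obtain ⟨g, g1, g2⟩ := piet_cone S (hpos 0 le_rfl)
    (by
      rintro a ⟨κ, _, t, w, hw, h1, h2⟩ b ⟨κ', _, t', w', hw', h1', h2'⟩
      refine ⟨κ ⊕ κ', inferInstance, Sum.elim t t', Sum.elim w w', ?_, ?_, ?_⟩
      · rintro (j | j)
        · exact hw j
        · exact hw' j
      · rw [Fintype.sum_sum_type, smul_add]
        exact add_le_add h1 h1'
      · rw [Fintype.sum_sum_type, Prod.snd_add, h2, h2']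
        rfl)
    (by
      rintro c hc a ⟨κ, _, t, w, hw, h1, h2⟩
      refine ⟨κ, inferInstance, t, fun j => c * w j, fun j => mul_nonneg hc (hw j), ?_, ?_⟩
      · simp only [mul_smul]
        rw [← Finset.smul_sum, smul_comm]
        exact smul_le_smul_of_nonneg_left h1 hc
      · rw [Prod.smul_snd, h2, smul_eq_mul, Finset.mul_sum]
        simp only [mul_assoc])
    (by
      rintro a ⟨κ, _, t, w, hw, h1, h2⟩
      have h3 := h κ t w hw
      simp only [Complex.coe_smul] at h3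
      have h4 : (0 : Op H) ≤ s • ∑ j, w j • (star (B (t j)) * B (t j)) :=
        smul_nonneg hs (Finset.sum_nonneg fun j _ => smul_nonneg (hw j) (star_mul_self_nonneg _))
      have h5 := CStarAlgebra.norm_le_norm_of_nonneg_of_le h4 h1
      rw [norm_smul, Real.norm_of_nonneg hs] at h5
      rw [h2]
      exact h3.trans h5)
  refine ⟨g, ⟨fun a => g2 _ (hpos _ (star_mul_self_nonneg a)), fun a => by simpa using g1 a⟩,
    fun t => ?_⟩
  have h3 := g2 (s • (star (B t) * B t), val t)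
    ⟨Unit, inferInstance, fun _ => t, fun _ => 1, fun _ => zero_le_one, by simp, by simp⟩
  simpa using h3

/-- column bounded maps into a Hilbert space -/
theorem pietsch_col {H' : Type u} [NormedAddCommGroup H'] [InnerProductSpace ℂ H']
    (G : Op H →ₗ[ℂ] H') {β : ℝ}
    (h : ∀ (κ : Type) [Fintype κ] (x : κ → Op H), (∀ i, x i ∈ M) → ∀ t : ℝ, 0 ≤ t → Cl x t →
      ∑ i, ‖G (x i)‖ ^ 2 ≤ (β * t) ^ 2) :
    ∃ g : Op H →L[ℝ] ℝ, Pos g 1 ∧ ∀ x ∈ M, ‖G x‖ ^ 2 ≤ β ^ 2 * g (star x * x) := by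
  obtain ⟨g, g1, g2⟩ := pietsch (T := {x : Op H // x ∈ M}) (fun x => x.1)
    (fun x => ‖G x.1‖ ^ 2) (s := β ^ 2) (sq_nonneg β) (by
      intro κ _ t w hw
      have e1 : ∀ j, star (((√(w j) : ℝ) : ℂ) • (t j).1) * (((√(w j) : ℝ) : ℂ) • (t j).1) =
          (w j : ℂ) • (star (t j).1 * (t j).1) := by
        intro j
        rw [star_smul, smul_mul_smul_comm, Complex.star_def, Complex.conj_ofReal,
          ← Complex.ofReal_mul, Real.mul_self_sqrt (hw j)]
      have e2 : ∀ j, ‖G (((√(w j) : ℝ) : ℂ) • (t j).1)‖ ^ 2 = w j * ‖G (t j).1‖ ^ 2 := by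
        intro j
        rw [map_smul, norm_smul, mul_pow, Complex.norm_real, Real.norm_eq_abs, sq_abs,
          Real.sq_sqrt (hw j)]
      have h1 := h κ (fun j => ((√(w j) : ℝ) : ℂ) • (t j).1)
        (fun j => M.toStarSubalgebra.smul_mem (t j).2 _)
        (√‖∑ j, (w j : ℂ) • (star (t j).1 * (t j).1)‖) (Real.sqrt_nonneg _)
        (cl_iff.2 (by
          rw [Real.sq_sqrt (norm_nonneg _)]
          simp only [e1]
          exact le_rfl))
      simp only [e2] at h1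
      rwa [mul_pow, Real.sq_sqrt (norm_nonneg _)] at h1)
  exact ⟨g, g1, fun x hx => g2 ⟨x, hx⟩⟩


end Pool.Agent.Kad.H2
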