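import Pool.Agent.Lib.MP_22c5db_an.H2.Basic
import Pool.Agent.Lib.MP_22c5db_an.H2.Piet

/-! The trace and comparison of projections. -/

open scoped InnerProductSpace ComplexConjugate
open Finset

noncomputable section

namespace Pool.Agent.Kad.H2

universe u

set_option linter.unusedSectionVars false

variable {H : Type u} [NormedAddCommGroup H] [InnerProductSpace ℂ H] [CompleteSpace H]
  {M : VonNeumannAlgebra H} {τ : Op H →ₗ[ℝ] ℝ} {φ : Bil H} {C : ℝ}
  {ι : Type} [Fintype ι] [DecidableEq ι] {e : ι → ι → Op H}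

theorem Tr.nonneg (h : Tr M τ) {a : Op H} (ha : a ∈ M) (h0 : 0 ≤ a) : 0 ≤ τ a := by
  have hsa : IsSelfAdjoint a := IsSelfAdjoint.of_nonneg h0
  have hM : cfc (fun t : ℝ => √t) a ∈ M := mem_of_comm fun r hr =>
    (Commute.cfc_real (comm_of_mem ha hr).symm _).eq.symm
  have e : star (cfc (fun t : ℝ => √t) a) * cfc (fun t : ℝ => √t) a = a := by
    rw [IsSelfAdjoint.cfc.star_eq, ← cfc_mul ..]
    conv_rhs => rw [← cfc_id' ℝ a]
    exact cfc_congr fun t ht => Real.mul_self_sqrt (spectrum_nonneg_of_nonneg h0 ht)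
  have := h.pos _ hM
  rwa [e] at this

theorem Tr.mono (h : Tr M τ) {a b : Op H} (ha : a ∈ M) (hb : b ∈ M) (hab : a ≤ b) :
    τ a ≤ τ b := by
  have := h.nonneg (sub_mem hb ha) (sub_nonneg.2 hab)
  rw [map_sub] at this
  linarith

theorem Tr.le_norm (h : Tr M τ) {a : Op H} (ha : a ∈ M) (h0 : 0 ≤ a) : τ a ≤ ‖a‖ := by
  have hsa : IsSelfAdjoint a := IsSelfAdjoint.of_nonneg h0
  have h1 := hsa.le_algebraMap_norm_self
  rw [Algebra.algebraMap_eq_smul_one] at h1
  have hM : ‖a‖ • (1 : Op H) ∈ M := by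
    rw [← Complex.coe_smul]
    exact smul_mem' _ (one_mem M)
  have := h.mono ha hM h1
  rwa [map_smul, h.one, smul_eq_mul, mul_one] at this

theorem Tr.proj (h : Tr M τ) {p : Op H} (hp : IsStarProjection p) (hpM : p ∈ M) :
    0 ≤ τ p ∧ τ p ≤ 1 ∧ (τ p = 0 → p = 0) := by
  have e : star p * p = p := by rw [hp.isSelfAdjoint.star_eq, hp.isIdempotentElem.eq]
  have e' : star (1 - p) * (1 - p) = 1 - p := by
    rw [hp.one_sub.isSelfAdjoint.star_eq, hp.one_sub.isIdempotentElem.eq]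
  have h1 := h.pos p hpM
  have h2 := h.pos (1 - p) (sub_mem (one_mem M) hpM)
  rw [e] at h1
  rw [e', map_sub, h.one] at h2
  exact ⟨h1, by linarith, fun h0 => h.faith p hpM (by rwa [e])⟩

theorem Tr.card_pos (h : Tr M τ) (he : MU e 1) : 0 < Fintype.card ι := by
  rcases isEmpty_or_nonempty ι with hι | hι
  · have h1 := he.sum
    rw [Finset.univ_eq_empty, Finset.sum_empty] at h1
    have h2 := h.one
    rw [← h1, map_zero] at h2
    exact absurd h2 zero_ne_one
  · exact Fintype.card_pos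

theorem Tr.unit (h : Tr M τ) (he : MU e 1) (heM : ∀ i j, e i j ∈ M) (t : ι) :
    τ (e t t) = (Fintype.card ι : ℝ)⁻¹ := by
  have h1 : ∀ s, τ (e s s) = τ (e t t) := fun s => by
    have := h.comm _ (heM s t) _ (heM t s)
    rwa [he.mul, he.mul, if_pos rfl, if_pos rfl] at this
  have h2 := h.one
  rw [← he.sum, map_sum] at h2
  simp only [h1, sum_const, card_univ, nsmul_eq_mul] at h2
  exact eq_inv_of_mul_eq_one_right h2

theorem Tr.pf_eq (h : Tr M τ) (he : MU e 1) (heM : ∀ i j, e i j ∈ M) (F : Finset ι) :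
    τ (pF e F) = F.card / Fintype.card ι := by
  rw [pF, map_sum]
  simp only [h.unit he heM, sum_const, nsmul_eq_mul]
  rw [div_eq_mul_inv]

theorem Tr.dom (h : Tr M τ) :
    ∃ g : Op H →L[ℝ] ℝ, Pos g 1 ∧ ∀ b ∈ M, τ (star b * b) ≤ g (star b * b) := by
  obtain ⟨g, hg, hv⟩ := pietsch (H := H) (T := {b : Op H // b ∈ M}) (fun b => b.1)
    (fun b => τ (star b.1 * b.1)) (s := 1) zero_le_one (fun κ _ t w hw => by
      have e : ∀ j, (w j : ℂ) • (star (t j).1 * (t j).1) = w j • (star (t j).1 * (t j).1) :=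
        fun j => Complex.coe_smul _ _
      have hM : ∑ j, (w j : ℂ) • (star (t j).1 * (t j).1) ∈ M :=
        sum_mem fun j _ => smul_mem' _ (mul_mem (star_mem (t j).2) (t j).2)
      have h0 : 0 ≤ ∑ j, (w j : ℂ) • (star (t j).1 * (t j).1) :=
        sum_nonneg fun j _ => by
          rw [e]
          exact smul_nonneg (hw j) (star_mul_self_nonneg _)
      have h1 := h.le_norm hM h0
      rw [one_mul]
      refine le_trans (le_of_eq ?_) h1
      rw [map_sum]
      exact sum_congr rfl fun j _ => by rw [e, map_smul, smul_eq_mul])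
  exact ⟨g, hg, fun b hb => by simpa using hv ⟨b, hb⟩⟩

theorem cmp (hF : Fac M) (h : Tr M τ) {l r : Op H} (hl : IsStarProjection l) (hlM : l ∈ M)
    (hr : IsStarProjection r) (hrM : r ∈ M) (hlr : τ l ≤ τ r) :
    ∃ t ∈ M, star t * t = l ∧ r * t = t := by
  obtain ⟨z, hz, h1, h2⟩ := compare hl hr hlM hrM
  rcases hF.cen z hz with rfl | rfl
  · rw [sub_zero, one_mul] at h2
    obtain ⟨v, hv, hvv, hlv⟩ := h2.isom hr hrM hl
    have hvr : v * r = v := VN2.piso_right hr hvv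
    have hw : IsStarProjection (v * star v) := by
      refine ⟨?_, ?_⟩
      · rw [IsIdempotentElem, mul_assoc, ← mul_assoc (star v), hvv, ← mul_assoc, hvr]
      · rw [IsSelfAdjoint, star_mul, star_star]
    have hlw : l * (v * star v) = v * star v := by rw [← mul_assoc, hlv]
    have hd : IsStarProjection (l - v * star v) := hw.sub_of_mul_eq_right hl hlw
    have hvs : star v ∈ M := star_mem hv
    obtain ⟨h0, -, h3⟩ := h.proj hd (sub_mem hlM (mul_mem hv hvs))
    have h4 : τ (l - v * star v) = τ l - τ r := by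
      rw [map_sub, h.comm v hv _ hvs, hvv]
    have h5 := h3 (by linarith)
    refine ⟨star v, hvs, by rw [star_star]; exact (sub_eq_zero.1 h5).symm, ?_⟩
    have h6 := congrArg star hvr
    rwa [star_mul, hr.isSelfAdjoint.star_eq] at h6
  · rw [one_mul] at h1
    exact h1.isom hl hlM hr

/-- moving a projection under a sum of diagonal matrix units -/
theorem cmp_pF (hF : Fac M) (h : Tr M τ) (he : MU e 1) (heM : ∀ i j, e i j ∈ M) {l : Op H}
    (hl : IsStarProjection l) (hlM : l ∈ M) : ∃ F : Finset ι, ∃ t ∈ M, star t * t = l ∧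
      pF e F * t = t ∧ (F.card : ℝ) / Fintype.card ι ≤ τ l + (Fintype.card ι : ℝ)⁻¹ := by
  have hk : (0 : ℝ) < Fintype.card ι := Nat.cast_pos.2 (h.card_pos he)
  obtain ⟨h0, h1, -⟩ := h.proj hl hlM
  have hn : ⌈(Fintype.card ι : ℝ) * τ l⌉₊ ≤ (univ : Finset ι).card := by
    rw [card_univ, Nat.ceil_le]
    exact mul_le_of_le_one_right hk.le h1
  obtain ⟨F, -, hFc⟩ := exists_subset_card_eq hn
  have h2 : (Fintype.card ι : ℝ) * τ l ≤ F.card := by rw [hFc]; exact Nat.le_ceil _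
  have h3 : (F.card : ℝ) < Fintype.card ι * τ l + 1 := by
    rw [hFc]; exact Nat.ceil_lt_add_one (mul_nonneg hk.le h0)
  have hpM : pF e F ∈ M := sum_mem fun i _ => heM i i
  obtain ⟨t, ht, h4, h5⟩ := cmp hF h hl hlM (he.proj F) hpM (by
    rw [h.pf_eq he heM, le_div_iff₀ hk, mul_comm]; exact h2)
  refine ⟨F, t, ht, h4, h5, ?_⟩
  rw [div_le_iff₀ hk, add_mul, inv_mul_cancel₀ hk.ne', mul_comm]
  exact h3.le

/-- projections whose sum is a projection -/
theorem proj_sum {κ : Type} [Fintype κ] {q : κ → Op H} (hq : ∀ j, IsStarProjection (q j))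
    {p : Op H} (hp : IsStarProjection p) (hs : ∑ j, q j = p) :
    (∀ j, p * q j = q j) ∧ ∀ i j, i ≠ j → q i * q j = 0 := by
  classical
  have hre : ∀ {r : Op H}, IsStarProjection r → ∀ ζ, (⟪ζ, r ζ⟫_ℂ).re = ‖r ζ‖ ^ 2 := by
    intro r hr ζ
    have := VN0.re_inner_star_mul r ζ
    rwa [hr.isSelfAdjoint.star_eq, hr.isIdempotentElem.eq] at this
  have hle : ∀ ζ, ∑ j, ‖q j ζ‖ ^ 2 ≤ ‖ζ‖ ^ 2 := by
    intro ζ
    have h1 : ∑ j, ‖q j ζ‖ ^ 2 = ‖p ζ‖ ^ 2 := by
      rw [← hre hp, ← hs, _root_.sum_apply, inner_sum, Complex.re_sum]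
      exact sum_congr rfl fun j _ => (hre (hq j) ζ).symm
    rw [h1]
    exact pow_le_pow_left₀ (norm_nonneg _) (VN0.norm_proj_le hp ζ) 2
  have horth : ∀ i j, i ≠ j → q i * q j = 0 := by
    intro i j hij
    ext ζ
    have h1 := hle (q j ζ)
    have h2 : ∑ k ∈ ({i, j} : Finset κ), ‖q k (q j ζ)‖ ^ 2 ≤ ∑ k, ‖q k (q j ζ)‖ ^ 2 :=
      sum_le_sum_of_subset_of_nonneg (subset_univ _) fun _ _ _ => sq_nonneg _
    rw [sum_pair hij, VN0.proj_proj (hq j)] at h2
    have h3 : ‖q i (q j ζ)‖ ^ 2 ≤ 0 := by linarith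
    have h4 : q i (q j ζ) = 0 := by
      rw [← norm_eq_zero]
      exact pow_eq_zero_iff two_ne_zero |>.1 (le_antisymm h3 (sq_nonneg _))
    exact h4
  refine ⟨fun j => ?_, horth⟩
  rw [← hs, sum_mul, sum_eq_single j (fun i _ hij => horth i j hij) (fun hj => absurd (mem_univ j) hj)]
  exact (hq j).isIdempotentElem.eq

theorem fac_of (h1 : ∀ z ∈ M, (∀ x ∈ M, z * x = x * z) → ∃ c : ℂ, z = c • (1 : Op H))
    (h2 : ∀ p ∈ M, IsStarProjection p → p ≠ 0 →
      ∃ q ∈ M, IsStarProjection q ∧ q ≠ 0 ∧ q ≠ p ∧ p * q = q) : Fac M := by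
  have hcen : ∀ z, Cen M z → z = 0 ∨ z = 1 := by
    intro z hz
    obtain ⟨c, hc⟩ := h1 z hz.2.1 hz.2.2
    have h3 := hz.1.isIdempotentElem.eq
    rw [hc, smul_mul_smul_comm, mul_one, ← sub_eq_zero, ← sub_smul, smul_eq_zero] at h3
    rcases h3 with h3 | h3
    · have h4 : c * (c - 1) = 0 := by rw [mul_sub, mul_one]; exact h3
      rcases mul_eq_zero.1 h4 with h5 | h5
      · left; rw [hc, h5, zero_smul]
      · right; rw [hc, sub_eq_zero.1 h5, one_smul]
    · left; rw [hc, h3, smul_zero]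
  refine ⟨hcen, fun k hk => halving (IsStarProjection.one _) (one_mem M) ?_ hk⟩
  intro p hpM hp hp0 _ hab
  obtain ⟨q, hqM, hq, hq0, hqp, hpq⟩ := h2 p hpM hp hp0
  have hpp := hp.isIdempotentElem.eq
  have hqq := hq.isIdempotentElem.eq
  have hqp' : q * p = q := by
    have h3 := congrArg star hpq
    rwa [star_mul, hp.isSelfAdjoint.star_eq, hq.isSelfAdjoint.star_eq] at h3
  obtain ⟨z, hz, hz1, hz2⟩ := exists_csupp (sub_mem hpM hqM)
  rcases hcen z hz with rfl | rfl
  · rw [zero_mul] at hz1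
    exact hqp (sub_eq_zero.1 hz1.symm).symm
  · refine hq0 ((mul_one q).symm.trans (hz2 q fun x hx => ?_))
    have h3 := hab (q * x) (mul_mem hqM hx) (p - q) (sub_mem hpM hqM)
    have e1 : p * (p - q) = p - q := by rw [mul_sub, hpp, hpq]
    have e2 : (p - q) * p = p - q := by rw [sub_mul, hpp, hqp']
    have e3 : (p - q) * q = 0 := by rw [sub_mul, hqq, hpq, sub_self]
    rw [e1, e2, ← mul_assoc (p - q), e3, zero_mul, zero_mul, ← mul_assoc p q, hpq,
      mul_assoc (q * x), e1, mul_assoc (q * x), e2] at h3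
    exact h3


end Pool.Agent.Kad.H2
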