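import Pool.Agent.Lib.MP_22c5db_an.H2.Fold
import Pool.Agent.Lib.MP_22c5db_an.H2.Trace

/-! The estimate for flat elements. -/

open scoped InnerProductSpace ComplexConjugate
open Finset

noncomputable section

namespace Pool.Agent.Kad.H2

universe u

set_option linter.unusedSectionVars false

variable {H : Type u} [NormedAddCommGroup H] [InnerProductSpace ℂ H] [CompleteSpace H]
  {M : VonNeumannAlgebra H} {τ : Op H →ₗ[ℝ] ℝ} {φ : Bil H} {C : ℝ}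
  {ι : Type} [Fintype ι] [DecidableEq ι] {e : ι → ι → Op H}

theorem extr_cl {b : Op H} (hb : ‖b‖ ≤ 1) (ξ : H) :
    ‖b ξ‖ ^ 2 + ‖(1 - star b * b) ξ‖ ^ 2 ≤ ‖ξ‖ ^ 2 := by
  have h1 : (1 - star b * b) ξ = ξ - star b (b ξ) := rfl
  have h2 : RCLike.re ⟪ξ, star b (b ξ)⟫_ℂ = ‖b ξ‖ ^ 2 := by
    rw [ContinuousLinearMap.star_eq_adjoint, ContinuousLinearMap.adjoint_inner_right,
      inner_self_eq_norm_sq]
  have h3 : ‖star b (b ξ)‖ ≤ ‖b ξ‖ := by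
    refine ((star b).le_opNorm _).trans ?_
    rw [norm_star]
    exact mul_le_of_le_one_left (norm_nonneg _) hb
  have h4 := pow_le_pow_left₀ (norm_nonneg _) h3 2
  rw [h1, norm_sub_sq (𝕜 := ℂ), h2]
  linarith

/-- the functional of a family -/
def extrG {T : Type} [Fintype T] (φ : Bil H) (x c : T → Op H) (ζ : H) : Op H →ₗ[ℝ] ℝ where
  toFun z := ∑ r, RCLike.re ⟪φ (x r) (c r) ζ, φ (x r) (c r * z) ζ⟫_ℂ
  map_add' z z' := by
    simp only [mul_add, map_add, add_apply, inner_add_right, sum_add_distrib]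
  map_smul' s z := by
    have h : s • z = (s : ℂ) • z := rfl
    simp only [h, mul_smul_comm, map_smul, smul_apply, inner_smul_right, RingHom.id_apply,
      smul_eq_mul, mul_sum]
    refine sum_congr rfl fun r _ => ?_
    simp

theorem extrG_le {T : Type} [Fintype T] (x c : T → Op H) (ζ : H) (z : Op H) {A : ℝ} (hA : 0 ≤ A)
    (h1 : ∑ r, ‖φ (x r) (c r) ζ‖ ^ 2 ≤ A) (h2 : ∑ r, ‖φ (x r) (c r * z) ζ‖ ^ 2 ≤ A * ‖z‖ ^ 2) :
    |extrG φ x c ζ z| ≤ A * ‖z‖ := by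
  have h3 : |extrG φ x c ζ z| ≤ ∑ r, ‖φ (x r) (c r) ζ‖ * ‖φ (x r) (c r * z) ζ‖ :=
    (abs_sum_le_sum_abs _ _).trans (sum_le_sum fun r _ =>
      (RCLike.abs_re_le_norm _).trans (norm_inner_le_norm _ _))
  refine h3.trans (le_of_sq_le_sq ?_ (mul_nonneg hA (norm_nonneg _)))
  refine (sum_mul_sq_le_sq_mul_sq _ _ _).trans ?_
  calc _ ≤ A * (A * ‖z‖ ^ 2) := mul_le_mul h1 h2 (by positivity) hA
    _ = _ := by ring

theorem extrG_sub {T : Type} [Fintype T] (x c : T → Op H) (ζ : H) (z : Op H) :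
    ∑ r, ‖φ (x r) (c r) ζ‖ ^ 2 ≤
      ∑ r, ‖φ (x r) (c r * (1 - z)) ζ‖ ^ 2 + 2 * extrG φ x c ζ z := by
  have h : extrG φ x c ζ z = ∑ r, RCLike.re ⟪φ (x r) (c r) ζ, φ (x r) (c r * z) ζ⟫_ℂ := rfl
  rw [h, mul_sum, ← sum_add_distrib]
  refine sum_le_sum fun r _ => ?_
  rw [mul_sub, mul_one, map_sub, sub_apply, norm_sub_sq (𝕜 := ℂ)]
  have h1 := sq_nonneg ‖φ (x r) (c r * z) ζ‖
  linarith

/-- the values of the admissible families -/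
def extrS (M : VonNeumannAlgebra H) (φ : Bil H) (e : ι → ι → Op H) (ζ : H) (a : ℝ) : Set ℝ :=
  {v | ∃ (I T : Type) (_ : Fintype I) (_ : DecidableEq I) (_ : Fintype T) (π : T → I)
    (x : T → Op H) (b : I → Op H) (F : I → Finset ι), (∀ r, x r ∈ M) ∧
    (∀ i ξ, ∑ r with π r = i, ‖x r ξ‖ ^ 2 ≤ ‖ξ‖ ^ 2) ∧ (∀ i, b i ∈ M) ∧
    (∀ i, pF e (F i) * b i = b i) ∧ Cl b 1 ∧
    v = ∑ r, ‖φ (x r) (b (π r)) ζ‖ ^ 2 - a * ((∑ i, (F i).card : ℕ) / Fintype.card ι)}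

/-- the functional of a nearly extremal family -/
theorem extr [Nonempty ι] (h : Nrm M φ e C) (ζ : H) {ε : ℝ} (hε : 0 < ε) :
    ∃ g : Op H →ₗ[ℝ] ℝ, (∀ z ∈ M, |g z| ≤ (2 * (C * ‖ζ‖) ^ 2 + ε) * ‖z‖) ∧
      ∀ (κ : Type) [Fintype κ] (x : κ → Op H), (∀ l, x l ∈ M) → Cl x 1 → ∀ F : Finset ι,
        ∀ b ∈ M, ‖b‖ ≤ 1 → pF e F * b = b → ∑ l, ‖φ (x l) b ζ‖ ^ 2 ≤
          4 * (C * ‖ζ‖) ^ 2 * (F.card / Fintype.card ι) + ε + 2 * g (star b * b) := by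
  set S := extrS M φ e ζ (4 * (C * ‖ζ‖) ^ 2) with hS
  have h0 : (0 : ℝ) ∈ S :=
    ⟨Empty, Empty, inferInstance, inferInstance, inferInstance, id, fun r => r.elim,
      fun r => r.elim, fun r => r.elim, fun r => r.elim, fun r => r.elim, fun r => r.elim,
      fun r => r.elim, fun ξ => by simp, by simp⟩
  have hbd : BddAbove S := by
    refine ⟨(C * ‖ζ‖) ^ 2, ?_⟩
    rintro v ⟨I, T, _, _, _, π, x, b, F, hx, hx1, hb, hF, hb1, rfl⟩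
    have h1 := fold h π hx hx1 hb hF zero_le_one hb1 ζ
    have h2 : 0 ≤ (C * ‖ζ‖) ^ 2 * (((∑ i, (F i).card : ℕ) : ℝ) / Fintype.card ι) :=
      mul_nonneg (sq_nonneg _) (div_nonneg (Nat.cast_nonneg _) (Nat.cast_nonneg _))
    rw [mul_one] at h1
    linarith
  obtain ⟨v, ⟨I, T, _, _, _, π, y, c, G, hy, hy1, hc, hG, hc1, rfl⟩, hv⟩ :=
    exists_lt_of_lt_csSup ⟨0, h0⟩ (sub_lt_self (sSup S) hε)
  have hT : 0 ≤ sSup S := le_csSup hbd h0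
  have h1 := fold h π hy hy1 hc hG zero_le_one hc1 ζ
  rw [mul_one] at h1
  have hA : (C * ‖ζ‖) ^ 2 * (1 + 2 * (((∑ i, (G i).card : ℕ) : ℝ) / Fintype.card ι)) ≤
      2 * (C * ‖ζ‖) ^ 2 + ε := by linarith
  refine ⟨extrG φ y (fun r => c (π r)) ζ, fun z hz => ?_, fun κ _ x hx hx1 F b hb hb1 hF => ?_⟩
  · refine extrG_le _ _ _ _ (add_nonneg (mul_nonneg zero_le_two (sq_nonneg _)) hε.le) (h1.trans hA) ?_
    have h2 := fold h π hy hy1 (b := fun i => c i * z) (fun i => mul_mem (hc i) hz) (F := G)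
      (fun i => by rw [← mul_assoc, hG]) (mul_nonneg zero_le_one (norm_nonneg z)) (hc1.mul z) ζ
    refine h2.trans ?_
    calc _ = (C * ‖ζ‖) ^ 2 * (1 + 2 * (((∑ i, (G i).card : ℕ) : ℝ) / Fintype.card ι)) *
          ‖z‖ ^ 2 := by ring
      _ ≤ _ := mul_le_mul_of_nonneg_right hA (sq_nonneg _)
  · have hm : ∑ r, ‖φ (y r) (c (π r) * (1 - star b * b)) ζ‖ ^ 2 + ∑ l, ‖φ (x l) b ζ‖ ^ 2 -
        4 * (C * ‖ζ‖) ^ 2 * ((F.card + ∑ i, (G i).card : ℕ) / Fintype.card ι) ∈ S := by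
      refine ⟨Option I, T ⊕ κ, inferInstance, inferInstance, inferInstance,
        Sum.elim (fun r => some (π r)) (fun _ => none), Sum.elim y x,
        fun o => o.elim b fun i => c i * (1 - star b * b), fun o => o.elim F G, ?_, ?_, ?_, ?_, ?_,
        ?_⟩
      · rintro (r | r)
        exacts [hy r, hx r]
      · rintro (_ | i) ξ
        · simpa [sum_filter, Fintype.sum_sum_type] using hx1 ξ
        · simpa [sum_filter, Fintype.sum_sum_type] using hy1 i ξ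
      · rintro (_ | i)
        exacts [hb, mul_mem (hc i) (sub_mem (one_mem M) (mul_mem (star_mem hb) hb))]
      · rintro (_ | i)
        · exact hF
        · change pF e (G i) * (c i * _) = c i * _
          rw [← mul_assoc, hG]
      · intro ξ
        have h2 := hc1 ((1 - star b * b) ξ)
        have h3 := extr_cl hb1 ξ
        rw [Fintype.sum_option]
        change ‖b ξ‖ ^ 2 + ∑ i, ‖c i ((1 - star b * b) ξ)‖ ^ 2 ≤ _
        linarith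
      · rw [Fintype.sum_sum_type, Fintype.sum_option]
        rfl
    have h2 := le_csSup hbd hm
    have h3 := extrG_sub (φ := φ) y (fun r => c (π r)) ζ (star b * b)
    rw [Nat.cast_add, add_div, mul_add] at h2
    linarith

theorem extr_unit {b : Op H} (hb : b ∈ M) :
    ∃ b' ∈ M, ‖b'‖ ≤ 1 ∧ b = (‖b‖ : ℂ) • b' ∧ ∀ p : Op H, p * b = b → p * b' = b' := by
  refine ⟨((‖b‖ : ℂ)⁻¹) • b, M.toStarSubalgebra.smul_mem hb _, ?_, ?_, fun p hp => ?_⟩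
  · rw [norm_smul, norm_inv, Complex.norm_real, norm_norm]
    exact inv_mul_le_one_of_le₀ le_rfl (norm_nonneg _)
  · rcases eq_or_ne b 0 with rfl | h0
    · simp
    · rw [smul_smul, mul_inv_cancel₀ (by exact_mod_cast norm_ne_zero_iff.2 h0), one_smul]
  · rw [mul_smul_comm, hp]

theorem extr_scale [Nonempty ι] (h : Nrm M φ e C) (ζ : H) {ε : ℝ} (hε : 0 < ε) :
    ∃ g : Op H →ₗ[ℝ] ℝ, (∀ z ∈ M, |g z| ≤ (2 * (C * ‖ζ‖) ^ 2 + ε) * ‖z‖) ∧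
      ∀ (κ : Type) [Fintype κ] (x : κ → Op H), (∀ l, x l ∈ M) → Cl x 1 → ∀ F : Finset ι,
        ∀ b ∈ M, pF e F * b = b → ∑ l, ‖φ (x l) b ζ‖ ^ 2 -
          4 * (C * ‖ζ‖) ^ 2 * ‖b‖ ^ 2 * (F.card / Fintype.card ι) ≤
            ε * ‖b‖ ^ 2 + 2 * g (star b * b) := by
  obtain ⟨g, g1, g2⟩ := extr h ζ hε
  refine ⟨g, g1, fun κ _ x hx hc F b hb hF => ?_⟩
  obtain ⟨b', m1, m2, m3, m4⟩ := extr_unit hb
  have a := mul_le_mul_of_nonneg_left (g2 κ x hx hc F b' m1 m2 (m4 _ hF)) (sq_nonneg ‖b‖)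
  generalize ‖b‖ = r at *
  have e1 : ∑ l, ‖φ (x l) b ζ‖ ^ 2 = r ^ 2 * ∑ l, ‖φ (x l) b' ζ‖ ^ 2 := by
    rw [mul_sum]
    refine sum_congr rfl fun l _ => ?_
    rw [m3, map_smul, smul_apply, norm_smul, mul_pow, Complex.norm_real,
      Real.norm_eq_abs, sq_abs]
  have e2 : g (star b * b) = r ^ 2 * g (star b' * b') := by
    rw [m3, star_smul, smul_mul_smul_comm, Complex.star_def, Complex.conj_ofReal,
      ← Complex.ofReal_mul, Complex.coe_smul, map_smul, smul_eq_mul, sq]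
  rw [e1, e2]
  linarith

theorem flat [Nonempty ι] (h : Nrm M φ e C) (ζ : H) :
    ∃ g : Op H →L[ℝ] ℝ, Pos g (‖ζ‖ ^ 2) ∧ Flat M φ e C ζ g := by
  obtain ⟨g, g1, g2⟩ := pietsch (T := {p : Op H × ℝ // p.1 ∈ M ∧
      ∃ (κ : Type) (_ : Fintype κ) (x : κ → Op H) (F : Finset ι), (∀ l, x l ∈ M) ∧ Cl x 1 ∧
        pF e F * p.1 = p.1 ∧ p.2 = ∑ l, ‖φ (x l) p.1 ζ‖ ^ 2 -
          4 * (C * ‖ζ‖) ^ 2 * ‖p.1‖ ^ 2 * (F.card / Fintype.card ι)})
      (fun t => t.1.1) (fun t => t.1.2) (s := 6 * (C * ‖ζ‖) ^ 2) (by positivity) (by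
    intro κ _ t w hw
    set Z : Op H := ∑ j, (w j : ℂ) • (star (t j).1.1 * (t j).1.1) with hZ
    have zM : Z ∈ M := sum_mem fun j _ =>
      M.toStarSubalgebra.smul_mem (mul_mem (star_mem (t j).2.1) (t j).2.1) _
    have S0 : 0 ≤ ∑ j, w j * ‖(t j).1.1‖ ^ 2 := sum_nonneg fun j _ => mul_nonneg (hw j) (sq_nonneg _)
    have key : ∀ ε : ℝ, 0 < ε → ∑ j, w j * (t j).1.2 ≤ 4 * (C * ‖ζ‖) ^ 2 * ‖Z‖ +
        ε * (∑ j, w j * ‖(t j).1.1‖ ^ 2 + 2 * ‖Z‖) := by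
      intro ε hε
      obtain ⟨g, g1, g2⟩ := extr_scale h ζ hε
      have a : ∑ j, w j * (t j).1.2 ≤
          ∑ j, w j * (ε * ‖(t j).1.1‖ ^ 2 + 2 * g (star (t j).1.1 * (t j).1.1)) := by
        refine sum_le_sum fun j _ => mul_le_mul_of_nonneg_left ?_ (hw j)
        obtain ⟨m, κ', _, x, F, m1, m2, m3, m4⟩ := (t j).2
        rw [m4]
        exact g2 κ' x m1 m2 F _ m m3
      have b : ∑ j, w j * (ε * ‖(t j).1.1‖ ^ 2 + 2 * g (star (t j).1.1 * (t j).1.1)) =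
          ε * ∑ j, w j * ‖(t j).1.1‖ ^ 2 + 2 * g Z := by
        rw [hZ, map_sum, mul_sum, mul_sum, ← sum_add_distrib]
        refine sum_congr rfl fun j _ => ?_
        rw [Complex.coe_smul, map_smul, smul_eq_mul]
        ring
      have c := (le_abs_self _).trans (g1 Z zM)
      linarith
    have k2 : ∑ j, w j * (t j).1.2 ≤ 4 * (C * ‖ζ‖) ^ 2 * ‖Z‖ := by
      refine le_of_forall_pos_le_add fun η hη => ?_
      set R := ∑ j, w j * ‖(t j).1.1‖ ^ 2 + 2 * ‖Z‖ with hR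
      have R0 : 0 ≤ R := by positivity
      refine (key (η / (R + 1)) (by positivity)).trans (add_le_add_right ?_ _)
      rw [div_mul_eq_mul_div, div_le_iff₀ (by positivity)]
      nlinarith
    nlinarith [mul_nonneg (sq_nonneg (C * ‖ζ‖)) (norm_nonneg Z)])
  refine ⟨‖ζ‖ ^ 2 • g, by simpa using g1.smul (sq_nonneg ‖ζ‖), fun κ _ x hx hc F b hb hF => ?_⟩
  have a := g2 ⟨(b, ∑ l, ‖φ (x l) b ζ‖ ^ 2 - 4 * (C * ‖ζ‖) ^ 2 * ‖b‖ ^ 2 *
    (F.card / Fintype.card ι)), hb, κ, inferInstance, x, F, hx, hc, hF, rfl⟩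
  simp only [smul_apply, smul_eq_mul] at a ⊢
  linarith

theorem exists_dom (hτ : Tr M τ) (h : Nrm M φ e C) (ζ : H) :
    ∃ G : Op H →L[ℝ] ℝ, Dom M τ φ e C ζ G := by
  have : Nonempty ι := Fintype.card_pos_iff.1 (hτ.card_pos h.mu)
  obtain ⟨g, g1, g2⟩ := flat h ζ
  obtain ⟨v, v1, v2⟩ := exists_vec ζ
  obtain ⟨d, d1, d2⟩ := hτ.dom
  have d3 := d1.smul (sq_nonneg ‖ζ‖)
  have e0 : ∀ b : Op H, (g + v + ‖ζ‖ ^ 2 • d) (star b * b) =
      g (star b * b) + v (star b * b) + (‖ζ‖ ^ 2 • d) (star b * b) := fun _ => rfl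
  refine ⟨g + v + ‖ζ‖ ^ 2 • d, ?_, fun κ _ x hx hc F b hb hF => ?_, fun b => ?_, fun b hb => ?_⟩
  · have := (g1.add v1).add d3
    rwa [show ‖ζ‖ ^ 2 + ‖ζ‖ ^ 2 + ‖ζ‖ ^ 2 * 1 = 3 * ‖ζ‖ ^ 2 by ring] at this
  · refine (g2 κ x hx hc F b hb hF).trans (mul_le_mul_of_nonneg_left ?_ (sq_nonneg C))
    rw [e0]
    linarith [v1.pos b, d3.pos b]
  · rw [e0, v2]
    linarith [g1.pos b, d3.pos b]
  · rw [e0, smul_apply, smul_eq_mul]
    linarith [g1.pos b, v1.pos b, mul_le_mul_of_nonneg_left (d2 b hb) (sq_nonneg ‖ζ‖)]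


end Pool.Agent.Kad.H2
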