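import Pool.Agent.Lib.MP_22c5db_an.H2.Basic

/-! Symmetry under the unitary group of the first factor. -/

open scoped InnerProductSpace ComplexConjugate
open Finset

noncomputable section

namespace Pool.Agent.Kad.H2

universe u

set_option linter.unusedSectionVars false

variable {K : Type u} [NormedAddCommGroup K] [InnerProductSpace ℂ K] [CompleteSpace K]
  {A B : Type} [Fintype A] [Fintype B] [DecidableEq A] [DecidableEq B] [Nonempty A] [Nonempty B]
  {E : A × B → A × B → Op K} {y : Op K} {M : ℕ} {δ : ℝ}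

/-- the unitary `g` tensor one -/
def symG (B : Type) [Fintype B] [DecidableEq B] (g : U A) : U (A × B) :=
  ⟨Matrix.kroneckerMap (· * ·) g.1 (1 : Matrix B B ℂ),
    Matrix.kronecker_mem_unitary g.2 (one_mem _)⟩

theorem sym_rho (E : A × B → A × B → Op K) (g : U A) :
    rho E (symG B g : U (A × B)) = rho (FA E) g := by
  simp only [rho, FA, symG, Fintype.sum_prod_type, Matrix.kroneckerMap_apply, Matrix.one_apply,
    mul_ite, mul_one, mul_zero, ite_smul, zero_smul, sum_ite_eq, mem_univ, if_true, smul_sum]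
  exact sum_congr rfl fun i _ => sum_comm

theorem sym_conj {R r : Op K} (hR : R * star R = 1) (hR' : star R * R = 1) (hy : y * R = R * y)
    (b : ℕ) : star R * (r * (y * r) ^ b) * R =
      star R * r * R * (y * (star R * r * R)) ^ b := by
  have h1 : star R * y = y * star R := by
    calc star R * y = star R * y * (R * star R) := by rw [hR, mul_one]
      _ = star R * (y * R) * star R := by simp only [mul_assoc]
      _ = star R * R * y * star R := by rw [hy]; simp only [mul_assoc]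
      _ = y * star R := by rw [hR', one_mul]
  induction b with
  | zero => simp
  | succ b ih =>
    rw [pow_succ, pow_succ, ← mul_assoc (star R * r * R), ← ih]
    have h2 : R * (y * (star R * r * R)) = y * r * R := by
      rw [← mul_assoc R y, ← hy]
      calc y * R * (star R * r * R) = y * (R * star R) * r * R := by simp only [mul_assoc]
        _ = y * r * R := by rw [hR, mul_one]
    rw [mul_assoc (star R * (r * (y * r) ^ b)) R, h2]
    simp only [mul_assoc]

/-- invariance under conjugation -/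
theorem ex_conj (h : MU E 1) (hc : ∀ α γ, y * FA E α γ = FA E α γ * y) (g : U A) (b : ℕ)
    (f : Op K → ℂ) :
    Ex (fun v : U (A × B) => f (star (rho (FA E) g) * (rho E v * (y * rho E v) ^ b) *
      rho (FA E) g)) = Ex fun v : U (A × B) => f (rho E v * (y * rho E v) ^ b) := by
  have hu := Unitary.mem_iff.1 (h.rho_unitary (symG B g))
  have hy : y * rho (FA E) g = rho (FA E) g * y := by
    simp only [rho, mul_sum, sum_mul, mul_smul_comm, smul_mul_assoc, hc]
  rw [sym_rho] at hu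
  have e1 := Ex_mul_left (fun v : U (A × B) => f (rho E v * (y * rho E v) ^ b)) (star (symG B g))
  have e2 := Ex_mul_right (fun v : U (A × B) => f (rho E (star (symG B g) * v : U (A × B)) *
    (y * rho E (star (symG B g) * v : U (A × B))) ^ b)) (symG B g)
  rw [← e1, ← e2]
  congr 1
  funext v
  have e3 : rho E (star (symG B g) * (v * symG B g) : U (A × B)) =
      star (rho (FA E) g) * rho E v * rho (FA E) g := by
    rw [← sym_rho, ← h.rho_star, ← h.rho_mul, ← h.rho_mul, mul_assoc]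
    rfl
  rw [e3, sym_conj hu.2 hu.1 hy]

theorem exists_flat (γ : A) : ∃ g : U A, ∀ α, g.1 α γ = ((√(Fintype.card A))⁻¹ : ℝ) := by
  have hk : (0 : ℝ) < Fintype.card A := by exact_mod_cast Fintype.card_pos
  let w : EuclideanSpace ℂ A := WithLp.toLp 2 fun _ => (((√(Fintype.card A))⁻¹ : ℝ) : ℂ)
  have hw : ‖w‖ = 1 := by
    rw [EuclideanSpace.norm_eq]
    simp only [w, Complex.norm_real, Real.norm_eq_abs, sq_abs, sum_const, card_univ, nsmul_eq_mul,
      inv_pow, Real.sq_sqrt hk.le]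
    rw [mul_inv_cancel₀ hk.ne', Real.sqrt_one]
  have ho : Orthonormal ℂ (({γ} : Set A).domRestrict fun _ : A => w) := by
    refine ⟨fun _ => hw, fun i j hij => ?_⟩
    exact absurd (Subsingleton.elim i j) hij
  obtain ⟨b, hb⟩ := ho.exists_orthonormalBasis_extension_of_card_eq (by simp)
  refine ⟨⟨_, (EuclideanSpace.basisFun A ℂ).toMatrix_orthonormalBasis_mem_unitary b⟩, fun α => ?_⟩
  have := hb γ rfl
  simp [Module.Basis.toMatrix_apply, this, w]

theorem sym_ex_sq {ι P : Type} [Fintype ι] [DecidableEq ι] [Fintype P] (z : P → U ι → K)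
    (hz : ∀ p, Continuous (z p)) :
    Ex (fun v => ‖∑ p, z p v‖ ^ 2) = ∑ p, ∑ q, (Ex fun v => ⟪z p v, z q v⟫_ℂ).re := by
  have hc : ∀ p q, Continuous fun v => ⟪z p v, z q v⟫_ℂ := fun p q => (hz p).inner (hz q)
  have h1 : ∀ v, ‖∑ p, z p v‖ ^ 2 = ∑ p, ∑ q, (⟪z p v, z q v⟫_ℂ).re := by
    intro v
    rw [← inner_self_eq_norm_sq (𝕜 := ℂ), sum_inner]
    simp only [inner_sum, map_sum]
    rfl
  simp only [h1]
  have hr : ∀ p q, Continuous fun v => (⟪z p v, z q v⟫_ℂ).re :=
    fun p q => Complex.continuous_re.comp (hc p q)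
  rw [Ex_sum _ fun p _ => continuous_finsetSum _ fun q _ => hr p q]
  refine sum_congr rfl fun p _ => ?_
  rw [Ex_sum _ fun q _ => hr p q]
  exact sum_congr rfl fun q _ => Ex_re (hc p q)

theorem sym_rho_mul {F : A → A → Op K} (h : MU F 1) (s : Matrix A A ℂ) (β γ : A) :
    rho F s * F β γ = ∑ α, s α β • F α γ := by
  simp only [rho, sum_mul, smul_mul_assoc, h.mul, smul_ite, smul_zero, sum_ite_eq', mem_univ,
    if_true]

theorem sym_mul_rho {F : A → A → Op K} (h : MU F 1) (s : Matrix A A ℂ) (β γ : A) :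
    F γ β * star (rho F s) = ∑ α, conj (s α β) • F γ α := by
  rw [← h.adj β γ, ← star_mul, sym_rho_mul h, star_sum]
  simp only [star_smul, h.adj, RCLike.star_def]

/-- a diagonal unitary -/
def symDiag (d : A → ℂ) (hd : ∀ α, d α * conj (d α) = 1) : U A :=
  ⟨Matrix.diagonal d, by
    rw [Matrix.mem_unitaryGroup_iff, Matrix.star_eq_conjTranspose, Matrix.diagonal_conjTranspose,
      Matrix.diagonal_mul_diagonal, ← Matrix.diagonal_one]
    congr 1
    funext i
    exact hd i⟩

theorem sym_phase (h : MU E 1) (hc : ∀ α γ, y * FA E α γ = FA E α γ * y) (X : Op K) (b : ℕ)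
    (γ : A) (ζ : K) (d : A → ℂ) (hd : ∀ α, d α * conj (d α) = 1) (p q : A × A) :
    Ex (fun v : U (A × B) =>
      ⟪X ((FA E γ p.1 * (rho E v * (y * rho E v) ^ b) * FA E p.2 γ) ζ),
        X ((FA E γ q.1 * (rho E v * (y * rho E v) ^ b) * FA E q.2 γ) ζ)⟫_ℂ) =
    (d p.1 * conj (d p.2) * (conj (d q.1) * d q.2)) * Ex (fun v : U (A × B) =>
      ⟪X ((FA E γ p.1 * (rho E v * (y * rho E v) ^ b) * FA E p.2 γ) ζ),
        X ((FA E γ q.1 * (rho E v * (y * rho E v) ^ b) * FA E q.2 γ) ζ)⟫_ℂ) := by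
  have h1 := ex_conj h hc (symDiag d hd) b fun Z =>
    ⟪X ((FA E γ p.1 * Z * FA E p.2 γ) ζ), X ((FA E γ q.1 * Z * FA E q.2 γ) ζ)⟫_ℂ
  have h2 : ∀ (Z : Op K) (α β : A),
      FA E γ α * (star (rho (FA E) (symDiag d hd)) * Z * rho (FA E) (symDiag d hd)) * FA E β γ =
        (conj (d α) * d β) • (FA E γ α * Z * FA E β γ) := by
    intro Z α β
    have e1 : rho (FA E) (symDiag d hd) * FA E β γ = d β • FA E β γ := by
      rw [sym_rho_mul h.fa]
      simp [symDiag, Matrix.diagonal_apply]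
    have e2 : FA E γ α * star (rho (FA E) (symDiag d hd)) = conj (d α) • FA E γ α := by
      rw [sym_mul_rho h.fa]
      simp [symDiag, Matrix.diagonal_apply, apply_ite (starRingEnd ℂ)]
    calc _ = (FA E γ α * star (rho (FA E) (symDiag d hd))) * Z *
          (rho (FA E) (symDiag d hd) * FA E β γ) := by simp only [mul_assoc]
      _ = _ := by rw [e1, e2, smul_mul_assoc, smul_mul_smul_comm]
  rw [← Ex_mul]
  refine h1.symm.trans (congrArg Ex (funext fun v => ?_))
  simp only [h2, smul_apply, map_smul, inner_smul_left, inner_smul_right,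
    map_mul, Complex.conj_conj]
  ring

theorem sym_zero (h : MU E 1) (hc : ∀ α γ, y * FA E α γ = FA E α γ * y) (X : Op K) (b : ℕ)
    (γ : A) (ζ : K) (p q : A × A) (h1 : ¬ (p.1 = p.2 ∧ q.1 = q.2)) (h2 : p ≠ q) :
    Ex (fun v : U (A × B) =>
      ⟪X ((FA E γ p.1 * (rho E v * (y * rho E v) ^ b) * FA E p.2 γ) ζ),
        X ((FA E γ q.1 * (rho E v * (y * rho E v) ^ b) * FA E q.2 γ) ζ)⟫_ℂ) = 0 := by
  have key : ∃ d : A → ℂ, (∀ α, d α * conj (d α) = 1) ∧
      d p.1 * conj (d p.2) * (conj (d q.1) * d q.2) ≠ 1 := by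
    have hd : ∀ δ α : A, (if α = δ then Complex.I else 1) *
        conj (if α = δ then Complex.I else 1) = 1 := by
      intro δ α; split_ifs <;> simp
    have hI : Complex.I ≠ 1 := fun e => by simpa using congrArg Complex.re e
    obtain ⟨α, β⟩ := p
    obtain ⟨α', β'⟩ := q
    simp only [ne_eq, Prod.mk.injEq] at h1 h2 ⊢
    by_cases e1 : α = β
    · subst e1
      have e2 : α' ≠ β' := fun e => h1 ⟨rfl, e⟩
      refine ⟨fun i => if i = β' then Complex.I else 1, hd β', ?_⟩
      simp only [hd, if_neg e2, if_true, map_one, one_mul]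
      exact hI
    · by_cases e2 : α = α'
      · subst e2
        have e3 : β ≠ β' := fun e => h2 ⟨rfl, e⟩
        refine ⟨fun i => if i = β' then Complex.I else 1, hd β', ?_⟩
        simp only [if_neg e3, if_true, map_one, mul_one, ← mul_assoc, hd, one_mul]
        exact hI
      · refine ⟨fun i => if i = α then Complex.I else 1, hd α, ?_⟩
        simp only [if_neg (Ne.symm e1), if_neg (Ne.symm e2), if_true, map_one, mul_one, one_mul]
        split_ifs
        · rw [Complex.I_mul_I]; norm_num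
        · rw [mul_one]; exact hI
  obtain ⟨d, hd, hne⟩ := key
  have h3 := sym_phase h hc X b γ ζ d hd p q
  by_contra h0
  exact hne (mul_right_cancel₀ h0 (h3.symm.trans (one_mul _).symm))

theorem sym (h : MU E 1) (hc : ∀ α γ, y * FA E α γ = FA E α γ * y) {X : Op K}
    (hX : ∀ α γ, X * FA E α γ = FA E α γ * X) (b : ℕ) (γ : A) (ζ : K) :
    Ex (fun v : U (A × B) =>
      ‖X ((FA E γ γ * (rho E v * (y * rho E v) ^ b) * FA E γ γ) ζ)‖ ^ 2) ≤
      (Fintype.card A : ℝ)⁻¹ ^ 2 * ∑ β, Ex (fun v : U (A × B) =>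
        ‖X ((rho E v * (y * rho E v) ^ b) (FA E β γ ζ))‖ ^ 2) +
      Ex fun v : U (A × B) =>
        ‖X (ce (FA E) (rho E v * (y * rho E v) ^ b) (FA E γ γ ζ))‖ ^ 2 := by
  obtain ⟨g, hg⟩ := exists_flat γ
  have hF := h.fa
  have ha : (0 : ℝ) < Fintype.card A := by exact_mod_cast Fintype.card_pos
  have hW : Continuous fun v : U (A × B) => rho E v * (y * rho E v) ^ b := by
    have := (continuous_rho E).comp (continuous_subtype_val (p := fun s => s ∈ U (A × B)))
    exact this.mul ((continuous_const.mul this).pow b)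
  set W : U (A × B) → Op K := fun v => rho E v * (y * rho E v) ^ b with hWdef
  let z : A × A → U (A × B) → K := fun p v => X ((FA E γ p.1 * W v * FA E p.2 γ) ζ)
  have hz : ∀ p, Continuous (z p) := fun p =>
    X.continuous.comp (((continuous_const.mul hW).mul continuous_const).clm_apply continuous_const)
  have hsq : (((√(Fintype.card A))⁻¹ : ℝ) : ℂ) * ((√(Fintype.card A))⁻¹ : ℝ) =
      (((Fintype.card A : ℝ)⁻¹ : ℝ) : ℂ) := by
    rw [← Complex.ofReal_mul, ← mul_inv, Real.mul_self_sqrt ha.le]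
  have hnorm : ∀ w : K, ‖(((Fintype.card A : ℝ)⁻¹ : ℝ) : ℂ) • w‖ ^ 2 =
      (Fintype.card A : ℝ)⁻¹ ^ 2 * ‖w‖ ^ 2 := by
    intro w
    rw [norm_smul, Complex.norm_real, Real.norm_of_nonneg (inv_pos.2 ha).le, mul_pow]
  have h1 : ∀ Z : Op K, FA E γ γ * (star (rho (FA E) g) * Z * rho (FA E) g) * FA E γ γ =
      (((Fintype.card A : ℝ)⁻¹ : ℝ) : ℂ) • ∑ p : A × A, FA E γ p.1 * Z * FA E p.2 γ := by
    intro Z
    calc _ = (FA E γ γ * star (rho (FA E) g)) * Z * (rho (FA E) g * FA E γ γ) := by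
          simp only [mul_assoc]
      _ = _ := by
          rw [sym_rho_mul hF, sym_mul_rho hF]
          simp only [hg, Complex.conj_ofReal, ← smul_sum]
          rw [smul_mul_assoc, smul_mul_smul_comm, hsq, sum_mul, sum_mul_sum,
            Fintype.sum_prod_type]
  have h2 : Ex (fun v : U (A × B) => ‖X ((FA E γ γ * W v * FA E γ γ) ζ)‖ ^ 2) =
      (Fintype.card A : ℝ)⁻¹ ^ 2 * Ex fun v => ‖∑ p, z p v‖ ^ 2 := by
    have e := ex_conj h hc g b fun Z => ((‖X ((FA E γ γ * Z * FA E γ γ) ζ)‖ ^ 2 : ℝ) : ℂ)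
    rw [Ex_ofReal, Ex_ofReal, Complex.ofReal_inj] at e
    rw [← Ex_mul_real]
    refine e.symm.trans (congrArg Ex (funext fun v => ?_))
    rw [h1, smul_apply, map_smul, hnorm, _root_.sum_apply, map_sum]
  have h3 : Ex (fun v : U (A × B) => ‖X (ce (FA E) (W v) (FA E γ γ ζ))‖ ^ 2) =
      (Fintype.card A : ℝ)⁻¹ ^ 2 * Ex fun v => ‖∑ α, z (α, α) v‖ ^ 2 := by
    rw [← Ex_mul_real]
    refine congrArg Ex (funext fun v => ?_)
    have e : ce (FA E) (W v) * FA E γ γ =
        (((Fintype.card A : ℝ)⁻¹ : ℝ) : ℂ) • ∑ α, FA E γ α * W v * FA E α γ := by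
      rw [ce, smul_mul_assoc, sum_mul]
      simp only [sum_mul, mul_assoc, hF.mul, mul_ite, mul_zero]
      rw [sum_comm]
      simp only [sum_ite_eq', mem_univ, if_true, Complex.ofReal_inv, Complex.ofReal_natCast]
    show ‖X ((ce (FA E) (W v) * FA E γ γ) ζ)‖ ^ 2 = _
    rw [e, smul_apply, map_smul, hnorm, _root_.sum_apply, map_sum]
  have h4 : ∀ p, (Ex fun v => ⟪z p v, z p v⟫_ℂ).re = Ex fun v => ‖z p v‖ ^ 2 := by
    intro p
    rw [← Ex_re ((hz p).inner (hz p))]
    exact congrArg Ex (funext fun v => inner_self_eq_norm_sq (𝕜 := ℂ) _)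
  have h5 : ∀ p, 0 ≤ Ex fun v => ‖z p v‖ ^ 2 := by
    intro p
    rw [← Ex_const (ι := A × B) (0 : ℝ)]
    exact Ex_mono continuous_const ((hz p).norm.pow 2) fun v => sq_nonneg _
  have h6 : ∑ p, (Ex fun v => ‖z p v‖ ^ 2) =
      ∑ β, Ex (fun v : U (A × B) => ‖X (W v (FA E β γ ζ))‖ ^ 2) := by
    rw [Fintype.sum_prod_type_right]
    refine sum_congr rfl fun β _ => ?_
    have hc2 : ∀ α, Continuous fun v => ‖z (α, β) v‖ ^ 2 := fun α => (hz (α, β)).norm.pow 2
    rw [← Ex_sum _ fun α _ => hc2 α]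
    refine congrArg Ex (funext fun v => ?_)
    rw [← hF.sum_sq' γ]
    refine sum_congr rfl fun α _ => ?_
    show _ = ‖(FA E γ α * X) _‖ ^ 2
    rw [← hX]
    rfl
  have h7 : ∀ p q : A × A, (Ex fun v => ⟪z p v, z q v⟫_ℂ).re ≤
      (if p = q then Ex fun v => ‖z p v‖ ^ 2 else 0) +
        if p.1 = p.2 ∧ q.1 = q.2 then (Ex fun v => ⟪z p v, z q v⟫_ℂ).re else 0 := by
    intro p q
    by_cases e1 : p = q
    · subst e1
      rw [if_pos rfl, h4]
      have := h5 p
      split_ifs <;> linarith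
    · rw [if_neg e1, zero_add]
      split_ifs with e2
      · exact le_rfl
      · rw [sym_zero h hc X b γ ζ p q e2 e1, Complex.zero_re]
  rw [h2, h3, ← mul_add, sym_ex_sq z hz, sym_ex_sq (fun α => z (α, α)) fun α => hz _, ← h6]
  refine mul_le_mul_of_nonneg_left ?_ (sq_nonneg _)
  refine (sum_le_sum fun p _ => sum_le_sum fun q _ => h7 p q).trans (le_of_eq ?_)
  simp only [sum_add_distrib, sum_ite_eq, mem_univ, if_true]
  congr 1
  simp only [Fintype.sum_prod_type, ite_and, sum_ite_irrel, sum_ite_eq, mem_univ, if_true,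
    sum_const_zero]


end Pool.Agent.Kad.H2
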