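import Pool.Agent.Lib.MP_22c5db_an.H2.Xi
import Pool.Agent.Lib.MP_22c5db_an.H2.Sym

/-! The fourth moment of the window. -/

open scoped InnerProductSpace ComplexConjugate
open Finset

noncomputable section

namespace Pool.Agent.Kad.H2

universe u

set_option linter.unusedSectionVars false

variable {K : Type u} [NormedAddCommGroup K] [InnerProductSpace ℂ K] [CompleteSpace K]
  {A B : Type} [Fintype A] [Fintype B] [DecidableEq A] [DecidableEq B] [Nonempty A] [Nonempty B]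
  {E : A × B → A × B → Op K} {y : Op K} {M : ℕ} {δ : ℝ}

theorem four_ce_left {ι : Type} [Fintype ι] [DecidableEq ι] {G : ι → ι → Op K} (x : Op K)
    {z : Op K} (hz : ∀ i j, z * G i j = G i j * z) : ce G (z * x) = z * ce G x := by
  unfold ce
  rw [mul_smul_comm, mul_sum]
  refine congrArg _ (sum_congr rfl fun i _ => ?_)
  rw [mul_sum]
  refine sum_congr rfl fun k _ => ?_
  rw [← mul_assoc (G i k), ← hz, mul_assoc z, mul_assoc z]

theorem four_tri {X : Type*} [AddCommMonoid X] (g : ℕ → ℕ → X) (L : ℕ) :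
    ∑ n ∈ range L, ∑ m ∈ range L, (if n < m then g n m else 0) =
      ∑ d ∈ range (L - 1), ∑ n ∈ range (L - 1 - d), g n (n + d + 1) := by
  rw [← sum_product', ← sum_filter, sum_sigma']
  refine sum_nbij' (fun p => ⟨p.2 - p.1 - 1, p.1⟩) (fun q => (q.2, q.2 + q.1 + 1)) ?_ ?_ ?_ ?_ ?_
  · rintro ⟨n, m⟩ hp
    simp only [mem_filter, mem_product, mem_range, mem_sigma] at hp ⊢
    omega
  · rintro ⟨d, n⟩ hq
    simp only [mem_filter, mem_product, mem_range, mem_sigma] at hq ⊢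
    omega
  · rintro ⟨n, m⟩ hp
    simp only [mem_filter, mem_product, mem_range] at hp
    refine Prod.ext rfl ?_
    simp only
    omega
  · rintro ⟨d, n⟩ _
    have : n + d + 1 - n - 1 = d := by omega
    simp only [this]
  · rintro ⟨n, m⟩ hp
    simp only [mem_filter, mem_product, mem_range] at hp
    have : n + (m - n - 1) + 1 = m := by omega
    simp only [this]

theorem four_split {X : Type*} [AddCommMonoid X] (g : ℕ → ℕ → X) (L : ℕ) :
    ∑ n ∈ range L, ∑ m ∈ range L, g n m = ∑ n ∈ range L, g n n +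
      ∑ d ∈ range (L - 1), ∑ n ∈ range (L - 1 - d), g n (n + d + 1) +
      ∑ d ∈ range (L - 1), ∑ n ∈ range (L - 1 - d), g (n + d + 1) n := by
  rw [← four_tri g L, ← four_tri (fun n m => g m n) L,
    sum_comm (f := fun n m => if n < m then g m n else 0), ← sum_add_distrib, ← sum_add_distrib]
  refine sum_congr rfl fun n hn => ?_
  have e : g n n = ∑ m ∈ range L, if n = m then g n m else 0 := by
    rw [sum_ite_eq, if_pos hn]
  rw [e, ← sum_add_distrib, ← sum_add_distrib]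
  refine sum_congr rfl fun m _ => ?_
  rcases lt_trichotomy n m with h | h | h
  · rw [if_neg h.ne, if_pos h, if_neg h.not_gt, zero_add, add_zero]
  · rw [if_pos h, if_neg h.not_lt, if_neg h.not_gt, add_zero, add_zero]
  · rw [if_neg h.ne', if_neg h.not_gt, if_pos h, zero_add, zero_add]

theorem one_pow (N : VonNeumannAlgebra K) (h : MU E 1) (hy : y ∈ unitary (Op K))
    (hc : ∀ α γ, y * FA E α γ = FA E α γ * y) (hδ : 0 ≤ δ)
    (hD : 2 ^ M * (4 * M : ℝ) ≤ δ ^ 2 * Fintype.card (A × B)) {b : ℕ} (hb : b + 1 ≤ M)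
    {Z : Op K} (hZ : ‖Z‖ ≤ 1) (hZF : ∀ α γ, Z * FA E α γ = FA E α γ * Z) {T : ℝ} (hT0 : 0 ≤ T)
    (hT : Ad E Z T) (γ : A) (ζ : K) :
    Ex (fun v : U (A × B) =>
      ‖star Z ((FA E γ γ * (rho E v * (y * rho E v) ^ b) * FA E γ γ) ζ)‖ ^ 2) ≤
      ee (Fintype.card A) M T δ * ‖ζ‖ ^ 2 := by
  have hF := h.fa
  have ha : (0 : ℝ) < Fintype.card A := Nat.cast_pos.2 Fintype.card_pos
  have hX : ∀ α γ, star Z * FA E α γ = FA E α γ * star Z := fun α γ => by
    have := congrArg star (hZF γ α)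
    rw [star_mul, star_mul, hF.adj] at this
    exact this.symm
  have hFn : ∀ β γ, ‖FA E β γ ζ‖ ^ 2 ≤ ‖ζ‖ ^ 2 := fun β γ => by
    refine pow_le_pow_left₀ (norm_nonneg _) ?_ 2
    refine ((FA E β γ).le_opNorm ζ).trans ?_
    exact mul_le_of_le_one_left (norm_nonneg _) (hF.norm_le β γ)
  refine (sym h hc hX b γ ζ).trans ?_
  have hr : Continuous fun v : U (A × B) => rho E v :=
    (continuous_rho E).comp continuous_subtype_val
  have hce := continuous_ce (FA E)
  have h1 : ∑ β, Ex (fun v : U (A × B) =>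
      ‖star Z ((rho E v * (y * rho E v) ^ b) (FA E β γ ζ))‖ ^ 2) ≤
      Fintype.card A *
        ((T + √(M / (Fintype.card A : ℝ) ^ 2 + 3 * M ^ 3 * δ) + M * δ) * ‖ζ‖ ^ 2) := by
    rw [← nsmul_eq_mul, ← card_univ, ← sum_const]
    refine sum_le_sum fun β _ => (xi N h hy hδ hD hb hZ hZF hT _).trans ?_
    rw [card_univ]
    exact mul_le_mul_of_nonneg_left (hFn β γ) (by positivity)
  have h2 : Ex (fun v : U (A × B) =>
      ‖star Z (ce (FA E) (rho E v * (y * rho E v) ^ b) (FA E γ γ ζ))‖ ^ 2) ≤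
      ((Fintype.card A : ℝ)⁻¹ ^ 2 + 2 * Fintype.card A * M * δ) * ‖ζ‖ ^ 2 := by
    refine le_trans ?_ ((RM.nu h hy (RM.sm h hδ hD) hδ hc hb (FA E γ γ ζ)).trans
      (mul_le_mul_of_nonneg_left (hFn γ γ) (by positivity)))
    refine Ex_mono (by fun_prop) (by fun_prop) fun v => ?_
    refine pow_le_pow_left₀ (norm_nonneg _) ?_ 2
    rw [pow_succ', mul_assoc, four_ce_left _ hc, mul_apply_eq_comp,
      ContinuousLinearMap.norm_map_of_mem_unitary hy]
    refine ((star Z).le_opNorm _).trans ?_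
    exact mul_le_of_le_one_left (norm_nonneg _) (by rwa [norm_star])
  have h3 := mul_le_mul_of_nonneg_left h1 (by positivity : 0 ≤ (Fintype.card A : ℝ)⁻¹ ^ 2)
  rw [MUL.inv_sq_mul] at h3
  unfold ee
  rw [add_mul, mul_assoc]
  exact add_le_add h3 h2

theorem two (h : MU E 1) (hy : y ∈ unitary (Op K)) (α : ℕ → ℝ) (L : ℕ) (ζ : K) :
    Ex (fun v : U (A × B) => ‖ff α L (y * rho E v) ζ‖ ^ 2) =
      (∑ n ∈ range L, α n ^ 2) * ‖ζ‖ ^ 2 := by
  have hr : Continuous fun v : U (A × B) => rho E v :=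
    (continuous_rho E).comp continuous_subtype_val
  have hn2 : ∀ x : K, ⟪x, x⟫_ℂ = ((‖x‖ ^ 2 : ℝ) : ℂ) := fun x => by
    rw [inner_self_eq_norm_sq_to_K, Complex.ofReal_pow]
    rfl
  apply Complex.ofReal_injective
  rw [← Ex_ofReal]
  have e1 : ∀ v : U (A × B), ((‖ff α L (y * rho E v) ζ‖ ^ 2 : ℝ) : ℂ) =
      ∑ n ∈ range L, ∑ m ∈ range L, ((α n : ℂ) * α m) *
        ⟪((y * rho E v) ^ n) ζ, ((y * rho E v) ^ m) ζ⟫_ℂ := fun v => by
    rw [← hn2]
    unfold ff
    rw [_root_.sum_apply, sum_inner]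
    refine sum_congr rfl fun n _ => ?_
    rw [inner_sum]
    refine sum_congr rfl fun m _ => ?_
    rw [smul_apply, smul_apply, inner_smul_left,
      inner_smul_right, Complex.conj_ofReal, mul_assoc]
  have e2 : ∀ n m : ℕ, Ex (fun v : U (A × B) =>
      ⟪((y * rho E v) ^ n) ζ, ((y * rho E v) ^ m) ζ⟫_ℂ) =
      if n = m then ((‖ζ‖ ^ 2 : ℝ) : ℂ) else 0 := fun n m => by
    split_ifs with hnm
    · subst hnm
      rw [← Ex_const (ι := A × B) ((‖ζ‖ ^ 2 : ℝ) : ℂ)]
      refine congrArg Ex (funext fun v => ?_)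
      rw [hn2, ContinuousLinearMap.norm_map_of_mem_unitary
        (pow_mem (mul_mem hy (h.rho_unitary v)) n)]
    · refine Ex_phase (f := fun s => ⟪((y * rho E s) ^ n) ζ, ((y * rho E s) ^ m) ζ⟫_ℂ)
        (k := m) (j := n) (Ne.symm hnm) fun ω _ v => ?_
      simp only [rho_smul, mul_smul_comm, smul_pow, smul_apply,
        inner_smul_left, inner_smul_right, map_pow]
      ring
  simp only [e1]
  rw [Ex_sum _ (fun n _ => by fun_prop)]
  rw [Complex.ofReal_mul, Complex.ofReal_sum, sum_mul]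
  refine sum_congr rfl fun n hn => ?_
  rw [Ex_sum _ (fun m _ => by fun_prop)]
  simp only [Ex_mul, e2, mul_ite, mul_zero]
  rw [sum_ite_eq, if_pos hn, Complex.ofReal_pow (α n), sq (α n : ℂ)]

/-- the autocorrelation -/
theorem ff_sq {α : ℕ → ℝ} {L : ℕ} (h0 : ∀ n, 0 ≤ α n)
    (h1 : ∑ n ∈ range L, α n ^ 2 = 1) : ∃ σ : ℕ → ℝ,
      ∑ d ∈ range (L - 1), σ d ^ 2 ≤ (∑ n ∈ range L, α n) ^ 2 ∧ ∀ w ∈ unitary (Op K),
        star (ff α L w) * ff α L w = 1 + ∑ d ∈ range (L - 1), (σ d : ℂ) • w ^ (d + 1) +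
          ∑ d ∈ range (L - 1), (σ d : ℂ) • star w ^ (d + 1) := by
  refine ⟨fun d => ∑ n ∈ range (L - 1 - d), α n * α (n + d + 1), ?_, fun w hw => ?_⟩
  · have hs := four_split (fun n m => α n * α m) L
    have hp : ∀ d, 0 ≤ ∑ n ∈ range (L - 1 - d), α n * α (n + d + 1) := fun d =>
      sum_nonneg fun n _ => mul_nonneg (h0 _) (h0 _)
    have hle : ∀ d, ∑ n ∈ range (L - 1 - d), α n * α (n + d + 1) ≤ 1 := fun d => by
      have a1 : ∑ n ∈ range (L - 1 - d), α n ^ 2 ≤ 1 := by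
        rw [← h1]
        exact sum_le_sum_of_subset_of_nonneg (range_subset_range.2 (by omega))
          fun _ _ _ => sq_nonneg _
      have a2 : ∑ n ∈ range (L - 1 - d), α (n + d + 1) ^ 2 ≤ 1 := by
        rw [← h1, ← sum_image (s := range (L - 1 - d)) (g := fun n => n + d + 1)
          (f := fun n => α n ^ 2) (fun a _ b _ hab => by simp only at hab; omega)]
        refine sum_le_sum_of_subset_of_nonneg ?_ fun _ _ _ => sq_nonneg _
        intro m hm
        obtain ⟨n, hn, rfl⟩ := mem_image.1 hm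
        rw [mem_range] at hn ⊢
        omega
      have a3 : 2 * ∑ n ∈ range (L - 1 - d), α n * α (n + d + 1) ≤
          ∑ n ∈ range (L - 1 - d), α n ^ 2 + ∑ n ∈ range (L - 1 - d), α (n + d + 1) ^ 2 := by
        rw [mul_sum, ← sum_add_distrib]
        exact sum_le_sum fun n _ => by nlinarith [sq_nonneg (α n - α (n + d + 1))]
      linarith
    have b1 : ∑ d ∈ range (L - 1), (∑ n ∈ range (L - 1 - d), α n * α (n + d + 1)) ^ 2 ≤
        ∑ d ∈ range (L - 1), ∑ n ∈ range (L - 1 - d), α n * α (n + d + 1) :=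
      sum_le_sum fun d _ => by nlinarith [hp d, hle d]
    have b2 : 0 ≤ ∑ n ∈ range L, α n * α n := sum_nonneg fun n _ => mul_self_nonneg _
    have b3 : 0 ≤ ∑ d ∈ range (L - 1), ∑ n ∈ range (L - 1 - d), α (n + d + 1) * α n :=
      sum_nonneg fun d _ => sum_nonneg fun n _ => mul_nonneg (h0 _) (h0 _)
    rw [sq (∑ n ∈ range L, α n), sum_mul_sum, hs]
    linarith
  · have hu : ∀ n, star w ^ n * w ^ n = 1 := fun n => by
      rw [← star_pow]
      exact (Unitary.mem_iff.1 (pow_mem hw n)).1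
    have e : star (ff α L w) * ff α L w =
        ∑ n ∈ range L, ∑ m ∈ range L, ((α n * α m : ℝ) : ℂ) • (star w ^ n * w ^ m) := by
      unfold ff
      rw [star_sum, sum_mul_sum]
      refine sum_congr rfl fun n _ => sum_congr rfl fun m _ => ?_
      rw [star_smul, star_pow, smul_mul_smul_comm, Complex.star_def, Complex.conj_ofReal,
        Complex.ofReal_mul]
    rw [e, four_split]
    have c1 : ∑ n ∈ range L, ((α n * α n : ℝ) : ℂ) • (star w ^ n * w ^ n) = 1 := by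
      simp only [hu]
      rw [← sum_smul, ← Complex.ofReal_sum]
      simp only [← sq]
      rw [h1, Complex.ofReal_one, one_smul]
    have c2 : ∀ d n : ℕ, star w ^ n * w ^ (n + d + 1) = w ^ (d + 1) := fun d n => by
      rw [add_assoc, pow_add, ← mul_assoc, hu, one_mul]
    have c3 : ∀ d n : ℕ, star w ^ (n + d + 1) * w ^ n = star w ^ (d + 1) := fun d n => by
      rw [add_assoc, add_comm n, pow_add, mul_assoc, hu, mul_one]
    rw [c1]
    simp only [c2, c3, ← sum_smul, ← Complex.ofReal_sum, mul_comm (α (_ + _ + 1))]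

/-- terms of different degrees are orthogonal in the mean -/
theorem four_orth {ι : Type} [Fintype ι] [DecidableEq ι] {X : ℕ → Matrix ι ι ℂ → K}
    (hc : ∀ d, Continuous fun v : U ι => X d v)
    (hX : ∀ d (ω : ℂ) (s : Matrix ι ι ℂ), X d (ω • s) = ω ^ (d + 1) • X d s) (σ : ℕ → ℝ) (n : ℕ)
    {c : ℝ} (hle : ∀ d ∈ range n, Ex (fun v : U ι => ‖X d v‖ ^ 2) ≤ c) :
    Ex (fun v : U ι => ‖∑ d ∈ range n, (σ d : ℂ) • X d v‖ ^ 2) ≤
      (∑ d ∈ range n, σ d ^ 2) * c := by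
  have hz : ∀ d, Continuous fun v : U ι => (σ d : ℂ) • X d v := fun d => (hc d).const_smul _
  have key : ((Ex (fun v : U ι => ‖∑ d ∈ range n, (σ d : ℂ) • X d v‖ ^ 2) : ℝ) : ℂ) =
      ((∑ d ∈ range n, σ d ^ 2 * Ex (fun v : U ι => ‖X d v‖ ^ 2) : ℝ) : ℂ) := by
    have e1 : ∀ v : U ι, ((‖∑ d ∈ range n, (σ d : ℂ) • X d v‖ ^ 2 : ℝ) : ℂ) =
        ∑ l ∈ range n, ∑ l' ∈ range n, ⟪(σ l : ℂ) • X l v, (σ l' : ℂ) • X l' v⟫_ℂ := fun v => by
      simp only [← inner_sum, ← sum_inner, inner_self_eq_norm_sq_to_K]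
      norm_cast
    have e2 : ∀ l ∈ range n,
        Ex (fun v : U ι => ∑ l' ∈ range n, ⟪(σ l : ℂ) • X l v, (σ l' : ℂ) • X l' v⟫_ℂ) =
          ((σ l ^ 2 * Ex (fun v : U ι => ‖X l v‖ ^ 2) : ℝ) : ℂ) := fun l hl => by
      rw [Ex_sum _ fun l' _ => (hz l).inner (hz l'), sum_eq_single l (fun l' _ h => ?_)
        fun h => absurd hl h]
      · rw [← Ex_mul_real, ← Ex_ofReal]
        refine congrArg Ex (funext fun v => ?_)
        rw [inner_self_eq_norm_sq_to_K, norm_smul, Complex.norm_real, Real.norm_eq_abs]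
        have : ((σ l ^ 2 * ‖X l v‖ ^ 2 : ℝ) : ℂ) = (((|σ l| * ‖X l v‖) ^ 2 : ℝ) : ℂ) := by
          rw [mul_pow, sq_abs]
        rw [this, Complex.ofReal_pow]
        rfl
      · refine Ex_phase (f := fun s => ⟪(σ l : ℂ) • X l s, (σ l' : ℂ) • X l' s⟫_ℂ)
          (k := l' + 1) (j := l + 1) (by omega) fun ω _ v => ?_
        simp only [hX, inner_smul_left, inner_smul_right, map_pow]
        ring
    rw [← Ex_ofReal]
    simp only [e1]
    rw [Ex_sum _ fun l _ => continuous_finsetSum _ fun l' _ => (hz l).inner (hz l'),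
      sum_congr rfl e2, Complex.ofReal_sum]
  rw [Complex.ofReal_injective key, sum_mul]
  exact sum_le_sum fun d hd => mul_le_mul_of_nonneg_left (hle d hd) (sq_nonneg _)

theorem four_three (a b c : K) : ‖a + b + c‖ ^ 2 ≤ 3 * (‖a‖ ^ 2 + ‖b‖ ^ 2 + ‖c‖ ^ 2) := by
  have h1 : ‖a + b + c‖ ≤ ‖a‖ + ‖b‖ + ‖c‖ := norm_add₃_le
  have h2 : ‖a + b + c‖ ^ 2 ≤ (‖a‖ + ‖b‖ + ‖c‖) ^ 2 := by gcongr
  nlinarith [sq_nonneg (‖a‖ - ‖b‖), sq_nonneg (‖a‖ - ‖c‖), sq_nonneg (‖b‖ - ‖c‖)]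

theorem four_pow (r z : Op K) (d : ℕ) : (r * z) ^ (d + 1) = r * (z * r) ^ d * z := by
  induction d with
  | zero => simp
  | succ d ih => rw [pow_succ, ih, pow_succ]; simp only [mul_assoc]

theorem four (N : VonNeumannAlgebra K) (h : MU E 1) (hy : y ∈ unitary (Op K))
    (hc : ∀ α γ, y * FA E α γ = FA E α γ * y) (hδ : 0 ≤ δ)
    (hD : 2 ^ M * (4 * M : ℝ) ≤ δ ^ 2 * Fintype.card (A × B)) {α : ℕ → ℝ} (h0 : ∀ n, 0 ≤ α n)
    (h1 : ∑ n ∈ range M, α n ^ 2 = 1) {s : ℝ} (hs : (∑ n ∈ range M, α n) ^ 2 ≤ s)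
    {Z : Op K} (hZ : ‖Z‖ ≤ 1) (hZF : ∀ α γ, Z * FA E α γ = FA E α γ * Z) {T : ℝ} (hT0 : 0 ≤ T)
    (hT : Ad E Z T) (hT' : Ad E (star y * Z) T) (γ : A) (ζ : K) :
    Ex (fun v : U (A × B) => ‖star Z ((FA E γ γ *
      (star (ff α M (y * rho E v)) * ff α M (y * rho E v)) * FA E γ γ) ζ)‖ ^ 2) ≤
      3 * (1 + 2 * s * ee (Fintype.card A) M T δ) * ‖ζ‖ ^ 2 := by
  obtain ⟨σ, hσ, hff⟩ := ff_sq (K := K) h0 h1
  have cr := Core.cont_rho E
  have hy' : star y ∈ unitary (Op K) := Unitary.star_mem hy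
  have hc' : ∀ α γ, star y * FA E α γ = FA E α γ * star y := fun α γ => by
    have := congrArg star (hc γ α)
    rw [star_mul, star_mul, h.fa.adj] at this
    exact this.symm
  have hF : ‖FA E γ γ‖ ≤ 1 := h.fa.norm_le γ γ
  have hZs : ‖star Z‖ ≤ 1 := by rw [norm_star]; exact hZ
  have hee : 0 ≤ ee (Fintype.card A) M T δ := by unfold ee; positivity
  obtain ⟨X, hX⟩ : ∃ X : ℕ → Matrix (A × B) (A × B) ℂ → K, X = fun d s =>
    star Z ((FA E γ γ * (y * rho E s) ^ (d + 1) * FA E γ γ) ζ) := ⟨_, rfl⟩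
  obtain ⟨Y, hY⟩ : ∃ Y : ℕ → Matrix (A × B) (A × B) ℂ → K, Y = fun d s =>
    star Z ((FA E γ γ * (rho E s * star y) ^ (d + 1) * FA E γ γ) ζ) := ⟨_, rfl⟩
  have cX : ∀ d, Continuous fun v : U (A × B) => X d v := fun d => by
    rw [hX]; fun_prop
  have cY : ∀ d, Continuous fun v : U (A × B) => Y d v := fun d => by
    rw [hY]; fun_prop
  have bX := four_orth cX (fun d ω s => by
      rw [hX]
      simp only [Core.pw_smul, mul_smul_comm, smul_mul_assoc, smul_apply, map_smul]) σ (M - 1)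
    (c := ee (Fintype.card A) M T δ * ‖ζ‖ ^ 2) fun d hd => by
      have hd' : d + 1 ≤ M := by have := mem_range.1 hd; omega
      have h2 := one_pow N h hy hc hδ hD hd' (Z := star y * Z) (RM.mul_le (RM.unit_le hy') hZ)
        (fun α γ => by rw [mul_assoc, hZF, ← mul_assoc, hc', mul_assoc]) hT0 hT' γ ζ
      refine le_of_eq_of_le (congrArg Ex (funext fun v => ?_)) h2
      have h3 : FA E γ γ * (y * rho E v) ^ (d + 1) * FA E γ γ =
          y * (FA E γ γ * (rho E v * (y * rho E v) ^ d) * FA E γ γ) := by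
        rw [pow_succ', ← mul_assoc y, ← mul_assoc y, hc]; simp only [mul_assoc]
      rw [hX, star_mul, star_star]
      simp only [h3]
      rfl
  have bY := four_orth cY (fun d ω s => by
      rw [hY]
      simp only [rho_smul, smul_pow, mul_smul_comm, smul_mul_assoc, smul_apply, map_smul]) σ (M - 1)
    (c := ee (Fintype.card A) M T δ * ‖ζ‖ ^ 2) fun d hd => by
      have hd' : d + 1 ≤ M := by have := mem_range.1 hd; omega
      have h2 := one_pow N h hy' hc' hδ hD hd' hZ hZF hT0 hT γ (star y ζ)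
      rw [ContinuousLinearMap.norm_map_of_mem_unitary hy'] at h2
      refine le_of_eq_of_le (congrArg Ex (funext fun v => ?_)) h2
      have h3 : FA E γ γ * (rho E v * star y) ^ (d + 1) * FA E γ γ =
          FA E γ γ * (rho E v * (star y * rho E v) ^ d) * FA E γ γ * star y := by
        rw [four_pow, mul_assoc _ (FA E γ γ) (star y), ← hc']; simp only [mul_assoc]
      rw [hY]
      simp only [h3]
      rfl
  rw [← Ex_star] at bY
  have cS : Continuous fun v : U (A × B) => ‖∑ d ∈ range (M - 1), (σ d : ℂ) • X d v‖ ^ 2 :=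
    (continuous_finsetSum _ fun d _ => (cX d).fun_const_smul _).norm.fun_pow 2
  have cT : Continuous fun v : U (A × B) =>
      ‖∑ d ∈ range (M - 1), (σ d : ℂ) • Y d (star v : U (A × B))‖ ^ 2 :=
    (continuous_finsetSum _ fun d _ =>
      ((cY d).comp continuous_star).fun_const_smul _).norm.fun_pow 2
  have hpt : ∀ v : U (A × B), ‖star Z ((FA E γ γ *
      (star (ff α M (y * rho E v)) * ff α M (y * rho E v)) * FA E γ γ) ζ)‖ ^ 2 ≤
      3 * (‖ζ‖ ^ 2 + ‖∑ d ∈ range (M - 1), (σ d : ℂ) • X d v‖ ^ 2 +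
        ‖∑ d ∈ range (M - 1), (σ d : ℂ) • Y d (star v : U (A × B))‖ ^ 2) := fun v => by
    have e : star Z ((FA E γ γ *
        (star (ff α M (y * rho E v)) * ff α M (y * rho E v)) * FA E γ γ) ζ) =
        star Z ((FA E γ γ * FA E γ γ) ζ) + ∑ d ∈ range (M - 1), (σ d : ℂ) • X d v +
          ∑ d ∈ range (M - 1), (σ d : ℂ) • Y d (star v : U (A × B)) := by
      rw [hff _ (mul_mem hy (h.rho_unitary v)), hX, hY]
      simp only [mul_add, add_mul, mul_one, mul_sum, sum_mul, mul_smul_comm, smul_mul_assoc,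
        add_apply, RM.sapp, smul_apply, map_add, map_sum, map_smul, Unitary.coe_star,
        h.rho_star, star_mul]
    rw [e]
    refine (four_three _ _ _).trans ?_
    have : ‖star Z ((FA E γ γ * FA E γ γ) ζ)‖ ≤ ‖ζ‖ :=
      (RM.app_le hZs _).trans (RM.app_le (RM.mul_le hF hF) ζ)
    gcongr
  have c0 : Continuous fun v : U (A × B) => ‖star Z ((FA E γ γ *
      (star (ff α M (y * rho E v)) * ff α M (y * rho E v)) * FA E γ γ) ζ)‖ ^ 2 := by
    unfold ff
    fun_prop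
  refine (Ex_mono c0 (continuous_const.fun_mul ((continuous_const.fun_add cS).fun_add cT)) hpt).trans ?_
  rw [Ex_mul_real, Ex_add (continuous_const.fun_add cS) cT, Ex_add continuous_const cS, Ex_const]
  have h4 : (∑ d ∈ range (M - 1), σ d ^ 2) * (ee (Fintype.card A) M T δ * ‖ζ‖ ^ 2) ≤
      s * (ee (Fintype.card A) M T δ * ‖ζ‖ ^ 2) :=
    mul_le_mul_of_nonneg_right (hσ.trans hs) (by positivity)
  nlinarith


end Pool.Agent.Kad.H2
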