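import Pool.Agent.Lib.MP_22c5db_an.H2.GmL
import Pool.Agent.Lib.MP_22c5db_an.H2.Four

/-! Moments of the window. -/

open scoped InnerProductSpace ComplexConjugate
open Finset

noncomputable section

namespace Pool.Agent.Kad.H2

universe u

set_option linter.unusedSectionVars false

variable {H : Type u} [NormedAddCommGroup H] [InnerProductSpace ℂ H] [CompleteSpace H]
  {M : VonNeumannAlgebra H} {τ : Op H →ₗ[ℝ] ℝ} {φ : Bil H} {C : ℝ}
  {ι : Type} [Fintype ι] [DecidableEq ι] {e : ι → ι → Op H}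
  {K : Type u} [NormedAddCommGroup K] [InnerProductSpace ℂ K] [CompleteSpace K]
  {A : Type} [Fintype A] [DecidableEq A] {J : A → H →L[ℂ] K} {N : VonNeumannAlgebra K}
  {m L : ℕ} {δ : ℝ} {α : ℕ → ℝ} {ζ : H} {G : Op H →L[ℝ] ℝ}

theorem ee_le {a k : ℕ} (hS : Sc a m L α) (hP : Par a m L k δ) {T : ℝ} (hT : 0 ≤ T) :
    3 * (1 + 2 * (4096 * a * m) * ee a L T δ) ≤ 130000 * (m * T + 1) := by
  have hm : (1 : ℝ) ≤ m := by exact_mod_cast hS.m0
  have hma : (m : ℝ) ≤ a := by exact_mod_cast hS.ma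
  have hL : (1 : ℝ) ≤ L := by exact_mod_cast hS.L0
  have hLa : (L : ℝ) * m ^ 2 ≤ a ^ 2 := by exact_mod_cast hS.La
  have ha : (1 : ℝ) ≤ a := hm.trans hma
  have h0 := hP.δ0
  have h1 := hP.δ1
  have a2 : (1 : ℝ) ≤ (a : ℝ) ^ 2 := one_le_pow₀ ha
  have b1 : (m : ℝ) ^ 2 * (L / (a : ℝ) ^ 2) ≤ 1 := by
    rw [← mul_div_assoc, div_le_one (by positivity)]; linarith
  have b2 : (m : ℝ) ^ 2 * (3 * L ^ 3 * δ) ≤ 1 := by
    have : 0 ≤ (m : ℝ) ^ 2 * (3 * L ^ 3 * δ) := by positivity
    nlinarith [mul_le_mul_of_nonneg_right a2 this]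
  have b3 : m * √(L / (a : ℝ) ^ 2 + 3 * L ^ 3 * δ) ≤ 3 / 2 := by
    refine abs_le_of_sq_le_sq' ?_ (by norm_num) |>.2
    rw [mul_pow, Real.sq_sqrt (by positivity)]
    linarith
  have b4 : 3 * ((a : ℝ) ^ 2 * m * L * δ) ≤ 1 := by
    have c1 : (1 : ℝ) ≤ m * L ^ 2 := one_le_mul_of_one_le_of_one_le hm (one_le_pow₀ hL)
    have : 0 ≤ 3 * ((a : ℝ) ^ 2 * m * L * δ) := by positivity
    nlinarith [mul_le_mul_of_nonneg_left c1 this]
  have b5 : 3 * (m * L * δ) ≤ 1 := by
    have : 0 ≤ 3 * (m * L * δ) := by positivity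
    nlinarith [mul_le_mul_of_nonneg_right a2 this]
  have b6 : (m : ℝ) / a ≤ 1 := (div_le_one (by positivity)).2 hma
  have e : 4096 * a * m * ee a L T δ = 4096 * (m * T + m * √(L / (a : ℝ) ^ 2 + 3 * L ^ 3 * δ) +
      m * L * δ + m / a + 2 * ((a : ℝ) ^ 2 * m * L * δ)) := by
    rw [ee]
    generalize √(L / (a : ℝ) ^ 2 + 3 * L ^ 3 * δ) = S
    field_simp
    ring
  have b7 : 0 ≤ m * T := by positivity
  rw [mul_assoc 2, e]
  linarith

theorem mom [Nonempty ι] (hJ : Frame M 1 J N) (he : MU e 1) (hS : Sc (Fintype.card A) m L α)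
    (hP : Par (Fintype.card A) m L (Fintype.card ι) δ) {u c : Op H} (hu : u ∈ unitary (Op H))
    (hc1 : ‖c‖ ≤ 1) {T : ℝ} (hT0 : 0 ≤ T) (hT : Ad e c T) (hT' : Ad e (star u * c) T) {s : ℝ}
    (hG : Pos G s) (γ : A) {p : U (A × ι) → Op H}
    (hp : p = fun v => ent J (star (ff α L (ww J e u v)) * ff α L (ww J e u v)) γ γ) :
    Continuous p ∧ Ex (fun v => G (star c * p v * c)) ≤ G (star c * c) ∧
      Ex (fun v => G (star c * p v * c * (star c * p v * c))) ≤
        130000 * (m * T + 1) * G (star c * c) := by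
  have : Nonempty A := ⟨γ⟩
  have hw : Continuous fun v => ff α L (ww J e u v) :=
    continuous_finsetSum _ fun n _ => ((ww_cont (J := J) (e := e) u).pow n).const_smul (α n : ℂ)
  have hpc : Continuous p := by
    rw [hp]
    exact continuous_const.clm_comp ((hw.star.mul hw).clm_comp continuous_const)
  have hps : ∀ v, star (star c * p v * c) = star c * p v * c := fun v => by
    have : star (p v) = p v := by
      rw [hp]
      simp only
      rw [← ent_star, star_mul, star_star]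
    rw [star_mul, star_mul, star_star, this, mul_assoc]
  have hZ : Continuous fun v => star c * p v * c :=
    (continuous_const.mul hpc).mul continuous_const
  refine ⟨hpc, hG.ex_le hZ hps (IsSelfAdjoint.star_mul_self c) fun ξ => ?_, ?_⟩
  · have e1 : ∀ v, (⟪ξ, (star c * p v * c) ξ⟫_ℂ).re =
        ‖ff α L (amp J u * rho (EE J e) v) (J γ (c ξ))‖ ^ 2 := fun v => by
      rw [← VN0.re_inner_star_mul, mul_apply_eq_comp, mul_apply_eq_comp, VN0.inner_star_right, hp]
      simp only [ent, ContinuousLinearMap.comp_apply, ContinuousLinearMap.adjoint_inner_right]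
      rfl
    simp only [e1]
    rw [two (EE_mu hJ he) (amp_unitary hJ hu), hS.sq, one_mul, norm_J hJ, VN0.re_inner_star_mul]
  · have key := hG.ex_sq hZ (b := c) (s := 130000 * (m * T + 1)) fun ξ => by
      have e1 : ∀ v, ‖(star c * p v * c) ξ‖ = ‖star (amp J c) ((FA (EE J e) γ γ *
          (star (ff α L (amp J u * rho (EE J e) v)) * ff α L (amp J u * rho (EE J e) v)) *
          FA (EE J e) γ γ) (J γ (c ξ)))‖ := fun v => by
        rw [← J_ent hJ he, ← amp_star, amp_J hJ, norm_J hJ, hp]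
        rfl
      simp only [e1]
      refine (four N (EE_mu hJ he) (amp_unitary hJ hu) (amp_comm hJ he u) hP.δ0
        (by rw [Fintype.card_prod]; push_cast; exact hP.big) hS.pos hS.sq hS.sum
        ((norm_amp hJ c).trans hc1) (amp_comm hJ he c) hT0 (ad_amp hJ hT)
        (by rw [← amp_star, ← amp_mul hJ]; exact ad_amp hJ hT') γ _).trans ?_
      rw [norm_J hJ]
      exact mul_le_mul_of_nonneg_right (ee_le hS hP hT0) (sq_nonneg _)
    simpa only [hps] using key


end Pool.Agent.Kad.H2
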