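import Pool.Agent.Lib.MP_22c5db_an.H2.Win
import Pool.Agent.Lib.MP_22c5db_an.H2.Mom
import Pool.Agent.Lib.MP_22c5db_an.H2.Extr

/-! The defect in the mean. -/

open scoped InnerProductSpace ComplexConjugate
open Finset

noncomputable section

namespace Pool.Agent.Kad.H2

universe u

set_option linter.unusedSectionVars false

variable {H : Type u} [NormedAddCommGroup H] [InnerProductSpace ℂ H] [CompleteSpace H]
  {M : VonNeumannAlgebra H} {τ : Op H →ₗ[ℝ] ℝ} {φ : Bil H} {C : ℝ}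
  {ι : Type} [Fintype ι] [DecidableEq ι] {e : ι → ι → Op H}
  {K : Type u} [NormedAddCommGroup K] [InnerProductSpace ℂ K] [CompleteSpace K]
  {A : Type} [Fintype A] [DecidableEq A] {J : A → H →L[ℂ] K} {N : VonNeumannAlgebra K}
  {m L : ℕ} {δ : ℝ} {α : ℕ → ℝ} {ζ : H} {G : Op H →L[ℝ] ℝ}

theorem est_norm_ff {w : Op K} (hw : w ∈ unitary (Op K)) (h0 : ∀ n, 0 ≤ α n) :
    ‖ff α L w‖ ≤ ∑ n ∈ range L, α n := by
  refine norm_sum_le_of_le _ fun n _ => ?_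
  rw [norm_smul, Complex.norm_real, Real.norm_eq_abs, abs_of_nonneg (h0 n)]
  exact mul_le_of_le_one_right (h0 n) (Core.norm_unitary_le (pow_mem hw n))

theorem est_ff_mem {w : Op K} (hw : w ∈ N) : ff α L w ∈ N :=
  sum_mem fun n _ => smul_mem' _ (pow_mem hw n)

theorem est_ff_comm {w q : Op K} (hq : q * w = w * q) : q * ff α L w = ff α L w * q := by
  have h1 : Commute q w := hq
  simp only [ff, mul_sum, sum_mul, mul_smul_comm, smul_mul_assoc]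
  exact sum_congr rfl fun n _ => by rw [(h1.pow_right n).eq]

theorem est_ad (he : MU e 1) {z : Op H} (hz : ‖z‖ ≤ 1) : Ad e z 1 := by
  have h1 : ∀ t, ‖e t t * z‖ ^ 2 ≤ 1 := fun t => by
    have h2 : ‖e t t * z‖ ≤ 1 :=
      (norm_mul_le _ _).trans (mul_le_one₀ (he.norm_le t t) (norm_nonneg _) hz)
    exact pow_le_one₀ (norm_nonneg _) h2
  refine (sum_le_sum fun t _ => h1 t).trans ?_
  simp

theorem est_par {a k : ℕ} (hS : Sc a m L α) (hP : Par a m L k δ) {T : ℝ} (hT2 : T ≤ 2) :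
    ((m * T + 1) + ((m : ℝ) + 1) + 2 * (∑ n ∈ range L, α n) ^ 2) / k + (m : ℝ)⁻¹ ^ 2 ≤
      2 * (m : ℝ)⁻¹ := by
  have hm : (1 : ℝ) ≤ m := by exact_mod_cast hS.m0
  have hma : (m : ℝ) ≤ a := by exact_mod_cast hS.ma
  have hk : (10 : ℝ) ^ 4 * a * m ^ 2 ≤ k := by exact_mod_cast hP.k1
  have hs := hS.sum
  have hm0 : (0 : ℝ) < m := by linarith
  have ham : (m : ℝ) ≤ a * m := by nlinarith
  have hk0 : (0 : ℝ) < k := lt_of_lt_of_le (by positivity) (le_trans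
    (mul_le_mul_of_nonneg_right (mul_le_mul_of_nonneg_left hma (by positivity)) (by positivity)) hk)
  have h1 : ((m * T + 1) + ((m : ℝ) + 1) + 2 * (∑ n ∈ range L, α n) ^ 2) / k ≤ (m : ℝ)⁻¹ := by
    rw [div_le_iff₀ hk0, inv_mul_eq_div, le_div_iff₀ hm0]
    have h2 : (m * T + 1) + ((m : ℝ) + 1) + 2 * (∑ n ∈ range L, α n) ^ 2 ≤ 10 ^ 4 * (a * m) := by
      have h3 : m * T ≤ m * 2 := mul_le_mul_of_nonneg_left hT2 hm0.le
      linarith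
    calc _ ≤ 10 ^ 4 * ((a : ℝ) * m) * m := mul_le_mul_of_nonneg_right h2 hm0.le
      _ = 10 ^ 4 * a * m ^ 2 := by ring
      _ ≤ k := hk
  have h4 : (m : ℝ)⁻¹ ≤ 1 := inv_le_one_of_one_le₀ hm
  have h5 : (0 : ℝ) ≤ (m : ℝ)⁻¹ := by positivity
  nlinarith

theorem est_DD (hF : Fac M) (hτ : Tr M τ) (hJ : Frame M 1 J N) (h : Nrm M φ e C)
    (hS : Sc (Fintype.card A) m L α) (hP : Par (Fintype.card A) m L (Fintype.card ι) δ)
    (hW : Tail K (Fintype.card A * m) L α (m : ℝ)⁻¹) {u c : Op H} (hu : u ∈ unitary (Op H))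
    (huM : u ∈ M) (hc : c ∈ M) (hc1 : ‖c‖ ≤ 1) {T : ℝ} (hT0 : 0 ≤ T) (hT2 : T ≤ 2)
    (hT : Ad e c T) (hT' : Ad e (star u * c) T) (hG : Dom M τ φ e C ζ G)
    (hcont : ∀ γ, Continuous fun v : U (A × ι) =>
      DD J φ γ c ζ (ww J e u v ^ L) (ff α L (ww J e u v))) (γ : A) :
    Ex (fun v : U (A × ι) => ‖DD J φ γ c ζ (ww J e u v ^ L) (ff α L (ww J e u v))‖ ^ 2) ≤
      10 ^ 12 * C ^ 2 * (G (star c * c) + ‖ζ‖ ^ 2 * (T + (m : ℝ)⁻¹)) := by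
  have : Nonempty ι := Fintype.card_pos_iff.1 (hτ.card_pos h.mu)
  obtain ⟨G', hG'⟩ := exists_dom hτ h (c ζ)
  have hm : (1 : ℝ) ≤ m := by exact_mod_cast hS.m0
  have hm0 : (0 : ℝ) < m := by linarith
  have ha0 : 0 < Fintype.card A := lt_of_lt_of_le hS.m0 hS.ma
  have hmi : (m : ℝ)⁻¹ ≤ 1 := inv_le_one_of_one_le₀ hm
  have hmi0 : (0 : ℝ) ≤ (m : ℝ)⁻¹ := by positivity
  obtain ⟨p, hp⟩ : ∃ p : U (A × ι) → Op H,
      p = fun v => ent J (star (ff α L (ww J e u v)) * ff α L (ww J e u v)) γ γ := ⟨_, rfl⟩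
  have h11 : ‖(1 : Op H)‖ ≤ 1 := Core.norm_unitary_le (one_mem _)
  obtain ⟨hpc, m1, m2⟩ := mom hJ h.mu hS hP hu hc1 hT0 hT hT' hG.pos γ hp
  obtain ⟨-, m3, m4⟩ := mom hJ h.mu hS hP hu h11 zero_le_one (est_ad h.mu h11)
    (est_ad h.mu (by rw [mul_one, norm_star]; exact Core.norm_unitary_le hu)) hG'.pos γ hp
  simp only [star_one, one_mul, mul_one] at m3 m4
  have hg : ‖c ζ‖ ^ 2 ≤ G (star c * c) := hG.vec c
  have hG1 : G' 1 ≤ 3 * G (star c * c) := by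
    have h1 := (le_abs_self _).trans (hG'.pos.le 1)
    have h2 : 3 * ‖c ζ‖ ^ 2 * ‖(1 : Op H)‖ ≤ 3 * ‖c ζ‖ ^ 2 :=
      mul_le_of_le_one_right (by positivity) h11
    linarith
  have hΛ : (1 : ℝ) ≤ m * T + 1 := by nlinarith
  have hΛ' : (1 : ℝ) ≤ m + 1 := by linarith
  have c1 : Continuous fun v => G (star c * p v * c) := by fun_prop
  have c2 : Continuous fun v => G (star c * p v * c * (star c * p v * c)) := by fun_prop
  have c3 : Continuous fun v => G' (p v) := by fun_prop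
  have c4 : Continuous fun v => G' (p v * p v) := by fun_prop
  obtain ⟨R, hR⟩ : ∃ R : ℝ, R = ‖ζ‖ ^ 2 * (((m * T + 1) + ((m : ℝ) + 1) +
    2 * (∑ n ∈ range L, α n) ^ 2) / Fintype.card ι + (m : ℝ)⁻¹ ^ 2) := ⟨_, rfl⟩
  have hR2 : R ≤ ‖ζ‖ ^ 2 * (2 * (m : ℝ)⁻¹) := by
    rw [hR]
    exact mul_le_mul_of_nonneg_left (est_par hS hP hT2) (by positivity)
  have key := rot (Ψ := fun v : U (A × ι) =>
      ‖DD J φ γ c ζ (ww J e u v ^ L) (ff α L (ww J e u v))‖ ^ 2)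
    (Φ := fun v => 10 ^ 6 * C ^ 2 * (G (star c * p v * c) +
      (m * T + 1)⁻¹ * G (star c * p v * c * (star c * p v * c)) + G' (p v) +
      ((m : ℝ) + 1)⁻¹ * G' (p v * p v) + R))
    (s := 10 ^ 6 * C ^ 2 * (‖ζ‖ ^ 2 * (m * T + 1) + ‖c ζ‖ ^ 2 * ((m : ℝ) + 1)))
    hτ hJ h.mu h.mem hu huM (Nat.mul_pos ha0 hS.m0) ((hcont γ).norm.pow 2)
    (by fun_prop) (by positivity) (by
      intro v q hq hqN hqw hqa
      have hw := ww_unitary hJ h.mu hu v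
      have hwN := ww_mem hJ h.mem huM v
      have hcm : Commute q (ww J e u v) := hqw
      have h1 := win hF hτ hJ h (pow_mem hw L) (pow_mem hwN L) (est_ff_mem (α := α) (L := L) hwN)
        hq hqN (hcm.pow_right L).eq (est_ff_comm hqw) (est_norm_ff hw hS.pos)
        (hW _ hw q hq hqw hqa) hmi hc hc1 hG hG' hΛ hΛ' γ (p := p v) (by rw [hp])
      refine h1.trans (le_of_eq ?_)
      rw [hR]
      ring)
  refine key.trans ?_
  rw [Ex_mul_real, Ex_add (by fun_prop) (by fun_prop), Ex_add (by fun_prop) (by fun_prop),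
    Ex_add (by fun_prop) (by fun_prop), Ex_add (by fun_prop) (by fun_prop), Ex_mul_real,
    Ex_mul_real, Ex_const]
  have e1 : (Fintype.card A : ℝ) / ((Fintype.card A * m : ℕ) : ℝ) = (m : ℝ)⁻¹ := by
    have h1 : (Fintype.card A : ℝ) ≠ 0 := by exact_mod_cast ha0.ne'
    push_cast
    field_simp
  rw [e1]
  have g0 : 0 ≤ G (star c * c) := hG.pos.pos c
  have b2 : (m * T + 1)⁻¹ * Ex (fun v => G (star c * p v * c * (star c * p v * c))) ≤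
      130000 * G (star c * c) := by
    rw [inv_mul_le_iff₀ (by linarith)]
    linarith
  have b4 : ((m : ℝ) + 1)⁻¹ * Ex (fun v => G' (p v * p v)) ≤ 390000 * G (star c * c) := by
    rw [inv_mul_le_iff₀ (by linarith)]
    have h1 : 130000 * ((m : ℝ) + 1) * G' 1 ≤ 130000 * ((m : ℝ) + 1) * (3 * G (star c * c)) :=
      mul_le_mul_of_nonneg_left hG1 (by positivity)
    linarith
  have b5 : (‖ζ‖ ^ 2 * (m * T + 1) + ‖c ζ‖ ^ 2 * ((m : ℝ) + 1)) * (m : ℝ)⁻¹ ≤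
      ‖ζ‖ ^ 2 * (T + (m : ℝ)⁻¹) + 2 * G (star c * c) := by
    have h1 : (‖ζ‖ ^ 2 * (m * T + 1) + ‖c ζ‖ ^ 2 * ((m : ℝ) + 1)) * (m : ℝ)⁻¹ =
        ‖ζ‖ ^ 2 * (T + (m : ℝ)⁻¹) + ‖c ζ‖ ^ 2 * (1 + (m : ℝ)⁻¹) := by
      field_simp
    have h2 : ‖c ζ‖ ^ 2 * (1 + (m : ℝ)⁻¹) ≤ ‖c ζ‖ ^ 2 * 2 :=
      mul_le_mul_of_nonneg_left (by linarith) (by positivity)
    linarith
  have z1 : 0 ≤ ‖ζ‖ ^ 2 * T := by positivity
  have z2 : 0 ≤ ‖ζ‖ ^ 2 * (m : ℝ)⁻¹ := by positivity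
  have fin : Ex (fun v => G (star c * p v * c)) +
      (m * T + 1)⁻¹ * Ex (fun v => G (star c * p v * c * (star c * p v * c))) +
      Ex (fun v => G' (p v)) + ((m : ℝ) + 1)⁻¹ * Ex (fun v => G' (p v * p v)) + R +
      (‖ζ‖ ^ 2 * (m * T + 1) + ‖c ζ‖ ^ 2 * ((m : ℝ) + 1)) * (m : ℝ)⁻¹ ≤
      10 ^ 6 * (G (star c * c) + ‖ζ‖ ^ 2 * (T + (m : ℝ)⁻¹)) := by
    linarith
  have := mul_le_mul_of_nonneg_left fin (by positivity : (0 : ℝ) ≤ 10 ^ 6 * C ^ 2)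
  linarith


end Pool.Agent.Kad.H2
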