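import Pool.Agent.Lib.MP_22c5db_an.H2.CPol

/-! Hahn-Banach. -/

open scoped InnerProductSpace ComplexConjugate
open Finset

noncomputable section

namespace Pool.Agent.Kad.H2

universe u

set_option linter.unusedSectionVars false

variable {H : Type u} [NormedAddCommGroup H] [InnerProductSpace ℂ H] [CompleteSpace H]
  {M : VonNeumannAlgebra H} {τ : Op H →ₗ[ℝ] ℝ} {φ : Bil H} {C : ℝ}

theorem ext_scal {A B ε : ℝ} (hA : 0 ≤ A) (hB : 0 ≤ B) (hε : 0 < ε) :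
    ∃ t : ℝ, 0 < t ∧ (t * A) ^ 2 ≤ A * B + ε ∧ (t⁻¹ * B) ^ 2 ≤ A * B + ε := by
  obtain ⟨δ, hδ, h1, h2⟩ : ∃ δ : ℝ, 0 < δ ∧ δ * A ≤ ε ∧ δ * B ≤ ε := by
    refine ⟨ε / (A + B + 1), by positivity, ?_, ?_⟩ <;>
    · rw [div_mul_eq_mul_div, div_le_iff₀ (by positivity)]
      nlinarith
  have hq : 0 < (B + δ) / (A + δ) := by positivity
  refine ⟨√((B + δ) / (A + δ)), Real.sqrt_pos.2 hq, ?_, ?_⟩
  · rw [mul_pow, Real.sq_sqrt hq.le, div_mul_eq_mul_div, div_le_iff₀ (by positivity)]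
    nlinarith [mul_nonneg hA hB, mul_nonneg (mul_nonneg hA hB) hδ.le, mul_pos hε hδ,
      mul_le_mul_of_nonneg_left h1 hA]
  · rw [mul_pow, inv_pow, Real.sq_sqrt hq.le, inv_div, div_mul_eq_mul_div,
      div_le_iff₀ (by positivity)]
    nlinarith [mul_nonneg hA hB, mul_nonneg (mul_nonneg hA hB) hδ.le, mul_pos hε hδ,
      mul_le_mul_of_nonneg_left h2 hB]

/-- rescaling of the terms -/
theorem ext_key {ξ : H} (hK : KeyP M φ ξ C) (hC : 0 ≤ C) {κ : Type} [Fintype κ]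
    {u b : κ → Op H} {χ : κ → H} (hu : ∀ j, u j ∈ M ∧ u j ∈ unitary (Op H)) (hb : ∀ j, b j ∈ M)
    (hr : ∀ Θ : Op H →ₗ[ℂ] H,
      ∑ j, (⟪star (u j) (χ j), Θ (b j)⟫_ℂ - ⟪χ j, Θ (u j * b j)⟫_ℂ) = 0) :
    ‖∑ j, ⟪χ j, φ (u j) (b j) ξ⟫_ℂ‖ ≤ C * ∑ j, ‖b j ξ‖ * ‖χ j‖ := by
  refine le_of_forall_pos_le_add fun ε hε => ?_
  have hε' : 0 < ε / (C * Fintype.card κ + 1) := by positivity
  choose t ht h1 h2 using fun j => ext_scal (norm_nonneg (b j ξ)) (norm_nonneg (χ j)) hε'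
  have ht' : ∀ j, (t j : ℂ) ≠ 0 := fun j => Complex.ofReal_ne_zero.2 (ht j).ne'
  have e : ∀ (j : κ) (v w : H),
      ⟪(((t j)⁻¹ : ℝ) : ℂ) • v, (t j : ℂ) • w⟫_ℂ = ⟪v, w⟫_ℂ := fun j v w => by
    rw [inner_smul_left, inner_smul_right, Complex.conj_ofReal, Complex.ofReal_inv,
      inv_mul_cancel_left₀ (ht' j)]
  have k := hK κ u (fun j => (t j : ℂ) • b j) (fun j => (((t j)⁻¹ : ℝ) : ℂ) • χ j) hu
    (fun j => smul_mem' _ (hb j)) (fun Θ => by
      simp only [mul_smul_comm, map_smul, e]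
      exact hr Θ)
  simp only [map_smul, smul_apply, e] at k
  set S : ℝ := ∑ j, (‖b j ξ‖ * ‖χ j‖ + ε / (C * Fintype.card κ + 1)) with hS
  have hS0 : 0 ≤ S := sum_nonneg fun j _ => by positivity
  have a1 : √(∑ j, ‖(t j : ℂ) • b j ξ‖ ^ 2) ≤ √S := Real.sqrt_le_sqrt (sum_le_sum fun j _ => by
    rw [norm_smul, Complex.norm_real, Real.norm_eq_abs, abs_of_pos (ht j)]
    exact h1 j)
  have a2 : √(∑ j, ‖(((t j)⁻¹ : ℝ) : ℂ) • χ j‖ ^ 2) ≤ √S :=
    Real.sqrt_le_sqrt (sum_le_sum fun j _ => by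
      rw [norm_smul, Complex.norm_real, Real.norm_eq_abs, abs_of_pos (inv_pos.2 (ht j))]
      exact h2 j)
  refine k.trans ((mul_le_mul (mul_le_mul_of_nonneg_left a1 hC) a2 (Real.sqrt_nonneg _)
    (by positivity)).trans ?_)
  rw [mul_assoc, Real.mul_self_sqrt hS0, hS, sum_add_distrib, sum_const, card_univ, nsmul_eq_mul,
    mul_add, ← mul_assoc, ← mul_div_assoc]
  gcongr
  rw [div_le_iff₀ (by positivity)]
  nlinarith

/-- the estimate on cycles with arbitrary first entries -/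
theorem ext_gen {ξ : H} (hK : KeyP M φ ξ C) (hC : 0 ≤ C) {κ : Type} [Fintype κ]
    {x b : κ → Op H} {χ : κ → H} (hx : ∀ j, x j ∈ M) (hb : ∀ j, b j ∈ M)
    (hr : ∀ Θ : Op H →ₗ[ℂ] H,
      ∑ j, (⟪star (x j) (χ j), Θ (b j)⟫_ℂ - ⟪χ j, Θ (x j * b j)⟫_ℂ) = 0) :
    ‖∑ j, ⟪χ j, φ (x j) (b j) ξ⟫_ℂ‖ ≤ ∑ j, 2 * C * ‖x j‖ * ‖b j ξ‖ * ‖χ j‖ := by
  choose u c hu hxe hc using fun j => four_unitaries (hx j)
  have k := ext_key (κ := κ × Fin 4) hK hC (u := fun p => u p.1 p.2)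
    (b := fun p => c p.1 p.2 • b p.1) (χ := fun p => χ p.1) (fun p => hu p.1 p.2)
    (fun p => smul_mem' _ (hb p.1)) (fun Θ => by
      rw [← hr Θ, Fintype.sum_prod_type]
      refine sum_congr rfl fun j _ => ?_
      rw [hxe j, sum_sub_distrib, star_sum, sum_mul, map_sum, inner_sum,
        _root_.sum_apply, sum_inner]
      congr 1
      · refine sum_congr rfl fun i _ => ?_
        rw [star_smul, smul_apply, inner_smul_left, map_smul, inner_smul_right]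
        simp
      · refine sum_congr rfl fun i _ => ?_
        rw [mul_smul_comm, smul_mul_assoc])
  have e : ∑ p : κ × Fin 4, ⟪χ p.1, φ (u p.1 p.2) (c p.1 p.2 • b p.1) ξ⟫_ℂ =
      ∑ j, ⟪χ j, φ (x j) (b j) ξ⟫_ℂ := by
    rw [Fintype.sum_prod_type]
    refine sum_congr rfl fun j _ => ?_
    rw [hxe j, map_sum, LinearMap.sum_apply, _root_.sum_apply, inner_sum]
    refine sum_congr rfl fun i _ => ?_
    rw [map_smul, map_smul, LinearMap.smul_apply]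
  rw [e] at k
  refine k.trans ?_
  rw [Fintype.sum_prod_type, mul_sum]
  refine sum_le_sum fun j _ => ?_
  simp only [smul_apply, norm_smul]
  rw [← sum_mul, ← sum_mul]
  calc _ ≤ C * (2 * ‖x j‖ * ‖b j ξ‖ * ‖χ j‖) := by gcongr; exact hc j
    _ = _ := by ring

theorem ext_riesz (f : H → ℂ) (h1 : ∀ χ χ', f (χ + χ') = f χ + f χ')
    (h2 : ∀ (c : ℂ) χ, f (c • χ) = conj c * f χ) {K : ℝ} (hK : 0 ≤ K)
    (h3 : ∀ χ, ‖f χ‖ ≤ K * ‖χ‖) : ∃ v : H, (∀ χ, ⟪χ, v⟫_ℂ = f χ) ∧ ‖v‖ ≤ K := by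
  let l : H →ₗ[ℂ] ℂ :=
    { toFun := fun χ => conj (f χ)
      map_add' := fun χ χ' => by rw [h1, map_add]
      map_smul' := fun c χ => by simp [h2] }
  have hl : ∀ χ, ‖l χ‖ ≤ K * ‖χ‖ := fun χ => (Complex.norm_conj _).trans_le (h3 χ)
  refine ⟨(InnerProductSpace.toDual ℂ H).symm (l.mkContinuous K hl), fun χ => ?_, ?_⟩
  · rw [← inner_conj_symm, InnerProductSpace.toDual_symm_apply]
    exact Complex.conj_conj _
  · rw [LinearIsometryEquiv.norm_map]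
    exact l.mkContinuous_norm_le hK hl

omit [CompleteSpace H] in
theorem ext_proj (S : Submodule ℂ (Op H)) :
    ∃ P : Op H →ₗ[ℂ] Op H, (∀ x, P x ∈ S) ∧ ∀ x ∈ S, P x = x := by
  obtain ⟨g, hg⟩ := S.subtype.exists_leftInverse_of_injective S.ker_subtype
  refine ⟨S.subtype.comp g, fun x => (g x).2, fun x hx => ?_⟩
  exact congrArg Subtype.val (LinearMap.congr_fun hg ⟨x, hx⟩)

/-- Hahn-Banach on the free vector space of triples -/
theorem ext_hb {ξ : H} (hK : KeyP M φ ξ C) (hC : 0 ≤ C) {P : Op H → Op H} (hP : ∀ x, P x ∈ M) :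
    ∃ T : Op H × Op H × H → ℂ, (∀ p, ‖T p‖ ≤ 2 * C * ‖P p.1‖ * ‖P p.2.1 ξ‖ * ‖p.2.2‖) ∧
      ∀ (p q r : Op H × Op H × H) (c d : ℂ), (∀ Θ : Op H →ₗ[ℂ] H,
        ⟪star (P p.1) p.2.2, Θ (P p.2.1)⟫_ℂ - ⟪p.2.2, Θ (P p.1 * P p.2.1)⟫_ℂ =
          c * (⟪star (P q.1) q.2.2, Θ (P q.2.1)⟫_ℂ - ⟪q.2.2, Θ (P q.1 * P q.2.1)⟫_ℂ) +
          d * (⟪star (P r.1) r.2.2, Θ (P r.2.1)⟫_ℂ - ⟪r.2.2, Θ (P r.1 * P r.2.1)⟫_ℂ)) →
        T p - c * T q - d * T r = ⟪p.2.2, φ (P p.1) (P p.2.1) ξ⟫_ℂ -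
          c * ⟪q.2.2, φ (P q.1) (P q.2.1) ξ⟫_ℂ - d * ⟪r.2.2, φ (P r.1) (P r.2.1) ξ⟫_ℂ := by
  classical
  set Ψ : ((Op H × Op H × H) →₀ ℂ) →ₗ[ℂ] ((Op H →ₗ[ℂ] H) → ℂ) :=
    Finsupp.linearCombination ℂ fun p Θ =>
      ⟪star (P p.1) p.2.2, Θ (P p.2.1)⟫_ℂ - ⟪p.2.2, Θ (P p.1 * P p.2.1)⟫_ℂ with hΨ
  set L : ((Op H × Op H × H) →₀ ℂ) →ₗ[ℂ] ℂ :=
    Finsupp.linearCombination ℂ fun p => ⟪p.2.2, φ (P p.1) (P p.2.1) ξ⟫_ℂ with hL
  have hw : ∀ p : Op H × Op H × H, 0 ≤ 2 * C * ‖P p.1‖ * ‖P p.2.1 ξ‖ * ‖p.2.2‖ := fun p => by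
    positivity
  obtain ⟨Λ, h1, h2⟩ := Inner.hb (F := LinearMap.ker Ψ) (LinearMap.ker Ψ).subtype (L.comp (LinearMap.ker Ψ).subtype)
    (Inner.nu _ hw) (by
      rintro ⟨g, hg⟩
      have hsum : ∀ {N : Type} [AddCommMonoid N] (f : Op H × Op H × H → N),
          ∑ i : Fin g.support.card, f (g.support.equivFin.symm i) = ∑ p ∈ g.support, f p := by
        intro N _ f
        rw [Equiv.sum_comp g.support.equivFin.symm fun p => f p, sum_coe_sort]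
      have k := ext_gen (κ := Fin g.support.card) hK hC
        (x := fun i => P (g.support.equivFin.symm i).1.1)
        (b := fun i => g (g.support.equivFin.symm i) • P (g.support.equivFin.symm i).1.2.1)
        (χ := fun i => (g.support.equivFin.symm i).1.2.2) (fun _ => hP _)
        (fun _ => smul_mem' _ (hP _)) (fun Θ => by
          have e := congrFun (LinearMap.mem_ker.1 hg) Θ
          rw [hΨ, Finsupp.linearCombination_apply, Finsupp.sum] at e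
          simp only [Finset.sum_apply, Pi.smul_apply, smul_eq_mul, Pi.zero_apply] at e
          rw [hsum fun p => ⟪star (P p.1) p.2.2, Θ (g p • P p.2.1)⟫_ℂ -
            ⟪p.2.2, Θ (P p.1 * g p • P p.2.1)⟫_ℂ, ← e]
          refine sum_congr rfl fun p _ => ?_
          rw [mul_smul_comm, map_smul, map_smul, inner_smul_right, inner_smul_right, mul_sub])
      rw [hsum fun p => ⟪p.2.2, φ (P p.1) (g p • P p.2.1) ξ⟫_ℂ,
        hsum fun p => 2 * C * ‖P p.1‖ * ‖(g p • P p.2.1) ξ‖ * ‖p.2.2‖] at k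
      have e1 : L g = ∑ p ∈ g.support, ⟪p.2.2, φ (P p.1) (g p • P p.2.1) ξ⟫_ℂ := by
        rw [hL, Finsupp.linearCombination_apply, Finsupp.sum]
        refine sum_congr rfl fun p _ => ?_
        rw [map_smul, smul_apply, inner_smul_right, smul_eq_mul]
      change ‖L g‖ ≤ Inner.nu _ hw g
      rw [e1, Inner.nu_apply]
      refine k.trans (le_of_eq (sum_congr rfl fun p _ => ?_))
      rw [smul_apply, norm_smul]
      ring)
  refine ⟨fun p => Λ (Finsupp.single p 1), fun p => (h2 _).trans (le_of_eq ?_),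
    fun p q r c d hr => ?_⟩
  · rw [Inner.nu_apply, Finsupp.support_single _ one_ne_zero, sum_singleton,
      Finsupp.single_eq_same, norm_one, one_mul]
  · have hm : Finsupp.single p 1 - c • Finsupp.single q 1 - d • Finsupp.single r 1 ∈
        LinearMap.ker Ψ := by
      rw [LinearMap.mem_ker]
      funext Θ
      simp only [map_sub, map_smul, hΨ, Finsupp.linearCombination_single, one_smul, Pi.sub_apply,
        Pi.smul_apply, smul_eq_mul, Pi.zero_apply]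
      rw [hr Θ]
      ring
    have e := h1 ⟨_, hm⟩
    simp only [Submodule.subtype_apply, LinearMap.comp_apply, map_sub, map_smul, hL,
      Finsupp.linearCombination_single, smul_eq_mul, one_mul] at e
    exact e

theorem ext_one (h : CC M φ) {ξ : H} (hK : KeyP M φ ξ C) (hC : 0 ≤ C) :
    ∃ g : Op H →ₗ[ℂ] Op H →ₗ[ℂ] H, (∀ x ∈ M, ∀ b ∈ M, ‖g x b‖ ≤ 2 * C * ‖x‖ * ‖b ξ‖) ∧
      ∀ x ∈ M, ∀ y ∈ M, ∀ b ∈ M, φ x y (b ξ) = x (g y b) - g (x * y) b + g x (y * b) := by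
  obtain ⟨P, hP, hP'⟩ := ext_proj (Subalgebra.toSubmodule M.toStarSubalgebra.toSubalgebra)
  have hP1 : ∀ x, P x ∈ M := hP
  have hP2 : ∀ x ∈ M, P x = x := hP'
  obtain ⟨T, hT, hr⟩ := ext_hb hK hC hP1
  have hadd : ∀ p q r : Op H × Op H × H, (∀ Θ : Op H →ₗ[ℂ] H,
      ⟪star (P p.1) p.2.2, Θ (P p.2.1)⟫_ℂ - ⟪p.2.2, Θ (P p.1 * P p.2.1)⟫_ℂ =
        (⟪star (P q.1) q.2.2, Θ (P q.2.1)⟫_ℂ - ⟪q.2.2, Θ (P q.1 * P q.2.1)⟫_ℂ) +
        (⟪star (P r.1) r.2.2, Θ (P r.2.1)⟫_ℂ - ⟪r.2.2, Θ (P r.1 * P r.2.1)⟫_ℂ)) →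
      ⟪p.2.2, φ (P p.1) (P p.2.1) ξ⟫_ℂ =
        ⟪q.2.2, φ (P q.1) (P q.2.1) ξ⟫_ℂ + ⟪r.2.2, φ (P r.1) (P r.2.1) ξ⟫_ℂ →
      T p = T q + T r := fun p q r h1 h2 => by
    have e := hr p q r 1 1 fun Θ => by rw [h1 Θ, one_mul, one_mul]
    rw [h2] at e
    linear_combination e
  have hsm : ∀ (p q : Op H × Op H × H) (c : ℂ), (∀ Θ : Op H →ₗ[ℂ] H,
      ⟪star (P p.1) p.2.2, Θ (P p.2.1)⟫_ℂ - ⟪p.2.2, Θ (P p.1 * P p.2.1)⟫_ℂ =
        c * (⟪star (P q.1) q.2.2, Θ (P q.2.1)⟫_ℂ - ⟪q.2.2, Θ (P q.1 * P q.2.1)⟫_ℂ)) →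
      ⟪p.2.2, φ (P p.1) (P p.2.1) ξ⟫_ℂ = c * ⟪q.2.2, φ (P q.1) (P q.2.1) ξ⟫_ℂ →
      T p = c * T q := fun p q c h1 h2 => by
    have e := hr p q q c 0 fun Θ => by rw [h1 Θ, zero_mul, add_zero]
    rw [h2] at e
    linear_combination e
  have hv : ∀ x b : Op H, ∃ v : H, (∀ χ, ⟪χ, v⟫_ℂ = T (x, b, χ)) ∧
      ‖v‖ ≤ 2 * C * ‖P x‖ * ‖P b ξ‖ := fun x b =>
    ext_riesz (fun χ => T (x, b, χ))
      (fun χ χ' => hadd _ _ _ (fun Θ => by simp only [map_add, inner_add_left]; ring)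
        (inner_add_left _ _ _))
      (fun c χ => hsm _ _ _ (fun Θ => by simp only [map_smul, inner_smul_left]; ring)
        (inner_smul_left _ _ _))
      (by positivity) fun χ => hT (x, b, χ)
  choose v hv1 hv2 using hv
  refine ⟨LinearMap.mk₂ ℂ v (fun x x' b => ext_inner_left ℂ fun χ => ?_)
    (fun c x b => ext_inner_left ℂ fun χ => ?_) (fun x b b' => ext_inner_left ℂ fun χ => ?_)
    (fun c x b => ext_inner_left ℂ fun χ => ?_), fun x hx b hb => ?_,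
    fun x hx y hy b hb => ext_inner_left ℂ fun χ => ?_⟩
  · rw [inner_add_right, hv1, hv1, hv1]
    refine hadd _ _ _ (fun Θ => ?_) ?_
    · simp only [map_add, star_add, add_mul, add_apply, inner_add_left,
        inner_add_right]
      ring
    · simp only [map_add, LinearMap.add_apply, add_apply, inner_add_right]
  · rw [inner_smul_right, hv1, hv1]
    refine hsm _ _ _ (fun Θ => ?_) ?_
    · simp only [map_smul, star_smul, smul_mul_assoc, smul_apply,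
        inner_smul_left, inner_smul_right, RCLike.star_def, Complex.conj_conj]
      ring
    · simp only [map_smul, LinearMap.smul_apply, smul_apply, inner_smul_right]
  · rw [inner_add_right, hv1, hv1, hv1]
    refine hadd _ _ _ (fun Θ => ?_) ?_
    · simp only [map_add, mul_add, inner_add_right]
      ring
    · simp only [map_add, add_apply, inner_add_right]
  · rw [inner_smul_right, hv1, hv1]
    refine hsm _ _ _ (fun Θ => ?_) ?_
    · simp only [map_smul, mul_smul_comm, inner_smul_right]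
      ring
    · simp only [map_smul, smul_apply, inner_smul_right]
  · have := hv2 x b
    rwa [hP2 x hx, hP2 b hb] at this
  · have e := hr (x * y, b, χ) (y, b, star x χ) (x, y * b, χ) 1 1 fun Θ => by
      simp only [hP2 _ hx, hP2 _ hy, hP2 _ hb, hP2 _ (mul_mem hx hy), hP2 _ (mul_mem hy hb),
        star_mul, mul_apply_eq_comp, mul_assoc]
      ring
    simp only [hP2 _ hx, hP2 _ hy, hP2 _ hb, hP2 _ (mul_mem hx hy), hP2 _ (mul_mem hy hb),
      h x hx y hy b hb, sub_apply, add_apply,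
      mul_apply_eq_comp, inner_sub_right, inner_add_right, one_mul, ← hv1,
      ContinuousLinearMap.star_eq_adjoint, ContinuousLinearMap.adjoint_inner_left] at e
    simp only [LinearMap.mk₂_apply, inner_sub_right, inner_add_right]
    linear_combination e


end Pool.Agent.Kad.H2
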