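import Pool.Agent.Lib.MP_22c5db_an.H2.Basic

/-! Folding elements with small supports. -/

open scoped InnerProductSpace ComplexConjugate
open Finset

noncomputable section

namespace Pool.Agent.Kad.H2

universe u

set_option linter.unusedSectionVars false

variable {H : Type u} [NormedAddCommGroup H] [InnerProductSpace ℂ H] [CompleteSpace H]
  {M : VonNeumannAlgebra H} {τ : Op H →ₗ[ℝ] ℝ} {φ : Bil H} {C : ℝ}
  {ι : Type} [Fintype ι] [DecidableEq ι] {e : ι → ι → Op H}

theorem fold_mid (h : Nrm M φ e C) {κ : Type} [Fintype κ] (u v : κ → ι) {x y : Op H}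
    (hx : x ∈ M) (hy : y ∈ M) :
    φ (x * ∑ s, e (u s) (v s)) y = φ x ((∑ s, e (u s) (v s)) * y) := by
  rw [mul_sum, sum_mul, map_sum, map_sum, LinearMap.sum_apply]
  exact sum_congr rfl fun s _ => h.mid_unit _ _ hx hy

theorem fold_pick {I : Type} [DecidableEq I] (n : I → ℕ) {k : ℕ} (hn : ∀ i, n i ≤ k)
    (s : Finset I) (hs : k ≤ 2 * ∑ i ∈ s, n i) :
    ∃ s' ⊆ s, k ≤ 2 * ∑ i ∈ s', n i ∧ ∑ i ∈ s', n i ≤ k := by
  induction s using Finset.induction_on with
  | empty => exact ⟨∅, Subset.refl _, hs, by simp⟩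
  | insert a s ha ih =>
    rw [sum_insert ha] at hs
    by_cases h1 : k ≤ 2 * ∑ i ∈ s, n i
    · obtain ⟨s', h2, h3⟩ := ih h1
      exact ⟨s', h2.trans (subset_insert _ _), h3⟩
    by_cases h2 : k ≤ 2 * n a
    · exact ⟨{a}, by simp, by simpa using h2, by simpa using hn a⟩
    refine ⟨insert a s, Subset.refl _, ?_, ?_⟩
    · rw [sum_insert ha]; exact hs
    · rw [sum_insert ha]; omega

theorem fold_one (h : Nrm M φ e C) {I T : Type} [Fintype I] [DecidableEq I] [Fintype T]
    (π : T → I) {x : T → Op H} (hx : ∀ r, x r ∈ M)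
    (hx1 : ∀ i ξ, ∑ r with π r = i, ‖x r ξ‖ ^ 2 ≤ ‖ξ‖ ^ 2) {b : I → Op H} (hb : ∀ i, b i ∈ M)
    {F : I → Finset ι} (hF : ∀ i, pF e (F i) * b i = b i) {t : ℝ} (ht : 0 ≤ t) (hb1 : Cl b t)
    (hk : ∑ i, (F i).card ≤ Fintype.card ι) (ζ : H) :
    ∑ r, ‖φ (x r) (b (π r)) ζ‖ ^ 2 ≤ (C * t * ‖ζ‖) ^ 2 := by
  have hc : Fintype.card (Σ i, F i) ≤ Fintype.card ι := by
    rw [Fintype.card_sigma]
    simpa using hk
  obtain ⟨σ⟩ := Function.Embedding.nonempty_of_card_le hc
  set S : I → Op H := fun i => ∑ s : F i, e (σ ⟨i, s⟩) s with hS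
  have hS' : ∀ i, star (S i) = ∑ s : F i, e s (σ ⟨i, s⟩) := fun i => by
    simp only [hS, star_sum, h.mu.adj]
  have hSM : ∀ i, S i ∈ M := fun i => sum_mem fun s _ => h.mem _ _
  have hSM' : ∀ i, star (S i) ∈ M := fun i => by
    rw [hS']; exact sum_mem fun s _ => h.mem _ _
  have h1 : ∀ i, star (S i) * S i = pF e (F i) := fun i => by
    rw [hS', hS, sum_mul_sum, pF, ← sum_coe_sort (F i)]
    refine sum_congr rfl fun s _ => ?_
    rw [sum_eq_single s]
    · rw [h.mu.mul, if_pos rfl]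
    · intro s' _ hne
      rw [h.mu.mul, if_neg]
      intro he
      have := σ.injective he
      exact hne (eq_of_heq (Sigma.mk.inj this).2).symm
    · intro hh; exact absurd (mem_univ _) hh
  have h2 : ∀ i j, j ≠ i → star (S i) * S j = 0 := fun i j hij => by
    rw [hS', hS, sum_mul_sum]
    refine sum_eq_zero fun s _ => sum_eq_zero fun s' _ => ?_
    rw [h.mu.mul, if_neg]
    intro he
    exact hij (Sigma.mk.inj (σ.injective he)).1.symm
  set B : Op H := ∑ i, S i * b i with hB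
  have hBM : B ∈ M := sum_mem fun i _ => mul_mem (hSM i) (hb i)
  have h3 : ∀ i, star (S i) * B = b i := fun i => by
    rw [hB, mul_sum, sum_eq_single i]
    · rw [← mul_assoc, h1, hF]
    · intro j _ hj
      rw [← mul_assoc, h2 i j hj, zero_mul]
    · intro hh; exact absurd (mem_univ _) hh
  have h4 : star B * B = ∑ i, star (b i) * b i := by
    nth_rewrite 1 [hB]
    rw [star_sum, sum_mul]
    exact sum_congr rfl fun i _ => by rw [star_mul, mul_assoc, h3]
  have h5 : ‖B‖ ≤ t := by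
    have := cl_iff.1 hb1
    rw [← h4, CStarRing.norm_star_mul_self, ← sq] at this
    exact (sq_le_sq₀ (norm_nonneg _) ht).1 this
  have h6 : ∑ i, S i * star (S i) = pF e (univ.map σ) := by
    rw [pF, sum_map, Fintype.sum_sigma]
    refine sum_congr rfl fun i _ => ?_
    rw [hS', hS, sum_mul_sum]
    refine sum_congr rfl fun s _ => ?_
    rw [sum_eq_single s]
    · rw [h.mu.mul, if_pos rfl]
    · intro s' _ hne
      rw [h.mu.mul, if_neg]
      intro he
      exact hne (Subtype.ext he).symm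
    · intro hh; exact absurd (mem_univ _) hh
  have h7 : Cl (fun i => star (S i)) 1 := by
    refine cl_iff.2 ?_
    simp only [star_star]
    rw [h6, one_pow]
    exact (h.mu.proj _).norm_le
  have h8 : Cl (fun r => x r * star (S (π r))) 1 := fun ξ => by
    refine le_trans ?_ (h7 ξ)
    rw [← sum_fiberwise univ π]
    refine sum_le_sum fun i _ => le_trans (le_of_eq ?_) (hx1 i (star (S i) ξ))
    refine sum_congr rfl fun r hr => ?_
    rw [← (mem_filter.1 hr).2]
    rfl
  have h9 := h.col T _ (fun r => mul_mem (hx r) (hSM' (π r))) 1 zero_le_one h8 B hBM ζ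
  have h10 : ∀ r, φ (x r * star (S (π r))) B = φ (x r) (b (π r)) := fun r => by
    rw [← h3, hS']
    exact fold_mid h _ _ (hx r) hBM
  simp only [h10] at h9
  refine h9.trans ?_
  have hC := h.c0
  rw [mul_one]
  gcongr

theorem fold_sub (h : Nrm M φ e C) {I T : Type} [Fintype I] [DecidableEq I] [Fintype T]
    (π : T → I) {x : T → Op H} (hx : ∀ r, x r ∈ M)
    (hx1 : ∀ i ξ, ∑ r with π r = i, ‖x r ξ‖ ^ 2 ≤ ‖ξ‖ ^ 2) {b : I → Op H} (hb : ∀ i, b i ∈ M)
    {F : I → Finset ι} (hF : ∀ i, pF e (F i) * b i = b i) {t : ℝ} (ht : 0 ≤ t) (hb1 : Cl b t)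
    (ζ : H) (s : Finset I) (hk : ∑ i ∈ s, (F i).card ≤ Fintype.card ι) :
    ∑ r with π r ∈ s, ‖φ (x r) (b (π r)) ζ‖ ^ 2 ≤ (C * t * ‖ζ‖) ^ 2 := by
  have h1 := fold_one h π hx hx1 (b := fun i => if i ∈ s then b i else 0)
    (F := fun i => if i ∈ s then F i else ∅) (t := t)
    (fun i => by
      split_ifs
      · exact hb i
      · exact zero_mem _)
    (fun i => by
      split_ifs
      · exact hF i
      · exact mul_zero _) ht
    (fun ξ => by
      refine le_trans (sum_le_sum fun i _ => ?_) (hb1 ξ)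
      beta_reduce
      split_ifs
      · exact le_rfl
      · simp)
    (by
      refine le_trans (le_of_eq ?_) hk
      rw [← sum_subset (subset_univ s)]
      · exact sum_congr rfl fun i hi => by rw [if_pos hi]
      · intro i _ hi; rw [if_neg hi, card_empty]) ζ
  refine le_trans (le_of_eq ?_) h1
  rw [sum_filter]
  refine sum_congr rfl fun r _ => ?_
  split_ifs
  · rfl
  · simp

theorem fold [Nonempty ι] (h : Nrm M φ e C) {I T : Type} [Fintype I] [DecidableEq I] [Fintype T]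
    (π : T → I) {x : T → Op H} (hx : ∀ r, x r ∈ M)
    (hx1 : ∀ i ξ, ∑ r with π r = i, ‖x r ξ‖ ^ 2 ≤ ‖ξ‖ ^ 2) {b : I → Op H} (hb : ∀ i, b i ∈ M)
    {F : I → Finset ι} (hF : ∀ i, pF e (F i) * b i = b i) {t : ℝ} (ht : 0 ≤ t) (hb1 : Cl b t)
    (ζ : H) : ∑ r, ‖φ (x r) (b (π r)) ζ‖ ^ 2 ≤
      (C * t * ‖ζ‖) ^ 2 * (1 + 2 * ((∑ i, (F i).card : ℕ) / Fintype.card ι)) := by
  have hk : (0 : ℝ) < Fintype.card ι := Nat.cast_pos.2 Fintype.card_pos
  have key : ∀ s : Finset I, ∑ r with π r ∈ s, ‖φ (x r) (b (π r)) ζ‖ ^ 2 ≤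
      (C * t * ‖ζ‖) ^ 2 * (1 + 2 * ((∑ i ∈ s, (F i).card : ℕ) / Fintype.card ι)) := by
    intro s
    induction s using Finset.strongInduction with
    | H s ih =>
      by_cases hs : ∑ i ∈ s, (F i).card ≤ Fintype.card ι
      · refine (fold_sub h π hx hx1 hb hF ht hb1 ζ s hs).trans ?_
        refine le_mul_of_one_le_right (sq_nonneg _) ?_
        have : (0 : ℝ) ≤ 2 * ((∑ i ∈ s, (F i).card : ℕ) / Fintype.card ι) := by positivity
        linarith
      obtain ⟨s', hs', h1, h2⟩ := fold_pick (fun i => (F i).card) (k := Fintype.card ι)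
        (fun i => card_le_univ _) s (by omega)
      have hne : s'.Nonempty := by
        rw [nonempty_iff_ne_empty]
        rintro rfl
        have := Fintype.card_pos (α := ι)
        rw [sum_empty] at h1
        omega
      have h3 := ih (s \ s') (sdiff_ssubset hs' hne)
      have h4 := fold_sub h π hx hx1 hb hF ht hb1 ζ s' h2
      have h5 : ∑ r with π r ∈ s, ‖φ (x r) (b (π r)) ζ‖ ^ 2 =
          ∑ r with π r ∈ s \ s', ‖φ (x r) (b (π r)) ζ‖ ^ 2 +
            ∑ r with π r ∈ s', ‖φ (x r) (b (π r)) ζ‖ ^ 2 := by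
        rw [sum_filter, sum_filter, sum_filter, ← sum_add_distrib]
        refine sum_congr rfl fun r _ => ?_
        by_cases h6 : π r ∈ s'
        · simp [h6, hs' h6]
        · simp [h6]
      have h6 : ((∑ i ∈ s, (F i).card : ℕ) : ℝ) =
          (∑ i ∈ s \ s', (F i).card : ℕ) + (∑ i ∈ s', (F i).card : ℕ) := by
        rw [← Nat.cast_add, sum_sdiff hs']
      have h7 : (1 : ℝ) ≤ 2 * ((∑ i ∈ s', (F i).card : ℕ) / Fintype.card ι) := by
        rw [← mul_div_assoc, le_div_iff₀ hk, one_mul]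
        exact_mod_cast h1
      rw [h5, h6, add_div]
      have h8 := mul_le_mul_of_nonneg_left h7 (sq_nonneg (C * t * ‖ζ‖))
      nlinarith
  simpa using key univ


end Pool.Agent.Kad.H2
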