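import Pool.Agent.Lib.MP_22c5db_an.H2.Basic

/-! The forward estimate. -/

open scoped InnerProductSpace ComplexConjugate
open Finset

noncomputable section

namespace Pool.Agent.Kad.H2

universe u

set_option linter.unusedSectionVars false

variable {K : Type u} [NormedAddCommGroup K] [InnerProductSpace ℂ K] [CompleteSpace K]
  {A B : Type} [Fintype A] [Fintype B] [DecidableEq A] [DecidableEq B] [Nonempty A] [Nonempty B]
  {E : A × B → A × B → Op K} {y : Op K} {M : ℕ} {δ : ℝ} {N : VonNeumannAlgebra K}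

theorem fwd_ct {T W : Type*} [TopologicalSpace T] [NormedAddCommGroup W] [NormedSpace ℂ W]
    {f : T → Op K} (hf : Continuous f) (h1 : ∀ t, f t ∈ N) (Φ : Op K →ₗ[ℂ] W) {β : ℝ}
    (hΦ : ∀ x ∈ N, ‖Φ x‖ ≤ β * ‖x‖) : Continuous fun t => Φ (f t) := by
  let S : Submodule ℂ (Op K) := N.toStarSubalgebra.toSubalgebra.toSubmodule
  let L : S →L[ℂ] W := (Φ.comp S.subtype).mkContinuous β fun x => hΦ x.1 x.2
  exact L.continuous.comp (hf.subtype_mk (p := fun x => x ∈ S) h1)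

theorem fwd_ce_mem {ι : Type} [Fintype ι] [DecidableEq ι] {e : ι → ι → Op K}
    (hE : ∀ i j, e i j ∈ N) {x : Op K} (hx : x ∈ N) : ce e x ∈ N :=
  smul_mem' _ (sum_mem fun i _ => sum_mem fun k _ => mul_mem (mul_mem (hE i k) hx) (hE k i))

theorem fwd_G_le {G : Op K →ₗ[ℂ] K} {g : Op K →L[ℝ] ℝ} (hg : Pos g 1) {β : ℝ}
    (hβ : 0 ≤ β) (hG : ∀ x ∈ N, ‖G x‖ ^ 2 ≤ β ^ 2 * g (star x * x)) :
    ∀ x ∈ N, ‖G x‖ ≤ β * ‖x‖ := by
  intro x hx
  refine (abs_le_of_sq_le_sq' ((hG x hx).trans ?_) (by positivity)).2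
  have h1 := (le_abs_self _).trans (hg.le (star x * x))
  rw [CStarRing.norm_star_mul_self, one_mul] at h1
  calc _ ≤ β ^ 2 * (‖x‖ * ‖x‖) := mul_le_mul_of_nonneg_left h1 (sq_nonneg β)
    _ = _ := by ring

/-- a vector valued linear map as an operator valued one -/
theorem fwd_lift (G : Op K →ₗ[ℂ] K) {η : K} (hη : η ≠ 0) :
    ∃ (Φ : Op K →ₗ[ℂ] Op K) (c : ℝ), 0 ≤ c ∧ (∀ x, Φ x η = G x) ∧ ∀ x, ‖Φ x‖ ≤ c * ‖G x‖ := by
  let l : K →L[ℂ] ℂ := innerSL ℂ ((((‖η‖ : ℂ) ^ 2)⁻¹) • η)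
  have hl : l η = 1 := by
    have h0 : (‖η‖ : ℂ) ≠ 0 := by exact_mod_cast norm_ne_zero_iff.2 hη
    simp only [l, innerSL_apply_apply, inner_smul_left, inner_self_eq_norm_sq_to_K, map_inv₀,
      map_pow, Complex.conj_ofReal]
    exact inv_mul_cancel₀ (pow_ne_zero 2 h0)
  refine ⟨((ContinuousLinearMap.smulRightL ℂ K K l : K →L[ℂ] Op K) : K →ₗ[ℂ] Op K).comp G, ‖l‖,
    norm_nonneg _, fun x => ?_, fun x => ?_⟩
  · show l η • G x = G x
    rw [hl, one_smul]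
  · exact (ContinuousLinearMap.norm_smulRight_apply l (G x)).le

/-- derivatives through a linear map that is bounded on `N` -/
theorem dif_comp {ι : Type} [Fintype ι] [DecidableEq ι] {X : Matrix ι ι ℂ → Op K}
    {X' : Matrix ι ι ℂ → Matrix ι ι ℂ → Op K} (hX : Dif X X') (h1 : ∀ v, X v ∈ N)
    (h2 : ∀ v s, X' v s ∈ N) (Φ : Op K →ₗ[ℂ] Op K) {β : ℝ} (hΦ : ∀ x ∈ N, ‖Φ x‖ ≤ β * ‖x‖) :
    Dif (fun v => Φ (X v)) (fun v s => Φ (X' v s)) := by
  refine ⟨fwd_ct hX.cont h1 Φ hΦ, fwd_ct hX.cont' (fun p => h2 p.1 p.2) Φ hΦ, fun v =>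
    ⟨fun a b => by rw [(hX.lin v).map_add, map_add],
      fun c a => by rw [(hX.lin v).map_smul, map_smul]⟩, fun v h s => ?_⟩
  have h3 := hasDerivAt_iff_isLittleO.1 (hX.der v h s)
  refine hasDerivAt_iff_isLittleO.2 (Asymptotics.IsBigO.trans_isLittleO ?_ h3)
  refine Asymptotics.IsBigO.of_bound β (Filter.Eventually.of_forall fun t => ?_)
  rw [← map_smul, ← map_sub, ← map_sub]
  exact hΦ _ (sub_mem (sub_mem (h1 _) (h1 _)) (smul_mem' _ (h2 _ _)))

/-- integration by parts for a vector valued map -/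
theorem fwd_sd (h : MU E 1) (hE : ∀ i j, E i j ∈ N) (hy : y ∈ unitary (Op K)) (hyN : y ∈ N)
    (hS : RM.Sm E M δ) (hδ : 0 ≤ δ) (G : Op K →ₗ[ℂ] K) {g : Op K →L[ℝ] ℝ} (hg : Pos g 1) {β : ℝ}
    (hβ : 0 ≤ β) (hG : ∀ x ∈ N, ‖G x‖ ^ 2 ≤ β ^ 2 * g (star x * x)) {F : Op K} (hF : F ∈ N)
    (hF1 : ‖F‖ ≤ 1) {n : ℕ} (hn : n + 1 ≤ M) (η : K) :
    ‖Ex fun v : U (A × B) => ⟪((y * rho E v) ^ (n + 1)) η, G ((y * rho E v) ^ (n + 1) * F)⟫_ℂ -
      (Fintype.card (A × B) : ℂ)⁻¹ * ∑ i, ∑ k, ∑ c ∈ range (n + 1),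
        ⟪((y * rho E v) ^ (c + 1) * E k i * (y * rho E v) ^ (n - c)) η,
          G ((y * rho E v) ^ (n + 1) * E k i * F)⟫_ℂ‖ ≤ n * β * √δ * ‖η‖ := by
  rcases eq_or_ne η 0 with rfl | hη
  · simp only [map_zero, inner_zero_left, sum_const_zero, mul_zero, sub_zero, Ex_const, norm_zero,
      le_refl]
  obtain ⟨Φ, c₀, hc₀, hΦ, hΦle⟩ := fwd_lift G hη
  have hGle := fwd_G_le hg hβ hG
  have hΦN : ∀ x ∈ N, ‖Φ x‖ ≤ c₀ * β * ‖x‖ := fun x hx => by
    rw [mul_assoc]; exact (hΦle x).trans (mul_le_mul_of_nonneg_left (hGle x hx) hc₀)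
  have hD : (0 : ℝ) < Fintype.card (A × B) := Nat.cast_pos.2 Fintype.card_pos
  have hD' : (Fintype.card (A × B) : ℂ) ≠ 0 := Nat.cast_ne_zero.2 Fintype.card_ne_zero
  have cw : ∀ n, Continuous fun v : U (A × B) => (y * rho E v) ^ n :=
    fun n => (RM.good_pow h hy n).cont
  have mw : ∀ (n : ℕ) (v : Matrix (A × B) (A × B) ℂ), (y * rho E v) ^ n ∈ N :=
    fun n v => pow_mem (mul_mem hyN (rho_mem hE v)) n
  have c0 : Continuous fun v : U (A × B) =>
      ⟪((y * rho E v) ^ (n + 1)) η, G ((y * rho E v) ^ (n + 1) * F)⟫_ℂ -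
      (Fintype.card (A × B) : ℂ)⁻¹ * ∑ i, ∑ k, ∑ c ∈ range (n + 1),
        ⟪((y * rho E v) ^ (c + 1) * E k i * (y * rho E v) ^ (n - c)) η,
          G ((y * rho E v) ^ (n + 1) * E k i * F)⟫_ℂ :=
    (((cw _).clm_apply continuous_const).inner (fwd_ct ((cw _).mul continuous_const)
      (fun v => mul_mem (mw _ _) hF) G hGle)).sub (continuous_const.mul
      (continuous_finsetSum _ fun i _ => continuous_finsetSum _ fun k _ =>
        continuous_finsetSum _ fun c _ =>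
          ((((cw _).mul continuous_const).mul (cw _)).clm_apply continuous_const).inner
            (fwd_ct (((cw _).mul continuous_const).mul continuous_const)
              (fun v => mul_mem (mul_mem (mw _ _) (hE _ _)) hF) G hGle)))
  set x : ℕ → U (A × B) → Op K := fun c v =>
    (y * rho E v) ^ (c + 1) * ce E ((y * rho E v) ^ (n - c)) * F with hx
  have cx : ∀ c, Continuous (x c) := fun c =>
    ((cw _).mul ((continuous_ce E).comp (cw _))).mul continuous_const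
  have mx : ∀ c v, x c v ∈ N := fun c v => mul_mem (mul_mem (mw _ _) (fwd_ce_mem hE (mw _ _))) hF
  have c1 : ∀ c, Continuous fun v => ‖G (x c v)‖ := fun c =>
    (fwd_ct (cx c) (mx c) G hGle).norm
  have key := sd_right_bound (fun i k => dif_comp
      (((RM.dif_pow E y (n + 1)).mul (Dif.const (E k i))).mul (Dif.const F))
      (fun v => mul_mem (mul_mem (mw _ _) (hE _ _)) hF) (fun v s => ?_) Φ hΦN)
    (RM.dif_pow E y (n + 1)) η η
    (continuous_const (y := (Fintype.card (A × B) : ℂ)).fun_mul c0)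
    (continuous_const (y := (Fintype.card (A × B) : ℝ)).fun_mul
      (continuous_finsetSum (range n) fun c _ =>
        (continuous_const (y := ‖η‖)).fun_mul (c1 c))) fun v => ?_
  · rw [Ex_mul, Ex_mul_real, norm_mul, Complex.norm_natCast,
      Ex_sum _ fun c _ => (continuous_const (y := ‖η‖)).fun_mul (c1 c)] at key
    refine (le_of_mul_le_mul_left key hD).trans ?_
    have h3 : ∀ c ∈ range n, Ex (fun v => ‖η‖ * ‖G (x c v)‖) ≤ β * √δ * ‖η‖ := by
      intro c hc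
      have hc' := mem_range.1 hc
      rw [Ex_mul_real, mul_comm]
      refine mul_le_mul_of_nonneg_right (Ex_le_of_sq (c1 c) (by positivity) ?_) (norm_nonneg _)
      have cg : Continuous fun v => g (star (x c v) * x c v) :=
        g.continuous.comp ((cx c).star.mul (cx c))
      have k1 : Ex (fun v => g (star (x c v) * x c v)) ≤ δ * g (star 1 * 1) := by
        refine hg.ex_sq (cx c) fun ξ => ?_
        have k2 := hS.pow hy (b := n - c - 1) (by omega)
          ((RM.Good.const hF1).mono (Nat.cast_nonneg M)) ξ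
        rw [show n - c - 1 + 1 = n - c by omega] at k2
        have cc : Continuous fun v : U (A × B) => ‖ce E ((y * rho E v) ^ (n - c)) (F ξ)‖ :=
          RM.cont_ce (cw _) (continuous_const (y := F)) ξ
        have k3 : Ex (fun v => ‖x c v ξ‖ ^ 2) ≤
            Ex fun v : U (A × B) => ‖ξ‖ * ‖ce E ((y * rho E v) ^ (n - c)) (F ξ)‖ := by
          refine Ex_mono (((cx c).clm_apply continuous_const).norm.pow 2)
            (continuous_const.mul cc) fun v => ?_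
          have k4 : ‖x c v ξ‖ ≤ ‖ce E ((y * rho E v) ^ (n - c)) (F ξ)‖ :=
            RM.app_le (RM.unit_le (RM.w_unit h hy v (c + 1))) _
          have k5 : ‖ce E ((y * rho E v) ^ (n - c)) (F ξ)‖ ≤ ‖ξ‖ :=
            (RM.app_le ((h.norm_ce _).trans (RM.unit_le (RM.w_unit h hy v _))) _).trans
              (RM.app_le hF1 ξ)
          rw [sq]
          exact mul_le_mul (k4.trans k5) k4 (norm_nonneg _) (norm_nonneg _)
        rw [Ex_mul_real] at k3
        calc _ ≤ ‖ξ‖ * (δ * ‖ξ‖) := k3.trans (mul_le_mul_of_nonneg_left k2 (norm_nonneg _))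
          _ = _ := by rw [one_apply_eq_self]; ring
      have k6 : g (star 1 * 1) ≤ 1 := by
        have k7 := (le_abs_self _).trans (hg.le (star 1 * 1))
        rw [one_mul] at k7
        refine k7.trans ?_
        rw [star_one, one_mul]
        exact RM.unit_le (one_mem _)
      have k8 : Ex (fun v => ‖G (x c v)‖ ^ 2) ≤ Ex fun v => β ^ 2 * g (star (x c v) * x c v) :=
        Ex_mono ((c1 c).pow 2) (continuous_const.mul cg) fun v => hG _ (mx c v)
      rw [Ex_mul_real] at k8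
      rw [mul_pow, Real.sq_sqrt hδ]
      exact k8.trans (mul_le_mul_of_nonneg_left
        (k1.trans (mul_le_of_le_one_right hδ k6)) (sq_nonneg β))
    refine (sum_le_card_nsmul _ _ _ h3).trans (le_of_eq ?_)
    rw [card_range, nsmul_eq_mul]
    ring
  · simp only [mul_zero, add_zero]
    exact mul_mem (mul_mem (sum_mem fun c _ => mul_mem (mul_mem (mw _ _)
      (mul_mem hyN (rho_mem hE s))) (mw _ _)) (hE _ _)) hF
  simp only [hΦ, hx, mul_zero, add_zero, h.rho_mul, rho_single, Nat.add_sub_cancel]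
  set ρ := rho E v with hρ
  have hwu : ∀ n, (y * ρ) ^ n ∈ unitary (Op K) := RM.w_unit h hy v
  have e0 : ∀ (c : ℕ) (T : Op K), (y * ρ) ^ c * (y * (ρ * T)) = (y * ρ) ^ (c + 1) * T :=
    fun c T => by rw [pow_succ, mul_assoc, mul_assoc]
  simp only [e0]
  have e1 : ∑ i, ∑ k, (∑ c ∈ range (n + 1), (y * ρ) ^ (c + 1) * E i k * (y * ρ) ^ (n - c)) *
      E k i * F = (Fintype.card (A × B) : ℂ) •
      (∑ c ∈ range n, (y * ρ) ^ (c + 1) * ce E ((y * ρ) ^ (n - c)) * F +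
        (y * ρ) ^ (n + 1) * F) := by
    have e2 : ∀ c, ∑ i, ∑ k, (y * ρ) ^ (c + 1) * E i k * (y * ρ) ^ (n - c) * E k i * F =
        (Fintype.card (A × B) : ℂ) • ((y * ρ) ^ (c + 1) * ce E ((y * ρ) ^ (n - c)) * F) := by
      intro c
      rw [← smul_mul_assoc, ← mul_smul_comm, ← RM.sum_ce]
      simp only [sum_mul, mul_sum, mul_assoc]
    simp only [sum_mul, sum_comm (s := univ) (t := range (n + 1)), e2]
    rw [← smul_sum, sum_range_succ, Nat.sub_self, pow_zero, h.ce_one, mul_one]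
  rw [show ∀ T : A × B → A × B → Op K, ∑ i, ∑ k, ⟪((y * ρ) ^ (n + 1)) η, G (T i k)⟫_ℂ =
    ⟪((y * ρ) ^ (n + 1)) η, G (∑ i, ∑ k, T i k)⟫_ℂ from fun T => by
      simp only [map_sum, inner_sum], e1]
  simp only [RM.sapp, sum_inner]
  rw [map_smul, inner_smul_right, map_add, inner_add_right,
    show ∀ D a s r : ℂ, D ≠ 0 → D * (a - D⁻¹ * s) - (D * (r + a) - s) = -(D * r) from
      fun D a s r h0 => by field_simp; ring, norm_neg, norm_mul, Complex.norm_natCast, map_sum,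
    inner_sum]
  · refine mul_le_mul_of_nonneg_left (norm_sum_le_of_le _ fun c _ => ?_) hD.le
    exact (norm_inner_le_norm _ _).trans (mul_le_mul_of_nonneg_right
      (RM.app_le (RM.unit_le (hwu _)) _) (norm_nonneg _))
  · exact hD'

theorem fwd_cont {ι : Type} [Fintype ι] [DecidableEq ι] (G : Op K →ₗ[ℂ] K) {g : Op K →L[ℝ] ℝ}
    (hg : Pos g 1) {β : ℝ} (hβ : 0 ≤ β) (hG : ∀ x ∈ N, ‖G x‖ ^ 2 ≤ β ^ 2 * g (star x * x))
    {X : U ι → Op K} (hX : Continuous X) (hN : ∀ v, X v ∈ N) : Continuous fun v => G (X v) := by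
  have hb : ∀ x ∈ N, ‖G x‖ ≤ β * ‖x‖ := by
    intro x hx
    refine (abs_le_of_sq_le_sq' ((hG x hx).trans ?_) (by positivity)).2
    have h1 := (le_abs_self _).trans (hg.le (star x * x))
    rw [one_mul, CStarRing.norm_star_mul_self] at h1
    rw [mul_pow, pow_two ‖x‖]
    gcongr
  refine continuous_iff_continuousAt.2 fun v₀ => ?_
  rw [ContinuousAt, tendsto_iff_norm_sub_tendsto_zero]
  refine squeeze_zero (g := fun v => β * ‖X v - X v₀‖) (fun _ => norm_nonneg _) (fun v => ?_) ?_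
  · rw [← map_sub]
    exact hb _ (N.toStarSubalgebra.sub_mem (hN v) (hN v₀))
  · have h1 := (tendsto_iff_norm_sub_tendsto_zero.1 (hX.tendsto v₀)).const_mul β
    rwa [mul_zero] at h1

theorem fwd_theta {ι : Type} [Fintype ι] [DecidableEq ι] [Nonempty ι] {e : ι → ι → Op K}
    (h : MU e 1) (s : Finset ℕ) (W : ℕ → Op K) (χ : ℕ → K) :
    ∑ i, ∑ k, ‖∑ c ∈ s, W c (e k i (χ c))‖ ^ 2 ≤ (√(Fintype.card ι) *
      √(∑ c ∈ s, ∑ c' ∈ s, ‖⟪χ c, ce e (star (W c) * W c') (χ c')⟫_ℂ‖)) ^ 2 := by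
  have hD : (0 : ℝ) < Fintype.card ι := Nat.cast_pos.2 Fintype.card_pos
  have e1 : ∀ (x z : Op K) (a b : K), (Fintype.card ι : ℂ) * ⟪a, ce e (star x * z) b⟫_ℂ =
      ∑ i, ∑ k, ⟪x (e k i a), z (e k i b)⟫_ℂ := by
    intro x z a b
    rw [← inner_smul_right, ← smul_apply, ← RM.sum_ce, RM.sapp, inner_sum]
    refine sum_congr rfl fun i _ => ?_
    rw [RM.sapp, inner_sum]
    refine sum_congr rfl fun k _ => ?_
    simp only [RM.mapp, ← MUL.inner_E h, ← RM.inner_star']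
  have hΘ0 : 0 ≤ ∑ c ∈ s, ∑ c' ∈ s, ‖⟪χ c, ce e (star (W c) * W c') (χ c')⟫_ℂ‖ :=
    sum_nonneg fun _ _ => sum_nonneg fun _ _ => norm_nonneg _
  rw [mul_pow, Real.sq_sqrt hD.le, Real.sq_sqrt hΘ0]
  have h2 : ((∑ i, ∑ k, ‖∑ c ∈ s, W c (e k i (χ c))‖ ^ 2 : ℝ) : ℂ) =
      Fintype.card ι * ∑ c ∈ s, ∑ c' ∈ s, ⟪χ c, ce e (star (W c) * W c') (χ c')⟫_ℂ := by
    simp only [mul_sum, e1]
    simp only [← sum_comm (s := univ) (t := s)]
    simp only [← inner_sum, ← sum_inner, inner_self_eq_norm_sq_to_K]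
    simp
  refine (le_abs_self _).trans ?_
  rw [← Real.norm_eq_abs, ← Complex.norm_real, h2, norm_mul, Complex.norm_natCast]
  exact mul_le_mul_of_nonneg_left (norm_sum_le_of_le _ fun _ _ => norm_sum_le _ _) hD.le

theorem fwd_EF (h : MU E 1) (k : A × B) (α γ α₀ : A) (t : B) :
    E k (α, t) * FA E γ α₀ = if α = γ then E k (α₀, t) else 0 := by
  simp only [FA, mul_sum, h.mul, Prod.mk.injEq]
  split_ifs with h1
  · simp [h1]
  · simp [h1]

theorem fwd_ce (h : MU E 1) (k : A × B) (α₀ : A) (t : B) (X : Op K) :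
    ∑ γ, E k (γ, t) * X * FA E γ α₀ =
      (Fintype.card A : ℂ) • (E k (α₀, t) * ce (FA E) X) := by
  rw [← mul_smul_comm, ← RM.sum_ce]
  simp only [mul_sum, ← mul_assoc, fwd_EF h, ite_mul, zero_mul]
  rw [sum_comm]
  simp

theorem fwd_id (h : MU E 1) (G : Op K →ₗ[ℂ] K) (α₀ : A) (s : Finset ℕ) (P Q : ℕ → Op K)
    (W : Op K) (η : K) :
    ∑ γ, ∑ i, ∑ k, ∑ c ∈ s, ⟪(P c * E k i * Q c) (FA E γ α₀ η), G (W * E k i * FA E γ α₀)⟫_ℂ =
      (Fintype.card A : ℂ) * ∑ i : A × B, ∑ k, ⟪∑ c ∈ s, P c (E k i (ce (FA E) (Q c) η)),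
        if i.1 = α₀ then G (W * E k i) else 0⟫_ℂ := by
  have e1 : ∀ (γ : A) (i k : A × B) (c : ℕ),
      ⟪(P c * E k i * Q c) (FA E γ α₀ η), G (W * E k i * FA E γ α₀)⟫_ℂ =
      if i.1 = γ then ⟪P c ((E k (γ, i.2) * Q c * FA E γ α₀) η), G (W * E k (α₀, i.2))⟫_ℂ
      else 0 := by
    rintro γ ⟨α, t⟩ k c
    rw [mul_assoc W, fwd_EF h]
    split_ifs with h1
    · rw [h1]; rfl
    · simp
  have e2 : ∀ (t : B) (k : A × B) (c : ℕ),
      ∑ γ, ⟪P c ((E k (γ, t) * Q c * FA E γ α₀) η), G (W * E k (α₀, t))⟫_ℂ =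
      (Fintype.card A : ℂ) * ⟪P c (E k (α₀, t) (ce (FA E) (Q c) η)), G (W * E k (α₀, t))⟫_ℂ := by
    intro t k c
    rw [← sum_inner, ← map_sum, ← RM.sapp, fwd_ce h, smul_apply, map_smul, inner_smul_left,
      map_natCast]
    rfl
  calc _ = ∑ γ, ∑ t, ∑ k, ∑ c ∈ s,
        ⟪P c ((E k (γ, t) * Q c * FA E γ α₀) η), G (W * E k (α₀, t))⟫_ℂ := by
        refine sum_congr rfl fun γ _ => ?_
        rw [Fintype.sum_prod_type, sum_eq_single γ]
        · simp only [e1, if_true]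
        · intro α _ hα
          simp only [e1, hα, if_false, sum_const_zero]
        · simp
    _ = ∑ t, ∑ k, ∑ c ∈ s, (Fintype.card A : ℂ) *
        ⟪P c (E k (α₀, t) (ce (FA E) (Q c) η)), G (W * E k (α₀, t))⟫_ℂ := by
        rw [sum_comm]
        refine sum_congr rfl fun t _ => ?_
        rw [sum_comm]
        refine sum_congr rfl fun k _ => ?_
        rw [sum_comm]
        exact sum_congr rfl fun c _ => e2 t k c
    _ = _ := by
        rw [Fintype.sum_prod_type (α₁ := A) (f := fun i : A × B => ∑ k, ⟪∑ c ∈ s,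
          P c (E k i (ce (FA E) (Q c) η)), if i.1 = α₀ then G (W * E k i) else 0⟫_ℂ),
          sum_eq_single α₀]
        · simp only [if_true, sum_inner, mul_sum]
        · intro α _ hα
          simp only [hα, if_false, inner_zero_right, sum_const_zero]
        · simp

theorem fwd (h : MU E 1) (hE : ∀ i j, E i j ∈ N) (hy : y ∈ unitary (Op K)) (hyN : y ∈ N)
    (hc : ∀ α γ, y * FA E α γ = FA E α γ * y) (hS : RM.Sm E M δ) (hδ : 0 ≤ δ)
    (hM : M ≤ Fintype.card A ^ 2) (hδ' : (2 * Fintype.card A + 1) * M ^ 2 * δ ≤ 2)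
    (G : Op K →ₗ[ℂ] K) {g : Op K →L[ℝ] ℝ} (hg : Pos g 1) {β : ℝ} (hβ : 0 ≤ β)
    (hG : ∀ x ∈ N, ‖G x‖ ^ 2 ≤ β ^ 2 * g (star x * x)) (α₀ : A) {S : ℝ} (hS0 : 0 ≤ S)
    (hGS : ∀ W ∈ N, W ∈ unitary (Op K) → ∀ k, ∑ t, ‖G (W * E k (α₀, t))‖ ^ 2 ≤ S ^ 2)
    {n : ℕ} (hn : n + 1 ≤ M) (η : K) :
    ‖(Fintype.card A : ℂ)⁻¹ * ∑ γ, Ex fun v : U (A × B) =>
      ⟪((y * rho E v) ^ (n + 1)) (FA E γ α₀ η), G ((y * rho E v) ^ (n + 1) * FA E γ α₀)⟫_ℂ‖ ≤
      (2 * S + M * β * √δ) * ‖η‖ := by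
  have ha : (0 : ℝ) < Fintype.card A := Nat.cast_pos.2 Fintype.card_pos
  have ha' : (Fintype.card A : ℂ) ≠ 0 := Nat.cast_ne_zero.2 Fintype.card_ne_zero
  have hD : (0 : ℝ) < Fintype.card (A × B) := Nat.cast_pos.2 Fintype.card_pos
  have hF := h.fa
  have hFN : ∀ α γ, FA E α γ ∈ N := fun α γ => sum_mem fun b _ => hE _ _
  have cw : ∀ n, Continuous fun v : U (A × B) => (y * rho E v) ^ n :=
    fun n => (RM.good_pow h hy n).cont
  have wN : ∀ (v : U (A × B)) n, (y * rho E v) ^ n ∈ N := fun v n =>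
    pow_mem (mul_mem hyN (rho_mem hE _)) n
  have gν : ∀ b : ℕ, RM.Good b fun v => ce (FA E) ((y * rho E v) ^ b) := fun b =>
    (RM.good_pow h hy b).ce hF
  set T : A → U (A × B) → ℂ := fun γ v =>
    ⟪((y * rho E v) ^ (n + 1)) (FA E γ α₀ η), G ((y * rho E v) ^ (n + 1) * FA E γ α₀)⟫_ℂ with hT
  set R : A → U (A × B) → ℂ := fun γ v =>
    (Fintype.card (A × B) : ℂ)⁻¹ * ∑ i, ∑ k, ∑ c ∈ range (n + 1),
      ⟪((y * rho E v) ^ (c + 1) * E k i * (y * rho E v) ^ (n - c)) (FA E γ α₀ η),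
        G ((y * rho E v) ^ (n + 1) * E k i * FA E γ α₀)⟫_ℂ with hR
  have cT : ∀ γ, Continuous (T γ) := fun γ =>
    ((cw _).clm_apply continuous_const).inner (fwd_cont G hg hβ hG ((cw _).mul continuous_const)
      fun v => mul_mem (wN v _) (hFN _ _))
  have cR : ∀ γ, Continuous (R γ) := fun γ =>
    continuous_const.mul (continuous_finsetSum _ fun i _ => continuous_finsetSum _ fun k _ =>
      continuous_finsetSum _ fun c _ =>
        ((((cw _).mul continuous_const).mul (cw _)).clm_apply continuous_const).inner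
          (fwd_cont G hg hβ hG (((cw _).mul continuous_const).mul continuous_const)
            fun v => mul_mem (mul_mem (wN v _) (hE _ _)) (hFN _ _)))
  have h1 : ∀ γ, ‖Ex (T γ) - Ex (R γ)‖ ≤ M * β * √δ * ‖η‖ := by
    intro γ
    rw [← Ex_sub (cT γ) (cR γ)]
    refine (fwd_sd h hE hy hyN hS hδ G hg hβ hG (hFN γ α₀) (hF.norm_le γ α₀) hn _).trans ?_
    have hn' : (n : ℝ) ≤ M := by exact_mod_cast (by omega : n ≤ M)
    gcongr
    exact RM.app_le (hF.norm_le _ _) _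
  set Θ : U (A × B) → ℝ := fun v => ∑ c ∈ range (n + 1), ∑ c' ∈ range (n + 1),
    ‖⟪ce (FA E) ((y * rho E v) ^ (n - c)) η, ce E (star ((y * rho E v) ^ (c + 1)) *
      (y * rho E v) ^ (c' + 1)) (ce (FA E) ((y * rho E v) ^ (n - c')) η)⟫_ℂ‖ with hΘ
  have ct : ∀ c c', Continuous fun v : U (A × B) =>
      ‖⟪ce (FA E) ((y * rho E v) ^ (n - c)) η, ce E (star ((y * rho E v) ^ (c + 1)) *
        (y * rho E v) ^ (c' + 1)) (ce (FA E) ((y * rho E v) ^ (n - c')) η)⟫_ℂ‖ := fun c c' =>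
    (((gν _).cont.clm_apply continuous_const).inner (((continuous_ce E).comp
      ((cw _).star.mul (cw _))).clm_apply ((gν _).cont.clm_apply continuous_const))).norm
  have cΘ : Continuous Θ :=
    continuous_finsetSum _ fun c _ => continuous_finsetSum _ fun c' _ => ct c c'
  have h3 : Ex (fun v => √(Θ v)) ≤ 2 * ‖η‖ := by
    refine Ex_le_of_sq cΘ.sqrt (by positivity) ?_
    have k : ∀ v, √(Θ v) ^ 2 = Θ v := fun v =>
      Real.sq_sqrt (sum_nonneg fun _ _ => sum_nonneg fun _ _ => norm_nonneg _)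
    simp only [k]
    rw [hΘ, Ex_sum _ fun c _ => continuous_finsetSum _ fun c' _ => ct c c']
    simp only [Ex_sum _ fun c' _ => ct _ c']
    exact RM.theta_le h hy hS hδ hc hn hM hδ' η
  have h4 : ‖(Fintype.card A : ℂ)⁻¹ * ∑ γ, Ex (R γ)‖ ≤ S * (2 * ‖η‖) := by
    rw [← Ex_sum _ fun γ _ => cR γ, ← Ex_mul]
    refine (norm_Ex_le (continuous_const (y := S).fun_mul cΘ.sqrt) fun v => ?_).trans ?_
    · simp only [hR]
      rw [← mul_sum, fwd_id h G α₀ (range (n + 1)) (fun c => (y * rho E v) ^ (c + 1))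
        (fun c => (y * rho E v) ^ (n - c)), mul_left_comm, inv_mul_cancel_left₀ ha', norm_mul,
        norm_inv, Complex.norm_natCast, inv_mul_le_iff₀ hD]
      have k2 : ∑ i : A × B, ∑ k, ‖if i.1 = α₀ then G ((y * rho E v) ^ (n + 1) * E k i) else 0‖ ^ 2
          ≤ (√(Fintype.card (A × B)) * S) ^ 2 := by
        rw [mul_pow, Real.sq_sqrt hD.le, sum_comm]
        refine (sum_le_card_nsmul _ _ (S ^ 2) fun k _ => ?_).trans (by simp)
        refine le_of_eq_of_le ?_ (hGS _ (wN v (n + 1)) (RM.w_unit h hy v (n + 1)) k)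
        rw [Fintype.sum_prod_type, sum_eq_single α₀]
        · simp
        · intro α _ hα
          simp [hα]
        · simp
      refine (RM.inner2 (by positivity) (by positivity) (fwd_theta h (range (n + 1))
        (fun c => (y * rho E v) ^ (c + 1)) (fun c => ce (FA E) ((y * rho E v) ^ (n - c)) η))
        k2).trans (le_of_eq ?_)
      rw [mul_mul_mul_comm, Real.mul_self_sqrt hD.le, mul_comm S]
    · rw [Ex_mul_real]
      gcongr
  have h5 : (Fintype.card A : ℂ)⁻¹ * ∑ γ, Ex (T γ) = (Fintype.card A : ℂ)⁻¹ * ∑ γ, Ex (R γ) +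
      (Fintype.card A : ℂ)⁻¹ * ∑ γ, (Ex (T γ) - Ex (R γ)) := by
    simp only [sum_sub_distrib]
    ring
  rw [h5]
  refine (norm_add_le _ _).trans ((add_le_add h4 ?_).trans (le_of_eq (by ring :
    S * (2 * ‖η‖) + M * β * √δ * ‖η‖ = _)))
  rw [norm_mul, norm_inv, Complex.norm_natCast, inv_mul_le_iff₀ ha]
  refine (norm_sum_le_of_le _ fun γ _ => h1 γ).trans (le_of_eq ?_)
  simp


end Pool.Agent.Kad.H2
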