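import Pool.Agent.Lib.MP_22c5db_an.H2.CPol

/-! The estimate on cycles. -/

open scoped InnerProductSpace ComplexConjugate
open Finset

noncomputable section

namespace Pool.Agent.Kad.H2

universe u

set_option linter.unusedSectionVars false

variable {H : Type u} [NormedAddCommGroup H] [InnerProductSpace ℂ H] [CompleteSpace H]
  {M : VonNeumannAlgebra H} {τ : Op H →ₗ[ℝ] ℝ} {φ : Bil H} {C : ℝ}

theorem key_norm_le {u : Op H} (hu : u ∈ unitary (Op H)) : ‖u‖ ≤ 1 := by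
  have h1 : ‖star u * u‖ = ‖u‖ * ‖u‖ := CStarRing.norm_star_mul_self
  rw [Unitary.star_mul_self_of_mem hu] at h1
  have h2 : ‖(1 : Op H)‖ ≤ 1 := ContinuousLinearMap.norm_id_le
  nlinarith [norm_nonneg u]

theorem key_inner (u : Op H) (χ η : H) : ⟪star u χ, η⟫_ℂ = ⟪χ, u η⟫_ℂ := by
  rw [ContinuousLinearMap.star_eq_adjoint, ContinuousLinearMap.adjoint_inner_left]

theorem key_gamma {g r : Op H} (hz : ∀ z : Op H, z * g = 0 → z * r = 0) :
    ∃ Γ : Op H →ₗ[ℂ] Op H, ∀ z, z * r = z → Γ (z * g) = z := by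
  let S : Submodule ℂ (Op H) := LinearMap.eqLocus (LinearMap.mulRight ℂ r) LinearMap.id
  let f : S →ₗ[ℂ] Op H := (LinearMap.mulRight ℂ g).comp S.subtype
  have hf : LinearMap.ker f = ⊥ := by
    rw [LinearMap.ker_eq_bot']
    intro z h0
    have h1 : (z : Op H) * r = z := z.2
    have h2 : (z : Op H) * g = 0 := h0
    exact Subtype.ext (h1.symm.trans (hz _ h2))
  obtain ⟨G, hG⟩ := f.exists_leftInverse_of_injective hf
  refine ⟨S.subtype.comp G, fun z hzr => ?_⟩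
  exact congrArg Subtype.val (LinearMap.congr_fun hG ⟨z, hzr⟩)

theorem key (h : CC M φ) (hK : KP M φ C) (hC : 0 ≤ C) (ξ : H) : KeyP M φ ξ (2 * C) := by
  intro κ _ u b χ hu hb hR
  obtain ⟨g, hgM, v, hv, hsa, hbv, hgg, hproj, hvr, -, hz⟩ := cpol hb
  have hcl : Cl v 1 := cl_iff.2 (by rw [one_pow]; exact hproj.norm_le)
  obtain ⟨β, hβ, hβ2⟩ := hK κ u v hu hv hcl (g ξ) χ
  obtain ⟨Γ, hΓ⟩ := key_gamma hz
  have hcc := h.sub_cob β
  set ψ : Bil H := φ - cob β with hψ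
  have hn : ‖g ξ‖ = √(∑ j, ‖b j ξ‖ ^ 2) := by
    have h1 : ⟪g ξ, g ξ⟫_ℂ = ∑ j, ⟪b j ξ, b j ξ⟫_ℂ := by
      have h2 : ⟪g ξ, g ξ⟫_ℂ = ⟪ξ, (g * g) ξ⟫_ℂ := by
        rw [mul_apply_eq_comp, ← key_inner g ξ (g ξ), hsa.star_eq]
      rw [h2, hgg, _root_.sum_apply, inner_sum]
      refine sum_congr rfl fun j _ => ?_
      rw [mul_apply_eq_comp, ← key_inner (star (b j)), star_star]
    simp only [inner_self_eq_norm_sq_to_K] at h1
    have h3 : ‖g ξ‖ ^ 2 = ∑ j, ‖b j ξ‖ ^ 2 := by exact_mod_cast h1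
    rw [← h3, Real.sqrt_sq (norm_nonneg _)]
  have hR1 := hR ((ContinuousLinearMap.apply ℂ H ξ : Op H →L[ℂ] H).toLinearMap.comp β)
  have hR2 := hR ((ContinuousLinearMap.apply ℂ H ξ : Op H →L[ℂ] H).toLinearMap.comp
    ((ψ.flip g).comp Γ))
  have e1 : ∀ j, Γ (b j) = v j := fun j => by rw [hbv j]; exact hΓ _ (hvr j)
  have e2 : ∀ j, Γ (u j * b j) = u j * v j := fun j => by
    rw [hbv j, ← mul_assoc]
    exact hΓ _ (by rw [mul_assoc, hvr j])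
  simp only [LinearMap.comp_apply, ContinuousLinearMap.coe_coe, ContinuousLinearMap.apply_apply,
    LinearMap.flip_apply, key_inner, e1, e2] at hR1 hR2
  have e3 : ∀ j, ⟪χ j, φ (u j) (b j) ξ⟫_ℂ =
      ⟪χ j, ψ (u j) (v j) (g ξ)⟫_ℂ + ⟪χ j, β (u j) (b j ξ)⟫_ℂ +
        ((⟪χ j, u j (β (b j) ξ)⟫_ℂ - ⟪χ j, β (u j * b j) ξ⟫_ℂ) -
          (⟪χ j, u j (ψ (v j) g ξ)⟫_ℂ - ⟪χ j, ψ (u j * v j) g ξ⟫_ℂ)) := by
    intro j
    have h1 := hcc _ (hu j).1 _ (hv j) _ hgM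
    rw [← hbv j] at h1
    have h2 : ψ (u j) (b j) = φ (u j) (b j) -
        (u j * β (b j) - β (u j * b j) + β (u j) * b j) := rfl
    have h3 : φ (u j) (b j) = ψ (u j) (v j) * g + β (u j) * b j +
        ((u j * β (b j) - β (u j * b j)) - (u j * ψ (v j) g - ψ (u j * v j) g)) := by
      rw [h1, h2]
      abel
    rw [h3]
    simp only [add_apply, sub_apply, mul_apply_eq_comp, inner_add_right, inner_sub_right]
  have e4 : ∑ j, ⟪χ j, φ (u j) (b j) ξ⟫_ℂ =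
      ∑ j, ⟪χ j, ψ (u j) (v j) (g ξ)⟫_ℂ + ∑ j, ⟪χ j, β (u j) (b j ξ)⟫_ℂ := by
    rw [sum_congr rfl fun j _ => e3 j, sum_add_distrib, sum_add_distrib, sum_sub_distrib, hR1, hR2,
      sub_zero, add_zero]
  have e5 : ‖∑ j, ⟪χ j, β (u j) (b j ξ)⟫_ℂ‖ ≤
      C * √(∑ j, ‖b j ξ‖ ^ 2) * √(∑ j, ‖χ j‖ ^ 2) := by
    calc ‖∑ j, ⟪χ j, β (u j) (b j ξ)⟫_ℂ‖ ≤ ∑ j, C * (‖b j ξ‖ * ‖χ j‖) := by
          refine norm_sum_le_of_le _ fun j _ => ?_
          have h1 : ‖β (u j)‖ ≤ C :=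
            (hβ _ (hu j).1).trans (mul_le_of_le_one_right hC (key_norm_le (hu j).2))
          calc ‖⟪χ j, β (u j) (b j ξ)⟫_ℂ‖ ≤ ‖χ j‖ * ‖β (u j) (b j ξ)‖ := norm_inner_le_norm _ _
            _ ≤ ‖χ j‖ * (C * ‖b j ξ‖) := by
                gcongr
                exact (β (u j)).le_of_opNorm_le h1 _
            _ = _ := by ring
      _ ≤ _ := by
          rw [← mul_sum, mul_assoc]
          gcongr
          exact Real.sum_mul_le_sqrt_mul_sqrt _ _ _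
  rw [hn] at hβ2
  rw [e4]
  refine (norm_add_le _ _).trans ?_
  linarith


end Pool.Agent.Kad.H2
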