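import Pool.Agent.Lib.MP_22c5db_an.H2.GmL
import Pool.Agent.Lib.MP_22c5db_an.H2.Four

/-! Orthogonality of different powers. -/

open scoped InnerProductSpace ComplexConjugate
open Finset

noncomputable section

namespace Pool.Agent.Kad.H2

universe u

set_option linter.unusedSectionVars false

variable {H : Type u} [NormedAddCommGroup H] [InnerProductSpace ℂ H] [CompleteSpace H]
  {M : VonNeumannAlgebra H} {τ : Op H →ₗ[ℝ] ℝ} {φ : Bil H} {C : ℝ}
  {ι : Type} [Fintype ι] [DecidableEq ι] {e : ι → ι → Op H}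
  {K : Type u} [NormedAddCommGroup K] [InnerProductSpace ℂ K] [CompleteSpace K]
  {A : Type} [Fintype A] [DecidableEq A] {J : A → H →L[ℂ] K} {N : VonNeumannAlgebra K}
  {m L : ℕ} {δ : ℝ} {α : ℕ → ℝ} {ζ : H} {G : Op H →L[ℝ] ℝ}

theorem phase_cs {κ : Type} [Fintype κ] [DecidableEq κ] {f g : U κ → ℝ} (hf : Continuous f)
    (hg : Continuous g) {a b : ℝ} (ha : 0 ≤ a) (hb : 0 ≤ b) (h1 : Ex (fun v => f v ^ 2) ≤ a ^ 2)
    (h2 : Ex (fun v => g v ^ 2) ≤ b ^ 2) : Ex (fun v => f v * g v) ≤ a * b := by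
  have key : ∀ ε : ℝ, 0 < ε → Ex (fun v => f v * g v) ≤ (a + ε) * (b + ε) := by
    intro ε hε
    have ha' : 0 < a + ε := by linarith
    have hb' : 0 < b + ε := by linarith
    set t : ℝ := (b + ε) / (a + ε) with ht
    have ht0 : 0 < t := by positivity
    have h3 : Ex (fun v => f v * g v) ≤ Ex fun v => t / 2 * f v ^ 2 + t⁻¹ / 2 * g v ^ 2 := by
      refine Ex_mono (hf.fun_mul hg) (by fun_prop) fun v => ?_
      have h4 : 0 ≤ t⁻¹ * (t * f v - g v) ^ 2 := by positivity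
      have h5 : t⁻¹ * (t * f v - g v) ^ 2 = t * f v ^ 2 - 2 * (f v * g v) + t⁻¹ * g v ^ 2 := by
        field_simp
        ring
      linarith
    rw [Ex_add (by fun_prop) (by fun_prop), Ex_mul_real, Ex_mul_real] at h3
    have h6 : t / 2 * Ex (fun v => f v ^ 2) ≤ t / 2 * (a + ε) ^ 2 :=
      mul_le_mul_of_nonneg_left (by nlinarith) (by positivity)
    have h7 : t⁻¹ / 2 * Ex (fun v => g v ^ 2) ≤ t⁻¹ / 2 * (b + ε) ^ 2 :=
      mul_le_mul_of_nonneg_left (by nlinarith) (by positivity)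
    have h8 : t / 2 * (a + ε) ^ 2 + t⁻¹ / 2 * (b + ε) ^ 2 = (a + ε) * (b + ε) := by
      rw [ht]
      field_simp
      ring
    linarith
  have hc : Continuous fun ε : ℝ => (a + ε) * (b + ε) := by fun_prop
  have h0 := (hc.tendsto 0).mono_left (nhdsWithin_le_nhds (s := Set.Ioi 0))
  rw [add_zero, add_zero] at h0
  exact ge_of_tendsto h0 (eventually_nhdsWithin_of_forall key)

theorem phase_pos (G' : Op K →ₗ[ℂ] K) (E : A × ι → A × ι → Op K) (y : Op K) (ξ : K) {n n' : ℕ}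
    (hn : n ≠ n') :
    Ex (fun v : U (A × ι) => ⟪((y * rho E v) ^ n') ξ, G' ((y * rho E v) ^ n)⟫_ℂ) = 0 := by
  refine Ex_phase (f := fun s => ⟪((y * rho E s) ^ n') ξ, G' ((y * rho E s) ^ n)⟫_ℂ) (k := n)
    (j := n') hn fun ω _ v => ?_
  simp only [Core.pw_smul, smul_apply, map_smul, inner_smul_left, inner_smul_right, map_pow]
  ring

theorem phase_neg (G' : Op K →ₗ[ℂ] K) (E : A × ι → A × ι → Op K) (y : Op K) (ξ : K) {n n' : ℕ}
    (hn : n ≠ n') :
    Ex (fun v : U (A × ι) =>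
      ⟪(star (y * rho E v) ^ n') ξ, G' (star (y * rho E v) ^ n)⟫_ℂ) = 0 := by
  refine Ex_phase (f := fun s => ⟪(star (y * rho E s) ^ n') ξ, G' (star (y * rho E s) ^ n)⟫_ℂ)
    (k := n') (j := n) hn.symm fun ω _ v => ?_
  have e : ∀ l : ℕ, star (y * rho E (ω • (v : Matrix (A × ι) (A × ι) ℂ))) ^ l =
      conj ω ^ l • star (y * rho E v) ^ l := fun l => by
    rw [rho_smul, mul_smul_comm, star_smul, smul_pow]
    rfl
  simp only [e, smul_apply, map_smul, inner_smul_left, inner_smul_right, map_pow,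
    Complex.conj_conj]
  ring

theorem phase_shift {w : Op K} (hw : w ∈ unitary (Op K)) {n L : ℕ} (hn : n ≤ L) :
    star (w ^ L) * w ^ n = star w ^ (L - n) := by
  have h1 : star (w ^ n) * w ^ n = 1 := (pow_mem hw n).1
  rw [star_pow] at h1
  rw [star_pow, ← Nat.sub_add_cancel hn, pow_add, mul_assoc, h1, mul_one, Nat.add_sub_cancel]

theorem phase_expand (γ : A) (c : Op H) (ζ : H) {w : Op K} (hw : w ∈ unitary (Op K)) (α : ℕ → ℝ)
    (L : ℕ) (ξ : K) : ⟪ff α L w ξ, DD J φ γ c ζ (w ^ L) (ff α L w)⟫_ℂ =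
      ∑ n ∈ range L, ∑ n' ∈ range L, ((α n : ℂ) * α n') *
        (⟪(w ^ n') ξ, Gm J φ γ c ζ (w ^ n)⟫_ℂ -
          ⟪(star w ^ (L - n')) ξ, Gm J φ γ c ζ (star w ^ (L - n))⟫_ℂ) := by
  have e1 : star (w ^ L) * ff α L w = ∑ n ∈ range L, (α n : ℂ) • star w ^ (L - n) := by
    rw [ff, mul_sum]
    exact sum_congr rfl fun n hn => by
      rw [mul_smul_comm, phase_shift hw (mem_range.1 hn).le]
  have e2 : ∀ x : K, ⟪ff α L w ξ, (w ^ L) x⟫_ℂ = ⟪(star (w ^ L) * ff α L w) ξ, x⟫_ℂ := fun x => by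
    rw [ContinuousLinearMap.star_eq_adjoint]
    exact (ContinuousLinearMap.adjoint_inner_left _ _ _).symm
  rw [DD, inner_sub_right, e2, e1, ff]
  simp only [map_sum, map_smul, _root_.sum_apply, smul_apply, inner_sum, sum_inner,
    inner_smul_left, inner_smul_right, Complex.conj_ofReal, mul_sum, mul_sub, sum_sub_distrib,
    mul_assoc]

theorem phase (hJ : Frame M 1 J N) (h : Nrm M φ e C) {u c : Op H} (hu : u ∈ unitary (Op H))
    (huM : u ∈ M) (hc : c ∈ M) (α : ℕ → ℝ) (L : ℕ) (ζ η : H) :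
    ∑ n ∈ range L, (α n : ℂ) ^ 2 * ((Ph J φ c ζ η fun v => ww J e u v ^ n) -
      Ph J φ c ζ η fun v => star (ww J e u v) ^ (L - n)) =
      (Fintype.card A : ℂ)⁻¹ * ∑ γ, Ex fun v : U (A × ι) => ⟪ff α L (ww J e u v) (J γ η),
        DD J φ γ c ζ (ww J e u v ^ L) (ff α L (ww J e u v))⟫_ℂ := by
  have hw := ww_cont (J := J) (e := e) u
  have hN := ww_mem hJ h.mem huM
  have c1 : ∀ (γ : A) (n n' : ℕ), Continuous fun v : U (A × ι) =>
      ⟪(ww J e u v ^ n') (J γ η), Gm J φ γ c ζ (ww J e u v ^ n)⟫_ℂ := fun γ n n' =>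
    Continuous.inner (by fun_prop)
      (Gm_cont hJ h.col h.c0 γ hc ζ (hw.pow n) fun v => pow_mem (hN v) n)
  have c2 : ∀ (γ : A) (n n' : ℕ), Continuous fun v : U (A × ι) =>
      ⟪(star (ww J e u v) ^ n') (J γ η), Gm J φ γ c ζ (star (ww J e u v) ^ n)⟫_ℂ := fun γ n n' =>
    Continuous.inner (by fun_prop)
      (Gm_cont hJ h.col h.c0 γ hc ζ (hw.star.pow n) fun v => pow_mem (star_mem (hN v)) n)
  have key : ∀ γ : A, (Ex fun v : U (A × ι) => ⟪ff α L (ww J e u v) (J γ η),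
      DD J φ γ c ζ (ww J e u v ^ L) (ff α L (ww J e u v))⟫_ℂ) =
      ∑ n ∈ range L, (α n : ℂ) ^ 2 *
        ((Ex fun v : U (A × ι) =>
          ⟪(ww J e u v ^ n) (J γ η), Gm J φ γ c ζ (ww J e u v ^ n)⟫_ℂ) -
        Ex fun v : U (A × ι) => ⟪(star (ww J e u v) ^ (L - n)) (J γ η),
          Gm J φ γ c ζ (star (ww J e u v) ^ (L - n))⟫_ℂ) := by
    intro γ
    simp only [fun v => phase_expand (J := J) (φ := φ) γ c ζ (ww_unitary hJ h.mu hu v) α L (J γ η)]
    rw [Ex_sum _ fun n _ => continuous_finsetSum _ fun n' _ =>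
      continuous_const.fun_mul ((c1 γ n n').fun_sub (c2 γ _ _))]
    refine sum_congr rfl fun n hn => ?_
    rw [Ex_sum _ fun n' _ => continuous_const.fun_mul ((c1 γ n n').fun_sub (c2 γ _ _)),
      sum_eq_single n (fun n' hn' hne => ?_) fun h' => absurd hn h']
    · rw [Ex_mul, Ex_sub (c1 γ n n) (c2 γ _ _), sq]
    · have h1 := mem_range.1 hn
      have h2 := mem_range.1 hn'
      rw [Ex_mul, Ex_sub (c1 γ n n') (c2 γ _ _)]
      have z1 := phase_pos (Gm J φ γ c ζ) (EE J e) (amp J u) (J γ η) hne.symm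
      have z2 := phase_neg (Gm J φ γ c ζ) (EE J e) (amp J u) (J γ η)
        (show L - n ≠ L - n' by omega)
      simp only [ww]
      rw [z1, z2, sub_zero, mul_zero]
  simp only [key, Ph]
  rw [sum_comm, mul_sum]
  refine sum_congr rfl fun n _ => ?_
  rw [← mul_sum, sum_sub_distrib]
  ring

theorem DD_cont (hJ : Frame M 1 J N) (h : Nrm M φ e C) {u c : Op H} (huM : u ∈ M) (hc : c ∈ M)
    (α : ℕ → ℝ) (L : ℕ) (ζ : H) (γ : A) : Continuous fun v : U (A × ι) =>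
      DD J φ γ c ζ (ww J e u v ^ L) (ff α L (ww J e u v)) := by
  have hw := ww_cont (J := J) (e := e) u
  have hN := ww_mem hJ h.mem huM
  have hf : Continuous fun v : U (A × ι) => ff α L (ww J e u v) := by
    unfold ff
    fun_prop
  have hfN : ∀ v : U (A × ι), ff α L (ww J e u v) ∈ N := fun v =>
    sum_mem fun n _ => N.toStarSubalgebra.smul_mem (pow_mem (hN v) n) _
  unfold DD
  exact (Gm_cont hJ h.col h.c0 γ hc ζ hf hfN).sub ((hw.pow L).clm_apply
    (Gm_cont hJ h.col h.c0 γ hc ζ ((hw.pow L).star.mul hf)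
      fun v => mul_mem (star_mem (pow_mem (hN v) L)) (hfN v)))

theorem phase_le [Nonempty A] [Nonempty ι] (hJ : Frame M 1 J N) (h : Nrm M φ e C) {u c : Op H}
    (hu : u ∈ unitary (Op H)) (huM : u ∈ M) (hc : c ∈ M) (h1 : ∑ n ∈ range L, α n ^ 2 = 1)
    {Q : ℝ} (hQ : 0 ≤ Q) (hD : ∀ γ, Ex (fun v : U (A × ι) =>
      ‖DD J φ γ c ζ (ww J e u v ^ L) (ff α L (ww J e u v))‖ ^ 2) ≤ Q ^ 2) (η : H) :
    ‖∑ n ∈ range L, (α n : ℂ) ^ 2 * ((Ph J φ c ζ η fun v => ww J e u v ^ n) -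
      Ph J φ c ζ η fun v => star (ww J e u v) ^ (L - n))‖ ≤ Q * ‖η‖ := by
  have hw := ww_cont (J := J) (e := e) u
  have key : ∀ γ : A, ‖Ex fun v : U (A × ι) => ⟪ff α L (ww J e u v) (J γ η),
      DD J φ γ c ζ (ww J e u v ^ L) (ff α L (ww J e u v))⟫_ℂ‖ ≤ Q * ‖η‖ := by
    intro γ
    have hf : Continuous fun v : U (A × ι) => ‖ff α L (ww J e u v) (J γ η)‖ := by
      unfold ff
      fun_prop
    have hg := (DD_cont hJ h huM hc α L ζ γ).norm
    have h2 := two (EE_mu hJ h.mu) (amp_unitary hJ hu) α L (J γ η)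
    rw [h1, one_mul, norm_J hJ] at h2
    refine (norm_Ex_le (hf.fun_mul hg) fun v => norm_inner_le_norm _ _).trans ?_
    rw [mul_comm Q]
    exact phase_cs hf hg (norm_nonneg _) hQ h2.le (hD γ)
  have hA : (0 : ℝ) < Fintype.card A := by exact_mod_cast Fintype.card_pos
  rw [phase hJ h hu huM hc, norm_mul, norm_inv, Complex.norm_natCast, inv_mul_le_iff₀ hA]
  refine (norm_sum_le _ _).trans ((sum_le_sum fun γ _ => key γ).trans (le_of_eq ?_))
  rw [sum_const, card_univ, nsmul_eq_mul]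


end Pool.Agent.Kad.H2
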