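import Pool.Agent.Lib.MP_22c5db_an.H2.GmL
import Pool.Agent.Lib.MP_22c5db_an.H2.Fwd
import Pool.Agent.Lib.MP_22c5db_an.H2.Piet
import Pool.Agent.Lib.MP_22c5db_an.H2.Trace

/-! Positive and negative powers. -/

open scoped InnerProductSpace ComplexConjugate
open Finset

noncomputable section

namespace Pool.Agent.Kad.H2

universe u

set_option linter.unusedSectionVars false

variable {H : Type u} [NormedAddCommGroup H] [InnerProductSpace ℂ H] [CompleteSpace H]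
  {M : VonNeumannAlgebra H} {τ : Op H →ₗ[ℝ] ℝ} {φ : Bil H} {C : ℝ}
  {ι : Type} [Fintype ι] [DecidableEq ι] {e : ι → ι → Op H}
  {K : Type u} [NormedAddCommGroup K] [InnerProductSpace ℂ K] [CompleteSpace K]
  {A : Type} [Fintype A] [DecidableEq A] {J : A → H →L[ℂ] K} {N : VonNeumannAlgebra K}
  {m L : ℕ} {δ : ℝ} {α : ℕ → ℝ} {ζ : H} {G : Op H →L[ℝ] ℝ}

theorem sb_dom [Nonempty ι] (h : Nrm M φ e C) (hG : Dom M τ φ e C ζ G) {b : Op H} (hb : b ∈ M)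
    {T : ℝ} (hT0 : 0 ≤ T) (hT : Ad e b T) :
    SB M φ e b ζ (3 * C * √(G (star b * b) + ‖ζ‖ ^ 2 * T)) := by
  intro κ _ x hx hx1 t₀
  have hk : (0 : ℝ) < Fintype.card ι := Nat.cast_pos.2 Fintype.card_pos
  have hg := hG.pos.pos b
  have h1 : ∀ t, ∑ l, ‖φ (x l * e t₀ t) b ζ‖ ^ 2 ≤
      C ^ 2 * (6 * G (star b * (e t t * b)) +
        4 * ‖ζ‖ ^ 2 * (Fintype.card ι : ℝ)⁻¹ * ‖e t t * b‖ ^ 2) := by
    intro t
    have e1 : pF e {t₀} * (e t₀ t * b) = e t₀ t * b := by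
      rw [pF, sum_singleton, ← mul_assoc, h.mu.mul, if_pos rfl]
    have e2 : star (e t₀ t * b) * (e t₀ t * b) = star b * (e t t * b) := by
      rw [star_mul, h.mu.adj, mul_assoc, ← mul_assoc (e t t₀), h.mu.mul, if_pos rfl]
    have e3 : ‖e t₀ t * b‖ ≤ ‖e t t * b‖ := by
      have e4 : e t₀ t * b = e t₀ t * (e t t * b) := by
        rw [← mul_assoc, h.mu.mul, if_pos rfl]
      rw [e4]
      exact (norm_mul_le _ _).trans (mul_le_of_le_one_left (norm_nonneg _) (h.mu.norm_le _ _))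
    have h2 := hG.flat κ x hx hx1 {t₀} (e t₀ t * b) (mul_mem (h.mem _ _) hb) e1
    rw [e2, card_singleton, Nat.cast_one, one_div] at h2
    simp only [h.mid_unit t₀ t (hx _) hb]
    refine h2.trans (mul_le_mul_of_nonneg_left ?_ (sq_nonneg _))
    have h3 : ‖e t₀ t * b‖ ^ 2 ≤ ‖e t t * b‖ ^ 2 := pow_le_pow_left₀ (norm_nonneg _) e3 2
    have h4 : 0 ≤ 4 * ‖ζ‖ ^ 2 * (Fintype.card ι : ℝ)⁻¹ := by positivity
    nlinarith [mul_le_mul_of_nonneg_left h3 h4]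
  refine (sum_le_sum fun t _ => h1 t).trans ?_
  rw [← mul_sum, sum_add_distrib, ← mul_sum, ← mul_sum, ← map_sum, ← mul_sum, ← sum_mul, h.mu.sum,
    one_mul, mul_pow, mul_pow, Real.sq_sqrt (by positivity)]
  have h5 : (Fintype.card ι : ℝ)⁻¹ * ∑ t, ‖e t t * b‖ ^ 2 ≤ T := by
    rw [inv_mul_le_iff₀ hk]; exact hT
  have h6 := mul_le_mul_of_nonneg_left h5 (sq_nonneg ‖ζ‖)
  have h7 : 0 ≤ ‖ζ‖ ^ 2 * T := by positivity
  have h8 : 6 * G (star b * b) + 4 * ‖ζ‖ ^ 2 * (Fintype.card ι : ℝ)⁻¹ * ∑ t, ‖e t t * b‖ ^ 2 ≤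
      9 * (G (star b * b) + ‖ζ‖ ^ 2 * T) := by nlinarith
  nlinarith [mul_le_mul_of_nonneg_left h8 (sq_nonneg C)]

theorem sb_col (h : Nrm M φ e C) {b : Op H} (hb : b ∈ M) (hb1 : ‖b‖ ≤ 1) (ζ : H) :
    SB M φ e b ζ (C * ‖ζ‖) := by
  intro κ _ x hx hx1 t₀
  have h1 : Cl (fun p : ι × κ => x p.2 * e t₀ p.1) 1 := by
    intro ξ
    rw [Fintype.sum_prod_type, ← h.mu.sum_sq' t₀ ξ, mul_sum]
    exact sum_le_sum fun t _ => hx1 (e t₀ t ξ)
  have h2 := h.col (ι × κ) _ (fun p => mul_mem (hx p.2) (h.mem t₀ p.1)) 1 zero_le_one h1 b hb ζ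
  rw [Fintype.sum_prod_type] at h2
  refine h2.trans (pow_le_pow_left₀ (by have := h.c0; positivity) ?_ 2)
  rw [mul_one]
  exact mul_le_mul_of_nonneg_right (mul_le_of_le_one_right h.c0 hb1) (norm_nonneg _)

theorem phi_pos [Nonempty ι] (hJ : Frame M 1 J N) (h : Nrm M φ e C)
    (hS : Sc (Fintype.card A) m L α) (hP : Par (Fintype.card A) m L (Fintype.card ι) δ)
    {u b : Op H} (hu : u ∈ unitary (Op H)) (huM : u ∈ M) (hb : b ∈ M) (hb1 : ‖b‖ ≤ 1) {S : ℝ}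
    (hS0 : 0 ≤ S) (hSB : SB M φ e b ζ S) {n : ℕ} (hn : n ≤ L) (η : H) :
    ‖Ph J φ b ζ η fun v => ww J e u v ^ n‖ ≤ (2 * S + C * ‖ζ‖ * √(m : ℝ)⁻¹) * ‖η‖ := by
  have hC := h.c0
  rcases n with _ | n
  · simp only [Ph, pow_zero, Gm_one hJ h _ hb, inner_zero_right, Ex_const, sum_const_zero,
      mul_zero, norm_zero]
    positivity
  have ha : 0 < Fintype.card A := hS.m0.trans_le hS.ma
  have : Nonempty A := Fintype.card_pos_iff.1 ha
  obtain ⟨α₀⟩ := ‹Nonempty A›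
  have ha1 : (1 : ℝ) ≤ Fintype.card A := Nat.one_le_cast.2 ha
  have hm1 : (1 : ℝ) ≤ m := Nat.one_le_cast.2 hS.m0
  have hL1 : (1 : ℝ) ≤ L := Nat.one_le_cast.2 hS.L0
  have hδ := hP.δ0
  have hδ1 := hP.δ1
  have hq : 0 ≤ (L : ℝ) ^ 2 * δ := by positivity
  have hSm : RM.Sm (EE J e) L δ := RM.sm (EE_mu hJ h.mu) hδ (by
    rw [Fintype.card_prod, Nat.cast_mul]; exact hP.big)
  have hM : L ≤ Fintype.card A ^ 2 :=
    (Nat.le_mul_of_pos_right L (pow_pos hS.m0 2)).trans hS.La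
  have hml : (1 : ℝ) ≤ m * L := one_le_mul_of_one_le_of_one_le hm1 hL1
  have hδ' : (2 * (Fintype.card A : ℝ) + 1) * (L : ℝ) ^ 2 * δ ≤ 2 := by
    have h1 : 2 * (Fintype.card A : ℝ) + 1 ≤ 3 * (Fintype.card A : ℝ) ^ 2 := by nlinarith
    have h2 : (1 : ℝ) ≤ m * (m * L) := one_le_mul_of_one_le_of_one_le hm1 hml
    have h3 : 2 * (Fintype.card A : ℝ) + 1 ≤ 3 * (Fintype.card A : ℝ) ^ 2 * (m * (m * L)) :=
      h1.trans (le_mul_of_one_le_right (by positivity) h2)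
    nlinarith [mul_le_mul_of_nonneg_right h3 hq]
  have hroot : (L : ℝ) * √δ ≤ √(m : ℝ)⁻¹ := by
    refine Real.le_sqrt_of_sq_le ?_
    rw [mul_pow, Real.sq_sqrt hδ, ← one_div, le_div_iff₀ (by linarith)]
    have h1 : (1 : ℝ) ≤ 3 * (Fintype.card A : ℝ) ^ 2 := by nlinarith
    have h2 : (1 : ℝ) ≤ 3 * (Fintype.card A : ℝ) ^ 2 * (m * L) :=
      one_le_mul_of_one_le_of_one_le h1 hml
    have h3 : 0 ≤ (L : ℝ) ^ 2 * δ * m := by positivity
    nlinarith [mul_le_mul_of_nonneg_right h2 h3]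
  obtain ⟨g, hg, hG⟩ := pietsch_col (M := N) (Gm J φ α₀ b ζ) (β := C * ‖b‖ * ‖ζ‖)
    (fun κ _ X hX t ht h1 => Gm_col hJ h.col α₀ hb ζ κ X hX t ht h1)
  have hGS : ∀ W ∈ N, W ∈ unitary (Op K) → ∀ k : A × ι,
      ∑ t, ‖Gm J φ α₀ b ζ (W * EE J e k (α₀, t))‖ ^ 2 ≤ S ^ 2 := by
    intro W hW hWu k
    have h1 : Cl (fun a => ent J W a k.1) 1 := fun ξ => by
      rw [sum_ent hJ, ContinuousLinearMap.norm_map_of_mem_unitary hWu, norm_J hJ, one_pow, one_mul]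
    refine le_trans (le_of_eq (sum_congr rfl fun t _ => ?_))
      (hSB A _ (fun a => (hJ.mem_iff W).1 hW a k.1) h1 k.2)
    rw [Gm_apply, norm_sum_J hJ]
    refine sum_congr rfl fun a _ => ?_
    rw [EE, CaseC.ent_mul_el hJ, if_pos rfl, mul_one]
  have key := fwd (EE_mu hJ h.mu) (EE_mem hJ h.mem) (amp_unitary hJ hu) (amp_mem hJ huM)
    (amp_comm hJ h.mu u) hSm hδ hM hδ' (Gm J φ α₀ b ζ) hg (by positivity) hG α₀ hS0 hGS hn
    (J α₀ η)
  simp only [FA_J hJ h.mu, ← Gm_shift hJ h.mu, norm_J hJ] at key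
  refine le_trans key (mul_le_mul_of_nonneg_right ?_ (norm_nonneg _))
  have h1 : (L : ℝ) * (C * ‖b‖ * ‖ζ‖) * √δ = C * ‖ζ‖ * (‖b‖ * (L * √δ)) := by ring
  have h2 : ‖b‖ * ((L : ℝ) * √δ) ≤ √(m : ℝ)⁻¹ :=
    (mul_le_of_le_one_left (by positivity) hb1).trans hroot
  rw [h1]
  have h3 := mul_le_mul_of_nonneg_left h2 (by positivity : 0 ≤ C * ‖ζ‖)
  linarith

theorem phi_inner_J (hJ : Frame M 1 J N) (γ : A) (ξ η : H) : ⟪J γ ξ, J γ η⟫_ℂ = ⟪ξ, η⟫_ℂ := by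
  rw [← ContinuousLinearMap.adjoint_inner_right, ← ContinuousLinearMap.comp_apply, hJ.adj,
    if_pos rfl]
  rfl

theorem phi_star_pow (a b : Op K) (n : ℕ) : (a * b) ^ (n + 1) = a * ((b * a) ^ n * b) := by
  induction n with
  | zero => simp
  | succ n ih => rw [pow_succ, ih, pow_succ]; simp only [mul_assoc]

theorem phi_neg_point (hJ : Frame M 1 J N) (h : Nrm M φ e C) {u c : Op H}
    (hu : u ∈ unitary (Op H)) (huM : u ∈ M) (hc : c ∈ M) (n : ℕ) (η : H) (γ : A)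
    (v : U (A × ι)) :
    ⟪(star (ww J e u (star v)) ^ (n + 1)) (J γ η),
        Gm J φ γ c ζ (star (ww J e u (star v)) ^ (n + 1))⟫_ℂ =
      ⟪star u η, φ (star u) c ζ⟫_ℂ +
        ⟪(ww J e (star u) v ^ n) (J γ (star u η)),
          Gm J φ γ (star u * c) ζ (ww J e (star u) v ^ n)⟫_ℂ -
        ⟪(ww J e (star u) v ^ n) (J γ (star u η)),
          Gm J φ γ (star u) (c ζ) (ww J e (star u) v ^ n)⟫_ℂ := by
  have hE := EE_mu hJ h.mu
  have hsM : star u ∈ M := star_mem huM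
  have hWN : ww J e (star u) v ^ n ∈ N := pow_mem (ww_mem hJ h.mem hsM v) n
  have hWu : ww J e (star u) v ^ n ∈ unitary (Op K) :=
    pow_mem (ww_unitary hJ h.mu (Unitary.star_mem hu) v) n
  have e1 : star (ww J e u (star v)) ^ (n + 1) =
      rho (EE J e) v * (ww J e (star u) v ^ n * amp J (star u)) := by
    rw [ww, ww, star_mul, ← amp_star, Unitary.coe_star, hE.rho_star, star_star, phi_star_pow]
  rw [e1, Gm_left hJ h γ hc ζ _ (mul_mem hWN (amp_mem hJ hsM)), mul_apply_eq_comp,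
    ContinuousLinearMap.inner_map_map_of_mem_unitary (hE.rho_unitary v),
    mul_apply_eq_comp, amp_J hJ, Gm_amp hJ h.cc γ hc hsM ζ hWN, inner_sub_right,
    inner_add_right, ContinuousLinearMap.inner_map_map_of_mem_unitary hWu, phi_inner_J hJ]

theorem phi_neg [Nonempty ι] (hJ : Frame M 1 J N) (h : Nrm M φ e C)
    (hS : Sc (Fintype.card A) m L α) (hP : Par (Fintype.card A) m L (Fintype.card ι) δ)
    {u c : Op H} (hu : u ∈ unitary (Op H)) (huM : u ∈ M) (hc : c ∈ M) (hc1 : ‖c‖ ≤ 1) {S : ℝ}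
    (hS0 : 0 ≤ S) (hSB : SB M φ e (star u * c) ζ S) {n : ℕ} (hn : n ≤ L) (η : H) :
    ‖(Ph J φ c ζ η fun v => star (ww J e u v) ^ (n + 1)) - ⟪star u η, φ (star u) c ζ⟫_ℂ‖ ≤
      (2 * S + 2 * C * ‖c ζ‖ + 2 * C * ‖ζ‖ * √(m : ℝ)⁻¹) * ‖η‖ := by
  have hsM : star u ∈ M := star_mem huM
  have hsu : star u ∈ unitary (Op H) := Unitary.star_mem hu
  have hη : ‖star u η‖ = ‖η‖ := ContinuousLinearMap.norm_map_of_mem_unitary hsu η
  have hs1 : ‖star u‖ ≤ 1 := RM.unit_le hsu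
  have hWc : Continuous fun v => ww J e (star u) v ^ n := (ww_cont _).pow n
  have hWN : ∀ v, ww J e (star u) v ^ n ∈ N := fun v => pow_mem (ww_mem hJ h.mem hsM v) n
  have hcont : ∀ (γ : A) {b : Op H}, b ∈ M → ∀ ξ : H, Continuous fun v =>
      ⟪(ww J e (star u) v ^ n) (J γ (star u η)), Gm J φ γ b ξ (ww J e (star u) v ^ n)⟫_ℂ :=
    fun γ b hb ξ => (hWc.clm_apply continuous_const).inner
      (Gm_cont hJ h.col h.c0 γ hb ξ hWc hWN)
  have ha : (Fintype.card A : ℂ) ≠ 0 := Nat.cast_ne_zero.2 (hS.m0.trans_le hS.ma).ne'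
  have e : (Ph J φ c ζ η fun v => star (ww J e u v) ^ (n + 1)) - ⟪star u η, φ (star u) c ζ⟫_ℂ =
      (Ph J φ (star u * c) ζ (star u η) fun v => ww J e (star u) v ^ n) -
        Ph J φ (star u) (c ζ) (star u η) fun v => ww J e (star u) v ^ n := by
    have e1 : ∀ γ : A, (Ex fun v : U (A × ι) => ⟪(star (ww J e u v) ^ (n + 1)) (J γ η),
        Gm J φ γ c ζ (star (ww J e u v) ^ (n + 1))⟫_ℂ) = ⟪star u η, φ (star u) c ζ⟫_ℂ +
        (Ex fun v : U (A × ι) => ⟪(ww J e (star u) v ^ n) (J γ (star u η)),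
          Gm J φ γ (star u * c) ζ (ww J e (star u) v ^ n)⟫_ℂ) -
        Ex fun v : U (A × ι) => ⟪(ww J e (star u) v ^ n) (J γ (star u η)),
          Gm J φ γ (star u) (c ζ) (ww J e (star u) v ^ n)⟫_ℂ := fun γ => by
      rw [← Ex_star]
      simp only [phi_neg_point hJ h hu huM hc n η γ]
      rw [Ex_sub (continuous_const.fun_add (hcont γ (mul_mem hsM hc) ζ)) (hcont γ hsM _),
        Ex_add continuous_const (hcont γ (mul_mem hsM hc) ζ), Ex_const]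
    simp only [Ph, e1, sum_sub_distrib, sum_add_distrib, sum_const, card_univ, nsmul_eq_mul]
    field_simp
    ring
  have a1 := phi_pos hJ h hS hP hsu hsM (mul_mem hsM hc)
    ((norm_mul_le _ _).trans (mul_le_one₀ hs1 (norm_nonneg _) hc1)) hS0 hSB hn (star u η)
  have a2 := phi_pos hJ h hS hP hsu hsM hsM hs1 (mul_nonneg h.c0 (norm_nonneg _))
    (sb_col h hsM hs1 (c ζ)) hn (star u η)
  have a3 : ‖c ζ‖ ≤ ‖ζ‖ := (c.le_opNorm ζ).trans (mul_le_of_le_one_left (norm_nonneg _) hc1)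
  have a4 : C * ‖c ζ‖ * √(m : ℝ)⁻¹ * ‖η‖ ≤ C * ‖ζ‖ * √(m : ℝ)⁻¹ * ‖η‖ := by
    have := h.c0
    gcongr
  rw [hη] at a1 a2
  rw [e]
  refine (norm_sub_le _ _).trans ?_
  linarith


end Pool.Agent.Kad.H2
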