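import Pool.Agent.Lib.MP_22c5db_an.H2.Left

/-! Averaging on the right. -/

open scoped InnerProductSpace ComplexConjugate
open Finset

noncomputable section

namespace Pool.Agent.Kad.H2

universe u

set_option linter.unusedSectionVars false

variable {H : Type u} [NormedAddCommGroup H] [InnerProductSpace ℂ H] [CompleteSpace H]
  {M : VonNeumannAlgebra H} {τ : Op H →ₗ[ℝ] ℝ} {φ : Bil H} {C : ℝ}
  {ι : Type} [Fintype ι] [DecidableEq ι] {e : ι → ι → Op H}

/-- a sign -/
def right_sg (b : Bool) : ℂ := if b then 1 else -1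

theorem right_sg_sq (b : Bool) : right_sg b * right_sg b = 1 := by
  cases b <;> simp [right_sg]

theorem right_sg_star (b : Bool) : star (right_sg b) = right_sg b := by
  cases b <;> simp [right_sg]

theorem right_sg_sum (s s' : ι) : ∑ ε : ι → Bool, right_sg (ε s) * right_sg (ε s') =
    if s = s' then (Fintype.card (ι → Bool) : ℂ) else 0 := by
  split_ifs with h
  · subst h
    simp only [right_sg_sq, sum_const, card_univ, nsmul_eq_mul, mul_one]
  · have hi : Function.Involutive fun ε : ι → Bool => Function.update ε s (!ε s) := by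
      intro ε
      simp
    have h1 := Equiv.sum_comp (hi.toPerm _) fun ε : ι → Bool => right_sg (ε s) * right_sg (ε s')
    have h2 : ∀ ε : ι → Bool, right_sg ((hi.toPerm _) ε s) * right_sg ((hi.toPerm _) ε s') =
        -(right_sg (ε s) * right_sg (ε s')) := by
      intro ε
      have e1 : (hi.toPerm _) ε s = !ε s := Function.update_self _ _ _
      have e2 : (hi.toPerm _) ε s' = ε s' := Function.update_of_ne (Ne.symm h) _ _
      rw [e1, e2]
      cases ε s <;> cases ε s' <;> simp [right_sg]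
    simp only [h2, sum_neg_distrib] at h1
    linear_combination (-1 / 2 : ℂ) * h1

/-- a signed permutation matrix -/
def right_g (ε : ι → Bool) (σ : Equiv.Perm ι) : U ι :=
  ⟨Matrix.of fun s t => if t = σ s then right_sg (ε s) else 0, by
    rw [Matrix.mem_unitaryGroup_iff]
    ext s s'
    simp only [Matrix.mul_apply, Matrix.star_apply, Matrix.of_apply, ite_mul, zero_mul,
      sum_ite_eq', mem_univ, if_true, EmbeddingLike.apply_eq_iff_eq, Matrix.one_apply]
    split_ifs with h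
    · subst h
      rw [right_sg_star, right_sg_sq]
    · simp⟩

theorem right_rho (e : ι → ι → Op H) (ε : ι → Bool) (σ : Equiv.Perm ι) :
    rho e (right_g ε σ) = ∑ s, right_sg (ε s) • e s (σ s) := by
  simp only [rho, right_g, Matrix.of_apply, ite_smul, zero_smul, sum_ite_eq', mem_univ, if_true]

theorem right_signs (he : MU e 1) (σ : Equiv.Perm ι) (A : Op H →ₗ[ℂ] Op H) :
    ∑ ε : ι → Bool, A (rho e (right_g ε σ)) * star (rho e (right_g ε σ)) =
      (Fintype.card (ι → Bool) : ℂ) • ∑ s, A (e s (σ s)) * e (σ s) s := by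
  simp only [right_rho, map_sum, map_smul, star_sum, star_smul, right_sg_star, he.adj,
    sum_mul_sum, smul_mul_smul_comm]
  rw [sum_comm, smul_sum]
  refine sum_congr rfl fun s _ => ?_
  rw [sum_comm]
  simp only [← sum_smul, right_sg_sum, ite_smul, zero_smul, sum_ite_eq, mem_univ, if_true]

/-- a finite family of unitaries that averages like the diagonal -/
theorem design [Nonempty ι] (he : MU e 1) : ∃ (T : Type) (_ : Fintype T) (_ : Nonempty T)
    (g : T → U ι), ∀ A : Op H →ₗ[ℂ] Op H,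
      (Fintype.card T : ℂ)⁻¹ • ∑ r, A (rho e (g r)) * star (rho e (g r)) =
        (Fintype.card ι : ℂ)⁻¹ • ∑ s, ∑ t, A (e s t) * e t s := by
  obtain ⟨n, hn⟩ : ∃ n, Fintype.card ι = n + 1 :=
    Nat.exists_eq_succ_of_ne_zero Fintype.card_ne_zero
  obtain ⟨q⟩ : Nonempty (ι ≃ Fin (n + 1)) := ⟨Fintype.equivFinOfCardEq hn⟩
  refine ⟨(ι → Bool) × Fin (n + 1), inferInstance, inferInstance,
    fun r => right_g r.1 (q.trans ((Equiv.addRight r.2).trans q.symm)), fun A => ?_⟩
  have h0 : (Fintype.card (ι → Bool) : ℂ) ≠ 0 := Nat.cast_ne_zero.2 Fintype.card_ne_zero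
  rw [Fintype.sum_prod_type_right]
  simp only [right_signs he]
  rw [← smul_sum, smul_smul, Fintype.card_prod, Fintype.card_fin, hn, Nat.cast_mul, mul_inv,
    mul_right_comm, inv_mul_cancel₀ h0, one_mul, sum_comm]
  refine congrArg _ (sum_congr rfl fun s _ => ?_)
  exact Equiv.sum_comp ((Equiv.addLeft (q s)).trans q.symm) fun t => A (e s t) * e t s

theorem right_jensen {T : Type} [Fintype T] [Nonempty T] (w : T → H) :
    ‖(Fintype.card T : ℂ)⁻¹ • ∑ r, w r‖ ^ 2 ≤ (Fintype.card T : ℝ)⁻¹ * ∑ r, ‖w r‖ ^ 2 := by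
  have h0 : (0 : ℝ) < Fintype.card T := Nat.cast_pos.2 Fintype.card_pos
  have h1 : ‖∑ r, w r‖ ^ 2 ≤ Fintype.card T * ∑ r, ‖w r‖ ^ 2 :=
    (pow_le_pow_left₀ (norm_nonneg _) (norm_sum_le _ _) 2).trans sq_sum_le_card_mul_sum_sq
  rw [norm_smul, norm_inv, Complex.norm_natCast, mul_pow]
  refine (mul_le_mul_of_nonneg_left h1 (by positivity)).trans (le_of_eq ?_)
  field_simp

/-- the average on the right -/
def right_avg (φ : Bil H) {T : Type} [Fintype T] (u : T → Op H) (y : Op H) : Op H →ₗ[ℂ] Op H :=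
  (Fintype.card T : ℂ)⁻¹ • ∑ r, (LinearMap.mulRight ℂ (star (u r))).comp (φ.flip (y * u r))

theorem right_avg_apply (φ : Bil H) {T : Type} [Fintype T] (u : T → Op H) (y x : Op H) :
    right_avg φ u y x = (Fintype.card T : ℂ)⁻¹ • ∑ r, φ x (y * u r) * star (u r) := by
  simp only [right_avg, LinearMap.smul_apply, LinearMap.sum_apply, LinearMap.comp_apply,
    LinearMap.mulRight_apply, LinearMap.flip_apply]

theorem right_col (hc : Col M φ C) {T : Type} [Fintype T] [Nonempty T] {u : T → Op H}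
    (hu : ∀ r, u r ∈ M ∧ u r ∈ unitary (Op H)) {κ : Type} [Fintype κ] {x : κ → Op H}
    (hx : ∀ i, x i ∈ M) {t : ℝ} (ht : 0 ≤ t) (h1 : Cl x t) {y : Op H} (hy : y ∈ M) (ζ : H) :
    ∑ i, ‖right_avg φ u y (x i) ζ‖ ^ 2 ≤ (C * t * ‖y‖ * ‖ζ‖) ^ 2 := by
  have h0 : (0 : ℝ) < Fintype.card T := Nat.cast_pos.2 Fintype.card_pos
  have h2 : ∀ i, ‖right_avg φ u y (x i) ζ‖ ^ 2 ≤
      (Fintype.card T : ℝ)⁻¹ * ∑ r, ‖φ (x i) (y * u r) (star (u r) ζ)‖ ^ 2 := by
    intro i
    rw [right_avg_apply, ContinuousLinearMap.smul_apply, ContinuousLinearMap.sum_apply]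
    exact right_jensen _
  have h3 : ∀ r, ∑ i, ‖φ (x i) (y * u r) (star (u r) ζ)‖ ^ 2 ≤ (C * t * ‖y‖ * ‖ζ‖) ^ 2 := by
    intro r
    have h4 := hc κ x hx t ht h1 (y * u r) (mul_mem hy (hu r).1) (star (u r) ζ)
    have h5 : ‖y * u r‖ = ‖y‖ := CStarRing.norm_mul_mem_unitary y (hu r).2
    have h6 : ‖star (u r) ζ‖ = ‖ζ‖ :=
      ContinuousLinearMap.norm_map_of_mem_unitary (Unitary.star_mem (hu r).2) ζ
    rwa [h5, h6] at h4
  calc _ ≤ ∑ i, (Fintype.card T : ℝ)⁻¹ * ∑ r, ‖φ (x i) (y * u r) (star (u r) ζ)‖ ^ 2 :=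
        sum_le_sum fun i _ => h2 i
    _ = (Fintype.card T : ℝ)⁻¹ * ∑ r, ∑ i, ‖φ (x i) (y * u r) (star (u r) ζ)‖ ^ 2 := by
        rw [← mul_sum, sum_comm]
    _ ≤ (Fintype.card T : ℝ)⁻¹ * ∑ _r : T, (C * t * ‖y‖ * ‖ζ‖) ^ 2 :=
        mul_le_mul_of_nonneg_left (sum_le_sum fun r _ => h3 r) (by positivity)
    _ = _ := by
        rw [sum_const, card_univ, nsmul_eq_mul, ← mul_assoc, inv_mul_cancel₀ h0.ne', one_mul]

theorem right_col_one (hc : Col M φ C) (hC : 0 ≤ C) {T : Type} [Fintype T] [Nonempty T]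
    {u : T → Op H} (hu : ∀ r, u r ∈ M ∧ u r ∈ unitary (Op H)) {κ : Type} [Fintype κ]
    {x : κ → Op H} (hx : ∀ i, x i ∈ M) {t : ℝ} (ht : 0 ≤ t) (h1 : Cl x t) (ζ : H) :
    ∑ i, ‖right_avg φ u 1 (x i) ζ‖ ^ 2 ≤ (C * t * ‖ζ‖) ^ 2 := by
  refine (right_col hc hu hx ht h1 (one_mem M) ζ).trans ?_
  have h2 : ‖(1 : Op H)‖ ≤ 1 := ContinuousLinearMap.norm_id_le
  refine pow_le_pow_left₀ (by positivity) ?_ 2
  exact mul_le_mul_of_nonneg_right (mul_le_of_le_one_right (by positivity) h2) (norm_nonneg _)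

theorem right_sub (h : CC M φ) {T : Type} [Fintype T] [Nonempty T] {u : T → Op H}
    (hu : ∀ r, u r ∈ M ∧ u r ∈ unitary (Op H)) {x y : Op H} (hx : x ∈ M) (hy : y ∈ M) :
    (φ - cob (right_avg φ u 1)) x y = right_avg φ u y x - right_avg φ u 1 x * y := by
  have h0 : (Fintype.card T : ℂ) ≠ 0 := Nat.cast_ne_zero.2 Fintype.card_ne_zero
  have h1 : right_avg φ u 1 (x * y) = x * right_avg φ u 1 y + right_avg φ u y x - φ x y := by
    have h2 : ∀ r, φ (x * y) (1 * u r) * star (u r) =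
        x * (φ y (1 * u r) * star (u r)) + φ x (y * u r) * star (u r) - φ x y := by
      intro r
      rw [one_mul, h x hx y hy _ (hu r).1, sub_mul, add_mul, mul_assoc, mul_assoc,
        Unitary.mul_star_self_of_mem (hu r).2, mul_one]
    simp only [right_avg_apply, h2, sum_sub_distrib, sum_add_distrib, smul_sub, smul_add,
      ← mul_sum, mul_smul_comm, sum_const, card_univ]
    rw [← Nat.cast_smul_eq_nsmul ℂ, smul_smul, inv_mul_cancel₀ h0, one_smul]
  rw [LinearMap.sub_apply, LinearMap.sub_apply, cob_apply, h1]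
  abel

theorem normalise [Nonempty ι] (h : CC M φ) (hc : Col M φ C) (hC : 0 ≤ C) (he : MU e 1)
    (heM : ∀ i j, e i j ∈ M) :
    ∃ β : Op H →ₗ[ℂ] Op H, Bd M β (3 * C) ∧ Nrm M (φ - cob β) e (4 * C) := by
  obtain ⟨hb, hc'⟩ := bl_col h hc hC he heM
  have h' : CC M (φ - cob (bl φ e)) := h.sub_cob _
  have hl : ∀ i j, ∀ y ∈ M, (φ - cob (bl φ e)) (e i j) y = 0 := fun i j y hy =>
    bl_left h he heM i j hy
  obtain ⟨T, _, _, g, hg⟩ := design he
  have hu : ∀ r, rho e (g r) ∈ M ∧ rho e (g r) ∈ unitary (Op H) := fun r =>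
    ⟨rho_mem heM _, he.rho_unitary _⟩
  have hC2 : 0 ≤ 2 * C := by positivity
  obtain ⟨ψ, hψ⟩ : ∃ ψ, ψ = φ - cob (bl φ e) := ⟨_, rfl⟩
  rw [← hψ] at hc' h' hl
  obtain ⟨u, hud⟩ : ∃ u : T → Op H, u = fun r => rho e (g r) := ⟨_, rfl⟩
  have hu' : ∀ r, u r ∈ M ∧ u r ∈ unitary (Op H) := hud ▸ hu
  have e0 : φ - cob (bl φ e + right_avg ψ u 1) = ψ - cob (right_avg ψ u 1) := by
    refine LinearMap.ext₂ fun x y => ?_
    have e1 : ψ x y = φ x y - cob (bl φ e) x y := by rw [hψ]; rfl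
    rw [cob_add, LinearMap.sub_apply, LinearMap.sub_apply, LinearMap.add_apply,
      LinearMap.add_apply, LinearMap.sub_apply, LinearMap.sub_apply, e1, sub_sub]
  have hd : ∀ x y, right_avg ψ u y x =
      (Fintype.card ι : ℂ)⁻¹ • ∑ s, ∑ t, ψ x (y * e s t) * e t s := by
    intro x y
    rw [right_avg_apply, hud]
    exact hg ((ψ x).comp (LinearMap.mulLeft ℂ y))
  refine ⟨bl φ e + right_avg ψ u 1, fun a ha => ?_, ?_⟩
  · have h1 : ‖right_avg ψ u 1 a‖ ≤ 2 * C * ‖a‖ := by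
      refine ContinuousLinearMap.opNorm_le_bound _ (by positivity) fun ζ => ?_
      have h2 := right_col_one hc' hC2 hu' (x := fun _ : Unit => a) (fun _ => ha) (norm_nonneg a)
        (cl_one a) ζ
      rw [Fintype.sum_unique] at h2
      exact (pow_le_pow_iff_left₀ (norm_nonneg _) (by positivity) two_ne_zero).1 h2
    have h2 := hb a ha
    rw [LinearMap.add_apply]
    refine (norm_add_le _ _).trans ?_
    linarith
  · rw [e0]
    refine ⟨h'.sub_cob _, fun κ _ x hx t ht h1 y hy ζ => ?_, by positivity, he, heM,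
      fun i j y hy => ?_, fun x hx i j => ?_⟩
    · have h2 := right_col hc' hu' hx ht h1 hy ζ
      have h3 := right_col_one hc' hC2 hu' hx ht h1 (y ζ)
      have h4 : (2 * C * t * ‖y ζ‖) ^ 2 ≤ (2 * C * t * ‖y‖ * ‖ζ‖) ^ 2 := by
        refine pow_le_pow_left₀ (by positivity) ?_ 2
        rw [mul_assoc (2 * C * t)]
        exact mul_le_mul_of_nonneg_left (y.le_opNorm ζ) (by positivity)
      have h5 : ∀ i, ‖(ψ - cob (right_avg ψ u 1)) (x i) y ζ‖ ^ 2 ≤
          2 * ‖right_avg ψ u y (x i) ζ‖ ^ 2 + 2 * ‖right_avg ψ u 1 (x i) (y ζ)‖ ^ 2 := by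
        intro i
        rw [right_sub h' hu' (hx i) hy, ContinuousLinearMap.sub_apply,
          ContinuousLinearMap.mul_apply]
        have h6 := pow_le_pow_left₀ (norm_nonneg _)
          (norm_sub_le (right_avg ψ u y (x i) ζ) (right_avg ψ u 1 (x i) (y ζ))) 2
        nlinarith [sq_nonneg (‖right_avg ψ u y (x i) ζ‖ - ‖right_avg ψ u 1 (x i) (y ζ)‖)]
      refine (sum_le_sum fun i _ => h5 i).trans ?_
      rw [sum_add_distrib, ← mul_sum, ← mul_sum]
      have h7 : (4 * C * t * ‖y‖ * ‖ζ‖) ^ 2 = 4 * (2 * C * t * ‖y‖ * ‖ζ‖) ^ 2 := by ring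
      linarith
    · have h2 : ∀ z ∈ M, right_avg ψ u z (e i j) = 0 := fun z hz => by
        rw [right_avg_apply, sum_eq_zero fun r _ => by
          rw [hl i j _ (mul_mem hz (hu' r).1), zero_mul], smul_zero]
      rw [right_sub h' hu' (heM i j) hy, h2 y hy, h2 1 (one_mem M), zero_mul, sub_zero]
    · rw [right_sub h' hu' hx (heM i j), hd, hd, smul_mul_assoc, ← smul_sub]
      have h2 : ∑ s, ∑ t, ψ x (e i j * e s t) * e t s = ∑ t, ψ x (e i t) * e t j := by
        rw [sum_eq_single j]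
        · simp only [he.mul, if_true]
        · intro s _ hs
          simp only [he.mul, if_neg (Ne.symm hs), map_zero, zero_mul, sum_const_zero]
        · simp
      have h3 : (∑ s, ∑ t, ψ x (1 * e s t) * e t s) * e i j = ∑ t, ψ x (e i t) * e t j := by
        simp only [sum_mul, one_mul, mul_assoc, he.mul]
        rw [sum_eq_single i]
        · simp only [if_true]
        · intro s _ hs
          simp only [if_neg hs, mul_zero, sum_const_zero]
        · simp
      rw [h2, h3, sub_self, smul_zero]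


end Pool.Agent.Kad.H2
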