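import Pool.Agent.Lib.MP_22c5db_an.H2.ScalA

/-! The window. -/

open scoped InnerProductSpace ComplexConjugate
open Finset

noncomputable section

namespace Pool.Agent.Kad.H2

universe u

set_option linter.unusedSectionVars false

variable {K : Type u} [NormedAddCommGroup K] [InnerProductSpace ℂ K] [CompleteSpace K]

/-- the number of multi-indices with a given exponent -/
def kap (R r n : ℕ) : ℝ := ((Core.PP R r).filter fun p => Core.kk R p = n).card

/-- the phases -/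
def scalLam (J L j j' : ℕ) : ℂ :=
  Complex.exp (Complex.I * ((2 * Real.pi / (16 * J * L) * ((j : ℝ) - j') : ℝ) : ℂ))

theorem scal_norm_lam (J L j j' : ℕ) : ‖scalLam J L j j'‖ = 1 := Complex.norm_exp_I_mul_ofReal _

theorem scal_lam_sub {J L j j' : ℕ} (hJ : 0 < J) (hj : j < L) (hj' : j' < L) :
    J * ‖scalLam J L j j' - 1‖ ≤ 1 / 2 := by
  have hJ' : (0 : ℝ) < J := by exact_mod_cast hJ
  have h1 : (j : ℝ) < L := by exact_mod_cast hj
  have h2 : (j' : ℝ) < L := by exact_mod_cast hj'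
  have h3 : (0 : ℝ) ≤ j := Nat.cast_nonneg _
  have h4 : (0 : ℝ) ≤ j' := Nat.cast_nonneg _
  have hL : (0 : ℝ) < L := h3.trans_lt h1
  have h5 : |(j : ℝ) - j'| ≤ L := abs_le.2 ⟨by linarith, by linarith⟩
  have h6 : 0 < 2 * Real.pi / (16 * J * L) := by have := Real.pi_pos; positivity
  refine (mul_le_mul_of_nonneg_left Real.norm_exp_I_mul_ofReal_sub_one_le hJ'.le).trans ?_
  rw [Real.norm_eq_abs, abs_mul, abs_of_pos h6]
  calc J * (2 * Real.pi / (16 * J * L) * |(j : ℝ) - j'|)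
      ≤ J * (2 * Real.pi / (16 * J * L) * L) := by gcongr
    _ = Real.pi / 8 := by field_simp; ring
    _ ≤ 1 / 2 := by linarith [Real.pi_le_four]

theorem scal_sf (J L t : ℕ) :
    (sf J L t : ℂ) = ∑ j ∈ range L, ∑ j' ∈ range L, scalLam J L j j' ^ t := by
  rw [sf, Complex.ofReal_pow, ← Complex.mul_conj', map_sum, sum_mul_sum]
  refine sum_congr rfl fun j _ => sum_congr rfl fun j' _ => ?_
  rw [← Complex.exp_conj, ← Complex.exp_add, scalLam, ← Complex.exp_nat_mul]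
  congr 1
  simp only [map_mul, map_div₀, Complex.conj_ofReal, Complex.conj_I, map_natCast, map_ofNat]
  push_cast
  ring

theorem scal_ff {J L R r : ℕ} (hL : 2 * (r * R) < L) (n₀ : ℕ) (w : Op K) :
    ff (fun n => kap R r n * sf J L (n + n₀)) L w = ∑ j ∈ range L, ∑ j' ∈ range L,
      scalLam J L j j' ^ n₀ • Core.FF (scalLam J L j j' • w) R r := by
  have h1 : ff (fun n => kap R r n * sf J L (n + n₀)) L w =
      ∑ p ∈ Core.PP R r, (sf J L (Core.kk R p + n₀) : ℂ) • w ^ Core.kk R p := by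
    rw [ff, ← sum_fiberwise_of_maps_to (g := fun p => Core.kk R p) (t := range L)
      fun p hp => mem_range.2 ((Core.kk_le hp).trans_lt hL)]
    refine sum_congr rfl fun n _ => ?_
    rw [sum_congr rfl fun p hp => by rw [(mem_filter.1 hp).2], sum_const, kap,
      ← Nat.cast_smul_eq_nsmul ℂ, smul_smul]
    push_cast
    rfl
  rw [h1]
  simp only [Core.FF_eq, scal_sf, sum_smul, smul_sum]
  rw [sum_comm]
  refine sum_congr rfl fun j _ => ?_
  rw [sum_comm]
  refine sum_congr rfl fun j' _ => sum_congr rfl fun p _ => ?_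
  rw [smul_pow, smul_smul, pow_add, mul_comm]

theorem scal_unit {l : ℂ} (hl : ‖l‖ = 1) {w : Op K} (hw : w ∈ unitary (Op K)) :
    l • w ∈ unitary (Op K) := by
  have h1 : l * conj l = 1 := by rw [Complex.mul_conj', hl]; simp
  constructor
  · rw [star_smul, smul_mul_smul_comm, hw.1, Complex.star_def, mul_comm, h1, one_smul]
  · rw [star_smul, smul_mul_smul_comm, hw.2, Complex.star_def, h1, one_smul]

theorem tail_le {J r : ℕ} (hJ : 0 < J) (hr : 0 < r) (n₀ : ℕ) :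
    Tail K J (16 * r * J + 1)
      (fun n => kap (8 * J) r n * sf J (16 * r * J + 1) (n + n₀))
      ((16 * r * J + 1 : ℕ) ^ 2 * (4 * J) ^ r) := by
  intro w hw q hq hc h
  have hJ' : (0 : ℝ) < J := by exact_mod_cast hJ
  rw [scal_ff (by rw [show 2 * (r * (8 * J)) = 16 * r * J by ring]; exact Nat.lt_succ_self _)]
  generalize 16 * r * J + 1 = L
  have key : ∀ j ∈ range L, ∀ j' ∈ range L, ‖(scalLam J L j j' ^ n₀ •
      Core.FF (scalLam J L j j' • w) (8 * J) r) * (1 - q)‖ ≤ (4 * J) ^ r := by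
    intro j hj j' hj'
    have h1 := scal_norm_lam J L j j'
    have h2 := scal_lam_sub hJ (mem_range.1 hj) (mem_range.1 hj')
    generalize scalLam J L j j' = l at h1 h2
    rw [smul_mul_assoc, norm_smul, norm_pow, h1, one_pow, one_mul,
      show (4 * J : ℝ) = 2 * (2 * J) by ring]
    refine Core.norm_FF_mul (scal_unit h1 hw) hq (by rw [mul_smul_comm, smul_mul_assoc, hc])
      (by positivity) (fun ζ hζ => ?_) _ hr
    have h3 := h ζ hζ
    have e : ζ - w ζ = (ζ - (l • w) ζ) + (l - 1) • w ζ := by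
      rw [smul_apply, sub_smul, one_smul]; abel
    have h4 : ‖ζ - w ζ‖ ≤ ‖ζ - (l • w) ζ‖ + ‖l - 1‖ * ‖ζ‖ := by
      rw [e]
      refine (norm_add_le _ _).trans (le_of_eq ?_)
      rw [norm_smul, ContinuousLinearMap.norm_map_of_mem_unitary hw]
    nlinarith [mul_le_mul_of_nonneg_left h4 hJ'.le, mul_le_mul_of_nonneg_right h2 (norm_nonneg ζ)]
  rw [sum_mul]
  refine (norm_sum_le_of_le (n := fun _ => (L : ℝ) * (4 * J) ^ r) _ fun j hj => ?_).trans ?_
  · rw [sum_mul]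
    exact (norm_sum_le_of_le _ (key j hj)).trans (by simp)
  · simp [sq, mul_assoc]

theorem scal_sum_kap {R r L : ℕ} (hL : 2 * (r * R) < L) :
    ∑ n ∈ range L, kap R r n = (R : ℝ) ^ r := by
  have h := Finset.card_eq_sum_card_fiberwise (f := fun p => Core.kk R p) (s := Core.PP R r)
    (t := range L) (fun p hp => by
      have := Core.kk_le (Finset.mem_coe.1 hp)
      simp only [coe_range, Set.mem_Iio]
      omega)
  rw [Core.card_PP] at h
  have h2 : ((R ^ r : ℕ) : ℝ) = ∑ n ∈ range L, kap R r n := by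
    rw [h, Nat.cast_sum]; rfl
  rw [← h2, Nat.cast_pow]

theorem scal_exists_r {C ε : ℝ} (hC : 0 < C) (hε : 0 < ε) :
    ∃ r : ℕ, 0 < r ∧ C * (r : ℝ) ^ 2 ≤ ε * 2 ^ r := by
  have h := tendsto_pow_const_div_const_pow_of_one_lt 2 (show (1 : ℝ) < 2 by norm_num)
  have h1 := h.eventually (gt_mem_nhds (show (0 : ℝ) < ε / C by positivity))
  obtain ⟨r, hr, h0⟩ := (h1.and (Filter.eventually_gt_atTop 0)).exists
  refine ⟨r, h0, ?_⟩
  rw [div_lt_div_iff₀ (by positivity) hC] at hr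
  linarith

theorem scal_ff_div (β : ℕ → ℝ) (N : ℝ) (L : ℕ) (w : Op K) :
    ff (fun n => β n / N) L w = ((N⁻¹ : ℝ) : ℂ) • ff β L w := by
  simp only [ff, Finset.smul_sum, smul_smul]
  refine Finset.sum_congr rfl fun n _ => ?_
  congr 1
  push_cast
  ring

theorem scal {m : ℕ} (hm : 0 < m) {ε : ℝ} (hε : 0 < ε) : ∃ (a L : ℕ) (α : ℕ → ℝ), Sc a m L α ∧
    ∀ (K : Type u) [NormedAddCommGroup K] [InnerProductSpace ℂ K] [CompleteSpace K],
      Tail K (a * m) L α ε := by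
  obtain ⟨r, hr, hrε⟩ := scal_exists_r (C := 16 * 273 * (m : ℝ) ^ 4) (by positivity) hε
  set a : ℕ := 17 * r * m ^ 3 with ha
  set J : ℕ := a * m with hJd
  set L : ℕ := 16 * r * J + 1 with hLd
  have ha0 : 0 < a := by positivity
  have hJ : 0 < J := by positivity
  have hL : 0 < L := Nat.succ_pos _
  have hLr : (0 : ℝ) < L := by exact_mod_cast hL
  have hJr : (0 : ℝ) < J := by exact_mod_cast hJ
  set κ : ℕ → ℝ := kap (8 * J) r with hκ
  obtain ⟨n₀, h1, h2⟩ := best_shift hJ hL κ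
  set s : ℕ → ℝ := fun n => sf J L (n + n₀) with hs
  have hs0 : ∀ n, 0 ≤ s n := fun n => by simp only [hs, sf]; positivity
  have hκ0 : ∀ n, 0 ≤ κ n := fun n => by simp only [hκ, kap]; positivity
  have hsum : ∑ n ∈ range L, κ n = ((8 * J : ℕ) : ℝ) ^ r :=
    scal_sum_kap (by rw [hLd]; nlinarith)
  set S : ℝ := ∑ n ∈ range L, (κ n * s n) ^ 2 with hS
  set P : ℝ := ∑ n ∈ range L, κ n ^ 2 * s n with hP
  set Q : ℝ := ∑ n ∈ range L, κ n ^ 2 with hQ
  set X : ℝ := ((8 * J : ℕ) : ℝ) ^ r with hX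
  have hX0 : 0 < X := by positivity
  have hP0 : 0 ≤ P := Finset.sum_nonneg fun n _ => mul_nonneg (sq_nonneg _) (hs0 n)
  have hQ0 : 0 ≤ Q := Finset.sum_nonneg fun n _ => sq_nonneg _
  have h1' : (L : ℝ) ^ 2 / 256 * P + (L : ℝ) ^ 3 / 256 * Q ≤ S := h1
  have h2' : ∑ n ∈ range L, s n ≤ 16 * J * (L : ℝ) ^ 2 := h2
  have hcs : X ^ 2 ≤ L * Q := by
    have := sq_sum_le_card_mul_sum_sq (s := range L) (f := κ)
    rwa [hsum, card_range] at this
  have hlow : ((L : ℝ) * X / 16) ^ 2 ≤ S := by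
    have e1 : 0 ≤ (L : ℝ) ^ 2 / 256 * P := by positivity
    have e2 : (L : ℝ) ^ 2 / 256 * X ^ 2 ≤ (L : ℝ) ^ 2 / 256 * (L * Q) :=
      mul_le_mul_of_nonneg_left hcs (by positivity)
    nlinarith
  have hS0 : 0 < S := lt_of_lt_of_le (by positivity) hlow
  set N : ℝ := √S with hN
  have hN0 : 0 < N := Real.sqrt_pos.2 hS0
  have hN2 : N ^ 2 = S := Real.sq_sqrt hS0.le
  have hNl : (L : ℝ) * X / 16 ≤ N := Real.le_sqrt_of_sq_le hlow
  have hm1 : 1 ≤ m := hm
  have hr1 : 1 ≤ r := hr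
  refine ⟨a, L, fun n => κ n * s n / N, ⟨hm, ?_, hL, ?_, fun n => ?_, ?_, ?_⟩, ?_⟩
  · calc m = 1 * 1 * m ^ 1 := by ring
      _ ≤ 17 * r * m ^ 3 := by gcongr <;> omega
  · have e : m ^ 2 ≤ 17 * r ^ 2 * m ^ 6 := by
      calc m ^ 2 = 1 * 1 ^ 2 * m ^ 2 := by ring
        _ ≤ 17 * r ^ 2 * m ^ 6 := by gcongr <;> omega
    calc L * m ^ 2 = 272 * r ^ 2 * m ^ 6 + m ^ 2 := by rw [hLd, hJd, ha]; ring
      _ ≤ 272 * r ^ 2 * m ^ 6 + 17 * r ^ 2 * m ^ 6 := by omega
      _ = a ^ 2 := by rw [ha]; ring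
  · exact div_nonneg (mul_nonneg (hκ0 n) (hs0 n)) hN0.le
  · simp only [div_pow]
    rw [← Finset.sum_div, hN2]
    exact div_self hS0.ne'
  · rw [← Finset.sum_div, div_pow, hN2, div_le_iff₀ hS0]
    have e1 : (∑ n ∈ range L, κ n * s n) ^ 2 ≤ P * ∑ n ∈ range L, s n :=
      Finset.sum_sq_le_sum_mul_sum_of_sq_le_mul (range L)
        (fun n _ => mul_nonneg (sq_nonneg _) (hs0 n)) (fun n _ => hs0 n)
        (fun n _ => le_of_eq (by ring))
    have e2 : P * ∑ n ∈ range L, s n ≤ P * (16 * J * (L : ℝ) ^ 2) :=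
      mul_le_mul_of_nonneg_left h2' hP0
    have e3 : 0 ≤ (L : ℝ) ^ 3 / 256 * Q := by positivity
    have e4 : (J : ℝ) * ((L : ℝ) ^ 2 / 256 * P) ≤ J * S :=
      mul_le_mul_of_nonneg_left (by linarith) hJr.le
    have e5 : (J : ℝ) = a * m := by rw [hJd]; push_cast; ring
    calc (∑ n ∈ range L, κ n * s n) ^ 2 ≤ P * (16 * J * (L : ℝ) ^ 2) := e1.trans e2
      _ = 4096 * ((J : ℝ) * ((L : ℝ) ^ 2 / 256 * P)) := by ring
      _ ≤ 4096 * (J * S) := by linarith
      _ = 4096 * a * m * S := by rw [e5]; ring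
  · intro K _ _ _ w hw q hq hqw hζ
    have ht := tail_le (K := K) hJ hr n₀ w hw q hq hqw hζ
    have ht' : ‖ff (fun n => κ n * s n) L w * (1 - q)‖ ≤ (L : ℝ) ^ 2 * (4 * J) ^ r := ht
    rw [scal_ff_div (fun n => κ n * s n) N L w, smul_mul_assoc, norm_smul, Complex.norm_real,
      Real.norm_eq_abs, abs_of_pos (inv_pos.2 hN0), inv_mul_le_iff₀ hN0]
    have eX : X = 2 ^ r * (4 * (J : ℝ)) ^ r := by
      rw [hX, ← mul_pow]; push_cast; ring_nf
    have eL : (L : ℝ) ≤ 273 * (m : ℝ) ^ 4 * (r : ℝ) ^ 2 := by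
      have e : 1 ≤ m ^ 4 * r ^ 2 := Nat.succ_le_of_lt (by positivity)
      have e' : L ≤ 273 * m ^ 4 * r ^ 2 := by
        calc L = 272 * (m ^ 4 * r ^ 2) + 1 := by rw [hLd, hJd, ha]; ring
          _ ≤ 272 * (m ^ 4 * r ^ 2) + m ^ 4 * r ^ 2 := by omega
          _ = 273 * m ^ 4 * r ^ 2 := by ring
      exact_mod_cast e'
    have e16 : 16 * (L : ℝ) ≤ ε * 2 ^ r := by linarith
    have hY : (0 : ℝ) < (4 * (J : ℝ)) ^ r := by positivity
    calc ‖ff (fun n => κ n * s n) L w * (1 - q)‖ ≤ (L : ℝ) ^ 2 * (4 * J) ^ r := ht'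
      _ = (L * (4 * (J : ℝ)) ^ r / 16) * (16 * L) := by ring
      _ ≤ (L * (4 * (J : ℝ)) ^ r / 16) * (ε * 2 ^ r) :=
        mul_le_mul_of_nonneg_left e16 (by positivity)
      _ = (L * X / 16) * ε := by rw [eX]; ring
      _ ≤ N * ε := mul_le_mul_of_nonneg_right hNl hε.le


end Pool.Agent.Kad.H2
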