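import Pool.Agent.Lib.MP_22c5db_an.H2.Est
import Pool.Agent.Lib.MP_22c5db_an.H2.Phi
import Pool.Agent.Lib.MP_22c5db_an.H2.Phase
import Pool.Agent.Lib.MP_22c5db_an.H2.Scal
import Pool.Agent.Lib.MP_22c5db_an.H2.Right
import Pool.Agent.Lib.MP_22c5db_an.H2.Cut

/-! The column estimate in the second variable. -/

open scoped InnerProductSpace ComplexConjugate
open Finset

noncomputable section

namespace Pool.Agent.Kad.H2

universe u

set_option linter.unusedSectionVars false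

variable {H : Type u} [NormedAddCommGroup H] [InnerProductSpace ℂ H] [CompleteSpace H]
  {M : VonNeumannAlgebra H} {τ : Op H →ₗ[ℝ] ℝ} {φ : Bil H} {C : ℝ}
  {ι : Type} [Fintype ι] [DecidableEq ι] {e : ι → ι → Op H}
  {K : Type u} [NormedAddCommGroup K] [InnerProductSpace ℂ K] [CompleteSpace K]
  {A : Type} [Fintype A] [DecidableEq A] {J : A → H →L[ℂ] K} {N : VonNeumannAlgebra K}
  {m L : ℕ} {δ : ℝ} {α : ℕ → ℝ} {ζ : H} {G : Op H →L[ℝ] ℝ}

theorem est (hF : Fac M) (hτ : Tr M τ) (hJ : Frame M 1 J N) (h : Nrm M φ e C)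
    (hS : Sc (Fintype.card A) m L α) (hP : Par (Fintype.card A) m L (Fintype.card ι) δ)
    (hW : Tail K (Fintype.card A * m) L α (m : ℝ)⁻¹) {u c : Op H} (hu : u ∈ unitary (Op H))
    (huM : u ∈ M) (hc : c ∈ M) (hc1 : ‖c‖ ≤ 1) {T : ℝ} (hT0 : 0 ≤ T) (hT2 : T ≤ 2)
    (hT : Ad e c T) (hT' : Ad e (star u * c) T) (hG : Dom M τ φ e C ζ G) (η : H) :
    ‖⟪star u η, φ (star u) c ζ⟫_ℂ‖ ≤
      2 * 10 ^ 6 * C * √(G (star c * c) + ‖ζ‖ ^ 2 * (T + (m : ℝ)⁻¹)) * ‖η‖ := by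
  have : Nonempty ι := Fintype.card_pos_iff.1 (hτ.card_pos h.mu)
  have : Nonempty A := Fintype.card_pos_iff.1 (lt_of_lt_of_le hS.m0 hS.ma)
  have hC := h.c0
  have hG0 := hG.pos.pos c
  set Q := √(G (star c * c) + ‖ζ‖ ^ 2 * (T + (m : ℝ)⁻¹)) with hQ
  have hQ0 : 0 ≤ Q := Real.sqrt_nonneg _
  have hQ2 : Q ^ 2 = G (star c * c) + ‖ζ‖ ^ 2 * (T + (m : ℝ)⁻¹) := Real.sq_sqrt (by positivity)
  have q1 : √(G (star c * c) + ‖ζ‖ ^ 2 * T) ≤ Q := by
    refine Real.sqrt_le_sqrt ?_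
    gcongr
    exact le_add_of_nonneg_right (by positivity)
  have q2 : ‖c ζ‖ ≤ Q := Real.le_sqrt_of_sq_le
    ((hG.vec c).trans (le_add_of_nonneg_right (by positivity)))
  have q3 : ‖ζ‖ * √(m : ℝ)⁻¹ ≤ Q := by
    refine Real.le_sqrt_of_sq_le ?_
    rw [mul_pow, Real.sq_sqrt (by positivity), mul_add, ← add_assoc]
    exact le_add_of_nonneg_left (by positivity)
  have e1 : star (star u * c) * (star u * c) = star c * c := by
    rw [star_mul, star_star, mul_assoc, ← mul_assoc u, hu.2, one_mul]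
  have s1 := sb_dom h hG hc hT0 hT
  have s2 := sb_dom h hG (mul_mem (star_mem huM) hc) hT0 hT'
  rw [e1] at s2
  have p1 : ∀ n ∈ range L, ‖Ph J φ c ζ η fun v => ww J e u v ^ n‖ ≤ 7 * C * Q * ‖η‖ := by
    intro n hn
    refine (phi_pos hJ h hS hP hu huM hc hc1 (by positivity) s1 (mem_range.1 hn).le η).trans ?_
    gcongr
    nlinarith [mul_le_mul_of_nonneg_left q1 hC, mul_le_mul_of_nonneg_left q3 hC]
  have p2 : ∀ n ∈ range L, ‖(Ph J φ c ζ η fun v => star (ww J e u v) ^ (L - n)) -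
      ⟪star u η, φ (star u) c ζ⟫_ℂ‖ ≤ 10 * C * Q * ‖η‖ := by
    intro n hn
    have hn' := mem_range.1 hn
    rw [show L - n = L - n - 1 + 1 by omega]
    refine (phi_neg hJ h hS hP hu huM hc hc1 (by positivity) s2 (by omega) η).trans ?_
    gcongr
    nlinarith [mul_le_mul_of_nonneg_left q1 hC, mul_le_mul_of_nonneg_left q2 hC,
      mul_le_mul_of_nonneg_left q3 hC]
  have p3 := phase_le hJ h hu huM hc hS.sq (Q := 10 ^ 6 * C * Q) (by positivity) (fun γ =>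
    (est_DD hF hτ hJ h hS hP hW hu huM hc hc1 hT0 hT2 hT hT' hG
      (fun γ => DD_cont hJ h huM hc α L ζ γ) γ).trans (le_of_eq (by rw [← hQ2]; ring))) η
  have hsq : ∑ n ∈ range L, (α n : ℂ) ^ 2 = 1 := by exact_mod_cast hS.sq
  have e2 : ⟪star u η, φ (star u) c ζ⟫_ℂ =
      ∑ n ∈ range L, (α n : ℂ) ^ 2 * ((Ph J φ c ζ η fun v => ww J e u v ^ n) -
        ((Ph J φ c ζ η fun v => star (ww J e u v) ^ (L - n)) - ⟪star u η, φ (star u) c ζ⟫_ℂ)) -
      ∑ n ∈ range L, (α n : ℂ) ^ 2 * ((Ph J φ c ζ η fun v => ww J e u v ^ n) -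
        Ph J φ c ζ η fun v => star (ww J e u v) ^ (L - n)) := by
    rw [← sum_sub_distrib, ← one_mul ⟪star u η, φ (star u) c ζ⟫_ℂ, ← hsq, sum_mul]
    refine sum_congr rfl fun n _ => ?_
    rw [← sum_mul, hsq]
    ring
  have p4 : ‖∑ n ∈ range L, (α n : ℂ) ^ 2 * ((Ph J φ c ζ η fun v => ww J e u v ^ n) -
      ((Ph J φ c ζ η fun v => star (ww J e u v) ^ (L - n)) - ⟪star u η, φ (star u) c ζ⟫_ℂ))‖ ≤
      17 * C * Q * ‖η‖ := by
    refine (norm_sum_le_of_le _ (n := fun n => α n ^ 2 * (17 * C * Q * ‖η‖)) fun n hn => ?_).trans ?_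
    · rw [norm_mul, norm_pow, Complex.norm_real, Real.norm_eq_abs, sq_abs]
      refine mul_le_mul_of_nonneg_left ((norm_sub_le _ _).trans ?_) (sq_nonneg _)
      linarith [p1 n hn, p2 n hn]
    · rw [← sum_mul, hS.sq, one_mul]
  rw [e2]
  refine (norm_sub_le _ _).trans ((add_le_add p4 p3).trans ?_)
  have : 0 ≤ C * Q * ‖η‖ := by positivity
  nlinarith

theorem exists_par {a : ℕ} (hS : Sc a m L α) : ∃ (δ : ℝ) (k₀ : ℕ), ∀ k, k₀ ≤ k → Par a m L k δ := by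
  have hm : (0 : ℝ) < m := Nat.cast_pos.2 hS.m0
  have ha : (1 : ℝ) ≤ a := Nat.one_le_cast.2 (lt_of_lt_of_le hS.m0 hS.ma)
  have hL : (0 : ℝ) < L := Nat.cast_pos.2 hS.L0
  set δ : ℝ := (3 * (a : ℝ) ^ 2 * m ^ 2 * L ^ 3)⁻¹ with hδ
  have hδ0 : 0 < δ := by positivity
  refine ⟨δ, max ⌈(2 ^ L * (4 * L) : ℝ) / δ ^ 2⌉₊ (10 ^ 4 * a * m ^ 2), fun k hk =>
    ⟨hδ0.le, (mul_inv_cancel₀ (by positivity)).le, ?_, (le_max_right _ _).trans hk⟩⟩
  have h1 : (2 ^ L * (4 * L) : ℝ) / δ ^ 2 ≤ k :=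
    (Nat.le_ceil _).trans (Nat.cast_le.2 ((le_max_left _ _).trans hk))
  rw [div_le_iff₀ (by positivity), mul_comm (k : ℝ)] at h1
  refine h1.trans (mul_le_mul_of_nonneg_left ?_ (by positivity))
  exact le_mul_of_one_le_left (Nat.cast_nonneg _) ha

theorem kp (hF : Fac M) (hτ : Tr M τ) (h : CC M φ) (hc : Col M φ C) (hC : 0 ≤ C) :
    KP M φ (10 ^ 8 * C) := by
  classical
  intro κ _ u v hu hv hv1 ζ χ
  set m := Fintype.card κ + 1 with hm
  have hm0 : 0 < m := Nat.succ_pos _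
  have hm1 : (1 : ℝ) ≤ m := Nat.one_le_cast.2 hm0
  have hmi : (0 : ℝ) < (m : ℝ)⁻¹ := by positivity
  obtain ⟨a, L, α, hS, hW⟩ := scal.{u} hm0 hmi
  obtain ⟨δ, k₀, hP⟩ := exists_par hS
  obtain ⟨ι, _, _, e, he, heM, hk, hA⟩ := adapted_ad hF hτ (κ := κ ⊕ κ)
    (z := Sum.elim v fun j => u j * v j)
    (by rintro (j | j); exacts [hv j, mul_mem (hu j).1 (hv j)]) hmi k₀
  have : Nonempty ι := Fintype.card_pos_iff.1 (hτ.card_pos he)
  obtain ⟨β, hβ, hN⟩ := normalise h hc hC he heM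
  obtain ⟨G, hG⟩ := exists_dom hτ hN ζ
  obtain ⟨K, _, _, _, J, N, hJ⟩ := exists_frame (R := M) (.one _) (one_mem M) (Fin a)
  refine ⟨β, fun x hx => (hβ x hx).trans (by gcongr; norm_num), ?_⟩
  have hv2 : ∀ j, ‖v j‖ ≤ 1 := fun j => hv1.norm_le zero_le_one j
  have hsum : ‖∑ j, star (v j) * v j‖ ≤ 1 := by simpa using cl_iff.1 hv1
  have ht : ∀ j, τ (star (v j) * v j) ≤ 1 := fun j => by
    refine (hτ.le_norm (mul_mem (star_mem (hv j)) (hv j)) (star_mul_self_nonneg _)).trans ?_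
    rw [CStarRing.norm_star_mul_self]
    exact mul_le_one₀ (hv2 j) (norm_nonneg _) (hv2 j)
  set t : κ → ℝ := fun j => G (star (v j) * v j) +
    ‖ζ‖ ^ 2 * (τ (star (v j) * v j) + (m : ℝ)⁻¹ + (m : ℝ)⁻¹) with htd
  have ht0 : ∀ j, 0 ≤ t j := fun j => by
    have h1 := hG.pos.pos (v j)
    have h2 := hτ.pos _ (hv j)
    positivity
  have h1 : ∀ j, ‖⟪χ j, (φ - cob β) (u j) (v j) ζ⟫_ℂ‖ ≤ 2 * 10 ^ 6 * (4 * C) * (√(t j) * ‖χ j‖) := by
    intro j
    have e1 : star (u j * v j) * (u j * v j) = star (v j) * v j := by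
      rw [star_mul, mul_assoc, ← mul_assoc (star (u j)), (hu j).2.1, one_mul]
    have a1 := hA (Sum.inl j)
    have a2 := hA (Sum.inr j)
    simp only [Sum.elim_inl, Sum.elim_inr, e1] at a1 a2
    have h2 := hτ.pos _ (hv j)
    have k := est (A := Fin a) hF hτ hJ hN (by rwa [Fintype.card_fin])
      (by rw [Fintype.card_fin]; exact hP _ hk) (by rw [Fintype.card_fin]; exact hW K)
      (Unitary.star_mem (hu j).2) (star_mem (hu j).1) (hv j) (hv2 j) (by positivity)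
      (by linarith [ht j, inv_le_one_of_one_le₀ hm1]) a1 (by rwa [star_star]) hG
      (star (u j) (χ j))
    rw [star_star, ← RM.mapp, (hu j).2.2, one_apply_eq_self] at k
    refine k.trans ?_
    rw [mul_assoc _ (√_)]
    gcongr
    exact RM.app_le (RM.unit_le (Unitary.star_mem (hu j).2)) _
  have h2 : ∑ j, t j ≤ (3 * ‖ζ‖) ^ 2 := by
    have g1 : ∑ j, G (star (v j) * v j) ≤ 3 * ‖ζ‖ ^ 2 := by
      rw [← map_sum]
      exact (le_abs_self _).trans ((hG.pos.le _).trans (mul_le_of_le_one_right (by positivity) hsum))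
    have g2 : ∑ j, τ (star (v j) * v j) ≤ 1 := by
      rw [← map_sum]
      exact (hτ.le_norm (sum_mem fun j _ => mul_mem (star_mem (hv j)) (hv j))
        (sum_nonneg fun j _ => star_mul_self_nonneg _)).trans hsum
    have g3 : (Fintype.card κ : ℝ) * (m : ℝ)⁻¹ ≤ 1 := by
      rw [← div_eq_mul_inv, div_le_one (by positivity)]
      exact_mod_cast Nat.le_succ _
    simp only [htd, sum_add_distrib, ← mul_sum, sum_const, card_univ, nsmul_eq_mul]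
    nlinarith [mul_le_mul_of_nonneg_left g2 (sq_nonneg ‖ζ‖),
      mul_le_mul_of_nonneg_left g3 (sq_nonneg ‖ζ‖), sq_nonneg ‖ζ‖]
  refine (norm_sum_le_of_le _ fun j _ => h1 j).trans ?_
  rw [← mul_sum]
  have h3 := CaseC.cs_sum (fun j => √(t j)) fun j => ‖χ j‖
  simp only [Real.sq_sqrt (ht0 _)] at h3
  have h4 : √(∑ j, t j) ≤ 3 * ‖ζ‖ := Real.sqrt_le_iff.2 ⟨by positivity, h2⟩
  calc _ ≤ 2 * 10 ^ 6 * (4 * C) * (3 * ‖ζ‖ * √(∑ j, ‖χ j‖ ^ 2)) := by
        gcongr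
        exact h3.trans (by gcongr)
    _ ≤ _ := by
        have : 0 ≤ C * ‖ζ‖ * √(∑ j, ‖χ j‖ ^ 2) := by positivity
        nlinarith


end Pool.Agent.Kad.H2
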