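import Pool.Agent.Lib.MP_22c5db_an.H2.Basic

/-! Averaging on the left. -/

open scoped InnerProductSpace ComplexConjugate
open Finset

noncomputable section

namespace Pool.Agent.Kad.H2

universe u

set_option linter.unusedSectionVars false

variable {H : Type u} [NormedAddCommGroup H] [InnerProductSpace ℂ H] [CompleteSpace H]
  {M : VonNeumannAlgebra H} {τ : Op H →ₗ[ℝ] ℝ} {φ : Bil H} {C : ℝ}
  {ι : Type} [Fintype ι] [DecidableEq ι] {e : ι → ι → Op H}

/-- the left average -/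
def bl (φ : Bil H) (e : ι → ι → Op H) : Op H →ₗ[ℂ] Op H :=
  (Fintype.card ι : ℂ)⁻¹ • ∑ s, ∑ t, (LinearMap.mulLeft ℂ (e t s)).comp (φ (e s t))

theorem bl_apply (φ : Bil H) (e : ι → ι → Op H) (x : Op H) :
    bl φ e x = (Fintype.card ι : ℂ)⁻¹ • ∑ s, ∑ t, e t s * φ (e s t) x := by
  simp only [bl, LinearMap.smul_apply, LinearMap.sum_apply, LinearMap.comp_apply,
    LinearMap.mulLeft_apply]

theorem sub_cob_bl [Nonempty ι] (h : CC M φ) (he : MU e 1) (heM : ∀ i j, e i j ∈ M) {x y : Op H}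
    (hx : x ∈ M) (hy : y ∈ M) : (φ - cob (bl φ e)) x y =
      (Fintype.card ι : ℂ)⁻¹ • ∑ s, ∑ t, e t s * φ (e s t * x) y - x * bl φ e y := by
  have hk : (Fintype.card ι : ℂ) ≠ 0 := Nat.cast_ne_zero.2 Fintype.card_ne_zero
  have h1 : ∀ s t, e t s * φ (e s t * x) y =
      e t t * φ x y + e t s * φ (e s t) (x * y) - e t s * φ (e s t) x * y := fun s t => by
    rw [h _ (heM s t) x hx y hy, mul_sub, mul_add, ← mul_assoc, he.mul, if_pos rfl, mul_assoc]
  have h2 : (Fintype.card ι : ℂ)⁻¹ • ∑ _s : ι, ∑ t, e t t * φ x y = φ x y := by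
    rw [← sum_mul, he.sum, one_mul, sum_const, card_univ, ← Nat.cast_smul_eq_nsmul ℂ, smul_smul,
      inv_mul_cancel₀ hk, one_smul]
  simp only [h1, sum_sub_distrib, sum_add_distrib, smul_sub, smul_add, h2]
  rw [LinearMap.sub_apply, LinearMap.sub_apply, cob_apply, bl_apply φ e (x * y), bl_apply φ e x,
    smul_mul_assoc, sum_mul]
  simp only [sum_mul]
  abel

theorem avg_le [Nonempty ι] (he : MU e 1) (w : ι → ι → H) :
    ‖(Fintype.card ι : ℂ)⁻¹ • ∑ s, ∑ t, e t s (w s t)‖ ^ 2 ≤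
      (Fintype.card ι : ℝ)⁻¹ * ∑ s, ∑ t, ‖w s t‖ ^ 2 := by
  rw [MUL.norm_inv_smul, sum_comm, MUL.orth he _ fun a => by simp [map_sum, MUL.app he],
    ← MUL.inv_sq_mul]
  refine mul_le_mul_of_nonneg_left ?_ (by positivity)
  rw [sum_comm, mul_sum]
  refine sum_le_sum fun t _ => ?_
  calc _ ≤ (∑ s, ‖w s t‖) ^ 2 := by
        gcongr
        refine (norm_sum_le _ _).trans (sum_le_sum fun s _ => ?_)
        exact ((e t s).le_of_opNorm_le (he.norm_le t s) _).trans (one_mul _).le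
    _ ≤ _ := by simpa using sq_sum_le_card_mul_sum_sq (s := univ) (f := fun s => ‖w s t‖)

theorem bl_left [Nonempty ι] (h : CC M φ) (he : MU e 1) (heM : ∀ i j, e i j ∈ M) (i j : ι)
    {y : Op H} (hy : y ∈ M) : (φ - cob (bl φ e)) (e i j) y = 0 := by
  rw [sub_cob_bl h he heM (heM i j) hy, bl_apply, mul_smul_comm, mul_sum, ← smul_sub,
    ← sum_sub_distrib]
  refine smul_eq_zero_of_right _ (sum_eq_zero fun s _ => ?_)
  have h1 : ∀ t, e t s * φ (e s t * e i j) y = if t = i then e i s * φ (e s j) y else 0 :=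
    fun t => by
      rw [he.mul]
      split_ifs with ht
      · rw [ht]
      · rw [map_zero, LinearMap.zero_apply, mul_zero]
  have h2 : ∀ t, e i j * (e t s * φ (e s t) y) = if t = j then e i s * φ (e s j) y else 0 :=
    fun t => by
      rw [← mul_assoc, he.mul]
      by_cases ht : t = j
      · rw [if_pos ht, if_pos ht.symm, ht]
      · rw [if_neg ht, if_neg (Ne.symm ht), zero_mul]
  rw [mul_sum]
  simp only [h1, h2, sum_ite_eq', mem_univ, if_true, sub_self]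

/-- the little Grothendieck inequality -/
theorem gt {T : Op H →ₗ[ℂ] H} {b : ℝ} (hT : ∀ a ∈ M, ‖T a‖ ≤ b * ‖a‖) (hb : 0 ≤ b) {κ : Type}
    [Fintype κ] {x : κ → Op H} (hx : ∀ i, x i ∈ M) {s t : ℝ} (h1 : Cl x s)
    (h2 : Cl (fun i => star (x i)) t) : ∑ i, ‖T (x i)‖ ^ 2 ≤ 4 * b ^ 2 * (s ^ 2 + t ^ 2) := by
  let a : κ → Op H := fun i => (2⁻¹ : ℂ) • (x i + star (x i))
  let c : κ → Op H := fun i => (-(Complex.I * 2⁻¹) : ℂ) • (x i - star (x i))
  have hxe : ∀ i, x i = a i + Complex.I • c i := fun i => by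
    simp only [a, c, smul_smul]
    rw [show Complex.I * -(Complex.I * 2⁻¹) = 2⁻¹ by
      rw [mul_neg, ← mul_assoc, Complex.I_mul_I]; ring, ← smul_add]
    rw [show x i + star (x i) + (x i - star (x i)) = (2 : ℂ) • x i by rw [two_smul]; abel, smul_smul]
    norm_num
  have hq : 0 ≤ (s ^ 2 + t ^ 2) / 2 := by positivity
  have k := Groth.sa (R := M) (T := T) (b := b) hT hb (κ := κ ⊕ κ) (x := Sum.elim a c)
    (by
      rintro (i | i)
      · exact smul_mem' _ (add_mem (hx i) (star_mem (hx i)))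
      · exact smul_mem' _ (sub_mem (hx i) (star_mem (hx i))))
    (by
      rintro (i | i)
      · show star (a i) = a i
        simp only [a, star_smul, star_add, star_star]
        rw [add_comm]
        simp
      · show star (c i) = c i
        simp only [c, star_smul, star_sub, star_star]
        rw [← neg_sub (x i), smul_neg, ← neg_smul]
        simp)
    (t := √((s ^ 2 + t ^ 2) / 2)) (Real.sqrt_nonneg _)
    (fun ζ => by
      rw [Real.sq_sqrt hq, Fintype.sum_sum_type, ← sum_add_distrib]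
      have e : ∀ i, ‖Sum.elim a c (Sum.inl i) ζ‖ ^ 2 + ‖Sum.elim a c (Sum.inr i) ζ‖ ^ 2 =
          (‖x i ζ‖ ^ 2 + ‖star (x i) ζ‖ ^ 2) / 2 := fun i => by
        have hp := parallelogram_law_with_norm ℂ (x i ζ) (star (x i) ζ)
        simp only [Sum.elim_inl, Sum.elim_inr, a, c, smul_apply, add_apply, sub_apply, norm_smul,
          norm_neg, norm_mul, Complex.norm_I, norm_inv, Complex.norm_ofNat, one_mul]
        nlinarith
      simp only [e]
      rw [← sum_div, sum_add_distrib]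
      have := h1 ζ
      have := h2 ζ
      linarith)
  rw [Real.sq_sqrt hq, Fintype.sum_sum_type, ← sum_add_distrib] at k
  have e : ∀ i, ‖T (x i)‖ ^ 2 ≤
      2 * (‖T (Sum.elim a c (Sum.inl i))‖ ^ 2 + ‖T (Sum.elim a c (Sum.inr i))‖ ^ 2) := fun i => by
    simp only [Sum.elim_inl, Sum.elim_inr]
    have h3 : ‖T (x i)‖ ≤ ‖T (a i)‖ + ‖T (c i)‖ := by
      have h4 : T (x i) = T (a i) + Complex.I • T (c i) := by
        rw [← map_smul, ← map_add, ← hxe i]
      rw [h4]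
      refine (norm_add_le _ _).trans ?_
      rw [norm_smul, Complex.norm_I, one_mul]
    nlinarith [norm_nonneg (T (x i)), norm_nonneg (T (a i)), norm_nonneg (T (c i)),
      sq_nonneg (‖T (a i)‖ - ‖T (c i)‖)]
  refine (sum_le_sum fun i _ => e i).trans ?_
  rw [← mul_sum]
  linarith

/-- evaluation of the cocycle on fixed data -/
def lfEv (φ : Bil H) (y : Op H) (ζ : H) : Op H →ₗ[ℂ] H where
  toFun a := φ a y ζ
  map_add' a b := by simp
  map_smul' c a := by simp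

theorem lfEv_le (hb : Bd2 M φ C) {y : Op H} (hy : y ∈ M) (ζ : H) :
    ∀ a ∈ M, ‖lfEv φ y ζ a‖ ≤ C * ‖y‖ * ‖ζ‖ * ‖a‖ := fun a ha => by
  show ‖φ a y ζ‖ ≤ _
  refine ((φ a y).le_opNorm ζ).trans ?_
  calc _ ≤ C * ‖a‖ * ‖y‖ * ‖ζ‖ := mul_le_mul_of_nonneg_right (hb a ha y hy) (norm_nonneg _)
    _ = _ := by ring

theorem lf_mink {κ : Type} [Fintype κ] {a b : κ → H} {A B : ℝ} (hA : 0 ≤ A) (hB : 0 ≤ B)
    (ha : ∑ i, ‖a i‖ ^ 2 ≤ A ^ 2) (hb : ∑ i, ‖b i‖ ^ 2 ≤ B ^ 2) :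
    ∑ i, ‖a i - b i‖ ^ 2 ≤ (A + B) ^ 2 := by
  have h1 : ∑ i, ‖a i‖ * ‖b i‖ ≤ A * B := by
    refine (pow_le_pow_iff_left₀ (sum_nonneg fun i _ => by positivity) (by positivity)
      two_ne_zero).1 ((sum_mul_sq_le_sq_mul_sq _ _ _).trans ?_)
    rw [mul_pow]
    exact mul_le_mul ha hb (sum_nonneg fun i _ => by positivity) (by positivity)
  calc _ ≤ ∑ i, (‖a i‖ ^ 2 + 2 * (‖a i‖ * ‖b i‖) + ‖b i‖ ^ 2) := by
        refine sum_le_sum fun i _ => ?_
        calc _ ≤ (‖a i‖ + ‖b i‖) ^ 2 := by gcongr; exact norm_sub_le _ _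
          _ = _ := by ring
    _ ≤ _ := by
        rw [sum_add_distrib, sum_add_distrib, ← mul_sum]
        nlinarith

theorem bl_bd [Nonempty ι] (hb : Bd2 M φ C) (hC : 0 ≤ C) (he : MU e 1) (heM : ∀ i j, e i j ∈ M) :
    Bd M (bl φ e) (3 * C) := by
  intro y hy
  have hk : (0 : ℝ) < Fintype.card ι := by exact_mod_cast Fintype.card_pos
  refine ContinuousLinearMap.opNorm_le_bound _ (by positivity) fun ζ => ?_
  have h1 := avg_le he (fun s t => φ (e s t) y ζ)
  have h2 := gt (lfEv_le hb hy ζ) (by positivity) (κ := ι × ι) (x := fun P => e P.1 P.2)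
    (fun P => heM _ _) (s := √(Fintype.card ι)) (t := √(Fintype.card ι))
    (fun ξ => by
      rw [Real.sq_sqrt hk.le, Fintype.sum_prod_type]
      exact (MUL.sum_sum_sq he ξ).le)
    (fun ξ => by
      rw [Real.sq_sqrt hk.le, Fintype.sum_prod_type_right]
      simp only [he.adj]
      exact (MUL.sum_sum_sq he ξ).le)
  rw [Real.sq_sqrt hk.le, Fintype.sum_prod_type] at h2
  have h3 : bl φ e y ζ = (Fintype.card ι : ℂ)⁻¹ • ∑ s, ∑ t, e t s (φ (e s t) y ζ) := by
    rw [bl_apply]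
    simp only [smul_apply, _root_.sum_apply, mul_apply_eq_comp]
  rw [← h3] at h1
  refine (pow_le_pow_iff_left₀ (norm_nonneg _) (by positivity) two_ne_zero).1 (h1.trans ?_)
  rw [inv_mul_le_iff₀ hk]
  refine le_trans h2 ?_
  have : 0 ≤ (Fintype.card ι : ℝ) * (C * ‖y‖ * ‖ζ‖) ^ 2 := by positivity
  nlinarith

theorem bl_gt [Nonempty ι] (h : CC M φ) (hb : Bd2 M φ C) (hC : 0 ≤ C) (he : MU e 1)
    (heM : ∀ i j, e i j ∈ M) {κ : Type} [Fintype κ] {x : κ → Op H} (hx : ∀ i, x i ∈ M) {t s : ℝ}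
    (ht : 0 ≤ t) (hs : 0 ≤ s) (h1 : Cl x t)
    (h2 : ∑ r, ‖e r r * (∑ i, x i * star (x i)) * e r r‖ ≤ Fintype.card ι * s ^ 2)
    {y : Op H} (hy : y ∈ M) (ζ : H) :
    ∑ i, ‖(φ - cob (bl φ e)) (x i) y ζ‖ ^ 2 ≤ (C * (5 * t + 2 * s) * ‖y‖ * ‖ζ‖) ^ 2 := by
  have hk : (0 : ℝ) < Fintype.card ι := by exact_mod_cast Fintype.card_pos
  have hks : ∀ r : ℝ, (√(Fintype.card ι) * r) ^ 2 = Fintype.card ι * r ^ 2 := fun r => by
    rw [mul_pow, Real.sq_sqrt hk.le]
  set b := C * ‖y‖ * ‖ζ‖ with hbd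
  have hb0 : 0 ≤ b := by positivity
  have row : ∀ (r : ι) (η : H), e r r η = η → ∑ i, ‖star (x i) η‖ ^ 2 ≤
      ‖e r r * (∑ i, x i * star (x i)) * e r r‖ * ‖η‖ ^ 2 := fun r η hη => by
    have e1 : ∑ i, ‖star (x i) η‖ ^ 2 =
        RCLike.re ⟪(e r r * (∑ i, x i * star (x i)) * e r r) η, η⟫_ℂ := by
      rw [mul_apply_eq_comp, mul_apply_eq_comp, MUL.inner_E he, hη, _root_.sum_apply, sum_inner,
        map_sum]
      refine sum_congr rfl fun i _ => ?_
      rw [Groth.norm_sq_eq, star_star]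
    rw [e1]
    refine (re_inner_le_norm _ _).trans ?_
    rw [sq, ← mul_assoc]
    exact mul_le_mul_of_nonneg_right (ContinuousLinearMap.le_opNorm _ _) (norm_nonneg _)
  have k := gt (lfEv_le hb hy ζ) hb0 (κ := κ × ι × ι) (x := fun P => e P.2.1 P.2.2 * x P.1)
    (fun P => mul_mem (heM _ _) (hx _)) (s := √(Fintype.card ι) * t) (t := √(Fintype.card ι) * s)
    (fun ξ => by
      rw [hks, Fintype.sum_prod_type]
      simp only [Fintype.sum_prod_type, mul_apply_eq_comp, MUL.sum_sum_sq he]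
      rw [← mul_sum, mul_assoc]
      exact mul_le_mul_of_nonneg_left (h1 ξ) hk.le)
    (fun ξ => by
      rw [hks, Fintype.sum_prod_type_right, Fintype.sum_prod_type_right]
      simp only [star_mul, he.adj, mul_apply_eq_comp]
      calc _ ≤ ∑ r, ∑ u, ‖e r r * (∑ i, x i * star (x i)) * e r r‖ * ‖e r u ξ‖ ^ 2 :=
            sum_le_sum fun r _ => sum_le_sum fun u _ => row r _ (by rw [MUL.app he, if_pos rfl])
        _ = (∑ r, ‖e r r * (∑ i, x i * star (x i)) * e r r‖) * ‖ξ‖ ^ 2 := by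
            rw [sum_mul]
            exact sum_congr rfl fun r _ => by rw [← mul_sum, he.sum_sq']
        _ ≤ _ := mul_le_mul_of_nonneg_right h2 (sq_nonneg _))
  rw [hks, hks, Fintype.sum_prod_type] at k
  simp only [Fintype.sum_prod_type] at k
  have hA : ∑ i, ‖(Fintype.card ι : ℂ)⁻¹ • ∑ u, ∑ r, e r u (φ (e u r * x i) y ζ)‖ ^ 2 ≤
      (2 * b * (t + s)) ^ 2 := by
    refine (sum_le_sum fun i _ => avg_le he (fun u r => φ (e u r * x i) y ζ)).trans ?_
    rw [← mul_sum, inv_mul_le_iff₀ hk]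
    refine le_trans k ?_
    have : 0 ≤ (Fintype.card ι : ℝ) * (b ^ 2 * (t * s)) := by positivity
    nlinarith
  have hB : ∑ i, ‖x i (bl φ e y ζ)‖ ^ 2 ≤ (t * (3 * b)) ^ 2 := by
    refine (h1 _).trans ?_
    rw [mul_pow]
    refine mul_le_mul_of_nonneg_left (pow_le_pow_left₀ (norm_nonneg _) ?_ 2) (sq_nonneg _)
    refine ((bl φ e y).le_opNorm ζ).trans ?_
    calc _ ≤ 3 * C * ‖y‖ * ‖ζ‖ :=
          mul_le_mul_of_nonneg_right (bl_bd hb hC he heM y hy) (norm_nonneg _)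
      _ = _ := by rw [hbd]; ring
  have hm := lf_mink (by positivity) (by positivity) hA hB
  refine le_trans (le_of_eq (sum_congr rfl fun i _ => ?_)) (hm.trans (le_of_eq ?_))
  · rw [sub_cob_bl h he heM (hx i) hy]
    simp only [sub_apply, smul_apply, _root_.sum_apply, mul_apply_eq_comp]
  · rw [hbd]; ring

theorem bl_col [Nonempty ι] (h : CC M φ) (hc : Col M φ C) (hC : 0 ≤ C) (he : MU e 1)
    (heM : ∀ i j, e i j ∈ M) : Bd M (bl φ e) C ∧ Col M (φ - cob (bl φ e)) (2 * C) := by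
  have hk : (0 : ℝ) < Fintype.card ι := by exact_mod_cast Fintype.card_pos
  have hks : ∀ r : ℝ, (√(Fintype.card ι) * r) ^ 2 = Fintype.card ι * r ^ 2 := fun r => by
    rw [mul_pow, Real.sq_sqrt hk.le]
  have hbd : Bd M (bl φ e) C := by
    intro y hy
    refine ContinuousLinearMap.opNorm_le_bound _ (by positivity) fun ζ => ?_
    have h1 := avg_le he (fun s t => φ (e s t) y ζ)
    have h2 := hc (ι × ι) (fun P => e P.1 P.2) (fun P => heM _ _) (√(Fintype.card ι))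
      (Real.sqrt_nonneg _) (fun ξ => by
        rw [Real.sq_sqrt hk.le, Fintype.sum_prod_type]
        exact (MUL.sum_sum_sq he ξ).le) y hy ζ
    rw [Fintype.sum_prod_type, show C * √(Fintype.card ι) * ‖y‖ * ‖ζ‖ =
      √(Fintype.card ι) * (C * ‖y‖ * ‖ζ‖) by ring, hks] at h2
    have h3 : bl φ e y ζ = (Fintype.card ι : ℂ)⁻¹ • ∑ s, ∑ t, e t s (φ (e s t) y ζ) := by
      rw [bl_apply]
      simp only [smul_apply, _root_.sum_apply, mul_apply_eq_comp]
    rw [← h3] at h1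
    refine (pow_le_pow_iff_left₀ (norm_nonneg _) (by positivity) two_ne_zero).1 (h1.trans ?_)
    rw [inv_mul_le_iff₀ hk]
    exact h2
  refine ⟨hbd, fun κ _ x hx t ht h1 y hy ζ => ?_⟩
  have k := hc (κ × ι × ι) (fun P => e P.2.1 P.2.2 * x P.1) (fun P => mul_mem (heM _ _) (hx _))
    (√(Fintype.card ι) * t) (by positivity) (fun ξ => by
      rw [hks, Fintype.sum_prod_type]
      simp only [Fintype.sum_prod_type, mul_apply_eq_comp, MUL.sum_sum_sq he]
      rw [← mul_sum, mul_assoc]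
      exact mul_le_mul_of_nonneg_left (h1 ξ) hk.le) y hy ζ
  rw [show C * (√(Fintype.card ι) * t) * ‖y‖ * ‖ζ‖ =
      √(Fintype.card ι) * (C * t * ‖y‖ * ‖ζ‖) by ring, hks] at k
  simp only [Fintype.sum_prod_type] at k
  have hA : ∑ i, ‖(Fintype.card ι : ℂ)⁻¹ • ∑ u, ∑ r, e r u (φ (e u r * x i) y ζ)‖ ^ 2 ≤
      (C * t * ‖y‖ * ‖ζ‖) ^ 2 := by
    refine (sum_le_sum fun i _ => avg_le he (fun u r => φ (e u r * x i) y ζ)).trans ?_
    rw [← mul_sum, inv_mul_le_iff₀ hk]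
    exact k
  have hB : ∑ i, ‖x i (bl φ e y ζ)‖ ^ 2 ≤ (t * (C * ‖y‖ * ‖ζ‖)) ^ 2 := by
    refine (h1 _).trans ?_
    rw [mul_pow]
    refine mul_le_mul_of_nonneg_left (pow_le_pow_left₀ (norm_nonneg _) ?_ 2) (sq_nonneg _)
    exact ((bl φ e y).le_opNorm ζ).trans
      (mul_le_mul_of_nonneg_right (hbd y hy) (norm_nonneg _))
  have hm := lf_mink (by positivity) (by positivity) hA hB
  refine le_trans (le_of_eq (sum_congr rfl fun i _ => ?_)) (hm.trans (le_of_eq ?_))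
  · rw [sub_cob_bl h he heM (hx i) hy]
    simp only [sub_apply, smul_apply, _root_.sum_apply, mul_apply_eq_comp]
  · ring


end Pool.Agent.Kad.H2
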