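import Pool.Agent.Lib.MP_22c5db_an.H2.Supp

/-! The fourth moment estimate for one element. -/

open scoped InnerProductSpace ComplexConjugate
open Finset

noncomputable section

namespace Pool.Agent.Kad.H2

universe u

set_option linter.unusedSectionVars false

variable {H : Type u} [NormedAddCommGroup H] [InnerProductSpace ℂ H] [CompleteSpace H]
  {M : VonNeumannAlgebra H} {τ : Op H →ₗ[ℝ] ℝ} {φ : Bil H} {C : ℝ}
  {ι : Type} [Fintype ι] [DecidableEq ι] {e : ι → ι → Op H} {ζ : H} {G : Op H →L[ℝ] ℝ}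

theorem lfour_inner (a b : Op H) (ξ η : H) : ⟪a ξ, b η⟫_ℂ = ⟪ξ, (star a * b) η⟫_ℂ := by
  rw [ContinuousLinearMap.star_eq_adjoint, mul_apply_eq_comp,
    ContinuousLinearMap.adjoint_inner_right]

theorem lfour_le {a b : Op H} (h : ∀ ξ, ‖a ξ‖ ≤ ‖b ξ‖) : star a * a ≤ star b * b := by
  rw [ContinuousLinearMap.le_def, ContinuousLinearMap.isPositive_def']
  refine ⟨(IsSelfAdjoint.star_mul_self b).sub (IsSelfAdjoint.star_mul_self a), fun ξ => ?_⟩
  rw [ContinuousLinearMap.reApplyInnerSelf_apply, ← inner_re_symm, sub_apply,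
    inner_sub_right, ← lfour_inner, ← lfour_inner, map_sub, inner_self_eq_norm_sq,
    inner_self_eq_norm_sq, sub_nonneg]
  exact pow_le_pow_left₀ (norm_nonneg _) (h ξ) 2

theorem lfour_tr (hτ : Tr M τ) {a b : Op H} (ha : a ∈ M) (hb : b ∈ M) {s : ℝ} (hs : 0 ≤ s)
    (h : ∀ ξ, s * ‖a ξ‖ ≤ ‖b ξ‖) : s ^ 2 * τ (star a * a) ≤ τ (star b * b) := by
  have h0 : s • a ∈ M := by
    have : s • a = (s : ℂ) • a := (Complex.coe_smul s a).symm
    rw [this]
    exact M.toStarSubalgebra.smul_mem ha _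
  have h1 := hτ.mono (mul_mem (star_mem h0) h0) (mul_mem (star_mem hb) hb)
    (lfour_le fun ξ => by
      rw [smul_apply, norm_smul, Real.norm_of_nonneg hs]
      exact h ξ)
  rwa [star_smul, star_trivial, smul_mul_smul_comm, map_smul, smul_eq_mul, ← sq] at h1

theorem lfour_proj {p : Op H} (hp : IsStarProjection p) (ξ : H) : ‖p ξ‖ ≤ ‖ξ‖ :=
  (p.le_opNorm ξ).trans (mul_le_of_le_one_left (norm_nonneg _) hp.norm_le)

theorem lfour_cut {b p : Op H} (hp : IsStarProjection p)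
    (h : b * star b * p = p * (b * star b)) (η : H) : ‖star b (p η)‖ ≤ ‖star b η‖ := by
  have h1 : star b η = (star b * p) η + (star b * (1 - p)) η := by
    rw [← add_apply, ← mul_add, add_sub_cancel, mul_one]
  have h2 : ⟪(star b * p) η, (star b * (1 - p)) η⟫_ℂ = 0 := by
    rw [lfour_inner, star_mul, star_star, hp.isSelfAdjoint.star_eq, mul_assoc, ← mul_assoc b,
      ← mul_assoc, ← h, mul_assoc, hp.mul_one_sub_self, mul_zero]
    simp
  have h3 := norm_add_sq_eq_norm_sq_add_norm_sq_of_inner_eq_zero _ _ h2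
  rw [← h1] at h3
  refine le_of_sq_le_sq ?_ (norm_nonneg _)
  change ‖(star b * p) η‖ ^ 2 ≤ _
  nlinarith [mul_self_nonneg ‖(star b * (1 - p)) η‖]

theorem lfour_sa (b : Op H) : star (star b * b) = star b * b := (IsSelfAdjoint.star_mul_self b)

/-- cutting from the left does not increase the second moment -/
theorem lfour_two {c : ℝ} (hG : Pos G c) {p : Op H} (hp : IsStarProjection p) (b : Op H) :
    √(G (star (p * b) * (p * b))) ≤ √(G (star b * b)) := by
  refine Real.sqrt_le_sqrt ((hG.le_of (s := 1) fun ξ => ?_).trans_eq (one_mul _))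
  rw [one_mul]
  exact pow_le_pow_left₀ (norm_nonneg _) (lfour_proj hp _) 2

/-- cutting from the left does not increase the fourth moment -/
theorem lfour_four {c : ℝ} (hG : Pos G c) {p b : Op H} (hp : IsStarProjection p)
    (h : b * star b * p = p * (b * star b)) :
    √(G (star (p * b) * (p * b) * (star (p * b) * (p * b)))) ≤
      √(G (star b * b * (star b * b))) := by
  have h1 := hG.le_of (a := star (p * b) * (p * b)) (b := star b * b) (s := 1) fun ξ => by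
    rw [one_mul, star_mul, hp.isSelfAdjoint.star_eq, mul_assoc, ← mul_assoc p,
      hp.isIdempotentElem.eq]
    exact pow_le_pow_left₀ (norm_nonneg _) (lfour_cut hp h (b ξ)) 2
  rw [lfour_sa, lfour_sa, one_mul] at h1
  exact Real.sqrt_le_sqrt h1

theorem lfour_comm {b r : Op H} (hr : IsStarProjection r) (hrb : r * b = b) :
    r * (b * star b) = b * star b * r := by
  have h1 : star b * r = star b := by
    have := congrArg star hrb
    rwa [star_mul, hr.isSelfAdjoint.star_eq] at this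
  rw [← mul_assoc, hrb, mul_assoc, h1]

/-- the two consequences of being above the level `s` -/
theorem lfour_low (hτ : Tr M τ) (hG : Dom M τ φ e C ζ G) {s : ℝ} {b p : Op H} (hs : 0 < s)
    (hb : b ∈ M) (hpM : p ∈ M) (hp : IsStarProjection p) (hpb : p * b = b)
    (hl : ∀ ξ, s * ‖p ξ‖ ≤ ‖star b (p ξ)‖) :
    √(G (star b * b)) ≤ √(G (star b * b * (star b * b))) / s ∧
      ‖ζ‖ * s * √(τ p) ≤ √(G (star b * b * (star b * b))) / s := by
  have h1 : ∀ ξ, s * ‖b ξ‖ ≤ ‖(star b * b) ξ‖ := fun ξ => by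
    have h2 := hl (b ξ)
    rwa [← mul_apply_eq_comp p b, hpb] at h2
  have h2 : star b * p = star b := by
    have := congrArg star hpb
    rwa [star_mul, hp.isSelfAdjoint.star_eq] at this
  have hP : star b * b ∈ M := mul_mem (star_mem hb) hb
  have h3 := lfour_tr hτ hb hP hs.le h1
  have h4 := lfour_tr hτ hpM (star_mem hb) hs.le fun ξ => by
    have h5 := hl ξ
    rwa [← mul_apply_eq_comp (star b) p, h2] at h5
  have h5 := hG.tr _ hP
  have h6 := hG.pos.le_of (a := b) (b := star b * b) (s := (s ^ 2)⁻¹) fun ξ => by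
    rw [le_inv_mul_iff₀ (by positivity), ← mul_pow]
    exact pow_le_pow_left₀ (by positivity) (h1 ξ) 2
  rw [star_star, hτ.comm _ hb _ (star_mem hb), hp.isSelfAdjoint.star_eq,
    hp.isIdempotentElem.eq] at h4
  rw [lfour_sa] at h3 h5 h6
  have h7 := (hτ.proj hp hpM).1
  constructor
  · rw [le_div_iff₀ hs]
    refine Real.le_sqrt_of_sq_le ?_
    rw [mul_pow, Real.sq_sqrt (hG.pos.pos b), mul_comm]
    exact (le_inv_mul_iff₀ (by positivity)).1 h6
  · rw [le_div_iff₀ hs]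
    refine Real.le_sqrt_of_sq_le (le_trans ?_ h5)
    rw [mul_pow, mul_pow, mul_pow, Real.sq_sqrt h7, mul_assoc, mul_assoc]
    refine mul_le_mul_of_nonneg_left (le_trans ?_ h3) (sq_nonneg _)
    rw [mul_comm (τ p)]
    exact mul_le_mul_of_nonneg_left h4 (sq_nonneg _)

theorem lfour_split {κ : Type} [Fintype κ] (x : κ → Op H) (b p : Op H) :
    √(∑ i, ‖φ (x i) b ζ‖ ^ 2) ≤
      √(∑ i, ‖φ (x i) ((1 - p) * b) ζ‖ ^ 2) + √(∑ i, ‖φ (x i) (p * b) ζ‖ ^ 2) := by
  refine le_trans (le_of_eq ?_) (mink _ _)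
  simp only [← add_apply, ← map_add, ← add_mul, sub_add_cancel, one_mul]

/-- the part below a level -/
theorem lfour_below (hF : Fac M) (hτ : Tr M τ) (h : Nrm M φ e C) (hG : Dom M τ φ e C ζ G)
    {κ : Type} [Fintype κ] {x : κ → Op H} (hx : ∀ l, x l ∈ M) (hx1 : Cl x 1) {b r p : Op H}
    (hb : b ∈ M) (hr : IsStarProjection r) (hrM : r ∈ M) (hrb : r * b = b)
    (hp : IsStarProjection p) (hpM : p ∈ M) (hc : r * p = p * r) {s : ℝ}
    (hs : ‖(1 - p) * b‖ ≤ s) :
    √(∑ i, ‖φ (x i) ((1 - p) * b) ζ‖ ^ 2) ≤ C * (6 * √(G (star b * b)) +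
      4 * ‖ζ‖ * s * (√(τ r) + (√(Fintype.card ι))⁻¹)) := by
  have h1 : r * ((1 - p) * b) = (1 - p) * b := by
    rw [← mul_assoc, mul_sub, mul_one, hc, sub_mul, sub_mul, mul_assoc, hrb, one_mul]
  refine (supp hF hτ h hG hx hx1 (mul_mem (sub_mem (one_mem M) hpM) hb) hr hrM h1).trans ?_
  have h2 := lfour_two hG.pos hp.one_sub b
  have h3 := h.c0
  gcongr

/-- the part above the level `s` -/
theorem upper (hF : Fac M) (hτ : Tr M τ) (h : Nrm M φ e C) (hG : Dom M τ φ e C ζ G) {κ : Type}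
    [Fintype κ] {x : κ → Op H} (hx : ∀ l, x l ∈ M) (hx1 : Cl x 1) (n : ℕ) :
    ∀ (s : ℝ) (b p : Op H), 0 < s → b ∈ M → p ∈ M → IsStarProjection p → p * b = b →
      (∀ ξ, s * ‖p ξ‖ ≤ ‖star b (p ξ)‖) → ‖b‖ ≤ 2 ^ n * s →
      √(∑ i, ‖φ (x i) b ζ‖ ^ 2) ≤ C * (28 * √(G (star b * b * (star b * b))) / s +
        8 * ‖ζ‖ * s * (2 ^ (n + 1) - 1) * (√(Fintype.card ι))⁻¹) := by
  have hC := h.c0
  have hk : (0 : ℝ) ≤ (√(Fintype.card ι))⁻¹ := by positivity
  induction n with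
  | zero =>
    intro s b p hs hb hpM hp hpb hl hn
    obtain ⟨h1, h2⟩ := lfour_low hτ hG hs hb hpM hp hpb hl
    rw [pow_zero, one_mul] at hn
    refine (supp hF hτ h hG hx hx1 hb hp hpM hpb).trans (mul_le_mul_of_nonneg_left ?_ hC)
    have h3 : 4 * ‖ζ‖ * ‖b‖ * (√(τ p) + (√(Fintype.card ι))⁻¹) ≤
        4 * ‖ζ‖ * s * (√(τ p) + (√(Fintype.card ι))⁻¹) := by gcongr
    have h4 : 0 ≤ √(G (star b * b * (star b * b))) / s := by positivity
    have h5 : 0 ≤ ‖ζ‖ * s * (√(Fintype.card ι))⁻¹ := by positivity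
    rw [mul_div_assoc]
    linarith
  | succ n ih =>
    intro s b p hs hb hpM hp hpb hl hn
    obtain ⟨h1, h2⟩ := lfour_low hτ hG hs hb hpM hp hpb hl
    obtain ⟨q, hqM, hq, hc, hs1, hs2⟩ := level hb (show 0 < 2 * s by positivity)
    have h3 := lfour_below hF hτ h hG hx hx1 hb hp hpM hpb hq hqM (hc p (lfour_comm hp hpb)) hs1
    have h4 := ih (2 * s) (q * b) q (by positivity) (mul_mem hqM hb) hqM hq
      (by rw [← mul_assoc, hq.isIdempotentElem.eq])
      (fun ξ => by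
        rw [star_mul, hq.isSelfAdjoint.star_eq, mul_apply_eq_comp,
          ← mul_apply_eq_comp q q, hq.isIdempotentElem.eq]
        exact hs2 ξ)
      (((norm_mul_le _ _).trans (mul_le_of_le_one_left (norm_nonneg _) hq.norm_le)).trans
        (hn.trans_eq (by ring)))
    have h5 : 28 * √(G (star (q * b) * (q * b) * (star (q * b) * (q * b)))) / (2 * s) ≤
        14 * (√(G (star b * b * (star b * b))) / s) := by
      have := lfour_four hG.pos hq (hc _ rfl)
      refine le_trans (by gcongr) (le_of_eq (b := 14 * (√(G (star b * b * (star b * b))) / s))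
        (a := 28 * √(G (star b * b * (star b * b))) / (2 * s)) (by ring))
    refine (lfour_split x b q).trans ((add_le_add h3 h4).trans ?_)
    rw [← mul_add, mul_div_assoc 28 _ s]
    refine mul_le_mul_of_nonneg_left ?_ hC
    have h6 : (2 : ℝ) ^ (n + 1 + 1) = 2 * 2 ^ (n + 1) := by ring
    rw [h6]
    linarith

theorem lfour (hF : Fac M) (hτ : Tr M τ) (h : Nrm M φ e C) (hG : Dom M τ φ e C ζ G) {κ : Type}
    [Fintype κ] {x : κ → Op H} (hx : ∀ l, x l ∈ M) (hx1 : Cl x 1) {b r : Op H} (hb : b ∈ M)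
    (hr : IsStarProjection r) (hrM : r ∈ M) (hrb : r * b = b) {Λ : ℝ} (hΛ : 0 < Λ) :
    ∑ i, ‖φ (x i) b ζ‖ ^ 2 ≤ 4000 * C ^ 2 * (G (star b * b) + G (star b * b * (star b * b)) / Λ +
      ‖ζ‖ ^ 2 * (Λ * τ r + (Λ + ‖b‖ ^ 2) / Fintype.card ι)) := by
  have hC := h.c0
  set s := √Λ with hsd
  have hs : 0 < s := Real.sqrt_pos.2 hΛ
  have hs2 : s ^ 2 = Λ := Real.sq_sqrt hΛ.le
  obtain ⟨n, hn, hn'⟩ : ∃ n : ℕ, ‖b‖ ≤ 2 ^ n * s ∧ 2 ^ n * s ≤ s + 2 * ‖b‖ := by
    rcases le_total ‖b‖ s with h1 | h1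
    · exact ⟨0, by simpa using h1, by simp⟩
    · obtain ⟨n, h2, h3⟩ := exists_nat_pow_near ((one_le_div hs).2 h1) one_lt_two
      rw [le_div_iff₀ hs] at h2
      rw [div_lt_iff₀ hs] at h3
      exact ⟨n + 1, h3.le, by rw [pow_succ]; linarith⟩
  obtain ⟨q, hqM, hq, hc, hs1, hs3⟩ := level hb hs
  have h3 := lfour_below hF hτ h hG hx hx1 hb hr hrM hrb hq hqM (hc r (lfour_comm hr hrb)) hs1
  have h4 := upper hF hτ h hG hx hx1 n s (q * b) q hs (mul_mem hqM hb) hqM hq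
    (by rw [← mul_assoc, hq.isIdempotentElem.eq])
    (fun ξ => by
      rw [star_mul, hq.isSelfAdjoint.star_eq, mul_apply_eq_comp,
        ← mul_apply_eq_comp q q, hq.isIdempotentElem.eq]
      exact hs3 ξ)
    (((norm_mul_le _ _).trans (mul_le_of_le_one_left (norm_nonneg _) hq.norm_le)).trans hn)
  have h5 := lfour_four hG.pos hq (hc _ rfl)
  have hP2 : 0 ≤ G (star b * b * (star b * b)) := by
    have := hG.pos.pos (star b * b)
    rwa [lfour_sa] at this
  set t : ℝ := (√(Fintype.card ι))⁻¹ with ht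
  have ht0 : 0 ≤ t := by positivity
  have ht2 : t ^ 2 = (Fintype.card ι : ℝ)⁻¹ := by
    rw [ht, inv_pow, Real.sq_sqrt (Nat.cast_nonneg _)]
  have h6 : √(∑ i, ‖φ (x i) b ζ‖ ^ 2) ≤ C * (6 * √(G (star b * b)) + 4 * (‖ζ‖ * s * √(τ r)) +
      28 * (√(G (star b * b * (star b * b))) / s) + 12 * (‖ζ‖ * s * t) + 32 * (‖ζ‖ * ‖b‖ * t)) := by
    refine (lfour_split x b q).trans ((add_le_add h3 h4).trans ?_)
    rw [← mul_add]
    refine mul_le_mul_of_nonneg_left ?_ hC
    have h7 : 28 * √(G (star (q * b) * (q * b) * (star (q * b) * (q * b)))) / s ≤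
        28 * √(G (star b * b * (star b * b))) / s := by gcongr
    have h8 := mul_le_mul_of_nonneg_left hn' (mul_nonneg (norm_nonneg ζ) ht0)
    rw [mul_div_assoc 28 (√(G (star b * b * (star b * b))))] at h7
    rw [pow_succ]
    linarith
  have h7 : G (star b * b) + G (star b * b * (star b * b)) / Λ +
      ‖ζ‖ ^ 2 * (Λ * τ r + (Λ + ‖b‖ ^ 2) / Fintype.card ι) =
      √(G (star b * b)) ^ 2 + (‖ζ‖ * s * √(τ r)) ^ 2 +
        (√(G (star b * b * (star b * b))) / s) ^ 2 + (‖ζ‖ * s * t) ^ 2 + (‖ζ‖ * ‖b‖ * t) ^ 2 := by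
    simp only [mul_pow, div_pow]
    rw [Real.sq_sqrt (hG.pos.pos b), Real.sq_sqrt hP2, Real.sq_sqrt (hτ.proj hr hrM).1, hs2, ht2]
    ring
  rw [h7]
  refine ((Real.sqrt_le_iff.1 h6).2).trans ?_
  generalize √(G (star b * b)) = a₁
  generalize ‖ζ‖ * s * √(τ r) = a₂
  generalize √(G (star b * b * (star b * b))) / s = a₃
  generalize ‖ζ‖ * s * t = a₄
  generalize ‖ζ‖ * ‖b‖ * t = a₅
  rw [mul_pow, mul_comm 4000, mul_assoc]
  refine mul_le_mul_of_nonneg_left ?_ (sq_nonneg C)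
  have h8 := sum_mul_sq_le_sq_mul_sq (univ : Finset (Fin 5)) ![(6 : ℝ), 4, 28, 12, 32]
    ![a₁, a₂, a₃, a₄, a₅]
  simp only [Fin.sum_univ_five, Matrix.cons_val] at h8
  have h9 : 0 ≤ a₁ ^ 2 + a₂ ^ 2 + a₃ ^ 2 + a₄ ^ 2 + a₅ ^ 2 := by positivity
  linarith


end Pool.Agent.Kad.H2
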