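import Pool.Agent.Lib.MP_22c5db_an.H2.Left
import Pool.Agent.Lib.MP_22c5db_an.H2.Cut

/-! Every bounded cocycle is cohomologous to a column bounded one. -/

open scoped InnerProductSpace ComplexConjugate
open Finset

noncomputable section

namespace Pool.Agent.Kad.H2

universe u

set_option linter.unusedSectionVars false

variable {H : Type u} [NormedAddCommGroup H] [InnerProductSpace ℂ H] [CompleteSpace H]
  {M : VonNeumannAlgebra H} {τ : Op H →ₗ[ℝ] ℝ} {φ : Bil H} {C : ℝ}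

theorem limit_vec {I : Type*} (𝒰 : Ultrafilter I) (w : I → H) {r : ℝ} (hr : 0 ≤ r)
    (h : ∀ i, ‖w i‖ ≤ r) : ∃ v : H, ‖v‖ ≤ r ∧
      ∀ η, Filter.Tendsto (fun i => ⟪η, w i⟫_ℂ) 𝒰 (nhds ⟪η, v⟫_ℂ) := by
  have h1 : ∀ η : H, ∃ l : ℂ, ‖l‖ ≤ r * ‖η‖ ∧
      Filter.Tendsto (fun i => ⟪w i, η⟫_ℂ) 𝒰 (nhds l) := by
    intro η
    obtain ⟨l, hl1, hl2⟩ := (isCompact_closedBall (0 : ℂ) (r * ‖η‖)).ultrafilter_le_nhds
      (𝒰.map fun i => ⟪w i, η⟫_ℂ) (by
        rw [Filter.le_principal_iff, Ultrafilter.coe_map, Filter.mem_map]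
        refine Filter.univ_mem' fun i => ?_
        simp only [Set.mem_preimage, Metric.mem_closedBall, dist_zero_right]
        exact (norm_inner_le_norm _ _).trans (mul_le_mul_of_nonneg_right (h i) (norm_nonneg _)))
    exact ⟨l, by simpa using hl1, hl2⟩
  choose l hl1 hl2 using h1
  let f : H →ₗ[ℂ] ℂ :=
    { toFun := l
      map_add' := fun a b => tendsto_nhds_unique (hl2 (a + b)) (by
        simpa only [inner_add_right] using (hl2 a).add (hl2 b))
      map_smul' := fun c a => tendsto_nhds_unique (hl2 (c • a)) (by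
        simpa only [inner_smul_right, RingHom.id_apply, smul_eq_mul] using (hl2 a).const_mul c) }
  refine ⟨(InnerProductSpace.toDual ℂ H).symm (f.mkContinuous r hl1), ?_, fun η => ?_⟩
  · rw [LinearIsometryEquiv.norm_map]
    exact f.mkContinuous_norm_le hr hl1
  · have h2 : ⟪η, (InnerProductSpace.toDual ℂ H).symm (f.mkContinuous r hl1)⟫_ℂ = conj (l η) := by
      rw [← inner_conj_symm, InnerProductSpace.toDual_symm_apply]
      rfl
    rw [h2]
    simpa only [inner_conj_symm, Function.comp_def] using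
      (Complex.continuous_conj.tendsto (l η)).comp (hl2 η)

theorem limit_sum_le {I κ : Type*} [Fintype κ] {F : Filter I} [F.NeBot] {w : I → κ → H} {v : κ → H}
    (hw : ∀ l η, Filter.Tendsto (fun i => ⟪η, w i l⟫_ℂ) F (nhds ⟪η, v l⟫_ℂ)) {b : I → ℝ} {b₀ : ℝ}
    (hb : Filter.Tendsto b F (nhds b₀)) (hle : ∀ᶠ i in F, ∑ l, ‖w i l‖ ^ 2 ≤ b i) :
    ∑ l, ‖v l‖ ^ 2 ≤ b₀ := by
  have h1 : Filter.Tendsto (fun i => ∑ l, 2 * (⟪v l, w i l⟫_ℂ).re) F
      (nhds (∑ l, 2 * (⟪v l, v l⟫_ℂ).re)) :=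
    tendsto_finsetSum _ fun l _ =>
      ((Complex.continuous_re.tendsto _).comp (hw l (v l))).const_mul 2
  have h2 : ∑ l, 2 * (⟪v l, v l⟫_ℂ).re = 2 * ∑ l, ‖v l‖ ^ 2 := by
    rw [Finset.mul_sum]
    refine Finset.sum_congr rfl fun l _ => ?_
    have := inner_self_eq_norm_sq (𝕜 := ℂ) (v l)
    rw [← this]
    rfl
  have h3 := le_of_tendsto_of_tendsto h1 (hb.const_add (∑ l, ‖v l‖ ^ 2)) (by
    filter_upwards [hle] with i hi
    refine le_trans ?_ (add_le_add_right hi _)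
    rw [← Finset.sum_add_distrib]
    refine Finset.sum_le_sum fun l _ => ?_
    have h4 : (⟪v l, w i l⟫_ℂ).re ≤ ‖v l‖ * ‖w i l‖ := re_inner_le_norm (𝕜 := ℂ) (v l) (w i l)
    nlinarith [sq_nonneg (‖v l‖ - ‖w i l‖)])
  linarith

/-- weak limits along an ultrafilter -/
theorem wlim {I : Type*} (𝒰 : Ultrafilter I) (β : I → Op H →ₗ[ℂ] Op H) {c : ℝ} (hc : 0 ≤ c)
    (h : ∀ i, Bd M (β i) c) : ∃ β₀ : Op H →ₗ[ℂ] Op H, Bd M β₀ c ∧ ∀ x ∈ M, ∀ ζ η : H,
      Filter.Tendsto (fun i => ⟪η, β i x ζ⟫_ℂ) 𝒰 (nhds ⟪η, β₀ x ζ⟫_ℂ) := by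
  obtain ⟨g, hg⟩ := LinearMap.exists_extend
    (LinearMap.id : M.toStarSubalgebra.toSubalgebra.toSubmodule →ₗ[ℂ] _)
  have hgM : ∀ x, (g x : Op H) ∈ M := fun x => (g x).2
  have hgx : ∀ x ∈ M, (g x : Op H) = x := fun x hx =>
    congrArg Subtype.val (LinearMap.congr_fun hg ⟨x, hx⟩)
  have h1 : ∀ (x : Op H) (ζ : H), ∃ v : H, ‖v‖ ≤ c * ‖(g x : Op H)‖ * ‖ζ‖ ∧
      ∀ η, Filter.Tendsto (fun i => ⟪η, β i (g x) ζ⟫_ℂ) 𝒰 (nhds ⟪η, v⟫_ℂ) := fun x ζ =>
    limit_vec 𝒰 (fun i => β i (g x) ζ) (by positivity) fun i =>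
      ((β i (g x)).le_opNorm ζ).trans
        (mul_le_mul_of_nonneg_right (h i _ (hgM x)) (norm_nonneg _))
  choose v hv1 hv2 using h1
  let f : Op H → H →ₗ[ℂ] H := fun x =>
    { toFun := v x
      map_add' := fun a b => ext_inner_left ℂ fun η => tendsto_nhds_unique (hv2 x (a + b) η) (by
        simpa only [map_add, inner_add_right] using (hv2 x a η).add (hv2 x b η))
      map_smul' := fun c a => ext_inner_left ℂ fun η => tendsto_nhds_unique (hv2 x (c • a) η) (by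
        simpa only [map_smul, inner_smul_right, RingHom.id_apply] using (hv2 x a η).const_mul c) }
  refine ⟨{ toFun := fun x => (f x).mkContinuous _ (hv1 x)
            map_add' := fun a b => ContinuousLinearMap.ext fun ζ => ?_
            map_smul' := fun c a => ContinuousLinearMap.ext fun ζ => ?_ }, fun x hx => ?_,
    fun x hx ζ η => ?_⟩
  · change v (a + b) ζ = v a ζ + v b ζ
    refine ext_inner_left ℂ fun η => tendsto_nhds_unique (hv2 (a + b) ζ η) ?_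
    simpa only [map_add, Submodule.coe_add, ContinuousLinearMap.add_apply, inner_add_right] using
      (hv2 a ζ η).add (hv2 b ζ η)
  · change v (c • a) ζ = c • v a ζ
    refine ext_inner_left ℂ fun η => tendsto_nhds_unique (hv2 (c • a) ζ η) ?_
    simpa only [map_smul, Submodule.coe_smul, ContinuousLinearMap.smul_apply,
      inner_smul_right] using (hv2 a ζ η).const_mul c
  · have := (f x).mkContinuous_norm_le (by positivity) (hv1 x)
    exact this.trans (le_of_eq (by rw [hgx x hx]))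
  · have := hv2 x ζ η
    rw [hgx x hx] at this
    exact this

theorem exists_col (hF : Fac M) (hτ : Tr M τ) (h : CC M φ) (hb : Bd2 M φ C) (hC : 0 ≤ C) :
    ∃ β : Op H →ₗ[ℂ] Op H, Bd M β (3 * C) ∧ Col M (φ - cob β) (7 * C) := by
  classical
  have h1 : ∀ i : Finset (Op H) × ℕ, ∃ β : Op H →ₗ[ℂ] Op H, Bd M β (3 * C) ∧
      ∀ (κ : Type) [Fintype κ] (x : κ → Op H), (∀ l, x l ∈ M) → ∀ t : ℝ, 0 ≤ t → Cl x t →
        ∑ l, x l * star (x l) ∈ i.1 → ∀ y ∈ M, ∀ ζ : H, ∑ l, ‖(φ - cob β) (x l) y ζ‖ ^ 2 ≤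
          (C * (5 * t + 2 * √(t ^ 2 + 1 / ((i.2 : ℝ) + 1))) * ‖y‖ * ‖ζ‖) ^ 2 := by
    rintro ⟨S, n⟩
    obtain ⟨ι, _, _, e, he, heM, hk, hX⟩ := adapted hF hτ
      (X := fun j : Fin S.card => if ((S.equivFin.symm j : S) : Op H) ∈ M ∧
        0 ≤ ((S.equivFin.symm j : S) : Op H) then ((S.equivFin.symm j : S) : Op H) else 0)
      (fun j => by split_ifs with hj; exacts [hj.1, zero_mem M])
      (fun j => by split_ifs with hj; exacts [hj.2, le_rfl])
      (ε := 1 / ((n : ℝ) + 1)) (by positivity) 1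
    have : Nonempty ι := Fintype.card_pos_iff.1 hk
    refine ⟨bl φ e, bl_bd hb hC he heM, fun κ _ x hx t ht hcl hS y hy ζ => ?_⟩
    refine bl_gt h hb hC he heM hx ht (Real.sqrt_nonneg _) hcl ?_ hy ζ
    have m1 : ∑ l, x l * star (x l) ∈ M :=
      sum_mem fun l _ => mul_mem (hx l) (star_mem (hx l))
    have m2 : ∑ l, star (x l) * x l ∈ M :=
      sum_mem fun l _ => mul_mem (star_mem (hx l)) (hx l)
    have p1 : 0 ≤ ∑ l, x l * star (x l) := Finset.sum_nonneg fun l _ => mul_star_self_nonneg _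
    have p2 : 0 ≤ ∑ l, star (x l) * x l := Finset.sum_nonneg fun l _ => star_mul_self_nonneg _
    have h2 := hX (S.equivFin ⟨_, hS⟩)
    simp only [Equiv.symm_apply_apply, m1, p1, and_self, if_true] at h2
    have h3 : τ (∑ l, x l * star (x l)) ≤ t ^ 2 := by
      have : τ (∑ l, x l * star (x l)) = τ (∑ l, star (x l) * x l) := by
        rw [map_sum, map_sum]
        exact Finset.sum_congr rfl fun l _ => hτ.comm _ (hx l) _ (star_mem (hx l))
      rw [this]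
      exact (hτ.le_norm m2 p2).trans (cl_iff.1 hcl)
    rw [Real.sq_sqrt (by positivity)]
    exact h2.trans (mul_le_mul_of_nonneg_left (by linarith) (Nat.cast_nonneg _))
  choose β hβ1 hβ2 using h1
  let 𝒰 : Ultrafilter (Finset (Op H) × ℕ) := Ultrafilter.of Filter.atTop
  have hU : (𝒰 : Filter (Finset (Op H) × ℕ)) ≤ Filter.atTop := Ultrafilter.of_le _
  obtain ⟨β₀, hb0, hlim⟩ := wlim 𝒰 β (by positivity) hβ1
  refine ⟨β₀, hb0, fun κ _ x hx t ht hcl y hy ζ => ?_⟩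
  refine limit_sum_le (F := (𝒰 : Filter (Finset (Op H) × ℕ)))
    (w := fun i l => (φ - cob (β i)) (x l) y ζ)
    (b := fun i => (C * (5 * t + 2 * √(t ^ 2 + 1 / ((i.2 : ℝ) + 1))) * ‖y‖ * ‖ζ‖) ^ 2) ?_ ?_ ?_
  · intro l η
    have e : ∀ γ : Op H →ₗ[ℂ] Op H, ⟪η, (φ - cob γ) (x l) y ζ⟫_ℂ = ⟪η, φ (x l) y ζ⟫_ℂ -
        (⟪star (x l) η, γ y ζ⟫_ℂ - ⟪η, γ (x l * y) ζ⟫_ℂ + ⟪η, γ (x l) (y ζ)⟫_ℂ) := by
      intro γ
      rw [ContinuousLinearMap.star_eq_adjoint, ContinuousLinearMap.adjoint_inner_left]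
      simp only [LinearMap.sub_apply, cob_apply, ContinuousLinearMap.sub_apply,
        ContinuousLinearMap.add_apply, ContinuousLinearMap.mul_apply, inner_sub_right,
        inner_add_right]
    simp only [e]
    exact tendsto_const_nhds.sub (((hlim y hy ζ _).sub (hlim _ (mul_mem (hx l) hy) ζ η)).add
      (hlim _ (hx l) _ η))
  · have t1 : Filter.Tendsto (fun i : Finset (Op H) × ℕ => 1 / ((i.2 : ℝ) + 1)) Filter.atTop
        (nhds 0) := by
      refine tendsto_one_div_add_atTop_nhds_zero_nat.comp ?_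
      rw [← Filter.prod_atTop_atTop_eq]
      exact Filter.tendsto_snd
    have t2 : Continuous fun s : ℝ => (C * (5 * t + 2 * √(t ^ 2 + s)) * ‖y‖ * ‖ζ‖) ^ 2 := by
      fun_prop
    have t3 := (t2.tendsto 0).comp (t1.mono_left hU)
    rw [add_zero, Real.sqrt_sq ht,
      show C * (5 * t + 2 * t) * ‖y‖ * ‖ζ‖ = 7 * C * t * ‖y‖ * ‖ζ‖ by ring] at t3
    exact t3
  · apply hU
    filter_upwards [Filter.eventually_ge_atTop
      (({∑ l, x l * star (x l)}, 0) : Finset (Op H) × ℕ)] with i hi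
    exact hβ2 i κ x hx t ht hcl (hi.1 (Finset.mem_singleton_self _)) y hy ζ


end Pool.Agent.Kad.H2
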