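import Pool.Agent.Lib.MP_22c5db_an.H2.Kp
import Pool.Agent.Lib.MP_22c5db_an.H2.Key
import Pool.Agent.Lib.MP_22c5db_an.H2.Ext
import Pool.Agent.Lib.MP_22c5db_an.H2.Cyc
import Pool.Agent.Lib.MP_22c5db_an.H2.Limit

/-! The second cohomology vanishes. -/

open scoped InnerProductSpace ComplexConjugate
open Finset

noncomputable section

namespace Pool.Agent.Kad.H2

universe u

set_option linter.unusedSectionVars false

variable {H : Type u} [NormedAddCommGroup H] [InnerProductSpace ℂ H] [CompleteSpace H]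
  {M : VonNeumannAlgebra H} {τ : Op H →ₗ[ℝ] ℝ} {φ : Bil H} {C : ℝ}

theorem main (hF : Fac M) (hτ : Tr M τ) (h : CC M φ) (hb : Bd2 M φ C) (hC : 0 ≤ C) (S : Finset H)
    (hS : Dense (Submodule.span ℂ {η : H | ∃ x ∈ M, ∃ ξ ∈ S, η = x ξ} : Set H)) :
    ∃ (ψ : Op H →ₗ[ℂ] Op H) (c : ℝ), Bd M ψ c ∧ ∀ x ∈ M, ∀ y ∈ M, φ x y = cob ψ x y := by
  obtain ⟨β, hβ, hcol⟩ := exists_col hF hτ h hb hC
  have h1 := h.sub_cob β
  have hK := kp hF hτ h1 hcol (by positivity)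
  have h0 : (0 : ℝ) ≤ 10 ^ 8 * (7 * C) := by positivity
  have h2 : ∀ ξ : H, ∃ ψ : Op H →ₗ[ℂ] Op H, Bd M ψ (2 * (2 * (10 ^ 8 * (7 * C)))) ∧
      ∀ x ∈ M, ∀ y ∈ M, ∀ b ∈ M, (φ - cob β) x y (b ξ) = cob ψ x y (b ξ) := by
    intro ξ
    obtain ⟨g, hg, hg'⟩ := ext_one h1 (key h1 hK h0 ξ) (by positivity)
    obtain ⟨ψ, hψ, hψ'⟩ := ext_two g (by positivity) hg
    refine ⟨ψ, hψ, fun x hx y hy b hb => ?_⟩
    rw [hg' x hx y hy b hb, cob_apply, add_apply, sub_apply, RM.mapp, RM.mapp, hψ' y hy b hb,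
      hψ' _ (mul_mem hx hy) b hb, ← RM.mapp y b, hψ' x hx _ (mul_mem hy hb)]
  obtain ⟨ψ, c, hψ, hψ'⟩ := cyc (by positivity) h2 S hS
  refine ⟨β + ψ, 3 * C + c, fun a ha => ?_, fun x hx y hy => ?_⟩
  · rw [LinearMap.add_apply, add_mul]
    exact (norm_add_le _ _).trans (add_le_add (hβ a ha) (hψ a ha))
  · rw [cob_add, LinearMap.add_apply, LinearMap.add_apply, ← hψ' x hx y hy, LinearMap.sub_apply,
      LinearMap.sub_apply, add_sub_cancel]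


end Pool.Agent.Kad.H2
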