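import Pool.Agent.Lib.MP_22c5db_an.H2.Trace

/-! Partitions adapted to positive elements. -/

open scoped InnerProductSpace ComplexConjugate
open Finset

noncomputable section

namespace Pool.Agent.Kad.H2

universe u

set_option linter.unusedSectionVars false

variable {H : Type u} [NormedAddCommGroup H] [InnerProductSpace ℂ H] [CompleteSpace H]
  {M : VonNeumannAlgebra H} {τ : Op H →ₗ[ℝ] ℝ} {φ : Bil H} {C : ℝ}

theorem part_conj {r b : Op H} (hr : IsStarProjection r) (hb : IsSelfAdjoint b)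
    (h : ∀ ζ, 0 ≤ (⟪r ζ, b (r ζ)⟫_ℂ).re) : 0 ≤ r * b * r := by
  have e := hr.isSelfAdjoint.star_eq
  rw [ContinuousLinearMap.nonneg_iff_isPositive, ContinuousLinearMap.isPositive_def']
  refine ⟨by simpa [e] using hb.conjugate r, fun ζ => ?_⟩
  have h1 : ⟪ζ, (r * b * r) ζ⟫_ℂ = ⟪r ζ, b (r ζ)⟫_ℂ := by
    rw [← ContinuousLinearMap.adjoint_inner_right, ← ContinuousLinearMap.star_eq_adjoint, e]; rfl
  rw [ContinuousLinearMap.reApplyInnerSelf_apply, inner_re_symm, h1]
  exact h ζ

theorem part_smul_mem {x : Op H} (hx : x ∈ M) (c : ℝ) : c • x ∈ M :=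
  mem_of_comm fun s hs => by rw [mul_smul_comm, smul_mul_assoc, comm_of_mem hx hs]

theorem part_norm {p q X : Op H} (hq : IsStarProjection q) (h1 : p * q = q) (h2 : q * p = q) :
    ‖q * X * q‖ ≤ ‖p * X * p‖ := by
  have e : q * X * q = q * (p * X * p) * q := by
    rw [← mul_assoc, ← mul_assoc, h2, mul_assoc (q * X), h1]
  have h3 := hq.norm_le
  rw [e]
  calc _ ≤ ‖q‖ * ‖p * X * p‖ * ‖q‖ := norm_mul₃_le
    _ ≤ 1 * ‖p * X * p‖ * 1 := by gcongr
    _ = _ := by ring

theorem part_split {X : Op H} (hX : X ∈ M) (h0 : 0 ≤ X) {c : ℝ} (hc : 0 < c)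
    {p : Op H} (hp : IsStarProjection p) (hpM : p ∈ M) :
    ∃ q ∈ M, IsStarProjection q ∧ p * q = q ∧ q * p = q ∧ c • q ≤ q * X * q ∧
      ‖(p - q) * X * (p - q)‖ ≤ c := by
  have ep := hp.isSelfAdjoint.star_eq
  have pp : p * p = p := hp.isIdempotentElem.eq
  have hXs : IsSelfAdjoint X := IsSelfAdjoint.of_nonneg h0
  have hY : IsSelfAdjoint (p * X * p) := by simpa [ep] using hXs.conjugate p
  have hb : IsSelfAdjoint (p * X * p - c • (1 : Op H)) :=
    hY.sub (IsSelfAdjoint.smul (IsSelfAdjoint.all c) (IsSelfAdjoint.one _))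
  have hbM : p * X * p - c • (1 : Op H) ∈ M :=
    sub_mem (mul_mem (mul_mem hpM hX) hpM) (part_smul_mem (one_mem M) c)
  obtain ⟨q, hq, hcomm, hle, hlt⟩ := exists_spec hb
  have qq : q * q = q := hq.isIdempotentElem.eq
  have hpq : p * q = q * p := hcomm p (by
    rw [mul_sub, sub_mul, mul_smul_comm, smul_mul_assoc, ← mul_assoc, ← mul_assoc, pp,
      mul_assoc (p * X) p p, pp, mul_one, one_mul])
  have hqp : q * p = q := by
    have e1 : q * (q - q * p) = q - q * p := by rw [mul_sub, ← mul_assoc, qq]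
    have e2 : p * (q - q * p) = 0 := by rw [mul_sub, ← mul_assoc, hpq, mul_assoc, pp, sub_self]
    refine (sub_eq_zero.1 (ContinuousLinearMap.ext fun ζ => ?_)).symm
    by_contra hne
    have a1 : q ((q - q * p) ζ) = (q - q * p) ζ := by rw [← mul_apply_eq_comp, e1]
    have a2 : p ((q - q * p) ζ) = 0 := by rw [← mul_apply_eq_comp, e2, zero_apply]
    have a3 := hlt _ a1 hne
    generalize (q - q * p) ζ = η at a2 a3
    rw [sub_apply, mul_apply_eq_comp, a2, map_zero, zero_sub, inner_neg_right, smul_apply,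
      one_apply_eq_self, ← Complex.coe_smul, inner_smul_right, inner_self_eq_norm_sq_to_K,
      Complex.neg_re, Complex.re_ofReal_mul] at a3
    have a4 : (((‖η‖ : ℝ) : ℂ) ^ 2).re = ‖η‖ ^ 2 := by norm_cast
    have a5 : 0 < -(c * ‖η‖ ^ 2) := a4 ▸ a3
    nlinarith [mul_nonneg hc.le (sq_nonneg ‖η‖)]
  have hpq' : p * q = q := hpq.trans hqp
  have hr : IsStarProjection (p - q) := hq.sub_of_mul_eq_left hp hqp
  have key : ∀ r : Op H, IsStarProjection r → p * r = r → r * p = r →
      r * (p * X * p - c • (1 : Op H)) * r = r * X * r - c • r := fun r hr h1 h2 => by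
    rw [mul_sub, sub_mul, mul_smul_comm, smul_mul_assoc, mul_one, hr.isIdempotentElem.eq,
      ← mul_assoc, ← mul_assoc, h2, mul_assoc (r * X), h1]
  refine ⟨q, mem_of_comm fun s hs => hcomm s (comm_of_mem hbM hs), hq, hpq', hqp, ?_, ?_⟩
  · rw [← sub_nonneg, ← key q hq hpq' hqp]
    refine part_conj hq hb fun ζ => ?_
    by_cases hz : q ζ = 0
    · simp [hz]
    · exact (hlt _ (by rw [← mul_apply_eq_comp, qq]) hz).le
  · have a1 := part_conj hr hb.neg fun ζ => by
      rw [neg_apply, inner_neg_right, Complex.neg_re, neg_nonneg]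
      exact hle _ (by rw [← mul_apply_eq_comp, mul_sub, hqp, qq, sub_self, zero_apply])
    rw [mul_neg, neg_mul, key _ hr (by rw [mul_sub, pp, hpq']) (by rw [sub_mul, pp, hqp]),
      neg_sub, sub_nonneg] at a1
    have a2 : 0 ≤ (p - q) * X * (p - q) := by
      simpa [hr.isSelfAdjoint.star_eq] using star_left_conjugate_nonneg h0 (p - q)
    refine (CStarAlgebra.norm_le_norm_of_nonneg_of_le a2 a1).trans ?_
    rw [norm_smul, Real.norm_of_nonneg hc.le]
    exact mul_le_of_le_one_right hc.le hr.norm_le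

theorem part_ind (h : Tr M τ) {X : Op H} (hX : X ∈ M) (h0 : 0 ≤ X) {ε : ℝ} (hε : 0 < ε) (n : ℕ) :
    ∀ p : Op H, IsStarProjection p → p ∈ M → ‖p * X * p‖ ≤ (n + 1) * ε →
    ∃ (T : Type) (_ : Fintype T) (q : T → Op H), (∀ t, IsStarProjection (q t) ∧ q t ∈ M) ∧
      ∑ t, q t = p ∧ ∑ t, τ (q t) * ‖q t * X * q t‖ ≤ τ (p * X * p) + ε * τ p := by
  induction n with
  | zero =>
    intro p hp hpM hn
    refine ⟨Unit, inferInstance, fun _ => p, fun _ => ⟨hp, hpM⟩, by simp, ?_⟩
    have a1 : 0 ≤ τ (p * X * p) := h.nonneg (mul_mem (mul_mem hpM hX) hpM)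
      (by simpa [hp.isSelfAdjoint.star_eq] using star_left_conjugate_nonneg h0 p)
    have a2 := mul_le_mul_of_nonneg_left hn (h.proj hp hpM).1
    simp only [univ_unique, sum_singleton]
    push_cast at a2
    linarith
  | succ n ih =>
    intro p hp hpM hn
    have hc : 0 < ((n : ℝ) + 1) * ε := by positivity
    obtain ⟨q, hqM, hq, h1, h2, h3, h4⟩ := part_split hX h0 hc hp hpM
    have hr : IsStarProjection (p - q) := hq.sub_of_mul_eq_left hp h2
    have hrM : p - q ∈ M := sub_mem hpM hqM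
    obtain ⟨T, _, r, r1, r2, r3⟩ := ih (p - q) hr hrM h4
    refine ⟨Option T, inferInstance, fun o => o.elim q r, ?_, ?_, ?_⟩
    · rintro (_ | t)
      · exact ⟨hq, hqM⟩
      · exact r1 t
    · simp only [Fintype.sum_option, Option.elim_none, Option.elim_some, r2, add_sub_cancel]
    · simp only [Fintype.sum_option, Option.elim_none, Option.elim_some]
      have qq : q * q = q := hq.isIdempotentElem.eq
      have a1 : τ (q * X * (p - q)) = 0 := by
        rw [h.comm _ (mul_mem hqM hX) _ hrM, ← mul_assoc, sub_mul, h1, qq, sub_self, zero_mul,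
          map_zero]
      have a2 : τ ((p - q) * X * q) = 0 := by
        rw [h.comm _ (mul_mem hrM hX) _ hqM, ← mul_assoc, mul_sub, h2, qq, sub_self, zero_mul,
          map_zero]
      have a3 : p * X * p = q * X * q + q * X * (p - q) + (p - q) * X * q +
          (p - q) * X * (p - q) := by noncomm_ring
      have a4 := h.mono (part_smul_mem hqM _) (mul_mem (mul_mem hqM hX) hqM) h3
      have a5 := mul_le_mul_of_nonneg_left ((part_norm (X := X) hq h1 h2).trans hn)
        (h.proj hq hqM).1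
      rw [map_smul, smul_eq_mul] at a4
      rw [map_sub τ p q] at r3
      rw [a3, map_add, map_add, map_add, a1, a2]
      push_cast at a5
      linarith

theorem part_one (h : Tr M τ) {X : Op H} (hX : X ∈ M) (h0 : 0 ≤ X) {ε : ℝ} (hε : 0 < ε)
    {p : Op H} (hp : IsStarProjection p) (hpM : p ∈ M) :
    ∃ (T : Type) (_ : Fintype T) (q : T → Op H), (∀ t, IsStarProjection (q t) ∧ q t ∈ M) ∧
      ∑ t, q t = p ∧ ∑ t, τ (q t) * ‖q t * X * q t‖ ≤ τ (p * X * p) + ε * τ p := by
  obtain ⟨n, hn⟩ := exists_nat_ge (‖p * X * p‖ / ε)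
  refine part_ind h hX h0 hε n p hp hpM ?_
  rw [div_le_iff₀ hε] at hn
  linarith

theorem part (h : Tr M τ) {κ : Type} [Fintype κ] {X : κ → Op H} (hX : ∀ j, X j ∈ M)
    (h0 : ∀ j, 0 ≤ X j) {ε : ℝ} (hε : 0 < ε) :
    ∃ (T : Type) (_ : Fintype T) (q : T → Op H), (∀ t, IsStarProjection (q t) ∧ q t ∈ M) ∧
      ∑ t, q t = 1 ∧ ∀ j, ∑ t, τ (q t) * ‖q t * X j * q t‖ ≤ τ (X j) + ε := by
  classical
  have key : ∀ s : Finset κ, ∃ (T : Type) (_ : Fintype T) (q : T → Op H),
      (∀ t, IsStarProjection (q t) ∧ q t ∈ M) ∧ ∑ t, q t = 1 ∧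
      ∀ j ∈ s, ∑ t, τ (q t) * ‖q t * X j * q t‖ ≤ τ (X j) + ε := by
    intro s
    induction s using Finset.induction_on with
    | empty =>
      exact ⟨Unit, inferInstance, fun _ => 1, fun _ => ⟨IsStarProjection.one _, one_mem M⟩,
        by simp, by simp⟩
    | insert i s _ ih =>
      obtain ⟨T, _, q, q1, q2, q3⟩ := ih
      choose U hU r r1 r2 r3 using fun t => part_one h (hX i) (h0 i) hε (q1 t).1 (q1 t).2
      refine ⟨Σ t, U t, inferInstance, fun x => r x.1 x.2, fun x => r1 x.1 x.2, ?_, fun j hj => ?_⟩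
      · simp only [Fintype.sum_sigma, r2, q2]
      rw [Fintype.sum_sigma]
      rcases mem_insert.1 hj with rfl | hj
      · refine (sum_le_sum fun t _ => r3 t).trans (le_of_eq ?_)
        have e : ∀ t, τ (q t * X j * q t) = τ (q t * X j) := fun t => by
          rw [h.comm _ (mul_mem (q1 t).2 (hX j)) _ (q1 t).2, ← mul_assoc,
            (q1 t).1.isIdempotentElem.eq]
        simp only [e]
        rw [sum_add_distrib, ← mul_sum, ← map_sum, ← map_sum, ← sum_mul, q2, one_mul, h.one,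
          mul_one]
      · refine le_trans (sum_le_sum fun t _ => ?_) (q3 j hj)
        have e : τ (q t) = ∑ u, τ (r t u) := by rw [← map_sum, r2]
        rw [e, sum_mul]
        refine sum_le_sum fun u _ => mul_le_mul_of_nonneg_left ?_ (h.proj (r1 t u).1 (r1 t u).2).1
        have a1 := (proj_sum (fun u => (r1 t u).1) (q1 t).1 (r2 t)).1 u
        have a2 := congrArg star a1
        rw [star_mul, (r1 t u).1.isSelfAdjoint.star_eq, (q1 t).1.isSelfAdjoint.star_eq] at a2
        exact part_norm (r1 t u).1 a1 a2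
  obtain ⟨T, i, q, q1, q2, q3⟩ := key univ
  exact ⟨T, i, q, q1, q2, fun j => q3 j (mem_univ j)⟩


end Pool.Agent.Kad.H2
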