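import Pool.Agent.Lib.MP_22c5db_an.H2.Defs

/-! The best shift. -/

open scoped InnerProductSpace ComplexConjugate
open Finset

noncomputable section

namespace Pool.Agent.Kad.H2

universe u

set_option linter.unusedSectionVars false

theorem scalA_shift {T : ℕ} {g : ℕ → ℝ} (hg : ∀ t, g (t + T) = g t) (n : ℕ) :
    ∑ t ∈ range T, g (n + t) = ∑ t ∈ range T, g t := by
  induction n with
  | zero => simp
  | succ n ih =>
    have h1 := sum_range_succ' (fun t => g (n + t)) T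
    have h2 := sum_range_succ (fun t => g (n + t)) T
    rw [hg] at h2
    have h3 : ∑ t ∈ range T, g (n + 1 + t) = ∑ t ∈ range T, g (n + (t + 1)) :=
      sum_congr rfl fun t _ => by rw [add_assoc, add_comm 1 t]
    rw [h3, ← ih]
    simp only [add_zero] at h1
    linarith

theorem scalA_per {J L : ℕ} (hJ : 0 < J) (hL : 0 < L) (t : ℕ) :
    sf J L (t + 16 * J * L) = sf J L t := by
  have hJ' : (J : ℂ) ≠ 0 := Nat.cast_ne_zero.mpr hJ.ne'
  have hL' : (L : ℂ) ≠ 0 := Nat.cast_ne_zero.mpr hL.ne'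
  unfold sf
  congr 2
  refine sum_congr rfl fun j _ => ?_
  have e : 2 * Real.pi * Complex.I / (16 * J * L) * j * ((t + 16 * J * L : ℕ) : ℂ)
      = 2 * Real.pi * Complex.I / (16 * J * L) * j * t + j * (2 * Real.pi * Complex.I) := by
    push_cast
    field_simp
  rw [e, Complex.exp_add, Complex.exp_nat_mul_two_pi_mul_I, mul_one]

theorem scalA_orth {T j k : ℕ} {ω : ℂ} (hω : IsPrimitiveRoot ω T) (hj : j < T) (hk : k < T) :
    ∑ t ∈ range T, (ω ^ j) ^ t * conj ((ω ^ k) ^ t) = if j = k then (T : ℂ) else 0 := by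
  have hT : T ≠ 0 := by omega
  have h0 : ω ≠ 0 := hω.ne_zero hT
  have hc : conj ω = ω⁻¹ := (Complex.inv_eq_conj (hω.norm'_eq_one hT)).symm
  have e : ∀ t : ℕ, (ω ^ j) ^ t * conj ((ω ^ k) ^ t) = (ω ^ j * (ω ^ k)⁻¹) ^ t := by
    intro t
    rw [map_pow, map_pow, hc, mul_pow, inv_pow]
  simp only [e]
  split_ifs with h
  · subst h
    simp [mul_inv_cancel₀ (pow_ne_zero j h0)]
  · have h1 : ω ^ j * (ω ^ k)⁻¹ ≠ 1 := fun h1 =>
      h (hω.pow_inj hj hk ((mul_inv_eq_one₀ (pow_ne_zero k h0)).mp h1))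
    have h2 : (ω ^ j * (ω ^ k)⁻¹) ^ T = 1 := by
      rw [mul_pow, inv_pow, ← pow_mul, ← pow_mul, mul_comm j, mul_comm k, pow_mul, pow_mul,
        hω.pow_eq_one]
      simp
    rw [geom_sum_eq h1, h2, sub_self, zero_div]

theorem sf_sum {J L : ℕ} (hJ : 0 < J) (hL : 0 < L) (n : ℕ) :
    ∑ t ∈ range (16 * J * L), sf J L (n + t) = 16 * J * L ^ 2 := by
  rw [scalA_shift (scalA_per hJ hL)]
  have hT : 16 * J * L ≠ 0 := by positivity
  have hLT : L ≤ 16 * J * L := Nat.le_mul_of_pos_left L (by positivity)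
  have hω := Complex.isPrimitiveRoot_exp (16 * J * L) hT
  obtain ⟨ω, hωe⟩ : ∃ ω, ω = Complex.exp (2 * Real.pi * Complex.I / ((16 * J * L : ℕ) : ℂ)) :=
    ⟨_, rfl⟩
  rw [← hωe] at hω
  have e : ∀ j t : ℕ, Complex.exp (2 * Real.pi * Complex.I / (16 * J * L) * j * t)
      = (ω ^ j) ^ t := by
    intro j t
    rw [hωe, ← Complex.exp_nat_mul, ← Complex.exp_nat_mul]
    congr 1
    push_cast
    ring
  have key : ((∑ t ∈ range (16 * J * L), sf J L t : ℝ) : ℂ) = 16 * J * L ^ 2 := by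
    have e1 : ∀ t : ℕ, ((sf J L t : ℝ) : ℂ)
        = ∑ j ∈ range L, ∑ k ∈ range L, (ω ^ j) ^ t * conj ((ω ^ k) ^ t) := by
      intro t
      unfold sf
      simp only [e]
      rw [← sum_mul_sum, ← map_sum, Complex.mul_conj']
      push_cast
      rfl
    rw [Complex.ofReal_sum]
    simp only [e1]
    rw [sum_comm]
    have e2 : ∀ j ∈ range L, ∑ t ∈ range (16 * J * L), ∑ k ∈ range L,
        (ω ^ j) ^ t * conj ((ω ^ k) ^ t) = ((16 * J * L : ℕ) : ℂ) := by
      intro j hj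
      rw [sum_comm, sum_congr rfl fun k hk => scalA_orth hω
        (lt_of_lt_of_le (mem_range.mp hj) hLT) (lt_of_lt_of_le (mem_range.mp hk) hLT),
        sum_ite_eq, if_pos hj]
    rw [sum_congr rfl e2, sum_const, card_range, nsmul_eq_mul]
    push_cast
    ring
  exact_mod_cast key

theorem sf_lower {J L t : ℕ} (hJ : 0 < J) (hL : 0 < L) (ht : t ≤ 2 * J) :
    (L : ℝ) ^ 2 / 4 ≤ sf J L t := by
  have hJ' : (0 : ℝ) < J := Nat.cast_pos.mpr hJ
  have hL' : (0 : ℝ) < L := Nat.cast_pos.mpr hL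
  have hπ := Real.pi_pos
  have h1 : ∀ j ∈ range L, (1 / 2 : ℝ) ≤
      (Complex.exp (2 * Real.pi * Complex.I / (16 * J * L) * j * t)).re := by
    intro j hj
    have e : 2 * Real.pi * Complex.I / (16 * J * L) * j * t
        = ((2 * Real.pi / (16 * J * L) * j * t : ℝ) : ℂ) * Complex.I := by
      push_cast
      ring
    rw [e, Complex.exp_ofReal_mul_I_re, ← Real.cos_pi_div_three]
    refine Real.cos_le_cos_of_nonneg_of_le_pi (by positivity) (by linarith) ?_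
    have hj' : (j : ℝ) ≤ L := Nat.cast_le.mpr (mem_range.mp hj).le
    have ht' : (t : ℝ) ≤ 2 * J := by exact_mod_cast ht
    calc 2 * Real.pi / (16 * J * L) * j * t ≤ 2 * Real.pi / (16 * J * L) * L * (2 * J) := by gcongr
      _ = Real.pi / 4 := by
        field_simp
        ring
      _ ≤ _ := by linarith
  have h2 := card_nsmul_le_sum _ _ _ h1
  rw [card_range, nsmul_eq_mul, ← Complex.re_sum] at h2
  have h3 := h2.trans (Complex.re_le_norm _)
  unfold sf
  calc (L : ℝ) ^ 2 / 4 = (L * (1 / 2)) ^ 2 := by ring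
    _ ≤ _ := pow_le_pow_left₀ (by positivity) h3 2

theorem sf_per {J L : ℕ} (hJ : 0 < J) (hL : 0 < L) (t : ℕ) :
    sf J L (t + 16 * J * L) = sf J L t := by
  exact scalA_per hJ hL t

theorem scalA_sq {J L : ℕ} (hJ : 0 < J) (hL : 0 < L) (n : ℕ) :
    (J : ℝ) * L ^ 4 / 8 ≤ ∑ t ∈ range (16 * J * L), sf J L (n + t) ^ 2 := by
  rw [scalA_shift (g := fun t => sf J L t ^ 2) (fun t => by rw [sf_per hJ hL])]
  have hsub : range (2 * J) ⊆ range (16 * J * L) := range_mono (by nlinarith)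
  refine le_trans ?_ (sum_le_sum_of_subset_of_nonneg hsub fun _ _ _ => sq_nonneg _)
  have h := card_nsmul_le_sum (range (2 * J)) (fun t => sf J L t ^ 2) (((L : ℝ) ^ 2 / 4) ^ 2)
    fun t ht => pow_le_pow_left₀ (by positivity) (sf_lower hJ hL (mem_range.mp ht).le) 2
  rw [card_range, nsmul_eq_mul] at h
  refine le_trans (le_of_eq ?_) h
  push_cast
  ring

theorem best_shift {J L : ℕ} (hJ : 0 < J) (hL : 0 < L) (κ : ℕ → ℝ) : ∃ n₀ : ℕ,
    (L : ℝ) ^ 2 / 256 * ∑ n ∈ range L, κ n ^ 2 * sf J L (n + n₀) +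
      (L : ℝ) ^ 3 / 256 * ∑ n ∈ range L, κ n ^ 2 ≤
        ∑ n ∈ range L, (κ n * sf J L (n + n₀)) ^ 2 ∧
      ∑ n ∈ range L, sf J L (n + n₀) ≤ 16 * J * L ^ 2 := by
  have hLT : L ≤ 16 * J * L := Nat.le_mul_of_pos_left L (by positivity)
  have hne : (range (16 * J * L)).Nonempty := ⟨0, mem_range.mpr (by positivity)⟩
  obtain ⟨n₀, -, h⟩ := exists_le_of_sum_le hne
    (f := fun n₀ => (L : ℝ) ^ 2 / 256 * ∑ n ∈ range L, κ n ^ 2 * sf J L (n + n₀) +
      (L : ℝ) ^ 3 / 256 * ∑ n ∈ range L, κ n ^ 2)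
    (g := fun n₀ => ∑ n ∈ range L, (κ n * sf J L (n + n₀)) ^ 2) (by
      rw [sum_add_distrib, ← mul_sum, sum_comm, sum_comm (s := range (16 * J * L)), sum_const,
        card_range, nsmul_eq_mul]
      simp only [← mul_sum, mul_pow, sf_sum hJ hL]
      have h1 : ∑ n ∈ range L, κ n ^ 2 * ((J : ℝ) * L ^ 4 / 8) ≤ ∑ n ∈ range L,
          κ n ^ 2 * ∑ t ∈ range (16 * J * L), sf J L (n + t) ^ 2 :=
        sum_le_sum fun n _ => mul_le_mul_of_nonneg_left (scalA_sq hJ hL n) (sq_nonneg _)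
      refine le_trans (le_of_eq ?_) h1
      rw [← sum_mul, ← sum_mul]
      push_cast
      ring)
  refine ⟨n₀, h, ?_⟩
  rw [← sf_sum hJ hL n₀]
  simp only [add_comm n₀]
  exact sum_le_sum_of_subset_of_nonneg (range_mono hLT) fun _ _ _ => sq_nonneg _

end Pool.Agent.Kad.H2
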