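import Pool.Agent.Lib.MP_22c5db_an.H2.Trace

/-! Elements with a left support of small trace. -/

open scoped InnerProductSpace ComplexConjugate
open Finset

noncomputable section

namespace Pool.Agent.Kad.H2

universe u

set_option linter.unusedSectionVars false

variable {H : Type u} [NormedAddCommGroup H] [InnerProductSpace ℂ H] [CompleteSpace H]
  {M : VonNeumannAlgebra H} {τ : Op H →ₗ[ℝ] ℝ} {φ : Bil H} {C : ℝ}
  {ι : Type} [Fintype ι] [DecidableEq ι] {e : ι → ι → Op H} {ζ : H} {G : Op H →L[ℝ] ℝ}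

theorem supp_mink {κ : Type} [Fintype κ] (a b : κ → H) :
    √(∑ i, ‖a i + b i‖ ^ 2) ≤ √(∑ i, ‖a i‖ ^ 2) + √(∑ i, ‖b i‖ ^ 2) := by
  have h := norm_add_le (WithLp.toLp 2 a : PiLp 2 fun _ : κ => H) (WithLp.toLp 2 b)
  simpa only [PiLp.norm_eq_of_L2, PiLp.add_apply] using h

theorem supp_flat (hG : Dom M τ φ e C ζ G) (hC : 0 ≤ C) {κ : Type} [Fintype κ] {x : κ → Op H}
    (hx : ∀ l, x l ∈ M) (hx1 : Cl x 1) {F : Finset ι} {b : Op H} (hb : b ∈ M)
    (hFb : pF e F * b = b) {r : ℝ} (hr0 : 0 ≤ r) (hr : (F.card : ℝ) / Fintype.card ι ≤ r ^ 2) :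
    √(∑ i, ‖φ (x i) b ζ‖ ^ 2) ≤ C * (5 / 2 * √(G (star b * b)) + 2 * ‖ζ‖ * ‖b‖ * r) := by
  have h1 := hG.flat κ x hx hx1 F b hb hFb
  have h2 := hG.pos.pos b
  have h3 := Real.sq_sqrt h2
  have h4 := Real.sqrt_nonneg (G (star b * b))
  have h5 : 0 ≤ 2 * ‖ζ‖ * ‖b‖ * r := by positivity
  refine Real.sqrt_le_iff.2 ⟨by positivity, h1.trans ?_⟩
  rw [mul_pow]
  refine mul_le_mul_of_nonneg_left ?_ (sq_nonneg C)
  have h6 : 4 * ‖ζ‖ ^ 2 * ‖b‖ ^ 2 * ((F.card : ℝ) / Fintype.card ι) ≤ (2 * ‖ζ‖ * ‖b‖ * r) ^ 2 := by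
    calc _ ≤ 4 * ‖ζ‖ ^ 2 * ‖b‖ ^ 2 * r ^ 2 := mul_le_mul_of_nonneg_left hr (by positivity)
      _ = _ := by ring
  nlinarith [mul_nonneg h4 h5]

theorem supp (hF : Fac M) (hτ : Tr M τ) (h : Nrm M φ e C) (hG : Dom M τ φ e C ζ G) {κ : Type}
    [Fintype κ] {x : κ → Op H} (hx : ∀ l, x l ∈ M) (hx1 : Cl x 1) {b l : Op H} (hb : b ∈ M)
    (hl : IsStarProjection l) (hlM : l ∈ M) (hlb : l * b = b) :
    √(∑ i, ‖φ (x i) b ζ‖ ^ 2) ≤ C * (6 * √(G (star b * b)) +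
      4 * ‖ζ‖ * ‖b‖ * (√(τ l) + (√(Fintype.card ι))⁻¹)) := by
  obtain ⟨F, t, htM, htt, hFt, hcard⟩ := cmp_pF hF hτ h.mu h.mem hl hlM
  have hmM : star t ∈ M := star_mem htM
  have hb'M : t * b ∈ M := mul_mem htM hb
  have hmb : star t * (t * b) = b := by rw [← mul_assoc, htt, hlb]
  have hbb : star (t * b) * (t * b) = star b * b := by rw [star_mul, mul_assoc, hmb]
  have hnb : ‖t * b‖ = ‖b‖ := by
    have h1 : ‖t * b‖ * ‖t * b‖ = ‖b‖ * ‖b‖ := by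
      rw [← CStarRing.norm_star_mul_self, hbb, CStarRing.norm_star_mul_self]
    exact (mul_self_inj_of_nonneg (norm_nonneg _) (norm_nonneg _)).1 h1
  have hm1 : ‖star t‖ ≤ 1 := by
    rw [norm_star]
    have h1 : ‖t‖ * ‖t‖ ≤ 1 := by
      rw [← CStarRing.norm_star_mul_self, htt]
      exact hl.norm_le
    nlinarith [norm_nonneg t]
  have hFb : pF e F * (t * b) = t * b := by rw [← mul_assoc, hFt]
  have hτ0 : 0 ≤ τ l := (hτ.proj hl hlM).1
  set r : ℝ := √(τ l) + (√(Fintype.card ι))⁻¹ with hrdef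
  have hr0 : 0 ≤ r := by positivity
  have hr : (F.card : ℝ) / Fintype.card ι ≤ r ^ 2 := by
    refine hcard.trans ?_
    have h1 := Real.sq_sqrt hτ0
    have h2 : ((√(Fintype.card ι : ℝ))⁻¹) ^ 2 = (Fintype.card ι : ℝ)⁻¹ := by
      rw [inv_pow, Real.sq_sqrt (Nat.cast_nonneg _)]
    have h3 : 0 ≤ √(τ l) * (√(Fintype.card ι : ℝ))⁻¹ := by positivity
    rw [hrdef]
    nlinarith
  have cl_mono : ∀ {κ' : Type} [Fintype κ'] {y : κ' → Op H} {s : ℝ}, 0 ≤ s → s ≤ 1 → Cl y s →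
      Cl y 1 := by
    intro κ' _ y s hs0 hs1 hy ξ
    refine (hy ξ).trans (mul_le_mul_of_nonneg_right ?_ (sq_nonneg _))
    exact pow_le_pow_left₀ hs0 hs1 2
  have t1 := supp_flat hG h.c0 (x := fun i => x i * star t) (fun i => mul_mem (hx i) hmM)
    (cl_mono (by positivity) (by rw [one_mul]; exact hm1) (hx1.mul (star t))) hb'M hFb hr0 hr
  have t2 := supp_flat hG h.c0 (x := fun _ : Unit => star t) (fun _ => hmM)
    (cl_mono (norm_nonneg _) hm1 (cl_one (star t))) hb'M hFb hr0 hr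
  rw [hbb, hnb] at t1 t2
  have t2' : √(∑ i, ‖-(x i (φ (star t) (t * b) ζ))‖ ^ 2) ≤
      √(∑ _i : Unit, ‖φ (star t) (t * b) ζ‖ ^ 2) := by
    refine Real.sqrt_le_sqrt ?_
    have h1 := hx1 (φ (star t) (t * b) ζ)
    simpa using h1
  have t3 : √(∑ i, ‖φ (x i) (star t) ((t * b) ζ)‖ ^ 2) ≤ C * √(G (star b * b)) := by
    have h1 := h.col κ x hx 1 zero_le_one hx1 (star t) hmM ((t * b) ζ)
    have h2 := hG.vec (t * b)
    rw [hbb] at h2
    have h3 : ‖(t * b) ζ‖ ≤ √(G (star b * b)) := Real.le_sqrt_of_sq_le h2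
    have hC := h.c0
    refine Real.sqrt_le_iff.2 ⟨by positivity, h1.trans ?_⟩
    refine pow_le_pow_left₀ (by positivity) ?_ 2
    calc C * 1 * ‖star t‖ * ‖(t * b) ζ‖ ≤ C * 1 * 1 * √(G (star b * b)) := by gcongr
      _ = _ := by ring
  have e1 : ∀ i, φ (x i) b ζ = (φ (x i * star t) (t * b) ζ + -(x i (φ (star t) (t * b) ζ))) +
      φ (x i) (star t) ((t * b) ζ) := by
    intro i
    rw [h.cc (x i) (hx i) (star t) hmM (t * b) hb'M, hmb]
    simp only [sub_apply, add_apply,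
      mul_apply_eq_comp]
    abel
  simp only [e1]
  refine (supp_mink _ _).trans ?_
  have t4 := supp_mink (fun i => φ (x i * star t) (t * b) ζ)
    (fun i => -(x i (φ (star t) (t * b) ζ)))
  calc _ ≤ (C * (5 / 2 * √(G (star b * b)) + 2 * ‖ζ‖ * ‖b‖ * r) +
        C * (5 / 2 * √(G (star b * b)) + 2 * ‖ζ‖ * ‖b‖ * r)) + C * √(G (star b * b)) :=
        add_le_add (t4.trans (add_le_add t1 (t2'.trans t2))) t3
    _ = _ := by ring

theorem supp_form (b : Op H) (s : ℝ) (ξ : H) :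
    (⟪ξ, (b * star b - ((s ^ 2 : ℝ) : ℂ) • (1 : Op H)) ξ⟫_ℂ).re =
      ‖star b ξ‖ ^ 2 - s ^ 2 * ‖ξ‖ ^ 2 := by
  have h1 : ⟪ξ, b (star b ξ)⟫_ℂ = ⟪star b ξ, star b ξ⟫_ℂ := by
    rw [ContinuousLinearMap.star_eq_adjoint, ContinuousLinearMap.adjoint_inner_left]
  simp only [sub_apply, mul_apply_eq_comp,
    smul_apply, one_apply_eq_self, inner_sub_right,
    inner_smul_right, h1, inner_self_eq_norm_sq_to_K, Complex.sub_re]
  rw [Complex.re_ofReal_mul]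
  norm_cast

/-- splitting at a level -/
theorem level {b : Op H} (hb : b ∈ M) {s : ℝ} (hs : 0 < s) :
    ∃ p ∈ M, IsStarProjection p ∧ (∀ t : Op H, t * (b * star b) = b * star b * t → t * p = p * t) ∧
      ‖(1 - p) * b‖ ≤ s ∧ ∀ ξ, s * ‖p ξ‖ ≤ ‖star b (p ξ)‖ := by
  have hsa : IsSelfAdjoint (b * star b - ((s ^ 2 : ℝ) : ℂ) • (1 : Op H)) := by
    refine (IsSelfAdjoint.mul_star_self b).sub ?_
    rw [IsSelfAdjoint, star_smul, star_one, Complex.star_def, Complex.conj_ofReal]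
  obtain ⟨q, hq, h1, h2, h3⟩ := exists_spec hsa
  have hc : ∀ t : Op H, t * (b * star b) = b * star b * t → t * q = q * t := by
    intro t ht
    refine h1 t ?_
    rw [mul_sub, sub_mul, ht, mul_smul_comm, smul_mul_assoc, mul_one, one_mul]
  have hqq : ∀ ξ, q (q ξ) = q ξ := fun ξ => by
    rw [← mul_apply_eq_comp, hq.isIdempotentElem.eq]
  refine ⟨q, mem_of_comm fun t ht => hc t (comm_of_mem (mul_mem hb (star_mem hb)) ht), hq, hc,
    ?_, fun ξ => ?_⟩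
  · rw [← norm_star, star_mul, hq.one_sub.isSelfAdjoint.star_eq]
    refine ContinuousLinearMap.opNorm_le_bound _ hs.le fun ξ => ?_
    have h4 : q ((1 - q) ξ) = 0 := by
      simp only [sub_apply, one_apply_eq_self, map_sub, hqq,
        sub_self]
    have h5 := h2 _ h4
    rw [supp_form] at h5
    have h6 : ‖(1 - q) ξ‖ ≤ ‖ξ‖ := by
      refine ((1 - q).le_opNorm ξ).trans ?_
      exact mul_le_of_le_one_left (norm_nonneg _) hq.one_sub.norm_le
    rw [mul_apply_eq_comp]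
    refine le_trans ?_ (mul_le_mul_of_nonneg_left h6 hs.le)
    refine (sq_le_sq₀ (norm_nonneg _) (by positivity)).1 ?_
    rw [mul_pow]
    linarith
  · by_cases h0 : q ξ = 0
    · rw [h0]
      simp
    · have h5 := h3 _ (hqq ξ) h0
      rw [supp_form] at h5
      refine (sq_le_sq₀ (by positivity) (norm_nonneg _)).1 ?_
      rw [mul_pow]
      linarith

/-- Minkowski for columns of vectors -/
theorem mink {κ : Type} [Fintype κ] (a b : κ → H) :
    √(∑ i, ‖a i + b i‖ ^ 2) ≤ √(∑ i, ‖a i‖ ^ 2) + √(∑ i, ‖b i‖ ^ 2) := by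
  exact supp_mink a b


end Pool.Agent.Kad.H2
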