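import Pool.Agent.Lib.MP_22c5db_an.H2.WinA
import Pool.Agent.Lib.MP_22c5db_an.H2.Lfour

/-! The pointwise estimate of the defect. -/

open scoped InnerProductSpace ComplexConjugate
open Finset

noncomputable section

namespace Pool.Agent.Kad.H2

universe u

set_option linter.unusedSectionVars false

variable {H : Type u} [NormedAddCommGroup H] [InnerProductSpace ℂ H] [CompleteSpace H]
  {M : VonNeumannAlgebra H} {τ : Op H →ₗ[ℝ] ℝ} {φ : Bil H} {C : ℝ}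
  {ι : Type} [Fintype ι] [DecidableEq ι] {e : ι → ι → Op H}
  {K : Type u} [NormedAddCommGroup K] [InnerProductSpace ℂ K] [CompleteSpace K]
  {A : Type} [Fintype A] [DecidableEq A] {J : A → H →L[ℂ] K} {N : VonNeumannAlgebra K}
  {m L : ℕ} {δ : ℝ} {α : ℕ → ℝ} {ζ : H} {G : Op H →L[ℝ] ℝ}

theorem win_ent (hJ : Frame M 1 J N) (X : Op K) (γ : A) :
    ent J (star X * X) γ γ = ∑ a, star (ent J X a γ) * ent J X a γ := by
  rw [hJ.ent_mul]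
  simp only [ent_star]

theorem win_norm (hJ : Frame M 1 J N) (X : Op K) (γ : A) :
    ‖ent J (star X * X) γ γ‖ ≤ ‖X‖ ^ 2 := by
  rw [win_ent hJ]
  exact cl_iff.1 (cl_ent hJ X γ)

theorem win_pos (hJ : Frame M 1 J N) {s : ℝ} (hG : Pos G s) (X : Op K) (γ : A) (c : Op H) :
    0 ≤ G (star c * ent J (star X * X) γ γ * c) := by
  rw [win_ent hJ, mul_sum, sum_mul, map_sum]
  refine sum_nonneg fun a _ => ?_
  have := hG.pos (ent J X a γ * c)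
  rwa [star_mul, mul_assoc, ← mul_assoc (star (ent J X a γ)), ← mul_assoc] at this

theorem win_sq {s : ℝ} (hG : Pos G s) (hs : 0 ≤ s) (z t : Op H) {η : ℝ} (ht : ‖t‖ ≤ η) :
    G (star (z - t) * (z - t)) ≤ 2 * G (star z * z) + 2 * (s * η ^ 2) := by
  have e : star (z - t) * (z - t) + star (z + t) * (z + t) =
      (star z * z + star z * z) + (star t * t + star t * t) := by
    rw [star_sub, star_add]
    noncomm_ring
  have h1 := congrArg G e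
  simp only [map_add] at h1
  have h2 := hG.pos (z + t)
  have h3 := (le_abs_self _).trans (hG.le (star t * t))
  rw [CStarRing.norm_star_mul_self, ← pow_two] at h3
  have h4 : s * ‖t‖ ^ 2 ≤ s * η ^ 2 := by gcongr
  linarith

theorem win_U (hF : Fac M) (hτ : Tr M τ) (hJ : Frame M 1 J N) (h : Nrm M φ e C)
    (hG : Dom M τ φ e C ζ G) {b r c p t : Op H} (hb : b ∈ M) (hc : c ∈ M) (hc1 : ‖c‖ ≤ 1)
    (hbs : IsSelfAdjoint b) (hps : IsSelfAdjoint p) (hr : IsStarProjection r) (hrM : r ∈ M)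
    (hrb : r * b = b) (hbt : b * b = p - t) (ht0 : 0 ≤ G (star c * t * c)) {ε B s Λ : ℝ}
    (ht : ‖t‖ ≤ ε ^ 2) (hε : ε ^ 2 ≤ 1) (hB : ‖b‖ ^ 2 ≤ B ^ 2) (hs : τ r ≤ s) (hΛ : 1 ≤ Λ)
    {X : Op K} (hX : X ∈ N) (hX1 : ‖X‖ ≤ 1) (γ : A) :
    ‖Gm J φ γ (b * c) ζ X‖ ^ 2 ≤ 4000 * C ^ 2 * (G (star c * p * c) +
      2 * (G (star c * p * c * (star c * p * c)) / Λ) + 6 * (‖ζ‖ ^ 2 * ε ^ 2) +
      ‖ζ‖ ^ 2 * Λ * s + ‖ζ‖ ^ 2 * ((Λ + B ^ 2) / Fintype.card ι)) := by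
  have hΛ0 : 0 < Λ := by linarith
  have hcl : Cl (fun a => ent J X a γ) 1 := fun ξ =>
    (cl_ent hJ X γ ξ).trans (by gcongr)
  have h1 := lfour hF hτ h hG (fun a => (hJ.mem_iff X).1 hX a γ) hcl (mul_mem hb hc) hr hrM
    (by rw [← mul_assoc, hrb]) hΛ0
  rw [Gm_apply, norm_sum_J hJ]
  refine h1.trans ?_
  have e1 : star (b * c) * (b * c) = star c * p * c - star c * t * c := by
    rw [star_mul, hbs.star_eq, mul_assoc, ← mul_assoc b, hbt]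
    noncomm_ring
  have e2 : star (star c * p * c) = star c * p * c := by
    rw [star_mul, star_mul, star_star, hps.star_eq, mul_assoc]
  have e3 : star (star c * p * c - star c * t * c) = star c * p * c - star c * t * c := by
    rw [← e1, star_mul, star_star]
  have h2 : ‖star c * t * c‖ ≤ ε ^ 2 := by
    calc _ ≤ ‖star c‖ * ‖t‖ * ‖c‖ :=
          (norm_mul_le _ _).trans (mul_le_mul_of_nonneg_right (norm_mul_le _ _) (norm_nonneg _))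
      _ ≤ 1 * ε ^ 2 * 1 := by rw [norm_star]; gcongr
      _ = _ := by ring
  have h3 := win_sq hG.pos (by positivity) (star c * p * c) (star c * t * c) h2
  rw [e2, e3] at h3
  have h4 : ‖b * c‖ ^ 2 ≤ B ^ 2 := by
    refine le_trans ?_ hB
    gcongr
    exact (norm_mul_le _ _).trans (mul_le_of_le_one_right (norm_nonneg _) hc1)
  have h5 : G (star c * p * c - star c * t * c) ≤ G (star c * p * c) := by
    rw [map_sub]
    linarith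
  have h6 : G ((star c * p * c - star c * t * c) * (star c * p * c - star c * t * c)) / Λ ≤
      2 * (G (star c * p * c * (star c * p * c)) / Λ) + 6 * (‖ζ‖ ^ 2 * ε ^ 2) := by
    refine (div_le_div_of_nonneg_right h3 hΛ0.le).trans ?_
    rw [add_div, mul_div_assoc]
    refine add_le_add le_rfl ((div_le_self (by positivity) hΛ).trans ?_)
    have : (ε ^ 2) ^ 2 ≤ ε ^ 2 := by nlinarith [sq_nonneg ε]
    calc _ = 6 * (‖ζ‖ ^ 2 * (ε ^ 2) ^ 2) := by ring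
      _ ≤ _ := by gcongr
  have h7 : ‖ζ‖ ^ 2 * (Λ * τ r + (Λ + ‖b * c‖ ^ 2) / Fintype.card ι) ≤
      ‖ζ‖ ^ 2 * (Λ * s + (Λ + B ^ 2) / Fintype.card ι) := by gcongr
  rw [e1]
  refine mul_le_mul_of_nonneg_left ?_ (by positivity)
  linarith

theorem win_six (x₁ x₂ x₃ x₄ z : ℝ) : (x₁ + x₃ + (x₂ + x₄) + (z + z)) ^ 2 ≤
    6 * (x₁ ^ 2 + x₂ ^ 2 + x₃ ^ 2 + x₄ ^ 2 + 2 * z ^ 2) := by
  nlinarith [sq_nonneg (x₁ - x₂), sq_nonneg (x₁ - x₃), sq_nonneg (x₁ - x₄), sq_nonneg (x₂ - x₃),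
    sq_nonneg (x₂ - x₄), sq_nonneg (x₃ - x₄), sq_nonneg (x₁ - z), sq_nonneg (x₂ - z),
    sq_nonneg (x₃ - z), sq_nonneg (x₄ - z)]

theorem win_fin {C g₁ g₂ g₃ g₄ g₅ g₅' g₆ g₇ g₈ g₉ g₉' x₁ x₂ x₃ x₄ : ℝ} (hC : 0 ≤ C)
    (a1 : x₁ ≤ 4000 * C * (g₁ + 2 * g₂ + 6 * g₅ + g₆ + g₈))
    (a2 : x₂ ≤ 4000 * C * (g₁ + 2 * g₂ + 6 * g₅ + g₆ + g₈))
    (a3 : x₃ ≤ 4000 * C * (g₃ + 2 * g₄ + 6 * g₅' + g₇ + g₉'))
    (a4 : x₄ ≤ 4000 * C * (g₃ + 2 * g₄ + 6 * g₅' + g₇ + g₉')) (p1 : 0 ≤ g₁) (p2 : 0 ≤ g₂)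
    (p3 : 0 ≤ g₃) (p4 : 0 ≤ g₄) (q1 : g₅' ≤ g₅) (q2 : g₉' ≤ g₉) (q3 : 0 ≤ g₅) (q4 : 0 ≤ g₈)
    (q5 : 0 ≤ g₉) (q6 : 0 ≤ g₆) (q7 : 0 ≤ g₇) : 6 * (x₁ + x₂ + x₃ + x₄ + 2 * (C * g₅)) ≤
      10 ^ 6 * C * (g₁ + g₂ + g₃ + g₄ + (g₈ + g₉ + g₅) + (g₆ + g₇)) :=
  calc _ ≤ C * (48000 * (g₁ + 2 * g₂ + 6 * g₅ + g₆ + g₈) +
        48000 * (g₃ + 2 * g₄ + 6 * g₅' + g₇ + g₉') + 12 * g₅) := by linarith
    _ ≤ C * (10 ^ 6 * (g₁ + g₂ + g₃ + g₄ + (g₈ + g₉ + g₅) + (g₆ + g₇))) :=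
        mul_le_mul_of_nonneg_left (by linarith) hC
    _ = _ := by ring

theorem win (hF : Fac M) (hτ : Tr M τ) (hJ : Frame M 1 J N) (h : Nrm M φ e C) {W f q : Op K}
    (hW : W ∈ unitary (Op K)) (hWN : W ∈ N) (hf : f ∈ N) (hq : IsStarProjection q) (hqN : q ∈ N)
    (hqW : q * W = W * q) (hqf : q * f = f * q) {B ε : ℝ} (hB : ‖f‖ ≤ B) (hε : ‖f * (1 - q)‖ ≤ ε)
    (hε1 : ε ≤ 1) {c : Op H} (hc : c ∈ M) (hc1 : ‖c‖ ≤ 1) (hG : Dom M τ φ e C ζ G)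
    {G' : Op H →L[ℝ] ℝ} (hG' : Dom M τ φ e C (c ζ) G') {Λ Λ' : ℝ} (hΛ : 1 ≤ Λ) (hΛ' : 1 ≤ Λ')
    (γ : A) {p : Op H} (hp : p = ent J (star f * f) γ γ) :
    ‖DD J φ γ c ζ W f‖ ^ 2 ≤ 10 ^ 6 * C ^ 2 * (G (star c * p * c) +
      G (star c * p * c * (star c * p * c)) / Λ + G' p + G' (p * p) / Λ' +
      ‖ζ‖ ^ 2 * ((Λ + Λ' + 2 * B ^ 2) / Fintype.card ι + ε ^ 2) +
      (‖ζ‖ ^ 2 * Λ + ‖c ζ‖ ^ 2 * Λ') * ∑ a, τ (ent J q a a)) := by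
  have hC := h.c0
  have hε0 : 0 ≤ ε := (norm_nonneg _).trans hε
  have hε2 : ε ^ 2 ≤ 1 := by nlinarith
  have hWs : star W ∈ N := star_mem hWN
  have hqW' : q * star W = star W * q := by
    have := congrArg star hqW
    rw [star_mul, star_mul, hq.isSelfAdjoint.star_eq] at this
    exact this.symm
  have hqq : q * q = q := hq.isIdempotentElem
  have hW1 : ‖W‖ ≤ 1 := RM.unit_le hW
  have hWs1 : ‖star W‖ ≤ 1 := by rwa [norm_star]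
  have hWW : W * star W = 1 := hW.2
  set Y₁ := q * (star W * f) with hY₁
  set Y₂ := star W * (f * (1 - q)) with hY₂
  have hY₁N : Y₁ ∈ N := mul_mem hqN (mul_mem hWs hf)
  have hY₂N : Y₂ ∈ N := mul_mem hWs (mul_mem hf (N.toStarSubalgebra.sub_mem (one_mem _) hqN))
  have eY₁ : Y₁ = star W * (f * q) := by
    rw [hY₁, ← mul_assoc, hqW', mul_assoc, hqf]
  have eY : star W * f = Y₁ + Y₂ := by
    rw [eY₁, hY₂]
    noncomm_ring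
  have ef : f = W * Y₁ + W * Y₂ := by
    rw [← mul_add, ← eY, ← mul_assoc, hWW, one_mul]
  have nY₂ : ‖Y₂‖ ≤ ε :=
    (norm_mul_le _ _).trans ((mul_le_of_le_one_left (norm_nonneg _) hWs1).trans hε)
  have nWY₂ : ‖W * Y₂‖ ≤ ε :=
    (norm_mul_le _ _).trans ((mul_le_of_le_one_left (norm_nonneg _) hW1).trans nY₂)
  have nY₁ : ‖Y₁‖ ≤ B :=
    (norm_mul_le _ _).trans ((mul_le_of_le_one_left (norm_nonneg _) hq.norm_le).trans
      ((norm_mul_le _ _).trans ((mul_le_of_le_one_left (norm_nonneg _) hWs1).trans hB)))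
  obtain ⟨b, hb, r, hrM, V, hV, hbs, hbb, hr, hrb, hτr, hV1, hYV⟩ :=
    col_fac hτ hJ hY₁N hq hqN (by rw [hY₁, ← mul_assoc, hqq]) γ
  have hfq : star f * q = q * star f := by
    have := congrArg star hqf
    rwa [star_mul, star_mul, hq.isSelfAdjoint.star_eq] at this
  have eS : star Y₁ * Y₁ = star f * f - star (f * (1 - q)) * (f * (1 - q)) := by
    have k1 : star Y₁ * Y₁ = star f * f * q := by
      rw [eY₁, star_mul, star_star, mul_assoc, ← mul_assoc W, hWW, one_mul, star_mul,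
        hq.isSelfAdjoint.star_eq, ← hfq, mul_assoc, ← mul_assoc q, hqf, mul_assoc, hqq, mul_assoc]
    have k2 : q * (star f * f) = star f * f * q := by
      rw [← mul_assoc, ← hfq, mul_assoc, hqf, mul_assoc]
    have k3 : star (f * (1 - q)) * (f * (1 - q)) =
        star f * f - star f * f * q - q * (star f * f) + q * (star f * f) * q := by
      rw [star_mul, star_sub, star_one, hq.isSelfAdjoint.star_eq]
      noncomm_ring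
    rw [k1, k3, k2, mul_assoc _ q q, hqq]
    abel
  set t := ent J (star (f * (1 - q)) * (f * (1 - q))) γ γ with ht
  have hbt : b * b = p - t := by
    rw [hbb, eS, hp, ht]
    simp only [ent, ContinuousLinearMap.sub_comp, ContinuousLinearMap.comp_sub]
  have hps : IsSelfAdjoint p := by
    rw [hp, IsSelfAdjoint, ← ent_star, star_mul, star_star]
  have ht1 : ‖t‖ ≤ ε ^ 2 := (win_norm hJ _ γ).trans (by gcongr)
  have hb2 : ‖b‖ ^ 2 ≤ B ^ 2 := by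
    have k : ‖b‖ ^ 2 = ‖b * b‖ := by
      rw [pow_two, ← CStarRing.norm_star_mul_self, hbs.star_eq]
    rw [k, hbb]
    exact (win_norm hJ _ γ).trans (by gcongr)
  have hWV : W * V ∈ N := mul_mem hWN hV
  have hWV1 : ‖W * V‖ ≤ 1 :=
    (norm_mul_le _ _).trans ((mul_le_of_le_one_left (norm_nonneg _) hW1).trans hV1)
  have u1 := fun {X : Op K} (hX : X ∈ N) (hX1 : ‖X‖ ≤ 1) =>
    win_U hF hτ hJ h hG hb hc hc1 hbs hps hr hrM hrb hbt (win_pos hJ hG.pos _ γ c) ht1 hε2 hb2 hτr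
      hΛ hX hX1 γ
  have u2 := fun {X : Op K} (hX : X ∈ N) (hX1 : ‖X‖ ≤ 1) =>
    win_U hF hτ hJ h hG' hb (one_mem M) (RM.unit_le (one_mem _)) hbs hps hr hrM hrb hbt
      (win_pos hJ hG'.pos _ γ 1) ht1 hε2 hb2 hτr hΛ' hX hX1 γ
  simp only [star_one, one_mul, mul_one] at u2
  have a1 := u1 hWV hWV1
  have a2 := u1 hV hV1
  have a3 := u2 hWV hWV1
  have a4 := u2 hV hV1
  have tl : ∀ X ∈ N, ‖X‖ ≤ ε → ‖Gm J φ γ c ζ X‖ ≤ C * ‖ζ‖ * ε := by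
    intro X hX hXε
    refine (Gm_bd hJ h.col hC γ hc ζ hX).trans ?_
    calc _ ≤ C * 1 * ‖ζ‖ * ε := by gcongr
      _ = _ := by ring
  have a5 := tl _ (mul_mem hWN hY₂N) nWY₂
  have a6 := tl _ hY₂N nY₂
  have eD : DD J φ γ c ζ W f = (Gm J φ γ (b * c) ζ (W * V) - Gm J φ γ b (c ζ) (W * V) -
      W (Gm J φ γ (b * c) ζ V - Gm J φ γ b (c ζ) V)) +
      (Gm J φ γ c ζ (W * Y₂) - W (Gm J φ γ c ζ Y₂)) := by
    rw [← defect hJ h.cc hWN hY₁N hV hb hc hYV ζ, DD, eY]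
    conv_lhs => rw [ef]
    simp only [map_add]
    abel
  have nD : ‖DD J φ γ c ζ W f‖ ≤ ‖Gm J φ γ (b * c) ζ (W * V)‖ + ‖Gm J φ γ b (c ζ) (W * V)‖ +
      (‖Gm J φ γ (b * c) ζ V‖ + ‖Gm J φ γ b (c ζ) V‖) + (C * ‖ζ‖ * ε + C * ‖ζ‖ * ε) := by
    rw [eD]
    refine (norm_add_le _ _).trans (add_le_add ((norm_sub_le _ _).trans (add_le_add
      (norm_sub_le _ _) ((RM.app_le hW1 _).trans (norm_sub_le _ _)))) ?_)
    exact (norm_sub_le _ _).trans (add_le_add a5 ((RM.app_le hW1 _).trans a6))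
  have p1 : 0 ≤ G (star c * p * c) := by rw [hp]; exact win_pos hJ hG.pos f γ c
  have p2 : 0 ≤ G (star c * p * c * (star c * p * c)) / Λ := by
    refine div_nonneg ?_ (by linarith)
    have := hG.pos.pos (star c * p * c)
    rwa [star_mul, star_mul, star_star, hps.star_eq, ← mul_assoc (star c) p c] at this
  have p3 : 0 ≤ G' p := by
    have := win_pos hJ hG'.pos f γ 1
    rwa [star_one, one_mul, mul_one, ← hp] at this
  have p4 : 0 ≤ G' (p * p) / Λ' := by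
    refine div_nonneg ?_ (by linarith)
    have := hG'.pos.pos p
    rwa [hps.star_eq] at this
  have p5 : 0 ≤ ∑ a, τ (ent J q a a) := (hτ.proj hr hrM).1.trans hτr
  have hcζ : ‖c ζ‖ ^ 2 ≤ ‖ζ‖ ^ 2 := by
    gcongr
    exact RM.app_le hc1 ζ
  have q1 : ‖c ζ‖ ^ 2 * ε ^ 2 ≤ ‖ζ‖ ^ 2 * ε ^ 2 := by gcongr
  have q2 : ‖c ζ‖ ^ 2 * ((Λ' + B ^ 2) / Fintype.card ι) ≤
      ‖ζ‖ ^ 2 * ((Λ' + B ^ 2) / Fintype.card ι) := by gcongr
  have q3 : 0 ≤ ‖ζ‖ ^ 2 * ε ^ 2 := by positivity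
  have q4 : 0 ≤ ‖ζ‖ ^ 2 * ((Λ + B ^ 2) / Fintype.card ι) := by positivity
  have q5 : 0 ≤ ‖ζ‖ ^ 2 * ((Λ' + B ^ 2) / Fintype.card ι) := by positivity
  have q6 : 0 ≤ ‖ζ‖ ^ 2 * Λ * ∑ a, τ (ent J q a a) := by positivity
  have q7 : 0 ≤ ‖c ζ‖ ^ 2 * Λ' * ∑ a, τ (ent J q a a) := by positivity
  have q8 : ‖ζ‖ ^ 2 * ((Λ + Λ' + 2 * B ^ 2) / Fintype.card ι + ε ^ 2) =
      ‖ζ‖ ^ 2 * ((Λ + B ^ 2) / Fintype.card ι) + ‖ζ‖ ^ 2 * ((Λ' + B ^ 2) / Fintype.card ι) +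
        ‖ζ‖ ^ 2 * ε ^ 2 := by ring
  rw [q8, add_mul (‖ζ‖ ^ 2 * Λ)]
  have s1 : ‖DD J φ γ c ζ W f‖ ^ 2 ≤
      6 * (‖Gm J φ γ (b * c) ζ (W * V)‖ ^ 2 + ‖Gm J φ γ (b * c) ζ V‖ ^ 2 +
        ‖Gm J φ γ b (c ζ) (W * V)‖ ^ 2 + ‖Gm J φ γ b (c ζ) V‖ ^ 2 + 2 * (C * ‖ζ‖ * ε) ^ 2) := by
    exact (pow_le_pow_left₀ (norm_nonneg _) nD 2).trans (win_six _ _ _ _ _)
  refine s1.trans ?_
  have s2 : (C * ‖ζ‖ * ε) ^ 2 = C ^ 2 * (‖ζ‖ ^ 2 * ε ^ 2) := by ring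
  rw [s2]
  exact win_fin (sq_nonneg C) a1 a2 a3 a4 p1 p2 p3 p4 q1 q2 q3 q4 q5 q6 q7


end Pool.Agent.Kad.H2
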