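import Pool.Agent.Lib.MP_22c5db_an.H2.GmL
import Pool.Agent.Lib.MP_22c5db_an.H2.CPol
import Pool.Agent.Lib.MP_22c5db_an.H2.Trace

/-! The main part of the defect. -/

open scoped InnerProductSpace ComplexConjugate
open Finset

noncomputable section

namespace Pool.Agent.Kad.H2

universe u

set_option linter.unusedSectionVars false

variable {H : Type u} [NormedAddCommGroup H] [InnerProductSpace ℂ H] [CompleteSpace H]
  {M : VonNeumannAlgebra H} {τ : Op H →ₗ[ℝ] ℝ} {φ : Bil H} {C : ℝ}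
  {ι : Type} [Fintype ι] [DecidableEq ι] {e : ι → ι → Op H}
  {K : Type u} [NormedAddCommGroup K] [InnerProductSpace ℂ K] [CompleteSpace K]
  {A : Type} [Fintype A] [DecidableEq A] {J : A → H →L[ℂ] K} {N : VonNeumannAlgebra K}
  {m L : ℕ} {δ : ℝ} {α : ℕ → ℝ} {ζ : H} {G : Op H →L[ℝ] ℝ}

theorem winA_ent_sub (x y : Op K) (a c : A) : ent J (x - y) a c = ent J x a c - ent J y a c := by
  ext ξ
  simp only [ent, ContinuousLinearMap.comp_apply, _root_.sub_apply, map_sub]

theorem winA_ent_one (hJ : Frame M 1 J N) (a : A) : ent J (1 : Op K) a a = 1 := by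
  have h1 := hJ.adj a a
  rw [if_pos rfl] at h1
  exact h1

theorem winA_ent_sq (hJ : Frame M 1 J N) (T : Op K) (a : A) :
    ent J (star T * T) a a = ∑ c, star (ent J T c a) * ent J T c a := by
  rw [hJ.ent_mul]
  exact sum_congr rfl fun c _ => by rw [ent_star]

theorem winA_pos (hτ : Tr M τ) (hJ : Frame M 1 J N) {T : Op K} (hT : T ∈ N) (a : A) :
    0 ≤ τ (ent J (star T * T) a a) := by
  rw [winA_ent_sq hJ, map_sum]
  exact sum_nonneg fun c _ => hτ.pos _ ((hJ.mem_iff T).1 hT c a)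

theorem winA_tr (hτ : Tr M τ) (hJ : Frame M 1 J N) {p : Op K} (hp : IsStarProjection p)
    (hpN : p ∈ N) (a : A) : τ (ent J p a a) ≤ 1 := by
  have h1 := winA_pos hτ hJ (sub_mem (one_mem N) hpN) a
  rw [hp.one_sub.isSelfAdjoint.star_eq, hp.one_sub.isIdempotentElem.eq, winA_ent_sub,
    winA_ent_one hJ, map_sub, hτ.one] at h1
  linarith

theorem winA_ext (hJ : Frame M 1 J N) {x y : Op K} (h : ∀ a c, ent J x a c = ent J y a c) :
    x = y := by
  have e : ent J x = ent J y := funext fun a => funext fun c => h a c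
  rw [← hJ.mat_ent x, ← hJ.mat_ent y, e]

/-- factorisation of a column with range under `q` -/
theorem col_fac (hτ : Tr M τ) (hJ : Frame M 1 J N) {Y q : Op K} (hY : Y ∈ N)
    (hq : IsStarProjection q) (hqN : q ∈ N) (hqY : q * Y = Y) (γ : A) :
    ∃ b ∈ M, ∃ r ∈ M, ∃ V ∈ N, IsSelfAdjoint b ∧ b * b = ent J (star Y * Y) γ γ ∧
      IsStarProjection r ∧ r * b = b ∧ τ r ≤ ∑ a, τ (ent J q a a) ∧ ‖V‖ ≤ 1 ∧
      ∀ a, ent J Y a γ = ent J V a γ * b := by
  have hYM := (hJ.mem_iff Y).1 hY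
  obtain ⟨h, hM, v, hv, h1, h2, h3, h4, h5, h6, h7⟩ :=
    cpol (M := M) (b := fun a => ent J Y a γ) fun a => hYM a γ
  have hrM : ∑ j, star (v j) * v j ∈ M := sum_mem fun j _ => mul_mem (star_mem (hv j)) (hv j)
  obtain ⟨r, hr⟩ : ∃ r, r = ∑ j, star (v j) * v j := ⟨_, rfl⟩
  rw [← hr] at h4 h5 h6 h7 hrM
  obtain ⟨V, hV⟩ : ∃ V, V = mat J fun a c => if c = γ then v a else 0 := ⟨_, rfl⟩
  have hVN : V ∈ N := by
    rw [hV]
    refine hJ.mat_mem fun a c => ?_
    split_ifs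
    · exact hv a
    · exact zero_mem _
  have eV : ∀ a c, ent J V a c = if c = γ then v a else 0 := fun a c => by
    rw [hV, hJ.ent_mat, one_mul, mul_one]
  have eγ : ∀ a, ent J V a γ = v a := fun a => by rw [eV, if_pos rfl]
  have e1 : star V * V = CaseC.el J γ γ r := by
    refine winA_ext hJ fun a c => ?_
    rw [hJ.ent_mul, CaseC.ent_el hJ, one_mul, mul_one]
    simp only [ent_star, eV]
    by_cases ha : a = γ
    · by_cases hc : c = γ
      · simp only [ha, hc, if_true, and_self, hr]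
      · simp only [hc, if_false, mul_zero, sum_const_zero, and_false]
    · simp only [ha, if_false, star_zero, zero_mul, sum_const_zero, false_and]
  have e2 : V * CaseC.el J γ γ r = V := by
    refine winA_ext hJ fun a c => ?_
    rw [CaseC.ent_mul_el hJ, eγ, h5, mul_one, eV]
  have e3 : IsStarProjection (CaseC.el J γ γ r) := by
    refine ⟨?_, ?_⟩
    · rw [IsIdempotentElem, CaseC.el_mul hJ, if_pos rfl, mul_one, h4.isIdempotentElem.eq]
    · rw [IsSelfAdjoint, CaseC.el_star, h4.isSelfAdjoint.star_eq]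
  have e4 : (1 - q) * V = 0 := by
    refine winA_ext hJ fun a c => ?_
    rw [cpol_ent_zero, hJ.ent_mul]
    by_cases hc : c = γ
    · have a1 : (∑ d, ent J (1 - q) a d * v d) * h = 0 := by
        have a2 : (1 - q) * Y = 0 := by rw [sub_mul, one_mul, hqY, sub_self]
        have a3 := hJ.ent_mul (1 - q) Y a γ
        rw [a2, cpol_ent_zero] at a3
        rw [sum_mul, a3]
        exact sum_congr rfl fun d _ => by rw [mul_assoc, ← h2 d]
      have a4 := h7 _ a1
      rw [sum_mul] at a4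
      rw [hc, ← a4]
      exact sum_congr rfl fun d _ => by rw [mul_assoc, h5, eγ]
    · simp only [eV, hc, if_false, mul_zero, sum_const_zero]
  have e5 : q * V = V := by
    rw [sub_mul, one_mul, sub_eq_zero] at e4
    exact e4.symm
  have e6 : star V * q = star V := by
    have := congrArg star e5
    rwa [star_mul, hq.isSelfAdjoint.star_eq] at this
  have e7 : V * (star V * V) = V := by rw [e1, e2]
  have e8 : star (q - V * star V) * (q - V * star V) = q - V * star V := by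
    have a1 : V * star V * (V * star V) = V * star V := by
      rw [mul_assoc V, ← mul_assoc (star V), ← mul_assoc V, e7]
    rw [star_sub, star_mul, star_star, hq.isSelfAdjoint.star_eq, sub_mul, mul_sub, mul_sub,
      hq.isIdempotentElem.eq, ← mul_assoc q, e5, mul_assoc V (star V) q, e6, a1, sub_self,
      sub_zero]
  refine ⟨h, hM, r, hrM, V, hVN, h1, ?_, h4, h6, ?_, ?_, fun a => by rw [eγ]; exact h2 a⟩
  · rw [h3, winA_ent_sq hJ]
  · rw [hr, map_sum]
    refine sum_le_sum fun a _ => ?_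
    have a1 := winA_pos hτ hJ (sub_mem hqN (mul_mem hVN (star_mem hVN))) a
    have a2 : ent J (V * star V) a a = v a * star (v a) := by
      rw [hJ.ent_mul, sum_eq_single γ]
      · rw [ent_star, eγ]
      · intro c _ hc
        rw [eV, if_neg hc, zero_mul]
      · intro hc
        exact absurd (mem_univ γ) hc
    rw [e8, winA_ent_sub, map_sub, a2] at a1
    rw [hτ.comm _ (star_mem (hv a)) _ (hv a)]
    linarith
  · have a1 := e3.norm_le
    rw [← e1, CStarRing.norm_star_mul_self] at a1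
    nlinarith [norm_nonneg V]

theorem winA_gm (hJ : Frame M 1 J N) (h : CC M φ) {Y V : Op K} (hV : V ∈ N) {b c : Op H}
    (hb : b ∈ M) (hc : c ∈ M) {γ : A} (hYV : ∀ a, ent J Y a γ = ent J V a γ * b) (ζ : H) :
    Gm J φ γ c ζ Y = V (J γ (φ b c ζ)) + Gm J φ γ (b * c) ζ V - Gm J φ γ b (c ζ) V := by
  rw [Gm_apply, Gm_apply, Gm_apply, ← sum_J_ent hJ, ← sum_add_distrib, ← sum_sub_distrib]
  refine sum_congr rfl fun a _ => ?_
  rw [hYV, h _ ((hJ.mem_iff V).1 hV a γ) b hb c hc, ← map_add, ← map_sub]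
  rfl

theorem defect (hJ : Frame M 1 J N) (h : CC M φ) {W Y V : Op K} (hW : W ∈ N) (hY : Y ∈ N)
    (hV : V ∈ N) {b c : Op H} (hb : b ∈ M) (hc : c ∈ M) {γ : A}
    (hYV : ∀ a, ent J Y a γ = ent J V a γ * b) (ζ : H) :
    Gm J φ γ c ζ (W * Y) - W (Gm J φ γ c ζ Y) =
      Gm J φ γ (b * c) ζ (W * V) - Gm J φ γ b (c ζ) (W * V) -
        W (Gm J φ γ (b * c) ζ V - Gm J φ γ b (c ζ) V) := by
  have _h := hY
  have h1 : ∀ a, ent J (W * Y) a γ = ent J (W * V) a γ * b := fun a => by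
    rw [hJ.ent_mul, hJ.ent_mul, sum_mul]
    exact sum_congr rfl fun d _ => by rw [hYV, mul_assoc]
  rw [winA_gm hJ h (mul_mem hW hV) hb hc h1, winA_gm hJ h hV hb hc hYV, map_sub, map_add, map_sub]
  have h2 : (W * V) (J γ (φ b c ζ)) = W (V (J γ (φ b c ζ))) := rfl
  rw [h2]
  abel

/-- spectral projections of rotated unitaries are orthogonal -/
theorem winA_orth {w q₁ q₂ : Op K} (hw : w ∈ unitary (Op K)) {n : ℕ} (hn : 0 < n) {ω : ℂ}
    (hω : 2 ≤ n * ‖1 - ω‖) (h1 : IsStarProjection q₁) (h2 : IsStarProjection q₂)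
    (hc : q₁ * q₂ = q₂ * q₁) (f1 : ∀ ζ, q₁ ζ = ζ → ζ ≠ 0 → n * ‖ζ - w ζ‖ < ‖ζ‖)
    (f2 : ∀ ζ, q₂ ζ = ζ → ζ ≠ 0 → n * ‖ζ - (ω • w) ζ‖ < ‖ζ‖) : q₁ * q₂ = 0 := by
  have hn0 : (0 : ℝ) < n := by exact_mod_cast hn
  ext η
  by_contra h0
  have a1 : q₁ ((q₁ * q₂) η) = (q₁ * q₂) η := by
    rw [← mul_apply_eq_comp, ← mul_assoc, h1.isIdempotentElem.eq]
  have a2 : q₂ ((q₁ * q₂) η) = (q₁ * q₂) η := by
    rw [hc, ← mul_apply_eq_comp, ← mul_assoc, h2.isIdempotentElem.eq]
  have b1 := f1 _ a1 h0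
  have b2 := f2 _ a2 h0
  have b3 := Unitary.norm_map (⟨_, hw⟩ : unitary (Op K)) ((q₁ * q₂) η)
  generalize (q₁ * q₂) η = ζ at *
  change n * ‖ζ - ω • w ζ‖ < _ at b2
  change ‖w ζ‖ = _ at b3
  generalize w ζ = ξ at *
  have b5 : ‖1 - ω‖ * ‖ζ‖ ≤ ‖ζ - ω • ξ‖ + ‖ζ - ξ‖ := by
    rw [← b3, ← norm_smul]
    refine le_trans (le_of_eq ?_) (norm_sub_le _ _)
    congr 1
    module
  have b6 := mul_le_mul_of_nonneg_left b5 hn0.le
  have b7 := mul_le_mul_of_nonneg_right hω (norm_nonneg ζ)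
  linarith

theorem winA_far {n : ℕ} [NeZero n] {j : ZMod n} (hj : j ≠ 0) :
    2 ≤ (n : ℝ) * ‖1 - (ZMod.stdAddChar j : ℂ)‖ := by
  refine Conc.root_far (NeZero.ne n) ?_ (fun h => hj ?_) (Circle.norm_coe _)
  · rw [← AddChar.map_nsmul_eq_pow, nsmul_eq_mul, ZMod.natCast_self, zero_mul,
      AddChar.map_zero_eq_one]
  · exact ZMod.injective_stdAddChar (h.trans (AddChar.map_zero_eq_one _).symm)

theorem winA_sum_proj {κ : Type} [Fintype κ] {q : κ → Op K} (hq : ∀ j, IsStarProjection (q j))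
    (ho : ∀ i j, i ≠ j → q i * q j = 0) : IsStarProjection (∑ j, q j) := by
  refine ⟨?_, ?_⟩
  · rw [IsIdempotentElem, sum_mul_sum]
    refine sum_congr rfl fun i _ => ?_
    rw [sum_eq_single i (fun j _ hj => ho i j hj.symm) fun hi => absurd (mem_univ i) hi]
    exact (hq i).isIdempotentElem.eq
  · rw [IsSelfAdjoint, star_sum]
    exact sum_congr rfl fun j _ => (hq j).isSelfAdjoint.star_eq

theorem winA_ww (hJ : Frame M 1 J N) (he : MU e 1) (u : Op H) {n : ℕ} [NeZero n] (j : ZMod n)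
    (v : U (A × ι)) :
    ww J e u (v * dg fun _ => j) = (ZMod.stdAddChar j : ℂ) • ww J e u v := by
  have h1 : rho (EE J e) (dg (fun _ => j) : U (A × ι)) = (ZMod.stdAddChar j : ℂ) • 1 := by
    rw [Conc.rho_dg, ← smul_sum, (EE_mu hJ he).sum]
  have h2 : ((v * dg fun _ => j : U (A × ι)) : Matrix (A × ι) (A × ι) ℂ) =
      (v : Matrix (A × ι) (A × ι) ℂ) * (dg (fun _ => j) : U (A × ι)) := rfl
  rw [ww, ww, h2, (EE_mu hJ he).rho_mul, h1, mul_smul_comm, mul_one, mul_smul_comm]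

/-- averaging over rotations -/
theorem rot [Nonempty ι] (hτ : Tr M τ) (hJ : Frame M 1 J N) (he : MU e 1) (heM : ∀ i j, e i j ∈ M)
    {u : Op H} (hu : u ∈ unitary (Op H)) (huM : u ∈ M) {n : ℕ} (hn : 0 < n)
    {Ψ Φ : U (A × ι) → ℝ} (hΨ : Continuous Ψ) (hΦ : Continuous Φ) {s : ℝ} (hs : 0 ≤ s)
    (h : ∀ v q, IsStarProjection q → q ∈ N → q * ww J e u v = ww J e u v * q →
      (∀ ξ, q ξ = 0 → ‖ξ‖ ≤ n * ‖ξ - ww J e u v ξ‖) → Ψ v ≤ Φ v + s * ∑ a, τ (ent J q a a)) :
    Ex Ψ ≤ Ex Φ + s * (Fintype.card A / n) := by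
  have : NeZero n := ⟨hn.ne'⟩
  have hn0 : (0 : ℝ) < n := by exact_mod_cast hn
  choose q q1 q2 q3 q4 q5 using fun v : U (A × ι) =>
    Conc.exists_q (ww_mem hJ heM huM v) hn0
  have qw : ∀ v, q v * ww J e u v = ww J e u v * q v := fun v =>
    (q3 v _ rfl (by rw [Unitary.mul_star_self_of_mem (ww_unitary hJ he hu v),
      Unitary.star_mul_self_of_mem (ww_unitary hJ he hu v)])).symm
  have key : ∀ v : U (A × ι), ∑ j : ZMod n, Ψ (v * dg fun _ => j) ≤
      ∑ j : ZMod n, Φ (v * dg fun _ => j) + s * Fintype.card A := by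
    intro v
    have ho : ∀ i j : ZMod n, i ≠ j → q (v * dg fun _ => i) * q (v * dg fun _ => j) = 0 := by
      intro i j hij
      have e : ww J e u (v * dg fun _ => j) =
          (ZMod.stdAddChar (j - i) : ℂ) • ww J e u (v * dg fun _ => i) := by
        rw [winA_ww hJ he, winA_ww hJ he, smul_smul, ← AddChar.map_add_eq_mul, sub_add_cancel]
      refine winA_orth (ww_unitary hJ he hu _) hn (winA_far (sub_ne_zero.2 hij.symm)) (q1 _) (q1 _)
        (q3 _ _ ?_ ?_) (q5 _) ?_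
      · rw [e, mul_smul_comm, smul_mul_assoc, qw]
      · have := congrArg star (qw (v * dg fun _ => i))
        rw [star_mul, star_mul, (q1 _).isSelfAdjoint.star_eq] at this
        rw [e, star_smul, mul_smul_comm, smul_mul_assoc, this]
      · rw [← e]
        exact q5 _
    have hp := winA_sum_proj (q := fun j : ZMod n => q (v * dg fun _ => j)) (fun _ => q1 _) ho
    have hN : ∑ j : ZMod n, q (v * dg fun _ => j) ∈ N := sum_mem fun j _ => q2 _
    have h1 : ∑ j : ZMod n, ∑ a, τ (ent J (q (v * dg fun _ => j)) a a) ≤ Fintype.card A := by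
      rw [sum_comm]
      have h2 : ∀ a, ∑ j : ZMod n, τ (ent J (q (v * dg fun _ => j)) a a) ≤ 1 := fun a => by
        have := winA_tr hτ hJ hp hN a
        rwa [cpol_ent_sum, map_sum] at this
      have h3 := sum_le_sum fun a (_ : a ∈ (univ : Finset A)) => h2 a
      rwa [sum_const, card_univ, nsmul_eq_mul, mul_one] at h3
    have h4 : ∑ j : ZMod n, Ψ (v * dg fun _ => j) ≤ ∑ j : ZMod n, (Φ (v * dg fun _ => j) +
        s * ∑ a, τ (ent J (q (v * dg fun _ => j)) a a)) :=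
      sum_le_sum fun j _ => h _ _ (q1 _) (q2 _) (qw _) (q4 _)
    rw [sum_add_distrib, ← mul_sum] at h4
    have h5 := mul_le_mul_of_nonneg_left h1 hs
    linarith
  have cΨ : ∀ j : ZMod n, Continuous fun v : U (A × ι) => Ψ (v * dg fun _ => j) := fun j =>
    hΨ.comp (continuous_mul_const _)
  have cΦ : ∀ j : ZMod n, Continuous fun v : U (A × ι) => Φ (v * dg fun _ => j) := fun j =>
    hΦ.comp (continuous_mul_const _)
  have sΨ := continuous_finsetSum univ fun j _ => cΨ j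
  have sΦ := continuous_finsetSum univ fun j _ => cΦ j
  have h6 : Ex (fun v : U (A × ι) => ∑ j : ZMod n, Ψ (v * dg fun _ => j)) ≤
      Ex fun v : U (A × ι) => ∑ j : ZMod n, Φ (v * dg fun _ => j) + s * Fintype.card A :=
    Ex_mono sΨ (sΦ.add continuous_const) key
  rw [Ex_add sΦ continuous_const, Ex_const, Ex_sum _ fun j _ => cΨ j, Ex_sum _ fun j _ => cΦ j]
    at h6
  simp only [Ex_mul_right, sum_const, card_univ, ZMod.card, nsmul_eq_mul] at h6
  have h7 : s * (Fintype.card A / n) * n = s * Fintype.card A := by field_simp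
  refine le_of_mul_le_mul_right ?_ hn0
  rw [add_mul, h7]
  linarith


end Pool.Agent.Kad.H2
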