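import Pool.Agent.Lib.MP_22c5db_an.H2.Basic

/-! Integration by parts at the first letter. -/

open scoped InnerProductSpace ComplexConjugate
open Finset

noncomputable section

namespace Pool.Agent.Kad.H2

universe u

set_option linter.unusedSectionVars false

variable {K : Type u} [NormedAddCommGroup K] [InnerProductSpace ℂ K] [CompleteSpace K]
  {ι : Type} [Fintype ι] [DecidableEq ι] {E : ι → ι → Op K} {M : ℕ} {δ : ℝ}

open RM

theorem word_der (h : MU E 1) (v : U ι) (s : Matrix ι ι ℂ) (l : List (Op K)) :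
    wd' E l v (s * v.1) = ∑ j ∈ range l.length, wd E (l.take (j + 1)) v * star (rho E v) *
      rho E s * (rho E v * wd E (l.drop (j + 1)) v) := by
  induction l with
  | nil => simp [wd']
  | cons B l ih =>
    have hu : rho E v * star (rho E v) = 1 := (h.rho_unitary v).2
    rw [List.length_cons, sum_range_succ', wd', ih, h.rho_mul, mul_sum]
    refine (add_comm _ _).trans (congrArg₂ (· + ·) (sum_congr rfl fun j _ => ?_) ?_)
    · simp only [List.take_succ_cons, List.drop_succ_cons, wd, mul_assoc]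
    · simp only [List.take_succ_cons, List.drop_succ_cons, List.take_zero, List.drop_zero, wd,
        mul_one]
      rw [mul_assoc B (rho E v), hu, mul_one]
      simp only [mul_assoc]

theorem word_der1 (h : MU E 1) (v : U ι) (i k : ι) (l : List (Op K)) :
    wd' E (1 :: l) v (Matrix.single i k 1 * v.1) = ∑ j ∈ range (l.length + 1),
      rho E v * wd E (l.take j) v * star (rho E v) * E i k * (rho E v * wd E (l.drop j) v) := by
  rw [word_der h, List.length_cons]
  simp only [List.take_succ_cons, List.drop_succ_cons, wd, one_mul, rho_single]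

theorem word_ip [Nonempty ι] (h : MU E 1) (P Q : Op K) (a b : K) :
    ∑ i, ∑ k, ⟪P (E k i a), Q (E k i b)⟫_ℂ =
      (Fintype.card ι : ℂ) * ⟪a, ce E (star P * Q) b⟫_ℂ := by
  rw [← inner_smul_right, ← smul_apply, ← sum_ce, sapp, inner_sum]
  refine sum_congr rfl fun i _ => ?_
  rw [sapp, inner_sum]
  refine sum_congr rfl fun k _ => ?_
  simp only [mapp, ← MUL.inner_E h, ← inner_star']

theorem word_ce (h : MU E 1) (v : U ι) (x : Op K) :
    ce E (rho E v * x * star (rho E v)) = ce E x := by
  have hu : star (rho E v) * rho E v = 1 := (h.rho_unitary v).1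
  rw [mul_assoc, h.ce_cyc, mul_assoc, hu, mul_one]

theorem word_good (h : MU E 1) {l : List (Op K)} (hl : ∀ B ∈ l, ‖B‖ ≤ 1) (j : ℕ)
    (hM : l.length + 1 ≤ M) : Good M fun v => rho E v * wd E (l.drop j) v := by
  refine ((Good.rho h).mul (good_wd h _ fun B hB => hl B (List.mem_of_mem_drop hB))).mono ?_
  have : 1 + (l.drop j).length ≤ M := by
    rw [List.length_drop]
    omega
  exact_mod_cast this

theorem word_sum {n : ℕ} {g : ℕ → U ι → ℝ} (hg : ∀ j, Continuous (g j)) {t : ℝ}
    (hb : ∀ j < n, Ex (g j) ≤ t) : Ex (fun v => ∑ j ∈ range n, g j v) ≤ n * t := by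
  rw [Ex_sum _ fun j _ => hg j]
  refine (sum_le_card_nsmul _ _ _ fun j hj => hb j (mem_range.1 hj)).trans (le_of_eq ?_)
  rw [card_range, nsmul_eq_mul]

theorem word [Nonempty ι] (h : MU E 1) (hS : RM.Sm E M δ) (l l' : List (Op K))
    (hl : ∀ B ∈ l, ‖B‖ ≤ 1) (hl' : ∀ B ∈ l', ‖B‖ ≤ 1) (hM : l'.length + 1 ≤ M) {X : Op K}
    (hX : ‖X‖ ≤ 1) (ξ η : K) :
    ‖Ex fun v : U ι => ⟪(rho E v * RM.wd E l v) η, X ((rho E v * RM.wd E l' v) ξ)⟫_ℂ -
      ∑ j ∈ range (l.length + 1), ⟪(rho E v * RM.wd E (l.drop j) v) η,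
        ce E (star (RM.wd E (l.take j) v) * (star (rho E v) * X * rho E v))
          ((rho E v * RM.wd E l' v) ξ)⟫_ℂ‖ ≤ l'.length * δ * (‖ξ‖ * ‖η‖) := by
  have hD : (0 : ℝ) < Fintype.card ι := Nat.cast_pos.2 Fintype.card_pos
  have gW := word_good h hl 0 le_rfl
  have gW' := word_good h hl' 0 hM
  simp only [List.drop_zero] at gW gW'
  have cρ : Continuous fun v : U ι => rho E v := (Good.rho h).cont
  have ct : ∀ (m : List (Op K)), Continuous fun v : U ι => wd E m v := fun m => (dif_wd E m).contU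
  set g : ℕ → U ι → ℝ := fun j v => ‖η‖ *
    ‖ce E (wd E (l'.take (j + 1)) v) ((rho E v * wd E (l'.drop (j + 1)) v) ξ)‖ with hg
  have cg : ∀ j, Continuous (g j) := fun j =>
    continuous_const.mul (cont_ce (ct _) (cρ.mul (ct _)) _)
  have c0 : Continuous fun v : U ι =>
      ⟪(rho E v * RM.wd E l v) η, X ((rho E v * RM.wd E l' v) ξ)⟫_ℂ -
      ∑ j ∈ range (l.length + 1), ⟪(rho E v * RM.wd E (l.drop j) v) η,
        ce E (star (RM.wd E (l.take j) v) * (star (rho E v) * X * rho E v))
          ((rho E v * RM.wd E l' v) ξ)⟫_ℂ :=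
    ((gW.cont.clm_apply continuous_const).inner
      (X.continuous.comp (gW'.cont.clm_apply continuous_const))).sub
      (continuous_finsetSum _ fun j _ => ((cρ.mul (ct _)).clm_apply continuous_const).inner
        (((continuous_ce E).comp ((ct _).star.mul ((cρ.star.mul continuous_const).mul cρ))).clm_apply
          (gW'.cont.clm_apply continuous_const)))
  have key := sd_left_bound (f := fun v : U ι => (Fintype.card ι : ℂ) *
      (⟪(rho E v * RM.wd E l v) η, X ((rho E v * RM.wd E l' v) ξ)⟫_ℂ -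
      ∑ j ∈ range (l.length + 1), ⟪(rho E v * RM.wd E (l.drop j) v) η,
        ce E (star (RM.wd E (l.take j) v) * (star (rho E v) * X * rho E v))
          ((rho E v * RM.wd E l' v) ξ)⟫_ℂ))
    (g := fun v : U ι => (Fintype.card ι : ℝ) * ∑ j ∈ range l'.length, g j v)
    (fun i k => (Dif.const (X * E k i)).mul (dif_wd E (1 :: l'))) (dif_wd E (1 :: l)) ξ η
    (continuous_const.fun_mul c0)
    (continuous_const.fun_mul (continuous_finsetSum _ fun j _ => cg j)) fun v => by
      have e1 : ∑ i, ∑ k, ⟪wd E (1 :: l) v η, (0 * wd E (1 :: l') v +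
          X * E k i * wd' E (1 :: l') v (Matrix.single i k 1 * v.1)) ξ⟫_ℂ =
          (Fintype.card ι : ℂ) * ∑ j ∈ range (l'.length + 1), ⟪(rho E v * wd E l v) η,
            X (ce E (wd E (l'.take j) v) ((rho E v * wd E (l'.drop j) v) ξ))⟫_ℂ := by
        simp only [zero_mul, zero_add, word_der1 h, mul_sum, sapp, inner_sum,
          sum_comm (s := univ) (t := range (l'.length + 1))]
        refine sum_congr rfl fun j _ => ?_
        rw [← word_ce h v (wd E (l'.take j) v), ← inner_smul_right, ← map_smul,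
          ← smul_apply, ← sum_ce, sum_comm]
        simp only [sapp, map_sum, inner_sum, mapp, wd, one_apply_eq_self]
      have e2 : ∑ i, ∑ k, ⟪wd' E (1 :: l) v (Matrix.single k i 1 * v.1) η,
          (X * E k i * wd E (1 :: l') v) ξ⟫_ℂ =
          (Fintype.card ι : ℂ) * ∑ j ∈ range (l.length + 1), ⟪(rho E v * RM.wd E (l.drop j) v) η,
            ce E (star (RM.wd E (l.take j) v) * (star (rho E v) * X * rho E v))
              ((rho E v * RM.wd E l' v) ξ)⟫_ℂ := by
        simp only [word_der1 h, mul_sum, sapp, sum_inner,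
          sum_comm (s := univ) (t := range (l.length + 1))]
        refine sum_congr rfl fun j _ => ?_
        have e3 : ce E (star (RM.wd E (l.take j) v) * (star (rho E v) * X * rho E v)) =
            ce E (star (rho E v * wd E (l.take j) v * star (rho E v)) * X) := by
          rw [star_mul, star_mul, star_star, mul_assoc (rho E v), h.ce_cyc]
          simp only [mul_assoc]
        rw [e3, ← word_ip h]
        simp only [mapp, wd, one_apply_eq_self]
      rw [e1, e2, sum_range_succ' _ l'.length]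
      simp only [List.take_zero, List.drop_zero, wd, h.ce_one, one_apply_eq_self]
      rw [show ∀ D a t s : ℂ, D * (a - t) - (D * (s + a) - D * t) = -(D * s) from
        fun D a t s => by ring, norm_neg, norm_mul, Complex.norm_natCast]
      refine mul_le_mul_of_nonneg_left (norm_sum_le_of_le _ fun j _ => ?_) hD.le
      exact (norm_inner_le_norm _ _).trans (mul_le_mul (app_le (gW.norm_le v) _) (app_le hX _)
        (norm_nonneg _) (norm_nonneg _))
  rw [Ex_mul, Ex_mul_real, norm_mul, Complex.norm_natCast] at key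
  refine (le_of_mul_le_mul_left key hD).trans ((word_sum cg (t := δ * (‖ξ‖ * ‖η‖))
    fun j hj => ?_).trans (le_of_eq (mul_assoc _ _ _).symm))
  rw [hg, Ex_mul_real]
  have k1 := hS (l'.take (j + 1)) (by
      rw [← List.length_pos_iff, List.length_take]
      omega) (by
      rw [List.length_take]
      omega) (fun B hB => hl' B (List.mem_of_mem_take hB)) _ (word_good h hl' (j + 1) hM) ξ
  calc _ ≤ ‖η‖ * (δ * ‖ξ‖) := by gcongr
    _ = _ := by ring

theorem word_star (h : MU E 1) (v : U ι) (s : Matrix ι ι ℂ) (m : List (Op K)) (B : Op K) :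
    star (ce E (star (wd E (m ++ [B]) v) * (star (rho E v) * rho E s * rho E v))) =
      ce E (wd E (m ++ [B * star (rho E s)]) v) := by
  have hu : rho E v * star (rho E v) = 1 := (h.rho_unitary v).2
  have e : star (star (rho E v) * rho E s * rho E v) = rho E (star v.1 * star s * v.1) := by
    rw [h.rho_mul, h.rho_mul, star_mul, star_mul, star_star, h.rho_star, h.rho_star, mul_assoc]
  rw [← h.ce_star, star_mul, star_star, e, h.ce_cyc, h.rho_mul, h.rho_mul, h.rho_star,
    h.rho_star]
  simp only [wd_append, wd, mul_one, mul_assoc]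
  rw [← mul_assoc (rho E v) (star (rho E v)), hu, one_mul]

theorem word_rho [Nonempty ι] (h : MU E 1) (hS : RM.Sm E M δ) (l l' : List (Op K))
    (hl : ∀ B ∈ l, ‖B‖ ≤ 1) (hl' : ∀ B ∈ l', ‖B‖ ≤ 1) (hM : l.length + 1 ≤ M)
    (hM' : l'.length + 1 ≤ M) (s : Matrix ι ι ℂ) (hs : ‖rho E s‖ ≤ 1) {c : ℂ}
    (hc : ce E (rho E s) = c • (1 : Op K)) (ξ η : K) :
    ‖Ex fun v : U ι => ⟪(rho E v * RM.wd E l v) η, rho E s ((rho E v * RM.wd E l' v) ξ)⟫_ℂ -
      c * ⟪(rho E v * RM.wd E l v) η, (rho E v * RM.wd E l' v) ξ⟫_ℂ‖ ≤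
      (l.length + l'.length) * δ * (‖ξ‖ * ‖η‖) := by
  have gW := word_good h hl 0 hM
  have gW' := word_good h hl' 0 hM'
  simp only [List.drop_zero] at gW gW'
  have cρ : Continuous fun v : U ι => rho E v := (Good.rho h).cont
  have ct : ∀ (m : List (Op K)), Continuous fun v : U ι => wd E m v := fun m => (dif_wd E m).contU
  have k0 := word h hS l l' hl hl' hM' hs ξ η
  set t : ℕ → U ι → ℂ := fun j v => ⟪(rho E v * RM.wd E (l.drop j) v) η,
    ce E (star (RM.wd E (l.take j) v) * (star (rho E v) * rho E s * rho E v))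
      ((rho E v * RM.wd E l' v) ξ)⟫_ℂ with ht
  have c1 : ∀ j, Continuous (t j) := fun j => ((cρ.mul (ct _)).clm_apply continuous_const).inner
    (((continuous_ce E).comp ((ct _).star.mul ((cρ.star.mul continuous_const).mul cρ))).clm_apply
      (gW'.cont.clm_apply continuous_const))
  have c0 : Continuous fun v : U ι =>
      ⟪(rho E v * RM.wd E l v) η, rho E s ((rho E v * RM.wd E l' v) ξ)⟫_ℂ :=
    (gW.cont.clm_apply continuous_const).inner
      ((rho E s).continuous.comp (gW'.cont.clm_apply continuous_const))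
  have e0 : ∀ v : U ι, c * ⟪(rho E v * RM.wd E l v) η, (rho E v * RM.wd E l' v) ξ⟫_ℂ = t 0 v := by
    intro v
    have k := word_ce h (star v) (rho E s)
    rw [Unitary.coe_star, h.rho_star, star_star] at k
    simp only [ht, List.take_zero, List.drop_zero, wd, star_one, one_mul, k, hc,
      smul_apply, one_apply_eq_self, inner_smul_right]
  have k1 : ‖Ex fun v : U ι => ∑ j ∈ range l.length, t (j + 1) v‖ ≤
      l.length * (δ * (‖ξ‖ * ‖η‖)) := by
    rw [Ex_sum _ fun j _ => c1 _]
    refine (norm_sum_le_of_le _ (n := fun _ => δ * (‖ξ‖ * ‖η‖)) fun j hj => ?_).trans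
      (le_of_eq (by rw [sum_const, card_range, nsmul_eq_mul]))
    have hj' := mem_range.1 hj
    have e1 : l.take (j + 1) = l.take j ++ [l[j]] := (List.take_concat_get' l j hj').symm
    have hB : ∀ B ∈ l.take j ++ [l[j] * star (rho E s)], ‖B‖ ≤ 1 := fun B hB => by
      rcases List.mem_append.1 hB with hB | hB
      · exact hl B (List.mem_of_mem_take hB)
      · rw [List.mem_singleton.1 hB]
        exact mul_le (hl _ (List.getElem_mem hj')) (by rwa [norm_star])
    have k2 := hS _ (by simp) (by
      rw [List.length_append, List.length_take, List.length_singleton]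
      omega) hB _ (word_good h hl (j + 1) hM) η
    have c2 := (continuous_const (y := ‖ξ‖)).fun_mul (cont_ce (E := E)
      (ct (l.take j ++ [l[j] * star (rho E s)])) (cρ.fun_mul (ct (l.drop (j + 1)))) η)
    refine (norm_Ex_le c2 fun v => ?_).trans ?_
    · simp only [ht]
      rw [inner_star, e1, word_star h]
      exact (norm_inner_le_norm _ _).trans ((mul_le_mul_of_nonneg_left
        (app_le (gW'.norm_le v) ξ) (norm_nonneg _)).trans (mul_comm _ _).le)
    · rw [Ex_mul_real]
      calc _ ≤ ‖ξ‖ * (δ * ‖η‖) := by gcongr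
        _ = _ := by ring
  have cs : ∀ n, Continuous fun v : U ι => ∑ j ∈ range n, t (j + 1) v := fun n =>
    continuous_finsetSum _ fun j _ => c1 _
  have e2 : (Ex fun v : U ι =>
      ⟪(rho E v * RM.wd E l v) η, rho E s ((rho E v * RM.wd E l' v) ξ)⟫_ℂ -
      c * ⟪(rho E v * RM.wd E l v) η, (rho E v * RM.wd E l' v) ξ⟫_ℂ) =
      (Ex fun v : U ι => ⟪(rho E v * RM.wd E l v) η, rho E s ((rho E v * RM.wd E l' v) ξ)⟫_ℂ -
        ∑ j ∈ range (l.length + 1), t j v) +
      Ex fun v : U ι => ∑ j ∈ range l.length, t (j + 1) v := by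
    rw [← Ex_add (c0.fun_sub (continuous_finsetSum _ fun j _ => c1 j)) (cs _)]
    congr 1
    funext v
    rw [e0, sum_range_succ']
    ring
  rw [e2]
  refine (norm_add_le _ _).trans ((add_le_add k0 k1).trans (le_of_eq (by ring)))


end Pool.Agent.Kad.H2
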