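import Pool.Agent.Lib.MP_22c5db_an.H2.AmpB

/-! Conjugating an operator that commutes with the first factor. -/

open scoped InnerProductSpace ComplexConjugate
open Finset

noncomputable section

namespace Pool.Agent.Kad.H2

universe u

set_option linter.unusedSectionVars false

variable {K : Type u} [NormedAddCommGroup K] [InnerProductSpace ℂ K] [CompleteSpace K]
  {A B : Type} [Fintype A] [Fintype B] [DecidableEq A] [DecidableEq B] [Nonempty A] [Nonempty B]
  {E : A × B → A × B → Op K} {y : Op K} {M : ℕ} {δ : ℝ}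

theorem xi_cs {κ : Type} [Fintype κ] (a b : κ → K) :
    ‖∑ p, ⟪a p, b p⟫_ℂ‖ ≤ √(∑ p, ‖a p‖ ^ 2) * √(∑ p, ‖b p‖ ^ 2) :=
  (norm_sum_le_of_le _ fun _ _ => norm_inner_le_norm _ _).trans
    (Real.sum_mul_le_sqrt_mul_sqrt _ _ _)

theorem xi_ce {ι : Type} [Fintype ι] [DecidableEq ι] {E : ι → ι → Op K} (h : MU E 1)
    (P X : Op K) (ξ η : K) : ⟪η, ce E (star P * X) ξ⟫_ℂ =
      (Fintype.card ι : ℂ)⁻¹ * ∑ k, ∑ i, ⟪P (E k i η), X (E k i ξ)⟫_ℂ := by
  rw [ce, smul_apply, inner_smul_right, RM.sapp, inner_sum, sum_comm]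
  congr 1
  refine sum_congr rfl fun i _ => ?_
  rw [RM.sapp, inner_sum]
  refine sum_congr rfl fun k _ => ?_
  rw [RM.mapp, RM.mapp, RM.mapp, ← MUL.inner_E h, RM.inner_star' P]

theorem xi_sq (Z : Op K) (ξ : K) : ⟪ξ, (Z * star Z) ξ⟫_ℂ = ((‖star Z ξ‖ ^ 2 : ℝ) : ℂ) := by
  rw [RM.mapp, RM.inner_star, inner_self_eq_norm_sq_to_K]
  push_cast
  rfl

theorem xi_zero {ι : Type} [Fintype ι] [DecidableEq ι] [Nonempty ι] {E : ι → ι → Op K}
    (h : MU E 1) {Z : Op K} {T : ℝ} (hT : Ad E Z T) (ξ : K) :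
    ‖⟪ξ, ce E (Z * star Z) ξ⟫_ℂ‖ ≤ T * ‖ξ‖ ^ 2 := by
  have hD : (0 : ℝ) < Fintype.card ι := Nat.cast_pos.2 Fintype.card_pos
  have e := xi_ce h 1 (Z * star Z) ξ ξ
  rw [star_one, one_mul] at e
  simp only [one_apply_eq_self, xi_sq] at e
  rw [e, norm_mul, norm_inv, Complex.norm_natCast, inv_mul_le_iff₀ hD, ← mul_assoc]
  refine le_trans ?_ (mul_le_mul_of_nonneg_right hT (by positivity))
  rw [sum_mul]
  refine norm_sum_le_of_le _ fun k _ => ?_
  rw [← h.sum_sq' k ξ, mul_sum]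
  refine norm_sum_le_of_le _ fun i _ => ?_
  rw [Complex.norm_real, Real.norm_of_nonneg (by positivity), ← mul_pow]
  have e1 : star Z (E k i ξ) = star (E k k * Z) (E k i ξ) := by
    rw [star_mul, h.adj, RM.mapp, MUL.app h, if_pos rfl]
  rw [e1, ← norm_star (E k k * Z)]
  gcongr
  exact ContinuousLinearMap.le_opNorm _ _

theorem xi_conj {R : Type*} [Monoid R] (r y : R) (n : ℕ) : r * (y * r) ^ n = (r * y) ^ n * r := by
  induction n with
  | zero => simp
  | succ n ih => rw [pow_succ, ← mul_assoc, ih, pow_succ]; simp only [mul_assoc]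

theorem xi_move {ι : Type} [Fintype ι] [DecidableEq ι] {E : ι → ι → Op K} (h : MU E 1)
    (v : U ι) (y X : Op K) (n : ℕ) :
    ce E (star ((y * rho E v) ^ n) * (star (rho E v) * X * rho E v)) =
      ce E (star ((rho E v * y) ^ n) * X) := by
  have hu := h.rho_unitary v
  rw [← mul_assoc, ← h.ce_cyc, ← mul_assoc (star _), ← star_mul, xi_conj, star_mul,
    ← mul_assoc, ← mul_assoc, hu.2, one_mul]

theorem xi_unit (h : MU E 1) (α α₀ : A) (s : B) (i : A × B) :
    FA E α α₀ * E (α₀, s) i = E (α, s) i := by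
  simp [FA, sum_mul, h.mul]

theorem xi_cross (h : MU E 1) {X : Op K} (hX : ‖X‖ ≤ 1)
    (hXF : ∀ α γ, X * FA E α γ = FA E α γ * X) (α₀ : A) (b : ℕ) (P W : ℕ → Op K) (ζ ξ : K) :
    ‖∑ j ∈ range b, ⟪W j ζ, ce E (star (P j) * X) ξ⟫_ℂ‖ ≤
      (Fintype.card (A × B) : ℝ)⁻¹ * (√(∑ s : B, ∑ i : A × B, ‖∑ α, ∑ j ∈ range b,
        (FA E α₀ α * P j * E (α, s) i * W j) ζ‖ ^ 2) * (√(Fintype.card B) * ‖ξ‖)) := by
  have e1 : ∀ j α s i, ⟪P j (E (α, s) i (W j ζ)), X (E (α, s) i ξ)⟫_ℂ =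
      ⟪(FA E α₀ α * P j * E (α, s) i * W j) ζ, X (E (α₀, s) i ξ)⟫_ℂ := by
    intro j α s i
    have e2 : X (E (α, s) i ξ) = FA E α α₀ (X (E (α₀, s) i ξ)) := by
      rw [← RM.mapp (FA E α α₀), ← hXF, RM.mapp, ← RM.mapp (FA E α α₀), xi_unit h]
    rw [e2, RM.inner_star, h.fa.adj]
    rfl
  have e3 : ∑ j ∈ range b, ⟪W j ζ, ce E (star (P j) * X) ξ⟫_ℂ =
      (Fintype.card (A × B) : ℂ)⁻¹ * ∑ p : B × (A × B), ⟪∑ α, ∑ j ∈ range b,
        (FA E α₀ α * P j * E (α, p.1) p.2 * W j) ζ, X (E (α₀, p.1) p.2 ξ)⟫_ℂ := by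
    simp only [xi_ce h, ← mul_sum]
    congr 1
    simp only [sum_inner]
    rw [sum_comm (s := (univ : Finset (B × (A × B)))), sum_comm (s := range b),
      Fintype.sum_prod_type]
    refine sum_congr rfl fun α _ => ?_
    rw [Fintype.sum_prod_type]
    refine sum_congr rfl fun s _ => ?_
    rw [sum_comm]
    exact sum_congr rfl fun i _ => sum_congr rfl fun j _ => e1 j α s i
  rw [e3, norm_mul, norm_inv, Complex.norm_natCast]
  refine mul_le_mul_of_nonneg_left ((xi_cs _ _).trans ?_) (by positivity)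
  rw [Fintype.sum_prod_type]
  refine mul_le_mul_of_nonneg_left ?_ (Real.sqrt_nonneg _)
  rw [Real.sqrt_le_left (by positivity), RM.sq_card, Fintype.sum_prod_type]
  calc _ ≤ ∑ s : B, ∑ i : A × B, ‖E (α₀, s) i ξ‖ ^ 2 := by
        refine sum_le_sum fun s _ => sum_le_sum fun i _ => ?_
        gcongr
        exact RM.app_le hX _
    _ = _ := by simp only [h.sum_sq', sum_const, card_univ, nsmul_eq_mul]

theorem xi (N : VonNeumannAlgebra K) (h : MU E 1) (hy : y ∈ unitary (Op K)) (hδ : 0 ≤ δ)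
    (hD : 2 ^ M * (4 * M : ℝ) ≤ δ ^ 2 * Fintype.card (A × B)) {b : ℕ} (hb : b + 1 ≤ M)
    {Z : Op K} (hZ : ‖Z‖ ≤ 1) (hZF : ∀ α γ, Z * FA E α γ = FA E α γ * Z) {T : ℝ}
    (hT : Ad E Z T) (ζ : K) :
    Ex (fun v : U (A × B) => ‖star Z ((rho E v * (y * rho E v) ^ b) ζ)‖ ^ 2) ≤
      (T + √(M / (Fintype.card A : ℝ) ^ 2 + 3 * M ^ 3 * δ) + M * δ) * ‖ζ‖ ^ 2 := by
  obtain ⟨α₀⟩ : Nonempty A := inferInstance
  have ha : (0 : ℝ) < Fintype.card A := Nat.cast_pos.2 Fintype.card_pos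
  have hk : (0 : ℝ) < Fintype.card B := Nat.cast_pos.2 Fintype.card_pos
  have hX : ‖Z * star Z‖ ≤ 1 := RM.mul_le hZ (by rwa [norm_star])
  have hXF : ∀ α γ, Z * star Z * FA E α γ = FA E α γ * (Z * star Z) := by
    intro α γ
    have e := congrArg star (hZF γ α)
    rw [star_mul, star_mul, h.fa.adj] at e
    rw [mul_assoc, ← e, ← mul_assoc, hZF, mul_assoc]
  have hl : ∀ C ∈ List.replicate b y, ‖C‖ ≤ 1 := fun C hC => by
    rw [List.eq_of_mem_replicate hC]
    exact RM.unit_le hy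
  have hw := word h (RM.sm h hδ hD) (List.replicate b y) (List.replicate b y) hl hl
    (by simpa using hb) hX ζ ζ
  have cρ : Continuous fun v : U (A × B) => rho E v :=
    (continuous_rho E).comp continuous_subtype_val
  have cw : ∀ l, Continuous fun v : U (A × B) => RM.wd E l v := fun l => (RM.dif_wd E l).contU
  set f : U (A × B) → ℂ := fun v => ⟪(rho E v * RM.wd E (List.replicate b y) v) ζ,
      (Z * star Z) ((rho E v * RM.wd E (List.replicate b y) v) ζ)⟫_ℂ -
      ∑ j ∈ range ((List.replicate b y).length + 1),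
        ⟪(rho E v * RM.wd E ((List.replicate b y).drop j) v) ζ,
        ce E (star (RM.wd E ((List.replicate b y).take j) v) *
          (star (rho E v) * (Z * star Z) * rho E v))
          ((rho E v * RM.wd E (List.replicate b y) v) ζ)⟫_ℂ with hf
  have cf : Continuous f := by
    refine (((cρ.mul (cw _)).clm_apply continuous_const).inner
      (continuous_const.clm_apply ((cρ.mul (cw _)).clm_apply continuous_const))).sub
      (continuous_finsetSum _ fun j _ => ((cρ.mul (cw _)).clm_apply continuous_const).inner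
        (Continuous.clm_apply ((continuous_ce E).comp ?_)
          ((cρ.mul (cw _)).clm_apply continuous_const)))
    exact (cw _).star.mul ((cρ.star.mul continuous_const).mul cρ)
  set Θ : U (A × B) → ℝ := fun v => ∑ s : B, ∑ i : A × B, ‖∑ α, ∑ j ∈ range b,
      (FA E α₀ α * (rho E v * y) ^ (j + 1) * E (α, s) i *
        (rho E v * (y * rho E v) ^ (b - 1 - j))) ζ‖ ^ 2 with hΘ
  have cΘ : Continuous Θ := by
    refine continuous_finsetSum _ fun s _ => continuous_finsetSum _ fun i _ =>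
      (Continuous.norm (continuous_finsetSum _ fun α _ => continuous_finsetSum _ fun j _ =>
        Continuous.clm_apply ?_ continuous_const)).pow 2
    exact ((continuous_const.mul ((cρ.mul continuous_const).pow _)).mul continuous_const).mul
      (cρ.mul ((continuous_const.mul cρ).pow _))
  have hS0 : 0 ≤ M / (Fintype.card A : ℝ) ^ 2 + 3 * M ^ 3 * δ := by positivity
  have hE : Ex (fun v => √(Θ v)) ≤ √(Fintype.card B) * Fintype.card A *
      √(M / (Fintype.card A : ℝ) ^ 2 + 3 * M ^ 3 * δ) * ‖ζ‖ := by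
    refine Ex_le_of_sq cΘ.sqrt (by positivity) ?_
    have e : (fun v => √(Θ v) ^ 2) = Θ := funext fun v => Real.sq_sqrt (by
      simp only [hΘ]
      positivity)
    rw [e, mul_pow, mul_pow, mul_pow, Real.sq_sqrt hk.le, Real.sq_sqrt hS0]
    exact amp_le N h hy hδ hD hb α₀ ζ
  have pt : ∀ v : U (A × B), ‖star Z ((rho E v * (y * rho E v) ^ b) ζ)‖ ^ 2 ≤
      (f v).re + (T * ‖ζ‖ ^ 2 +
        (Fintype.card (A × B) : ℝ)⁻¹ * (√(Fintype.card B) * ‖ζ‖) * √(Θ v)) := by
    intro v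
    have hu : rho E v * (y * rho E v) ^ b ∈ unitary (Op K) :=
      mul_mem (h.rho_unitary v) (RM.w_unit h hy v b)
    have hn : ‖(rho E v * (y * rho E v) ^ b) ζ‖ = ‖ζ‖ := by
      have e := RM.inner_unit hu ζ ζ
      rw [inner_self_eq_norm_sq_to_K, inner_self_eq_norm_sq_to_K] at e
      exact (sq_eq_sq₀ (norm_nonneg _) (norm_nonneg _)).1 (by exact_mod_cast e)
    have e : f v = ((‖star Z ((rho E v * (y * rho E v) ^ b) ζ)‖ ^ 2 : ℝ) : ℂ) -
        (∑ j ∈ range b, ⟪(rho E v * (y * rho E v) ^ (b - 1 - j)) ζ,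
          ce E (star ((rho E v * y) ^ (j + 1)) * (Z * star Z))
            ((rho E v * (y * rho E v) ^ b) ζ)⟫_ℂ +
        ⟪(rho E v * (y * rho E v) ^ b) ζ,
          ce E (Z * star Z) ((rho E v * (y * rho E v) ^ b) ζ)⟫_ℂ) := by
      simp only [hf]
      rw [xi_sq, List.length_replicate, sum_range_succ', RM.wd_replicate]
      congr 2
      · refine sum_congr rfl fun j hj => ?_
        have hj' : j + 1 ≤ b := mem_range.1 hj
        have e1 : b - (j + 1) = b - 1 - j := by omega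
        rw [List.drop_replicate, List.take_replicate, min_eq_left hj', RM.wd_replicate,
          RM.wd_replicate, xi_move h, e1]
      · rw [List.drop_replicate, List.take_replicate, min_eq_left (Nat.zero_le b), RM.wd_replicate,
          RM.wd_replicate, xi_move h, Nat.sub_zero, pow_zero, star_one, one_mul]
    have a1 := xi_zero h hT ((rho E v * (y * rho E v) ^ b) ζ)
    have a2 := xi_cross h hX hXF α₀ b (fun j => (rho E v * y) ^ (j + 1))
      (fun j => rho E v * (y * rho E v) ^ (b - 1 - j)) ζ ((rho E v * (y * rho E v) ^ b) ζ)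
    rw [hn] at a1 a2
    have a3 := (Complex.re_le_norm _).trans a1
    have a4 := (Complex.re_le_norm _).trans a2
    rw [e, Complex.sub_re, Complex.add_re, Complex.ofReal_re]
    simp only [hΘ]
    linarith
  have c1 : Continuous fun v => (f v).re := Complex.continuous_re.comp cf
  have c2 : Continuous fun v : U (A × B) =>
      (Fintype.card (A × B) : ℝ)⁻¹ * (√(Fintype.card B) * ‖ζ‖) * √(Θ v) :=
    continuous_const.mul cΘ.sqrt
  have c3 : Continuous fun v : U (A × B) => T * ‖ζ‖ ^ 2 +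
      (Fintype.card (A × B) : ℝ)⁻¹ * (√(Fintype.card B) * ‖ζ‖) * √(Θ v) :=
    continuous_const.add c2
  have m := Ex_mono ((continuous_const.clm_apply
    ((cρ.mul ((continuous_const.mul cρ).pow b)).clm_apply continuous_const)).norm.pow 2)
    (c1.add c3) pt
  have e2 : Ex (fun v => (f v).re + (T * ‖ζ‖ ^ 2 +
      (Fintype.card (A × B) : ℝ)⁻¹ * (√(Fintype.card B) * ‖ζ‖) * √(Θ v))) =
      (Ex f).re + (T * ‖ζ‖ ^ 2 +
      (Fintype.card (A × B) : ℝ)⁻¹ * (√(Fintype.card B) * ‖ζ‖) * Ex fun v => √(Θ v)) := by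
    rw [Ex_add c1 c3, Ex_add continuous_const c2, Ex_const, Ex_mul_real, Ex_re cf]
  have b1 : (Ex f).re ≤ M * δ * ‖ζ‖ ^ 2 := by
    refine ((Complex.re_le_norm _).trans hw).trans ?_
    rw [List.length_replicate, ← sq]
    have : (b : ℝ) ≤ M := by exact_mod_cast (Nat.le_succ b).trans hb
    gcongr
  have b2 : (Fintype.card (A × B) : ℝ)⁻¹ * (√(Fintype.card B) * ‖ζ‖) * Ex (fun v => √(Θ v)) ≤
      √(M / (Fintype.card A : ℝ) ^ 2 + 3 * M ^ 3 * δ) * ‖ζ‖ ^ 2 := by
    refine (mul_le_mul_of_nonneg_left hE (by positivity)).trans (le_of_eq ?_)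
    have e3 : √(Fintype.card B : ℝ) * √(Fintype.card B : ℝ) = Fintype.card B :=
      Real.mul_self_sqrt hk.le
    rw [Fintype.card_prod, Nat.cast_mul]
    generalize √(M / (Fintype.card A : ℝ) ^ 2 + 3 * M ^ 3 * δ) = S
    field_simp
    linear_combination (‖ζ‖ ^ 2 * S) * e3
  refine (m.trans e2.le).trans ?_
  linarith


end Pool.Agent.Kad.H2
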